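import Pool.Agent.NIL.Defs3

/-!
# Further definitions used in the statement of `NilInjectivity`
-/

set_option autoImplicit false

noncomputable section

namespace Pool.Agent.NIL

/-- No element `≠ 1` of `A i` is conjugate in `G` to an element of `A j` for `i ≠ j`. -/
def Apart {G ι : Type} [Group G] {A : ι → Type} [∀ i, Group (A i)] (φ : ∀ i, A i →* G) : Prop :=
  ∀ i j (a : A i) (b : A j), a ≠ 1 → IsConj (φ i a) (φ j b) → i = j

/-- Elements of `A` which are conjugate in `G` lie in one orbit of `Γ`. -/
def Fuse {G A Γ : Type} [Group G] [Group A] [Group Γ] (φ : A →* G) (ρ : Γ →* MulAut A) : Prop :=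
  ∀ a b : A, IsConj (φ a) (φ b) → ∃ γ : Γ, ρ γ a = b

/-- The polynomials `f` and `g` are congruent modulo `h`. -/
def Cgr (h : ℕ) (f g : Polynomial ℤ) : Prop :=
  ∀ n, (h : ℤ) ∣ (f - g).coeff n

/-- The direct sum of the left ideals `S i` of the ring `B` and the direct sum of the left ideals `S' i` are
stably isomorphic: they become isomorphic if a free module is added to both. -/
def StIso {B ι : Type} [Ring B] (S S' : ι → Submodule B B) : Prop :=
  ∃ k : ℕ, Nonempty (((∀ i, S i) × (Fin k → B)) ≃ₗ[B] ((∀ i, S' i) × (Fin k → B)))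

/-- The left ideals `S`, `S'` and `S''` of the ring `B` satisfy `S ⊕ S' ≅ S'' ⊕ B`. -/
def AddIso {B : Type} [Ring B] (S S' S'' : Submodule B B) : Prop :=
  Nonempty ((S × S') ≃ₗ[B] (S'' × B))

/-- The image `L` of the square matrix `e` over `B[t]` is an invertible module with `L / t L` free. -/
structure Inv1 {B : Type} [CommRing B] {k : ℕ} (e : Matrix (Fin k) (Fin k) (Polynomial B)) : Prop where
  /-- `e` is idempotent of rank one -/
  one : RankOne e
  /-- `L / t L` is free of rank one -/
  free : Free1 (e.map (Polynomial.evalRingHom 0))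

/-- The matrix whose image is the direct sum of the modules `ℤ[G][t] ⊗ L i`, where `L i` is the image of `e i`. -/
def dsum {G ι : Type} [Group G] [DecidableEq ι] {A : ι → Type} [∀ i, CommGroup (A i)]
    (φ : ∀ i, A i →* G) {k : ι → ℕ} (e : ∀ i, Matrix (Fin (k i)) (Fin (k i)) (RT (A i))) :
    Matrix ((i : ι) × Fin (k i)) ((i : ι) × Fin (k i)) (RT G) :=
  Matrix.blockDiagonal' fun i => (e i).map (ext (φ i))

end Pool.Agent.NIL
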