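import Pool.Agent.NIL.St

/-!
# Project NIL, module NA: the Frobenius congruence for matrices over `ℤ[G]`
-/

set_option autoImplicit false

noncomputable section

namespace Pool.Agent.NIL

namespace NAx

set_option linter.unusedSectionVars false

variable {G : Type} [Group G] {ι : Type} [Fintype ι] [DecidableEq ι]

/-- The matrix `E_ij g`. -/
abbrev E (i j : ι) (g : G) : Matrix ι ι (MonoidAlgebra ℤ G) :=
  Matrix.single i j (MonoidAlgebra.single g (1 : ℤ))

/-- The matrices `0` and `E_ij g`. -/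
def Elem (m : Matrix ι ι (MonoidAlgebra ℤ G)) : Prop :=
  m = 0 ∨ ∃ (i j : ι) (g : G), m = E i j g

theorem Elem.mul {m n : Matrix ι ι (MonoidAlgebra ℤ G)} (hm : Elem m) (hn : Elem n) :
    Elem (m * n) := by
  rcases hm with rfl | ⟨i, j, g, rfl⟩
  · left; rw [Matrix.zero_mul]
  · rcases hn with rfl | ⟨k, l, h, rfl⟩
    · left; rw [Matrix.mul_zero]
    · by_cases hjk : j = k
      · subst hjk
        right
        refine ⟨i, l, g * h, ?_⟩
        rw [Matrix.single_mul_single_same, MonoidAlgebra.single_mul_single, one_mul]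
      · left
        exact Matrix.single_mul_single_of_ne _ _ _ _ hjk _

/-- The trace. -/
def Tr : Matrix ι ι (MonoidAlgebra ℤ G) →+ (ConjClasses G →₀ ℤ) :=
  (T0 ℤ G).comp (Matrix.traceAddMonoidHom ι _)

theorem Tr_apply (m : Matrix ι ι (MonoidAlgebra ℤ G)) : Tr m = T0 ℤ G m.trace := rfl

theorem Tr_mul_comm (a b : Matrix ι ι (MonoidAlgebra ℤ G)) : Tr (a * b) = Tr (b * a) := by
  simp only [Tr_apply, Matrix.trace, Matrix.diag, Matrix.mul_apply, map_sum]
  rw [Finset.sum_comm]
  exact Finset.sum_congr rfl fun j _ => Finset.sum_congr rfl fun i _ => T0_mul_comm _ _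

theorem E_pow (i : ι) (g : G) (n : ℕ) (hn : n ≠ 0) : E i i g ^ n = E i i (g ^ n) := by
  induction n with
  | zero => exact absurd rfl hn
  | succ n ih =>
    rcases Nat.eq_zero_or_pos n with rfl | h
    · simp
    · rw [pow_succ, ih h.ne', Matrix.single_mul_single_same, MonoidAlgebra.single_mul_single,
        one_mul, pow_succ]

theorem frob {p : ℕ} (hp : p.Prime) {m : Matrix ι ι (MonoidAlgebra ℤ G)} (hm : Elem m) :
    Tr (m ^ p) = Phi ℤ G p (Tr m) := by
  rcases hm with rfl | ⟨i, j, g, rfl⟩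
  · rw [zero_pow hp.ne_zero, map_zero, map_zero]
  · by_cases hij : i = j
    · subst hij
      rw [E_pow i g p hp.ne_zero, Tr_apply, Tr_apply, Matrix.trace_single_eq_same,
        Matrix.trace_single_eq_same, T0_single, T0_single]
      simp [Phi]
    · have h1 : E i j g * E i j g = 0 :=
        Matrix.single_mul_single_of_ne _ _ _ _ (Ne.symm hij) _
      have h2 : E i j g ^ p = 0 := by
        obtain ⟨q, hq⟩ := Nat.exists_eq_add_of_le hp.two_le
        rw [hq, pow_add, sq, h1, Matrix.zero_mul]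
      rw [h2, Tr_apply, Tr_apply, Matrix.trace_single_eq_of_ne _ _ _ hij]
      simp

/-- The finite sums of the matrices `E_ij g`. -/
def Sm (z : Matrix ι ι (MonoidAlgebra ℤ G)) : Prop :=
  ∃ (Ω : Type) (_ : Fintype Ω) (y : Ω → Matrix ι ι (MonoidAlgebra ℤ G)),
    (∀ ω, Elem (y ω)) ∧ ∑ ω, y ω = z

theorem Sm.zero : Sm (0 : Matrix ι ι (MonoidAlgebra ℤ G)) :=
  ⟨Empty, inferInstance, fun ω => ω.elim, fun ω => ω.elim, by simp⟩

theorem Sm.add {z z' : Matrix ι ι (MonoidAlgebra ℤ G)} (h : Sm z) (h' : Sm z') : Sm (z + z') := by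
  obtain ⟨Ω, _, y, hy, rfl⟩ := h
  obtain ⟨Ω', _, y', hy', rfl⟩ := h'
  refine ⟨Ω ⊕ Ω', inferInstance, Sum.elim y y', ?_, by simp⟩
  rintro (ω | ω)
  · exact hy ω
  · exact hy' ω

theorem Sm.nsmul {z : Matrix ι ι (MonoidAlgebra ℤ G)} (h : Sm z) (n : ℕ) : Sm (n • z) := by
  induction n with
  | zero => rw [zero_smul]; exact Sm.zero
  | succ n ih => rw [succ_nsmul]; exact ih.add h

theorem Sm.elem (i j : ι) (g : G) : Sm (E i j g) :=
  ⟨Unit, inferInstance, fun _ => E i j g, fun _ => Or.inr ⟨i, j, g, rfl⟩, by simp⟩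

/-- Every matrix is a sum of matrices `E_ij g` modulo `c`. -/
theorem exists_Sm {c : ℕ} (hc : 0 < c) (z : Matrix ι ι (MonoidAlgebra ℤ G)) :
    ∃ z' w : Matrix ι ι (MonoidAlgebra ℤ G), Sm z' ∧ z = z' + c • w := by
  induction z using Matrix.induction_on' with
  | h_zero => exact ⟨0, 0, Sm.zero, by simp⟩
  | h_add a b ha hb =>
    obtain ⟨a', w, h1, h2⟩ := ha
    obtain ⟨b', w', h1', h2'⟩ := hb
    refine ⟨a' + b', w + w', h1.add h1', ?_⟩
    rw [h2, h2', smul_add]
    abel
  | h_std_basis i j x =>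
    induction x using MonoidAlgebra.induction_linear with
    | zero => exact ⟨0, 0, Sm.zero, by simp⟩
    | add x y hx hy =>
      obtain ⟨a', w, h1, h2⟩ := hx
      obtain ⟨b', w', h1', h2'⟩ := hy
      refine ⟨a' + b', w + w', h1.add h1', ?_⟩
      rw [Matrix.single_add, h2, h2', smul_add]
      abel
    | single g a =>
      have hc0 : (c : ℤ) ≠ 0 := by exact_mod_cast hc.ne'
      have h0 : 0 ≤ a % (c : ℤ) := Int.emod_nonneg _ hc0
      refine ⟨(a % (c : ℤ)).toNat • E i j g,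
        Matrix.single i j (MonoidAlgebra.single g (a / (c : ℤ))), (Sm.elem i j g).nsmul _, ?_⟩
      unfold E
      rw [Matrix.smul_single, Matrix.smul_single, ← Matrix.single_add]
      congr 1
      have h1 : (a % (c : ℤ)).toNat • (MonoidAlgebra.single g (1 : ℤ)) =
          (MonoidAlgebra.single g (a % (c : ℤ)) : MonoidAlgebra ℤ G) := by
        rw [MonoidAlgebra.smul_single]
        congr 1
        rw [nsmul_eq_mul, mul_one, Int.toNat_of_nonneg h0]
      have h2 : c • (MonoidAlgebra.single g (a / (c : ℤ))) =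
          (MonoidAlgebra.single g ((c : ℤ) * (a / (c : ℤ))) : MonoidAlgebra ℤ G) := by
        rw [MonoidAlgebra.smul_single, nsmul_eq_mul]
      rw [h1, h2, ← MonoidAlgebra.single_add, Int.emod_add_mul_ediv]

theorem pow_mod {M : Type} [Ring M] (a w : M) (c n : ℕ) :
    ∃ w' : M, (a + c • w) ^ n = a ^ n + c • w' := by
  induction n with
  | zero => exact ⟨0, by simp⟩
  | succ n ih =>
    obtain ⟨w', h⟩ := ih
    refine ⟨w' * a + a ^ n * w + c • (w' * w), ?_⟩
    rw [pow_succ, h, add_mul, mul_add, mul_add, pow_succ]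
    simp only [smul_mul_assoc, mul_smul_comm, smul_add]
    abel

end NAx

open NAx

theorem t_NA (hNW : St_NW) : St_NA := by
  intro G _ ι _ _ p hp k hk z
  obtain ⟨z', w, ⟨Ω, _, y, hy, hz'⟩, hz⟩ := exists_Sm (c := p ^ k) (pow_pos hp.pos k) z
  have hlist : ∀ l : List Ω, l ≠ [] → Elem (l.map y).prod := by
    intro l
    induction l with
    | nil => intro h; exact absurd rfl h
    | cons a l ih =>
      intro _
      rw [List.map_cons, List.prod_cons]
      rcases l with _ | ⟨b, l⟩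
      · simpa using hy a
      · exact (hy a).mul (ih (by simp))
  obtain ⟨D, hD⟩ := hNW (Matrix ι ι (MonoidAlgebra ℤ G)) (ConjClasses G →₀ ℤ) Ω Tr (Phi ℤ G p) y p
    hp Tr_mul_comm (fun l hl => frob hp (hlist l hl)) k hk
  rw [hz'] at hD
  obtain ⟨w1, h1⟩ := pow_mod z' w (p ^ k) (p ^ k)
  obtain ⟨w2, h2⟩ := pow_mod z' w (p ^ k) (p ^ (k - 1))
  refine ⟨D + Tr w1 - Phi ℤ G p (Tr w2), ?_⟩
  rw [← Tr_apply, ← Tr_apply, hz, h1, h2, map_add, map_add, map_add, map_nsmul, map_nsmul,
    map_nsmul, smul_sub, smul_add, ← hD]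
  abel

end Pool.Agent.NIL
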