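import Pool.Agent.NIL.St

/-!
# NA2: the Frobenius congruence over `𝔽_p[G]`
-/

set_option autoImplicit false

noncomputable section

namespace Pool.Agent.NIL

namespace NA2x

/-- Reduction modulo `p`. -/
def red (p : ℕ) (G : Type) [Group G] : MonoidAlgebra ℤ G →+* MonoidAlgebra (ZMod p) G :=
  MonoidAlgebra.mapRingHom G (Int.castRingHom (ZMod p))

/-- Reduction of the coefficients modulo `p`. -/
def redV (p : ℕ) (α : Type) : (α →₀ ℤ) →+ (α →₀ ZMod p) :=
  Finsupp.mapRange.addMonoidHom (Int.castAddHom (ZMod p))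

theorem red_single {p : ℕ} {G : Type} [Group G] (g : G) (a : ℤ) :
    red p G (MonoidAlgebra.single g a) = MonoidAlgebra.single g (a : ZMod p) := by
  simp [red]

theorem redV_single {p : ℕ} {α : Type} (g : α) (a : ℤ) :
    redV p α (Finsupp.single g a) = Finsupp.single g (a : ZMod p) := by
  simp [redV]

theorem red_surj (p : ℕ) (G : Type) [Group G] : Function.Surjective (red p G) := by
  intro x
  induction x using MonoidAlgebra.induction_linear with
  | zero => exact ⟨0, map_zero _⟩
  | add x y hx hy =>
    obtain ⟨a, ha⟩ := hx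
    obtain ⟨b, hb⟩ := hy
    exact ⟨a + b, by rw [map_add, ha, hb]⟩
  | single g r =>
    obtain ⟨a, ha⟩ := ZMod.intCast_surjective r
    exact ⟨MonoidAlgebra.single g a, by rw [red_single, ha]⟩

theorem T0_red {p : ℕ} {G : Type} [Group G] (a : MonoidAlgebra ℤ G) :
    T0 (ZMod p) G (red p G a) = redV p _ (T0 ℤ G a) := by
  induction a using MonoidAlgebra.induction_linear with
  | zero => simp
  | add x y hx hy => rw [map_add, map_add, map_add, map_add, hx, hy]
  | single g r => rw [red_single, T0_single, T0_single, redV_single]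

theorem Phi_redV {p : ℕ} {G : Type} [Group G] (q : ℕ) (x : ConjClasses G →₀ ℤ) :
    Phi (ZMod p) G q (redV p _ x) = redV p _ (Phi ℤ G q x) := by
  induction x using Finsupp.induction_linear with
  | zero => simp
  | add x y hx hy => rw [map_add, map_add, map_add, map_add, hx, hy]
  | single g r =>
    rw [redV_single]
    simp only [Phi, Finsupp.mapDomain.addMonoidHom_apply, Finsupp.mapDomain_single, redV_single]

theorem redV_smul {p : ℕ} {α : Type} (x : α →₀ ℤ) : redV p α (p • x) = 0 := by
  ext a
  simp [redV]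

end NA2x

open NA2x in
theorem t_NA2 (hNA : St_NA) : St_NA2 := by
  intro G _ ι _ _ p hp z
  have hlift : ∃ y : Matrix ι ι (MonoidAlgebra ℤ G), (red p G).mapMatrix y = z := by
    choose y hy using fun i j => red_surj p G (z i j)
    exact ⟨Matrix.of y, by ext1 i j; simp [hy]⟩
  obtain ⟨y, rfl⟩ := hlift
  obtain ⟨D, hD⟩ := hNA G ι p hp 1 le_rfl y
  have htr : ∀ w : Matrix ι ι (MonoidAlgebra ℤ G),
      ((red p G).mapMatrix w).trace = red p G w.trace := by
    intro w
    simp [Matrix.trace, map_sum]
  rw [← map_pow, htr, htr, T0_red, T0_red, Phi_redV, ← sub_eq_zero, ← map_sub]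
  simp only [pow_one, Nat.sub_self, pow_zero] at hD
  rw [hD, redV_smul]

end Pool.Agent.NIL
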