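import Pool.Agent.NIL.St3

/-!
# NAUG: the augmentation of `s` is integral
-/

set_option autoImplicit false

noncomputable section

namespace Pool.Agent.NIL

namespace NAUGx

/-- A rank one idempotent matrix over a unique factorisation domain is `x₁ y₁`. -/
theorem split {R : Type} [CommRing R] [IsDomain R] [NormalizedGCDMonoid R] {k : ℕ}
    (E : Matrix (Fin k) (Fin k) R) (h : RankOne E) :
    ∃ (x1 y1 : Fin k → R), (∀ i j, E i j = x1 i * y1 j) ∧ ∑ i, y1 i * x1 i = 1 := by
  classical
  obtain ⟨i0, hi0⟩ : ∃ i, E i i ≠ 0 := by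
    by_contra hno
    push Not at hno
    have h1 : ∑ i, E i i = 1 := h.trace
    rw [Finset.sum_eq_zero fun i _ => hno i] at h1
    exact zero_ne_one h1
  obtain ⟨x1, hx1, hg⟩ := Finset.extract_gcd (fun i => E i i0) (s := Finset.univ)
    ⟨i0, Finset.mem_univ i0⟩
  set d := Finset.univ.gcd fun i => E i i0 with hd
  have hd0 : d ≠ 0 := by
    intro h0
    have h1 := hx1 i0 (Finset.mem_univ i0)
    rw [h0, zero_mul] at h1
    exact hi0 h1
  have hx0 : x1 i0 ≠ 0 := by
    intro h0
    have h1 := hx1 i0 (Finset.mem_univ i0)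
    rw [h0, mul_zero] at h1
    exact hi0 h1
  have hm : ∀ i j i', E i j * x1 i' = x1 i * E i' j := by
    intro i j i'
    have h1 := h.minors i j i' i0
    have h2 : E i' i0 = d * x1 i' := hx1 i' (Finset.mem_univ i')
    have h3 : E i i0 = d * x1 i := hx1 i (Finset.mem_univ i)
    rw [h2, h3] at h1
    apply mul_left_cancel₀ hd0
    linear_combination h1
  have hdvd : ∀ j, x1 i0 ∣ E i0 j := by
    intro j
    obtain ⟨a, ha⟩ : ∃ a, a = E i0 j := ⟨_, rfl⟩
    have h1 : x1 i0 ∣ Finset.univ.gcd fun i => x1 i * a := by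
      rw [Finset.dvd_gcd_iff]
      intro i _
      exact ⟨E i j, by rw [ha, ← hm i j i0, mul_comm]⟩
    have h2 : Associated (Finset.univ.gcd fun i => x1 i * a) (Finset.univ.gcd x1 * a) :=
      Finset.gcd_mul_right' Finset.univ x1 a
    rw [hg, one_mul] at h2
    rw [← ha]
    exact h1.trans h2.dvd
  choose r hr using hdvd
  have hE : ∀ i j, E i j = x1 i * r j := by
    intro i j
    apply mul_right_cancel₀ hx0
    rw [hm i j i0, hr j]
    ring
  refine ⟨x1, r, hE, ?_⟩
  have h1 := h.trace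
  rw [Matrix.trace] at h1
  rw [← h1]
  refine Finset.sum_congr rfl fun i _ => ?_
  rw [Matrix.diag_apply, hE, mul_comm]

/-- The augmentation `ℤ[A] → ℤ`. -/
def aug (A : Type) [Group A] : MonoidAlgebra ℤ A →+* ℤ :=
  (MonoidAlgebra.lift ℤ ℤ A 1 : MonoidAlgebra ℤ A →ₐ[ℤ] ℤ).toRingHom

/-- The augmentation `ℚ[A] → ℚ`. -/
def augq (A : Type) [Group A] : MonoidAlgebra ℚ A →+* ℚ :=
  (MonoidAlgebra.lift ℚ ℚ A 1 : MonoidAlgebra ℚ A →ₐ[ℚ] ℚ).toRingHom

theorem augq_iq {A : Type} [Group A] (f : MonoidAlgebra ℤ A) : augq A (iq A f) = (aug A f : ℚ) := by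
  induction f using MonoidAlgebra.induction_linear with
  | zero => simp
  | add x y hx hy => rw [map_add, map_add, hx, hy, map_add, Int.cast_add]
  | single g r => simp [augq, aug]

theorem comp_eq (A : Type) [Group A] :
    (augq A).comp (iq A) = (Int.castRingHom ℚ).comp (aug A) :=
  RingHom.ext fun f => augq_iq f

theorem augp_map {A : Type} [Group A] (f : RT A) :
    augp A (Polynomial.mapRingHom (iq A) f) =
      (f.map (aug A)).map (Int.castRingHom ℚ) := by
  rw [Polynomial.map_map, ← comp_eq, ← Polynomial.map_map]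
  rfl

theorem eval_augp {A : Type} [Group A] (f : Polynomial (MonoidAlgebra ℚ A)) :
    (augp A f).eval 0 = augq A (f.eval 0) :=
  Polynomial.eval_zero_map (augq A) f

end NAUGx

open NAUGx in
theorem t_NAUG : St_NAUG := by
  classical
  intro A _ _ k e he d
  letI : NormalizedGCDMonoid (Polynomial ℤ) :=
    UniqueFactorizationMonoid.toNormalizedGCDMonoid (Polynomial ℤ)
  let E : Matrix (Fin k) (Fin k) (Polynomial ℤ) := e.map (Polynomial.mapRingHom (aug A))
  have hE : RankOne E := by
    refine ⟨?_, ?_, ?_⟩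
    · show e.map (Polynomial.mapRingHom (aug A)) * e.map (Polynomial.mapRingHom (aug A)) =
        e.map (Polynomial.mapRingHom (aug A))
      rw [← Matrix.map_mul, he.idem]
    · intro i j a b
      show Polynomial.mapRingHom (aug A) (e i j) * Polynomial.mapRingHom (aug A) (e a b) =
        Polynomial.mapRingHom (aug A) (e i b) * Polynomial.mapRingHom (aug A) (e a j)
      rw [← map_mul, ← map_mul, he.minors]
    · have h1 := congrArg (Polynomial.mapRingHom (aug A)) he.trace
      rw [map_one] at h1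
      rw [← h1, Matrix.trace, Matrix.trace, map_sum]
      rfl
  obtain ⟨x1, y1, hxy1, hyx1⟩ := split E hE
  let ι : Polynomial ℤ →+* Polynomial ℚ := Polynomial.mapRingHom (Int.castRingHom ℚ)
  let xq : Fin k → Polynomial ℚ := fun i => augp A (d.x i ())
  let yq : Fin k → Polynomial ℚ := fun i => augp A (d.y () i)
  have hxy : ∀ i j, xq i * yq j = ι (x1 i) * ι (y1 j) := by
    intro i j
    have h1 := congrFun (congrFun d.h1 i) j
    rw [Matrix.mul_apply, Finset.univ_unique, Finset.sum_singleton] at h1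
    have h2 := congrArg (augp A) h1
    rw [map_mul] at h2
    have h3 : ι (x1 i) * ι (y1 j) = ι (E i j) := by rw [hxy1, map_mul]
    rw [h3]
    refine h2.trans ?_
    exact augp_map (e i j)
  have hyx : ∑ i, yq i * xq i = 1 := by
    have h1 := congrFun (congrFun d.h1' ()) ()
    rw [Matrix.mul_apply, Matrix.one_apply_eq] at h1
    have h2 := congrArg (augp A) h1
    rw [map_sum, map_one] at h2
    rw [← h2]
    refine Finset.sum_congr rfl fun i _ => ?_
    rw [map_mul]
  have hx0 : ∀ i, (xq i).eval 0 = ((aug A (d.x0 i ()) : ℤ) : ℚ) := by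
    intro i
    have h1 : (d.x i ()).eval 0 = iq A (d.x0 i ()) := congrFun (congrFun d.hx i) ()
    rw [← augq_iq, ← h1]
    exact eval_augp _
  have hyx1' : ∑ i, ι (y1 i) * ι (x1 i) = 1 := by
    rw [← map_one ι, ← hyx1, map_sum]
    refine Finset.sum_congr rfl fun i _ => ?_
    rw [map_mul]
  obtain ⟨c, hc⟩ : ∃ c, c = ∑ j, ι (y1 j) * xq j := ⟨_, rfl⟩
  have hxc : ∀ i, xq i = ι (x1 i) * c := by
    intro i
    have h1 : xq i = ∑ j, (xq i * yq j) * xq j := by
      conv_lhs => rw [← mul_one (xq i), ← hyx, Finset.mul_sum]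
      refine Finset.sum_congr rfl fun j _ => ?_
      rw [mul_assoc]
    rw [h1, hc, Finset.mul_sum]
    refine Finset.sum_congr rfl fun j _ => ?_
    rw [hxy, mul_assoc]
  have hunit : IsUnit c := by
    refine IsUnit.of_mul_eq_one (∑ i, yq i * ι (x1 i)) ?_
    rw [Finset.mul_sum, ← hyx]
    refine Finset.sum_congr rfl fun i _ => ?_
    rw [hxc i]
    ring
  obtain ⟨q, -, hq⟩ := Polynomial.isUnit_iff.1 hunit
  have hqn : q = ((∑ j, (y1 j).eval 0 * aug A (d.x0 j ()) : ℤ) : ℚ) := by
    have h1 := congrArg (Polynomial.eval 0) hc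
    rw [← hq, Polynomial.eval_C, Polynomial.eval_finsetSum] at h1
    rw [h1, Int.cast_sum]
    refine Finset.sum_congr rfl fun j _ => ?_
    rw [Polynomial.eval_mul, hx0, Int.cast_mul]
    congr 1
    exact Polynomial.eval_zero_map (Int.castRingHom ℚ) (y1 j)
  set n : ℤ := ∑ j, (y1 j).eval 0 * aug A (d.x0 j ()) with hn
  refine ⟨∑ j, Polynomial.C (aug A (d.y0 () j)) * (x1 j * Polynomial.C n), ?_⟩
  have hs : augp A d.s = ∑ j, Polynomial.C ((aug A (d.y0 () j) : ℤ) : ℚ) * xq j := by
    unfold Dat.s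
    rw [Matrix.mul_apply, map_sum]
    refine Finset.sum_congr rfl fun j _ => ?_
    rw [map_mul]
    congr 1
    rw [← augq_iq]
    exact Polynomial.map_C (augq A)
  rw [hs, Polynomial.map_sum]
  refine Finset.sum_congr rfl fun j _ => ?_
  rw [Polynomial.map_mul, Polynomial.map_mul, Polynomial.map_C, Polynomial.map_C, hxc j, ← hq, hqn]
  rfl

end Pool.Agent.NIL
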