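import Pool.Agent.NIL.St

/-!
# NIL, module NB: abstract Dwork congruences
-/

set_option autoImplicit false

noncomputable section

namespace Pool.Agent.NIL.NBx

open PowerSeries

variable {M V : Type} [Ring M] [AddCommGroup V]

lemma tau_comm (T : M →+ V) (hT : ∀ a b, T (a * b) = T (b * a)) (n : ℕ) (f g : PowerSeries M) :
    T (coeff n (f * g)) = T (coeff n (g * f)) := by
  rw [coeff_mul, coeff_mul, map_sum, map_sum, ← Finset.Nat.sum_antidiagonal_swap]
  exact Finset.sum_congr rfl fun x _ => hT _ _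

lemma lam_prod (T : M →+ V) (hT : ∀ a b, T (a * b) = T (b * a)) (n : ℕ)
    {v vi w wi : PowerSeries M} (h2 : vi * v = 1) (h3 : w * wi = 1) :
    T (coeff n (wi * vi * th (v * w))) =
      T (coeff n (vi * th v)) + T (coeff n (wi * th w)) := by
  rw [th_mul, mul_add, map_add, map_add]
  congr 1
  · calc T (coeff n (wi * vi * (th v * w)))
        = T (coeff n (wi * (vi * th v * w))) := by simp only [mul_assoc]
      _ = T (coeff n (vi * th v * w * wi)) := tau_comm T hT n _ _
      _ = T (coeff n (vi * th v)) := by rw [mul_assoc (vi * th v), h3, mul_one]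
  · rw [mul_assoc, ← mul_assoc vi v, h2, one_mul]

/-- The congruence for the number `m`. -/
def Good (T : M →+ V) (Φ : V →+ V) (p m : ℕ) (v vi : PowerSeries M) : Prop :=
  ∃ D : V, T (coeff (p * m) (vi * th v)) - Φ (T (coeff m (vi * th v))) =
    (p ^ (padicValNat p m + 1)) • D

lemma Good.mul {T : M →+ V} {Φ : V →+ V} {p m : ℕ} (hT : ∀ a b, T (a * b) = T (b * a))
    {v vi w wi : PowerSeries M} (h2 : vi * v = 1) (h3 : w * wi = 1)
    (hv : Good T Φ p m v vi) (hw : Good T Φ p m w wi) : Good T Φ p m (v * w) (wi * vi) := by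
  obtain ⟨D, hD⟩ := hv
  obtain ⟨E, hE⟩ := hw
  refine ⟨D + E, ?_⟩
  rw [lam_prod T hT _ h2 h3, lam_prod T hT _ h2 h3, map_add, smul_add, ← hD, ← hE]
  abel

/-! ### The units `1 - z t ^ d` -/

/-- The unit `1 - z t ^ d`. -/
def el (z : M) (d : ℕ) : PowerSeries M := 1 - C z * X ^ d

/-- Its inverse. -/
def eli (z : M) (d : ℕ) : PowerSeries M := PowerSeries.mk fun n => if d ∣ n then z ^ (n / d) else 0

lemma coeff_eli (z : M) (d n : ℕ) : coeff n (eli z d) = if d ∣ n then z ^ (n / d) else 0 :=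
  coeff_mk _ _

lemma coeff_el_mul (z : M) (d : ℕ) (w : PowerSeries M) (n : ℕ) :
    coeff n (el z d * w) = coeff n w - if d ≤ n then z * coeff (n - d) w else 0 := by
  have e : el z d * w = w - C z * (w * X ^ d) := by
    unfold el
    rw [sub_mul, one_mul, mul_assoc, X_pow_mul]
  rw [e, map_sub, coeff_C_mul, coeff_mul_X_pow']
  split_ifs with h
  · rfl
  · rw [mul_zero]

lemma coeff_mul_el (z : M) (d : ℕ) (w : PowerSeries M) (n : ℕ) :
    coeff n (w * el z d) = coeff n w - if d ≤ n then coeff (n - d) w * z else 0 := by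
  have e : w * el z d = w - (w * C z) * X ^ d := by
    unfold el
    rw [mul_sub, mul_one, mul_assoc]
  rw [e, map_sub, coeff_mul_X_pow']
  split_ifs with h
  · rw [coeff_mul_C]
  · rfl

/-- the powers of `z` in the two formulas -/
lemma pow_step (z : M) {d n : ℕ} (hd : 1 ≤ d) (hn : d ≤ n) (hdn : d ∣ n) :
    z ^ (n / d) = z ^ ((n - d) / d) * z := by
  obtain ⟨c, rfl⟩ := hdn
  have hc : 1 ≤ c := by
    by_contra h
    have : c = 0 := by omega
    subst this
    omega
  have e : d * c - d = d * (c - 1) := by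
    rw [Nat.mul_sub, mul_one]
  rw [e, Nat.mul_div_cancel_left _ hd, Nat.mul_div_cancel_left _ hd, ← pow_succ]
  congr 1
  omega

lemma eli_mul_el (z : M) {d : ℕ} (hd : 1 ≤ d) : eli z d * el z d = 1 := by
  ext n
  rw [coeff_mul_el, coeff_eli, coeff_eli, coeff_one]
  by_cases hn : d ≤ n
  · have hn0 : n ≠ 0 := by omega
    rw [if_pos hn, if_neg hn0]
    by_cases hdn : d ∣ n
    · rw [if_pos hdn, if_pos (Nat.dvd_sub hdn dvd_rfl), pow_step z hd hn hdn, sub_self]
    · have h' : ¬ d ∣ n - d := fun h => hdn ((Nat.dvd_sub_iff_left hn dvd_rfl).mp h)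
      rw [if_neg hdn, if_neg h', zero_mul, sub_self]
  · rw [if_neg hn, sub_zero]
    by_cases h0 : n = 0
    · subst h0
      rw [if_pos (dvd_zero d), if_pos rfl, Nat.zero_div, pow_zero]
    · rw [if_neg h0, if_neg]
      intro h
      exact hn (Nat.le_of_dvd (by omega) h)

lemma el_mul_eli (z : M) {d : ℕ} (hd : 1 ≤ d) : el z d * eli z d = 1 := by
  ext n
  rw [coeff_el_mul, coeff_eli, coeff_eli, coeff_one]
  by_cases hn : d ≤ n
  · have hn0 : n ≠ 0 := by omega
    rw [if_pos hn, if_neg hn0]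
    by_cases hdn : d ∣ n
    · rw [if_pos hdn, if_pos (Nat.dvd_sub hdn dvd_rfl), pow_step z hd hn hdn,
        (Commute.self_pow z ((n - d) / d)).eq, sub_self]
    · have h' : ¬ d ∣ n - d := fun h => hdn ((Nat.dvd_sub_iff_left hn dvd_rfl).mp h)
      rw [if_neg hdn, if_neg h', mul_zero, sub_self]
  · rw [if_neg hn, sub_zero]
    by_cases h0 : n = 0
    · subst h0
      rw [if_pos (dvd_zero d), if_pos rfl, Nat.zero_div, pow_zero]
    · rw [if_neg h0, if_neg]
      intro h
      exact hn (Nat.le_of_dvd (by omega) h)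

lemma th_el (z : M) {d : ℕ} (hd : 1 ≤ d) : th (el z d) = C (-(d • z)) * X ^ d := by
  ext n
  rw [coeff_th, coeff_C_mul, coeff_X_pow]
  unfold el
  rw [map_sub, coeff_C_mul, coeff_X_pow, coeff_one]
  by_cases h : n = d
  · subst h
    have hn0 : n ≠ 0 := by omega
    rw [if_neg hn0, if_pos rfl, mul_one, mul_one, zero_sub, smul_neg]
  · rw [if_neg h, mul_zero, mul_zero, sub_zero]
    by_cases h0 : n = 0
    · subst h0
      rw [zero_smul]
    · rw [if_neg h0, smul_zero]

lemma coeff_log (z : M) {d : ℕ} (hd : 1 ≤ d) (n : ℕ) :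
    coeff n (eli z d * th (el z d)) = if d ∣ n ∧ 1 ≤ n then -(d • z ^ (n / d)) else 0 := by
  rw [th_el z hd, ← mul_assoc, coeff_mul_X_pow']
  by_cases hn : d ≤ n
  · rw [if_pos hn, coeff_mul_C, coeff_eli]
    have h1 : 1 ≤ n := by omega
    by_cases hdn : d ∣ n
    · rw [if_pos (Nat.dvd_sub hdn dvd_rfl), if_pos ⟨hdn, h1⟩, pow_step z hd hn hdn, mul_neg,
        mul_smul_comm]
    · have h' : ¬ d ∣ n - d := fun h => hdn ((Nat.dvd_sub_iff_left hn dvd_rfl).mp h)
      rw [if_neg h', zero_mul, if_neg fun h => hdn h.1]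
  · rw [if_neg hn, if_neg]
    rintro ⟨h, h1⟩
    exact hn (Nat.le_of_dvd (by omega) h)

/-! ### The congruence for the special units -/

lemma good_el (T : M →+ V) (Φ : V →+ V) {p : ℕ} (hp : p.Prime)
    (hF : ∀ k : ℕ, 1 ≤ k → ∀ z : M, ∃ D : V,
      T (z ^ p ^ k) - Φ (T (z ^ p ^ (k - 1))) = (p ^ k) • D)
    {m : ℕ} (hm : 1 ≤ m) (z : M) {d : ℕ} (hd : 1 ≤ d) : Good T Φ p m (el z d) (eli z d) := by
  have : Fact p.Prime := ⟨hp⟩
  have hpm : 1 ≤ p * m := Nat.mul_pos hp.pos hm
  unfold Good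
  rw [coeff_log z hd, coeff_log z hd]
  by_cases h1 : d ∣ m
  · -- `d` divides `m`
    have h2 : d ∣ p * m := h1.mul_left p
    rw [if_pos ⟨h2, hpm⟩, if_pos ⟨h1, hm⟩]
    obtain ⟨c, rfl⟩ := h1
    have hc0 : c ≠ 0 := by
      rintro rfl
      omega
    have hd0 : d ≠ 0 := by omega
    obtain ⟨a, r, hr, hcr⟩ := Nat.exists_eq_pow_mul_and_not_dvd hc0 p hp.ne_one
    have hva : padicValNat p c = a := by
      have hr0 : r ≠ 0 := by
        rintro rfl
        exact hr (dvd_zero p)
      rw [hcr, padicValNat.mul (pow_ne_zero _ hp.ne_zero) hr0, padicValNat.prime_pow,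
        padicValNat.eq_zero_of_not_dvd hr, add_zero]
    obtain ⟨D, hD⟩ := hF (a + 1) (by omega) (z ^ r)
    have e1 : p * (d * c) / d = r * p ^ (a + 1) := by
      rw [show p * (d * c) = d * (p * c) by ring, Nat.mul_div_cancel_left _ hd, hcr]
      ring
    have e2 : d * c / d = r * p ^ a := by
      rw [Nat.mul_div_cancel_left _ hd, hcr]
      ring
    rw [Nat.add_sub_cancel, ← pow_mul, ← pow_mul] at hD
    rw [e1, e2, map_neg, map_neg, map_neg, map_nsmul, map_nsmul, map_nsmul]
    have hdv : p ^ (padicValNat p (d * c) + 1) ∣ d * p ^ (a + 1) := by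
      rw [padicValNat.mul hd0 hc0, hva, add_assoc, pow_add]
      exact mul_dvd_mul pow_padicValNat_dvd dvd_rfl
    obtain ⟨b, hb⟩ := hdv
    refine ⟨-(b • D), ?_⟩
    have e3 : -(d • T (z ^ (r * p ^ (a + 1)))) - -(d • Φ (T (z ^ (r * p ^ a)))) =
        -(d • (T (z ^ (r * p ^ (a + 1))) - Φ (T (z ^ (r * p ^ a))))) := by
      rw [smul_sub]
      abel
    rw [e3, hD, ← mul_smul, hb, mul_smul, smul_neg]
  · by_cases h2 : d ∣ p * m
    · -- `d` divides `p m`, but not `m`
      rw [if_pos ⟨h2, hpm⟩, if_neg fun h => h1 h.1, map_zero, map_zero, sub_zero, map_neg,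
        map_nsmul]
      have hdv : p ^ (padicValNat p m + 1) ∣ d := by
        obtain ⟨c, hc⟩ := h2
        have hpc : ¬ p ∣ c := by
          rintro ⟨c', rfl⟩
          apply h1
          refine ⟨c', Nat.eq_of_mul_eq_mul_left hp.pos ?_⟩
          rw [hc]
          ring
        have hcop : Nat.Coprime (p ^ (padicValNat p m + 1)) c :=
          Nat.Coprime.pow_left _ ((Nat.Prime.coprime_iff_not_dvd hp).mpr hpc)
        apply hcop.dvd_of_dvd_mul_right
        rw [← hc, pow_succ, mul_comm]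
        exact mul_dvd_mul dvd_rfl pow_padicValNat_dvd
      obtain ⟨b, hb⟩ := hdv
      refine ⟨-(b • T (z ^ (p * m / d))), ?_⟩
      rw [smul_neg, ← mul_smul, ← hb]
    · rw [if_neg fun h => h2 h.1, if_neg fun h => h1 h.1]
      exact ⟨0, by simp⟩

/-! ### Reduction to the special units -/

lemma good_one_mod (T : M →+ V) (Φ : V →+ V) {p m : ℕ} (hp : p.Prime) (v vi : PowerSeries M)
    (h : ∀ j, 1 ≤ j → j ≤ p * m → coeff j v = 0) : Good T Φ p m v vi := by
  have key : ∀ n, n ≤ p * m → coeff n (vi * th v) = 0 := by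
    intro n hn
    rw [coeff_mul]
    apply Finset.sum_eq_zero
    intro x hx
    rw [coeff_th]
    have hx2 : x.2 ≤ n := by
      have := Finset.HasAntidiagonal.mem_antidiagonal.1 hx
      omega
    by_cases h0 : x.2 = 0
    · rw [h0, zero_smul, mul_zero]
    · rw [h x.2 (by omega) (hx2.trans hn), smul_zero, mul_zero]
  have hm : m ≤ p * m := Nat.le_mul_of_pos_left m hp.pos
  refine ⟨0, ?_⟩
  rw [key _ le_rfl, key _ hm]
  simp

lemma good_ind (T : M →+ V) (Φ : V →+ V) {p : ℕ} (hp : p.Prime)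
    (hT : ∀ a b, T (a * b) = T (b * a))
    (hF : ∀ k : ℕ, 1 ≤ k → ∀ z : M, ∃ D : V,
      T (z ^ p ^ k) - Φ (T (z ^ p ^ (k - 1))) = (p ^ k) • D)
    {m : ℕ} (hm : 1 ≤ m) : ∀ k d : ℕ, p * m + 1 ≤ d + k → 1 ≤ d → ∀ v vi : PowerSeries M,
      v * vi = 1 → vi * v = 1 → coeff 0 v = 1 → (∀ j, 1 ≤ j → j < d → coeff j v = 0) →
      Good T Φ p m v vi := by
  intro k
  induction k with
  | zero =>
    intro d hdk _ v vi _ _ _ hv
    apply good_one_mod T Φ hp
    intro j hj1 hj2
    exact hv j hj1 (by omega)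
  | succ k ih =>
    intro d hdk hd v vi h1 h2 h0 hv
    set z : M := - coeff d v with hz
    have e1 : el z d * (eli z d * v) = v := by
      rw [← mul_assoc, el_mul_eli z hd, one_mul]
    have e2 : (vi * el z d) * eli z d = vi := by
      rw [mul_assoc, el_mul_eli z hd, mul_one]
    have g1 : (eli z d * v) * (vi * el z d) = 1 := by
      rw [mul_assoc, ← mul_assoc v vi, h1, one_mul, eli_mul_el z hd]
    have g2 : (vi * el z d) * (eli z d * v) = 1 := by
      rw [← mul_assoc, e2, h2]
    have hc : ∀ n, coeff n v = coeff n (eli z d * v) -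
        if d ≤ n then z * coeff (n - d) (eli z d * v) else 0 := by
      intro n
      rw [← coeff_el_mul, e1]
    have hw0 : coeff 0 (eli z d * v) = 1 := by
      have := hc 0
      rw [if_neg (by omega), sub_zero, h0] at this
      exact this.symm
    have hw : Good T Φ p m (eli z d * v) (vi * el z d) := by
      apply ih (d + 1) (by omega) (by omega) _ _ g1 g2 hw0
      intro j hj1 hj2
      rcases Nat.lt_succ_iff_lt_or_eq.mp hj2 with hj | hj
      · have := hc j
        rw [if_neg (by omega), sub_zero, hv j hj1 hj] at this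
        exact this.symm
      · subst hj
        have := hc j
        rw [if_pos le_rfl, Nat.sub_self, hw0, mul_one, hz, sub_neg_eq_add] at this
        have h3 : coeff j (eli (-coeff j v) j * v) + coeff j v = 0 + coeff j v := by
          rw [zero_add]
          exact this.symm
        exact add_right_cancel h3
    have := Good.mul hT (eli_mul_el z hd) g1 (good_el T Φ hp hF hm z hd) hw
    rw [e1, e2] at this
    exact this

lemma good_C (T : M →+ V) (Φ : V →+ V) (p m : ℕ) (c ci : M) :
    Good T Φ p m (C c) (C ci) := by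
  have h : th (C c : PowerSeries M) = 0 := by
    ext n
    rw [coeff_th, coeff_C, map_zero]
    by_cases h0 : n = 0
    · subst h0
      rw [zero_smul]
    · rw [if_neg h0, smul_zero]
  refine ⟨0, ?_⟩
  rw [h, mul_zero]
  simp

end Pool.Agent.NIL.NBx

namespace Pool.Agent.NIL

open PowerSeries NBx

/-- NB: the abstract Dwork congruences. -/
theorem t_NB : St_NB := by
  intro M V _ _ T Φ p hp hT hF v vi h1 h2 m hm
  have k1 : constantCoeff v * constantCoeff vi = 1 := by
    rw [← map_mul, h1, map_one]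
  have k2 : constantCoeff vi * constantCoeff v = 1 := by
    rw [← map_mul, h2, map_one]
  set c : M := constantCoeff v with hc
  set ci : M := constantCoeff vi with hci
  have c1 : (C c : PowerSeries M) * C ci = 1 := by
    rw [← map_mul, k1, map_one]
  have c2 : (C ci : PowerSeries M) * C c = 1 := by
    rw [← map_mul, k2, map_one]
  have e1 : C c * (C ci * v) = v := by
    rw [← mul_assoc, c1, one_mul]
  have e2 : (vi * C c) * C ci = vi := by
    rw [mul_assoc, c1, mul_one]
  have g1 : (C ci * v) * (vi * C c) = 1 := by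
    rw [mul_assoc, ← mul_assoc v vi, h1, one_mul, c2]
  have g2 : (vi * C c) * (C ci * v) = 1 := by
    rw [← mul_assoc, e2, h2]
  have hw0 : coeff 0 (C ci * v) = 1 := by
    rw [coeff_C_mul, coeff_zero_eq_constantCoeff_apply, ← hc, k2]
  have hw : Good T Φ p m (C ci * v) (vi * C c) :=
    good_ind T Φ hp hT hF hm (p * m) 1 (by omega) le_rfl _ _ g1 g2 hw0
      (fun j hj1 hj2 => absurd hj2 (by omega))
  have := Good.mul hT c2 g1 (good_C T Φ p m c ci) hw
  rw [e1, e2] at this
  exact this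

end Pool.Agent.NIL
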