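import Pool.Agent.NIL.St

/-!
# Module NG2: stably free over `ℤ[G][t]` implies the congruences for `s`
-/

set_option autoImplicit false

noncomputable section

namespace Pool.Agent.NIL

namespace NG2x

/-! ### Matrices over a ring -/

theorem tw {B : Type} [Ring B] {κ μ : Type} [Fintype κ] [DecidableEq κ] [Fintype μ]
    [DecidableEq μ] {e : Matrix κ κ B} {x : Matrix κ Unit B} {y : Matrix Unit κ B}
    {X : Matrix (κ ⊕ μ) (Unit ⊕ μ) B} {Y : Matrix (Unit ⊕ μ) (κ ⊕ μ) B}
    (hxy : x * y = e) (hyx : y * x = 1) (hXY : X * Y = Matrix.fromBlocks e 0 0 1) (hYX : Y * X = 1) :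
    (Y * (Matrix.fromBlocks x 0 0 1 : Matrix (κ ⊕ μ) (Unit ⊕ μ) B)) *
      ((Matrix.fromBlocks y 0 0 1 : Matrix (Unit ⊕ μ) (κ ⊕ μ) B) * X) = 1 ∧
    ((Matrix.fromBlocks y 0 0 1 : Matrix (Unit ⊕ μ) (κ ⊕ μ) B) * X) *
      (Y * (Matrix.fromBlocks x 0 0 1 : Matrix (κ ⊕ μ) (Unit ⊕ μ) B)) = 1 := by
  have h1 : (Matrix.fromBlocks x 0 0 1 : Matrix (κ ⊕ μ) (Unit ⊕ μ) B) *
      (Matrix.fromBlocks y 0 0 1 : Matrix (Unit ⊕ μ) (κ ⊕ μ) B) = X * Y := by
    rw [Matrix.fromBlocks_multiply, hXY]
    simp [hxy]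
  constructor
  · calc (Y * (Matrix.fromBlocks x 0 0 1 : Matrix (κ ⊕ μ) (Unit ⊕ μ) B)) *
          ((Matrix.fromBlocks y 0 0 1 : Matrix (Unit ⊕ μ) (κ ⊕ μ) B) * X)
        = Y * ((Matrix.fromBlocks x 0 0 1 : Matrix (κ ⊕ μ) (Unit ⊕ μ) B) *
          (Matrix.fromBlocks y 0 0 1 : Matrix (Unit ⊕ μ) (κ ⊕ μ) B)) * X := by
          simp only [Matrix.mul_assoc]
      _ = (Y * X) * (Y * X) := by rw [h1]; simp only [Matrix.mul_assoc]
      _ = 1 := by rw [hYX, Matrix.mul_one]
  · calc ((Matrix.fromBlocks y 0 0 1 : Matrix (Unit ⊕ μ) (κ ⊕ μ) B) * X) *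
          (Y * (Matrix.fromBlocks x 0 0 1 : Matrix (κ ⊕ μ) (Unit ⊕ μ) B))
        = (Matrix.fromBlocks y 0 0 1 : Matrix (Unit ⊕ μ) (κ ⊕ μ) B) * (X * Y) *
          (Matrix.fromBlocks x 0 0 1 : Matrix (κ ⊕ μ) (Unit ⊕ μ) B) := by
          simp only [Matrix.mul_assoc]
      _ = 1 := by
          rw [hXY, Matrix.fromBlocks_multiply, Matrix.fromBlocks_multiply]
          have : y * e * x = 1 := by
            rw [← hxy, ← Matrix.mul_assoc, hyx, Matrix.one_mul, hyx]
          simp [this]

theorem minors_map {B C : Type} [CommRing B] [CommRing C] {k : Type} [Fintype k]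
    {e : Matrix k k B} (he : RankOne e) (f : B →+* C) (i j a b : k) :
    (e.map f) i j * (e.map f) a b = (e.map f) i b * (e.map f) a j := by
  simp only [Matrix.map_apply]
  rw [← map_mul, he.minors i j a b, map_mul]

theorem sandwich {B : Type} [CommRing B] {k : Type} [Fintype k] {e : Matrix k k B}
    (he : ∀ i j a b, e i j * e a b = e i b * e a j) (M : Matrix k k B) :
    e * M * e = (M * e).trace • e := by
  ext i j
  rw [Matrix.smul_apply, smul_eq_mul]
  simp only [Matrix.mul_apply, Matrix.trace, Matrix.diag, Finset.sum_mul]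
  rw [Finset.sum_comm]
  refine Finset.sum_congr rfl fun a _ => Finset.sum_congr rfl fun b _ => ?_
  have := he i a b j
  calc e i a * M a b * e b j = M a b * (e i a * e b j) := by ring
    _ = M a b * (e i j * e b a) := by rw [this]
    _ = M a b * e b a * e i j := by ring

/-- The matrix with the only entry `b`. -/
abbrev oo {B : Type} (b : B) : Matrix Unit Unit B := Matrix.of fun _ _ => b

theorem unit_eq {B : Type} [Ring B] (M : Matrix Unit Unit B) : M = oo (M () ()) := by
  ext i j
  rfl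

theorem of_mul_of {B : Type} [Ring B] (a b : B) :
    oo a * oo b = oo (a * b) := by
  ext i j
  simp [Matrix.mul_apply]

theorem of_one {B : Type} [Ring B] : oo (1 : B) = 1 := by
  ext i j
  simp

/-! ### The integral vectors -/

theorem integral_vectors {A : Type} [CommGroup A] {κ : Type} [Fintype κ] [DecidableEq κ]
    (e : Matrix κ κ (RT A)) (he : RankOne e) (d : Dat e) :
    ∃ (x' : Matrix κ Unit (PowerSeries (MonoidAlgebra ℤ A)))
      (y' : Matrix Unit κ (PowerSeries (MonoidAlgebra ℤ A))),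
      x' * y' = e.map (ps _) ∧ y' * x' = 1 ∧
      d.x.map (ps _) = x'.map (iqs A) * oo (ps _ d.s) := by
  classical
  set es : Matrix κ κ (PowerSeries (MonoidAlgebra ℤ A)) := e.map (ps _) with hes
  set x0s : Matrix κ Unit (PowerSeries (MonoidAlgebra ℤ A)) := d.x0.map PowerSeries.C with hx0s
  set y0s : Matrix Unit κ (PowerSeries (MonoidAlgebra ℤ A)) := d.y0.map PowerSeries.C with hy0s
  have hidem : es * es = es := by
    rw [hes, ← Matrix.map_mul, he.idem]
  have hmin : ∀ i j a b, es i j * es a b = es i b * es a j :=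
    minors_map he (ps (MonoidAlgebra ℤ A))
  set δ : PowerSeries (MonoidAlgebra ℤ A) := (y0s * es * x0s) () () with hδ
  have hδ0 : PowerSeries.constantCoeff δ = 1 := by
    have e1 : (y0s * es * x0s).map (PowerSeries.constantCoeff) =
        (1 : Matrix Unit Unit (MonoidAlgebra ℤ A)) := by
      rw [Matrix.map_mul, Matrix.map_mul]
      have a1 : y0s.map (PowerSeries.constantCoeff) = d.y0 := by
        ext i j
        simp [hy0s]
      have a2 : x0s.map (PowerSeries.constantCoeff) = d.x0 := by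
        ext i j
        simp [hx0s]
      have a3 : es.map (PowerSeries.constantCoeff) = e.map (Polynomial.evalRingHom 0) := by
        ext i j
        simp [hes, Polynomial.coeff_zero_eq_eval_zero]
      rw [a1, a2, a3, ← d.h0, ← Matrix.mul_assoc, d.h0', Matrix.one_mul, d.h0']
    have := congrFun (congrFun e1 ()) ()
    simpa using this
  have hunit : IsUnit δ := by
    rw [PowerSeries.isUnit_iff_constantCoeff, hδ0]
    exact isUnit_one
  obtain ⟨w, hw⟩ := hunit
  have h2 : (↑w⁻¹ : PowerSeries (MonoidAlgebra ℤ A)) * δ = 1 := by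
    rw [← hw]; exact w.inv_mul
  set δi : PowerSeries (MonoidAlgebra ℤ A) := ↑w⁻¹ with hδi
  have hsand : es * (x0s * y0s) * es = δ • es := by
    rw [sandwich hmin]
    congr 1
    rw [Matrix.mul_assoc, Matrix.trace_mul_comm, hδ]
    simp [Matrix.trace]
  have hy' : (y0s * es) * (δi • (es * x0s)) = 1 := by
    rw [Matrix.mul_smul, ← Matrix.mul_assoc, Matrix.mul_assoc y0s es es, hidem,
      unit_eq (y0s * es * x0s), ← hδ]
    ext i j
    simp [h2]
  have hx' : (δi • (es * x0s)) * (y0s * es) = es := by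
    rw [Matrix.smul_mul]
    have : es * x0s * (y0s * es) = es * (x0s * y0s) * es := by
      simp only [Matrix.mul_assoc]
    rw [this, hsand, smul_smul, h2, one_smul]
  refine ⟨δi • (es * x0s), y0s * es, hx', hy', ?_⟩
  -- the relation over the rational power series
  set X' := (δi • (es * x0s)).map (iqs A) with hX'
  have b1 : (e.map (iqp A)).map (ps _) = es.map (iqs A) := by
    ext i j : 1
    simp only [Matrix.map_apply, hes]
    exact Polynomial.polynomial_map_coe
  have b2 : es.map (iqs A) = d.x.map (ps _) * d.y.map (ps _) := by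
    rw [← b1, ← d.h1, Matrix.map_mul]
  have b3 : d.y.map (ps _) * d.x.map (ps _) =
      (1 : Matrix Unit Unit (PowerSeries (MonoidAlgebra ℚ A))) := by
    rw [← Matrix.map_mul, d.h1']
    simp
  have b4 : es.map (iqs A) * d.x.map (ps _) = d.x.map (ps _) := by
    rw [b2, Matrix.mul_assoc, b3, Matrix.mul_one]
  have b5 : es.map (iqs A) = X' * (y0s.map (iqs A) * es.map (iqs A)) := by
    rw [hX', ← Matrix.map_mul (L := y0s), ← Matrix.map_mul, hx']
  have b6 : y0s.map (iqs A) * d.x.map (ps _) = oo (ps _ d.s) := by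
    rw [unit_eq (y0s.map (iqs A) * d.x.map (ps _))]
    congr 1
    have c1 : y0s.map (iqs A) = ((d.y0.map (iq A)).map Polynomial.C).map (ps _) := by
      ext i j : 1
      simp [hy0s]
    rw [c1, ← Matrix.map_mul]
    rfl
  calc d.x.map (ps _) = es.map (iqs A) * d.x.map (ps _) := b4.symm
    _ = X' * (y0s.map (iqs A) * es.map (iqs A)) * d.x.map (ps _) := by rw [← b5]
    _ = X' * (y0s.map (iqs A) * (es.map (iqs A) * d.x.map (ps _))) := by
      simp only [Matrix.mul_assoc]
    _ = X' * oo (ps _ d.s) := by rw [b4, b6]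

/-! ### Naturality -/

theorem th_map {R S : Type} [Ring R] [Ring S] (f : R →+* S) (z : PowerSeries R) :
    th (PowerSeries.map f z) = PowerSeries.map f (th z) := by
  ext m
  simp

theorem th_one {R : Type} [Ring R] : th (1 : PowerSeries R) = 0 := by
  ext m
  rw [coeff_th, PowerSeries.coeff_one]
  split_ifs with h
  · rw [h]; simp
  · simp

theorem iq_nat {A G : Type} [Group A] [Group G] (φ : A →* G) (z : MonoidAlgebra ℤ A) :
    iq G (MonoidAlgebra.mapDomainRingHom ℤ φ z) =
      MonoidAlgebra.mapDomainRingHom ℚ φ (iq A z) := by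
  induction z using MonoidAlgebra.induction_linear with
  | zero => simp
  | add x y hx hy => simp only [map_add, hx, hy]
  | single g r => simp

theorem one_map_th {R : Type} [Ring R] {κ : Type} [DecidableEq κ] :
    (1 : Matrix κ κ (PowerSeries R)).map (th (R := R)) = 0 := by
  ext i j : 1
  rw [Matrix.map_apply, Matrix.one_apply]
  by_cases h : i = j
  · rw [if_pos h, th_one]
    rfl
  · rw [if_neg h, map_zero]
    rfl

theorem ps_map {R S : Type} [Ring R] [Ring S] (f : R →+* S) (p : Polynomial R) :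
    ps S (p.map f) = PowerSeries.map f (ps R p) := by
  ext n : 1
  simp

end NG2x

open NG2x in
theorem t_NG2 (hND : St_ND) : St_NG2 := by
  intro A G _ _ _ φ k e he d hst si hsi
  classical
  obtain ⟨r, X, Y, hXY, hYX⟩ := hst
  obtain ⟨x', y', h1, h2, h3⟩ := integral_vectors e he d
  -- the maps induced by `φ`
  let ez : PowerSeries (MonoidAlgebra ℤ A) →+* PowerSeries (MonoidAlgebra ℤ G) :=
    PowerSeries.map (MonoidAlgebra.mapDomainRingHom ℤ φ)
  let eq' : Polynomial (MonoidAlgebra ℚ A) →+* Polynomial (MonoidAlgebra ℚ G) :=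
    Polynomial.mapRingHom (MonoidAlgebra.mapDomainRingHom ℚ φ)
  let X1 := X.map (ps (MonoidAlgebra ℤ G))
  let Y1 := Y.map (ps (MonoidAlgebra ℤ G))
  let X2 := X.map (iqp G)
  let Y2 := Y.map (iqp G)
  have n1 : (e.map (ext φ)).map (ps (MonoidAlgebra ℤ G)) = (e.map (ps _)).map ez := by
    ext i j : 1
    simp only [Matrix.map_apply]
    exact ps_map _ _
  have n2 : (e.map (ext φ)).map (iqp G) = (e.map (iqp A)).map eq' := by
    ext i j : 1
    refine Polynomial.ext fun n => ?_
    simp only [Matrix.map_apply, eq', ext, iqp, Polynomial.coe_mapRingHom, Polynomial.coeff_map]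
    exact iq_nat φ _
  have n3 : ∀ z : PowerSeries (MonoidAlgebra ℤ A), iqs G (ez z) = eqs φ (iqs A z) := by
    intro z
    ext n : 1
    simp only [ez, PowerSeries.coeff_map]
    exact iq_nat φ _
  have hX1 : X1 * Y1 = Matrix.fromBlocks ((e.map (ps _)).map ez) 0 0 1 := by
    rw [← n1, ← Matrix.map_mul, hXY, Matrix.fromBlocks_map]
    simp
  have hY1 : Y1 * X1 = 1 := by
    rw [← Matrix.map_mul, hYX]
    simp
  have hX2 : X2 * Y2 = Matrix.fromBlocks ((e.map (iqp A)).map eq') 0 0 1 := by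
    rw [← n2, ← Matrix.map_mul, hXY, Matrix.fromBlocks_map]
    simp
  have hY2 : Y2 * X2 = 1 := by
    rw [← Matrix.map_mul, hYX]
    simp
  have hv := tw (x := x'.map ez) (y := y'.map ez) (by rw [← Matrix.map_mul, h1])
    (by rw [← Matrix.map_mul, h2]; simp) hX1 hY1
  have hu := tw (x := d.x.map eq') (y := d.y.map eq') (by rw [← Matrix.map_mul, d.h1])
    (by rw [← Matrix.map_mul, d.h1']; simp) hX2 hY2
  set v := Y1 * (Matrix.fromBlocks (x'.map ez) 0 0 1 : Matrix (Fin k ⊕ Fin r) (Unit ⊕ Fin r) _)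
    with hvdef
  set vi := (Matrix.fromBlocks (y'.map ez) 0 0 1 : Matrix (Unit ⊕ Fin r) (Fin k ⊕ Fin r) _) * X1
    with hvidef
  set u := Y2 * (Matrix.fromBlocks (d.x.map eq') 0 0 1 : Matrix (Fin k ⊕ Fin r) (Unit ⊕ Fin r) _)
    with hudef
  set ui := (Matrix.fromBlocks (d.y.map eq') 0 0 1 : Matrix (Unit ⊕ Fin r) (Fin k ⊕ Fin r) _) * X2
    with huidef
  set s : PowerSeries (MonoidAlgebra ℚ A) := ps _ d.s with hs
  have hsi' : si * s = 1 := by rw [mul_comm]; exact hsi
  let b : Matrix (Unit ⊕ Fin r) (Unit ⊕ Fin r) (PowerSeries (MonoidAlgebra ℚ G)) := dg (eqs φ si)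
  let bi : Matrix (Unit ⊕ Fin r) (Unit ⊕ Fin r) (PowerSeries (MonoidAlgebra ℚ G)) := dg (eqs φ s)
  have dgmul : ∀ a c : PowerSeries (MonoidAlgebra ℚ G), a * c = 1 →
      (dg a * dg c : Matrix (Unit ⊕ Fin r) (Unit ⊕ Fin r) (PowerSeries (MonoidAlgebra ℚ G))) = 1 := by
    intro a c hac
    unfold dg
    rw [Matrix.fromBlocks_multiply]
    simp only [Matrix.mul_zero, Matrix.zero_mul, add_zero, Matrix.mul_one, zero_add]
    rw [of_mul_of, hac, of_one, Matrix.fromBlocks_one]
  have hb1 : b * bi = 1 := dgmul _ _ (by rw [← map_mul, hsi', map_one])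
  have hb2 : bi * b = 1 := dgmul _ _ (by rw [← map_mul, hsi, map_one])
  have hrel : (1 : Matrix (Unit ⊕ Fin r) (Unit ⊕ Fin r) (PowerSeries (MonoidAlgebra ℚ G))) *
      v.map (iqs G) = u.map (ps _) * b := by
    rw [Matrix.one_mul]
    have hY12 : Y2.map (ps _) = Y1.map (iqs G) := by
      ext i j : 1
      simp only [Matrix.map_apply, Y1, Y2]
      exact ps_map _ _
    have c1 : (x'.map ez).map (iqs G) = (x'.map (iqs A)).map (eqs φ) := by
      ext i j : 1
      simp only [Matrix.map_apply]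
      exact n3 _
    have c2 : (d.x.map eq').map (ps _) = (d.x.map (ps _)).map (eqs φ) := by
      ext i j : 1
      simp only [Matrix.map_apply]
      exact ps_map _ _
    have c3 : (d.x.map (ps _)).map (eqs φ) * oo (eqs φ si) =
        (x'.map (iqs A)).map (eqs φ) := by
      rw [h3, Matrix.map_mul, Matrix.mul_assoc]
      have c4 : (oo s).map (eqs φ) = oo (eqs φ s) := by
        ext i j : 1
        rfl
      rw [c4, of_mul_of, ← map_mul, hsi, map_one, of_one, Matrix.mul_one]
    rw [hvdef, hudef, Matrix.map_mul, Matrix.map_mul, Matrix.fromBlocks_map, Matrix.fromBlocks_map,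
      hY12, c1, c2, Matrix.mul_assoc]
    congr 1
    have hb : b = Matrix.fromBlocks (oo (eqs φ si)) 0 0 1 := rfl
    rw [hb, Matrix.fromBlocks_multiply]
    clear c1 c2
    generalize (d.x.map (ps _)).map (eqs φ) = P at c3 ⊢
    generalize (x'.map (iqs A)).map (eqs φ) = Q at c3 ⊢
    simp [c3]
  have hWF := hND G (Unit ⊕ Fin r) v vi u ui 1 1 b bi hv.1 hv.2 hu.1 hu.2 (by simp) (by simp)
    hb1 hb2 hrel
  have hneg := hWF.neg
  have hth : s * th si = - (si * th s) := by
    have h4 := th_mul s si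
    rw [hsi, th_one] at h4
    have h5 : th s * si = si * th s := mul_comm _ _
    rw [h5] at h4
    exact eq_neg_of_add_eq_zero_right h4.symm
  have key : ∀ m : ℕ, T0 ℚ G (PowerSeries.coeff m (eqs φ (si * th s))) =
      - (lam b bi m - lam (1 : Matrix (Unit ⊕ Fin r) (Unit ⊕ Fin r)
        (PowerSeries (MonoidAlgebra ℚ G))) 1 m) := by
    intro m
    have d1 : lam (1 : Matrix (Unit ⊕ Fin r) (Unit ⊕ Fin r)
        (PowerSeries (MonoidAlgebra ℚ G))) 1 m = 0 := by
      unfold lam
      rw [one_map_th, Matrix.mul_zero, map_zero]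
    have d2 : lam b bi m = T0 ℚ G (PowerSeries.coeff m (eqs φ s * th (eqs φ si))) := by
      unfold lam
      rw [trc_apply]
      congr 2
      have d3 : b.map th = Matrix.fromBlocks (Matrix.of fun _ _ => th (eqs φ si)) 0 0 0 := by
        show (dg (eqs φ si) : Matrix (Unit ⊕ Fin r) (Unit ⊕ Fin r)
          (PowerSeries (MonoidAlgebra ℚ G))).map th = _
        unfold dg
        rw [Matrix.fromBlocks_map, one_map_th]
        congr 1
        · ext i j : 1
          simp
        · ext i j : 1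
          simp
      rw [d3]
      show ((dg (eqs φ s) : Matrix (Unit ⊕ Fin r) (Unit ⊕ Fin r)
        (PowerSeries (MonoidAlgebra ℚ G))) * _).trace = _
      unfold dg
      rw [Matrix.fromBlocks_multiply]
      simp only [Matrix.mul_zero, Matrix.zero_mul, add_zero, of_mul_of]
      simp [Matrix.trace, Fintype.sum_sum_type]
    rw [d1, d2, sub_zero, th_map, ← map_mul, hth]
    simp
  have : (fun m => T0 ℚ G (PowerSeries.coeff m (eqs φ (si * th s)))) = fun m =>
      - (lam b bi m - lam (1 : Matrix (Unit ⊕ Fin r) (Unit ⊕ Fin r)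
        (PowerSeries (MonoidAlgebra ℚ G))) 1 m) := funext key
  rw [this]
  exact hneg

end Pool.Agent.NIL
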