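import Pool.Agent.NIL.St3
import Pool.Agent.NIL.P_NG2

/-!
# Module NBLK: several invertible modules with stably free sum
-/

set_option autoImplicit false

noncomputable section

namespace Pool.Agent.NIL

namespace NBLKx

open NG2x

theorem tw' {B : Type} [Ring B] {κ ν μ : Type} [Fintype κ] [DecidableEq κ] [Fintype ν]
    [DecidableEq ν] [Fintype μ] [DecidableEq μ] {e : Matrix κ κ B} {x : Matrix κ ν B}
    {y : Matrix ν κ B} {X : Matrix (κ ⊕ μ) (ν ⊕ μ) B} {Y : Matrix (ν ⊕ μ) (κ ⊕ μ) B}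
    (hxy : x * y = e) (hyx : y * x = 1) (hXY : X * Y = Matrix.fromBlocks e 0 0 1) (hYX : Y * X = 1) :
    (Y * (Matrix.fromBlocks x 0 0 1 : Matrix (κ ⊕ μ) (ν ⊕ μ) B)) *
      ((Matrix.fromBlocks y 0 0 1 : Matrix (ν ⊕ μ) (κ ⊕ μ) B) * X) = 1 ∧
    ((Matrix.fromBlocks y 0 0 1 : Matrix (ν ⊕ μ) (κ ⊕ μ) B) * X) *
      (Y * (Matrix.fromBlocks x 0 0 1 : Matrix (κ ⊕ μ) (ν ⊕ μ) B)) = 1 := by
  have h1 : (Matrix.fromBlocks x 0 0 1 : Matrix (κ ⊕ μ) (ν ⊕ μ) B) *
      (Matrix.fromBlocks y 0 0 1 : Matrix (ν ⊕ μ) (κ ⊕ μ) B) = X * Y := by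
    rw [Matrix.fromBlocks_multiply, hXY]
    simp [hxy]
  constructor
  · calc (Y * (Matrix.fromBlocks x 0 0 1 : Matrix (κ ⊕ μ) (ν ⊕ μ) B)) *
          ((Matrix.fromBlocks y 0 0 1 : Matrix (ν ⊕ μ) (κ ⊕ μ) B) * X)
        = Y * ((Matrix.fromBlocks x 0 0 1 : Matrix (κ ⊕ μ) (ν ⊕ μ) B) *
          (Matrix.fromBlocks y 0 0 1 : Matrix (ν ⊕ μ) (κ ⊕ μ) B)) * X := by
          simp only [Matrix.mul_assoc]
      _ = (Y * X) * (Y * X) := by rw [h1]; simp only [Matrix.mul_assoc]
      _ = 1 := by rw [hYX, Matrix.mul_one]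
  · calc ((Matrix.fromBlocks y 0 0 1 : Matrix (ν ⊕ μ) (κ ⊕ μ) B) * X) *
          (Y * (Matrix.fromBlocks x 0 0 1 : Matrix (κ ⊕ μ) (ν ⊕ μ) B))
        = (Matrix.fromBlocks y 0 0 1 : Matrix (ν ⊕ μ) (κ ⊕ μ) B) * (X * Y) *
          (Matrix.fromBlocks x 0 0 1 : Matrix (κ ⊕ μ) (ν ⊕ μ) B) := by
          simp only [Matrix.mul_assoc]
      _ = 1 := by
          rw [hXY, Matrix.fromBlocks_multiply, Matrix.fromBlocks_multiply]
          have : y * e * x = 1 := by
            rw [← hxy, ← Matrix.mul_assoc, hyx, Matrix.one_mul, hyx]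
          simp [this]

section Blocks

variable {ι : Type} [Fintype ι] [DecidableEq ι] {k : ι → ℕ} {B C : Type} [Ring B] [Ring C]

/-- The block diagonal matrix of columns. -/
def bx (x : ∀ i, Matrix (Fin (k i)) Unit B) : Matrix ((i : ι) × Fin (k i)) ι B :=
  Matrix.of fun p j => if p.1 = j then x p.1 p.2 () else 0

/-- The block diagonal matrix of rows. -/
def bY (y : ∀ i, Matrix Unit (Fin (k i)) B) : Matrix ι ((i : ι) × Fin (k i)) B :=
  Matrix.of fun j p => if p.1 = j then y p.1 () p.2 else 0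

theorem bx_mul_bY (x : ∀ i, Matrix (Fin (k i)) Unit B) (y : ∀ i, Matrix Unit (Fin (k i)) B) :
    bx x * bY y = Matrix.blockDiagonal' fun i => x i * y i := by
  refine Matrix.ext fun p q => ?_
  obtain ⟨i, a⟩ := p
  obtain ⟨i', b⟩ := q
  rw [Matrix.mul_apply, Matrix.blockDiagonal'_apply]
  simp only [bx, bY, Matrix.of_apply, ite_mul, zero_mul, Finset.sum_ite_eq, Finset.mem_univ,
    if_true, mul_ite, mul_zero]
  by_cases h : i = i'
  · subst h
    simp [Matrix.mul_apply]
  · rw [dif_neg h, if_neg h]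

theorem bY_mul_bx (x : ∀ i, Matrix (Fin (k i)) Unit B) (y : ∀ i, Matrix Unit (Fin (k i)) B) :
    bY y * bx x = Matrix.diagonal fun i => (y i * x i) () () := by
  refine Matrix.ext fun j j' => ?_
  rw [Matrix.mul_apply, Fintype.sum_sigma, Matrix.diagonal_apply]
  simp only [bx, bY, Matrix.of_apply]
  rw [Finset.sum_eq_single j]
  · by_cases h : j = j'
    · subst h
      simp [Matrix.mul_apply]
    · simp [h]
  · intro i _ hi
    simp [hi]
  · intro h
    exact absurd (Finset.mem_univ _) h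

theorem bx_mul_diag (x : ∀ i, Matrix (Fin (k i)) Unit B) (c : ι → B) :
    bx x * Matrix.diagonal c = bx fun i => x i * oo (c i) := by
  refine Matrix.ext fun p j => ?_
  rw [Matrix.mul_diagonal]
  simp only [bx, Matrix.of_apply]
  by_cases h : p.1 = j
  · subst h
    simp [Matrix.mul_apply]
  · simp [h]

omit [Fintype ι] in
theorem bx_map (x : ∀ i, Matrix (Fin (k i)) Unit B) (f : B →+* C) :
    (bx x).map f = bx fun i => (x i).map f := by
  refine Matrix.ext fun p j => ?_
  simp only [bx, Matrix.of_apply, Matrix.map_apply]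
  split_ifs <;> simp

omit [Fintype ι] in
theorem diag_one_of (c : ι → B) (h : ∀ i, c i = 1) : Matrix.diagonal c = 1 := by
  rw [← Matrix.diagonal_one]
  congr 1
  funext i
  exact h i

end Blocks

end NBLKx

open NBLKx NG2x in
theorem t_NBLK (hND : St_ND) : St_NBLK := by
  intro G ι _ _ _ A _ _ φ k e he d hst si hsi
  classical
  obtain ⟨r, X, Y, hXY, hYX⟩ := hst
  have hvec := fun i => integral_vectors (e i) (he i) (d i)
  choose x' y' h1 h2 h3 using hvec
  -- the maps induced by `φ`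
  let ez : ∀ i, PowerSeries (MonoidAlgebra ℤ (A i)) →+* PowerSeries (MonoidAlgebra ℤ G) :=
    fun i => PowerSeries.map (MonoidAlgebra.mapDomainRingHom ℤ (φ i))
  let eq' : ∀ i, Polynomial (MonoidAlgebra ℚ (A i)) →+* Polynomial (MonoidAlgebra ℚ G) :=
    fun i => Polynomial.mapRingHom (MonoidAlgebra.mapDomainRingHom ℚ (φ i))
  let X1 := X.map (ps (MonoidAlgebra ℤ G))
  let Y1 := Y.map (ps (MonoidAlgebra ℤ G))
  let X2 := X.map (iqp G)
  let Y2 := Y.map (iqp G)
  have n1 : ∀ i, ((e i).map (ext (φ i))).map (ps (MonoidAlgebra ℤ G)) =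
      ((e i).map (ps _)).map (ez i) := by
    intro i
    ext a b : 1
    simp only [Matrix.map_apply]
    exact ps_map _ _
  have n2 : ∀ i, ((e i).map (ext (φ i))).map (iqp G) = ((e i).map (iqp (A i))).map (eq' i) := by
    intro i
    ext a b : 1
    refine Polynomial.ext fun n => ?_
    simp only [Matrix.map_apply, eq', ext, iqp, Polynomial.coe_mapRingHom, Polynomial.coeff_map]
    exact iq_nat (φ i) _
  have n3 : ∀ i (z : PowerSeries (MonoidAlgebra ℤ (A i))),
      iqs G (ez i z) = eqs (φ i) (iqs (A i) z) := by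
    intro i z
    ext n : 1
    simp only [ez, PowerSeries.coeff_map]
    exact iq_nat (φ i) _
  have hX1 : X1 * Y1 = Matrix.fromBlocks
      (Matrix.blockDiagonal' fun i => ((e i).map (ps _)).map (ez i)) 0 0 1 := by
    rw [← Matrix.map_mul, hXY, Matrix.fromBlocks_map, Matrix.blockDiagonal'_map]
    · simp only [n1]
      simp
    · exact map_zero _
  have hY1 : Y1 * X1 = 1 := by
    rw [← Matrix.map_mul, hYX]
    simp
  have hX2 : X2 * Y2 = Matrix.fromBlocks
      (Matrix.blockDiagonal' fun i => ((e i).map (iqp (A i))).map (eq' i)) 0 0 1 := by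
    rw [← Matrix.map_mul, hXY, Matrix.fromBlocks_map, Matrix.blockDiagonal'_map]
    · simp only [n2]
      simp
    · exact map_zero _
  have hY2 : Y2 * X2 = 1 := by
    rw [← Matrix.map_mul, hYX]
    simp
  have hv := tw' (x := bx fun i => (x' i).map (ez i)) (y := bY fun i => (y' i).map (ez i))
    (by
      rw [bx_mul_bY]
      congr 1
      funext i
      rw [← Matrix.map_mul, h1])
    (by
      rw [bY_mul_bx]
      refine diag_one_of _ fun i => ?_
      rw [← Matrix.map_mul, h2]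
      simp) hX1 hY1
  have hu := tw' (x := bx fun i => (d i).x.map (eq' i)) (y := bY fun i => (d i).y.map (eq' i))
    (by
      rw [bx_mul_bY]
      congr 1
      funext i
      rw [← Matrix.map_mul, (d i).h1])
    (by
      rw [bY_mul_bx]
      refine diag_one_of _ fun i => ?_
      rw [← Matrix.map_mul, (d i).h1']
      simp) hX2 hY2
  set v := Y1 * (Matrix.fromBlocks (bx fun i => (x' i).map (ez i)) 0 0 1 :
    Matrix (((i : ι) × Fin (k i)) ⊕ Fin r) (ι ⊕ Fin r) _) with hvdef
  set vi := (Matrix.fromBlocks (bY fun i => (y' i).map (ez i)) 0 0 1 :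
    Matrix (ι ⊕ Fin r) (((i : ι) × Fin (k i)) ⊕ Fin r) _) * X1 with hvidef
  set u := Y2 * (Matrix.fromBlocks (bx fun i => (d i).x.map (eq' i)) 0 0 1 :
    Matrix (((i : ι) × Fin (k i)) ⊕ Fin r) (ι ⊕ Fin r) _) with hudef
  set ui := (Matrix.fromBlocks (bY fun i => (d i).y.map (eq' i)) 0 0 1 :
    Matrix (ι ⊕ Fin r) (((i : ι) × Fin (k i)) ⊕ Fin r) _) * X2 with huidef
  set s : ∀ i, PowerSeries (MonoidAlgebra ℚ (A i)) := fun i => ps _ (d i).s with hs
  have hsi1 : ∀ i, s i * si i = 1 := hsi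
  have hsi' : ∀ i, si i * s i = 1 := fun i => by rw [mul_comm]; exact hsi i
  let b : Matrix (ι ⊕ Fin r) (ι ⊕ Fin r) (PowerSeries (MonoidAlgebra ℚ G)) :=
    dgm fun i => eqs (φ i) (si i)
  let bi : Matrix (ι ⊕ Fin r) (ι ⊕ Fin r) (PowerSeries (MonoidAlgebra ℚ G)) :=
    dgm fun i => eqs (φ i) (s i)
  have dgmul : ∀ a c : ι → PowerSeries (MonoidAlgebra ℚ G), (∀ i, a i * c i = 1) →
      (dgm a * dgm c : Matrix (ι ⊕ Fin r) (ι ⊕ Fin r) (PowerSeries (MonoidAlgebra ℚ G))) = 1 := by
    intro a c hac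
    unfold dgm
    rw [Matrix.fromBlocks_multiply]
    simp only [Matrix.mul_zero, Matrix.zero_mul, add_zero, Matrix.mul_one, zero_add]
    rw [Matrix.diagonal_mul_diagonal, diag_one_of _ hac, Matrix.fromBlocks_one]
  have hb1 : b * bi = 1 := dgmul _ _ fun i => by rw [← map_mul, hsi', map_one]
  have hb2 : bi * b = 1 := dgmul _ _ fun i => by rw [← map_mul, hsi1, map_one]
  have hrel : (1 : Matrix (ι ⊕ Fin r) (ι ⊕ Fin r) (PowerSeries (MonoidAlgebra ℚ G))) *
      v.map (iqs G) = u.map (ps _) * b := by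
    rw [Matrix.one_mul]
    have hY12 : Y2.map (ps _) = Y1.map (iqs G) := by
      ext i j : 1
      simp only [Matrix.map_apply, Y1, Y2]
      exact ps_map _ _
    have c1 : (bx fun i => (x' i).map (ez i)).map (iqs G) =
        bx fun i => ((x' i).map (iqs (A i))).map (eqs (φ i)) := by
      rw [bx_map]
      congr 1
      funext i
      ext a b : 1
      simp only [Matrix.map_apply]
      exact n3 i _
    have c2 : (bx fun i => (d i).x.map (eq' i)).map (ps _) =
        bx fun i => ((d i).x.map (ps _)).map (eqs (φ i)) := by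
      rw [bx_map]
      congr 1
      funext i
      ext a b : 1
      simp only [Matrix.map_apply]
      exact ps_map _ _
    have c3 : (bx fun i => ((d i).x.map (ps _)).map (eqs (φ i))) *
        Matrix.diagonal (fun i => eqs (φ i) (si i)) =
        bx fun i => ((x' i).map (iqs (A i))).map (eqs (φ i)) := by
      rw [bx_mul_diag]
      congr 1
      funext i
      rw [h3, Matrix.map_mul, Matrix.mul_assoc]
      have c4 : (oo (s i)).map (eqs (φ i)) = oo (eqs (φ i) (s i)) := by
        ext i j : 1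
        rfl
      have c5 : (oo (ps (MonoidAlgebra ℚ (A i)) (d i).s)).map (eqs (φ i)) =
        oo (eqs (φ i) (s i)) := c4
      rw [c5, of_mul_of, ← map_mul, hsi1, map_one, of_one, Matrix.mul_one]
    rw [hvdef, hudef, Matrix.map_mul, Matrix.map_mul, Matrix.fromBlocks_map, Matrix.fromBlocks_map,
      hY12, c1, c2, Matrix.mul_assoc]
    congr 1
    have hb : b = Matrix.fromBlocks (Matrix.diagonal fun i => eqs (φ i) (si i)) 0 0 1 := rfl
    rw [hb, Matrix.fromBlocks_multiply]
    clear c1 c2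
    generalize (bx fun i => ((d i).x.map (ps _)).map (eqs (φ i))) = P at c3 ⊢
    generalize (bx fun i => ((x' i).map (iqs (A i))).map (eqs (φ i))) = Q at c3 ⊢
    simp [c3]
  have hWF := hND G (ι ⊕ Fin r) v vi u ui 1 1 b bi hv.1 hv.2 hu.1 hu.2 (by simp) (by simp)
    hb1 hb2 hrel
  have hneg := hWF.neg
  have hth : ∀ i, s i * th (si i) = - (si i * th (s i)) := by
    intro i
    have h4 := th_mul (s i) (si i)
    rw [hsi1, th_one] at h4
    have h5 : th (s i) * si i = si i * th (s i) := mul_comm _ _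
    rw [h5] at h4
    exact eq_neg_of_add_eq_zero_right h4.symm
  have key : ∀ m : ℕ, ∑ i, T0 ℚ G (PowerSeries.coeff m (eqs (φ i) (si i * th (s i)))) =
      - (lam b bi m - lam (1 : Matrix (ι ⊕ Fin r) (ι ⊕ Fin r)
        (PowerSeries (MonoidAlgebra ℚ G))) 1 m) := by
    intro m
    have d1 : lam (1 : Matrix (ι ⊕ Fin r) (ι ⊕ Fin r)
        (PowerSeries (MonoidAlgebra ℚ G))) 1 m = 0 := by
      unfold lam
      rw [one_map_th, Matrix.mul_zero, map_zero]
    have d2 : lam b bi m = ∑ i, T0 ℚ G (PowerSeries.coeff m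
        (eqs (φ i) (s i) * th (eqs (φ i) (si i)))) := by
      unfold lam
      rw [trc_apply, ← map_sum, ← map_sum]
      congr 2
      have d3 : b.map th = Matrix.fromBlocks
          (Matrix.diagonal fun i => th (eqs (φ i) (si i))) 0 0 0 := by
        show (dgm (fun i => eqs (φ i) (si i)) : Matrix (ι ⊕ Fin r) (ι ⊕ Fin r)
          (PowerSeries (MonoidAlgebra ℚ G))).map th = _
        unfold dgm
        rw [Matrix.fromBlocks_map, one_map_th]
        congr 1
        · rw [Matrix.diagonal_map (map_zero th)]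
        · ext i j : 1
          simp
        · ext i j : 1
          simp
      rw [d3]
      show ((dgm (fun i => eqs (φ i) (s i)) : Matrix (ι ⊕ Fin r) (ι ⊕ Fin r)
        (PowerSeries (MonoidAlgebra ℚ G))) * _).trace = _
      unfold dgm
      rw [Matrix.fromBlocks_multiply]
      simp only [Matrix.mul_zero, Matrix.zero_mul, add_zero, Matrix.diagonal_mul_diagonal]
      simp [Matrix.trace, Fintype.sum_sum_type]
    rw [d1, d2, sub_zero, ← Finset.sum_neg_distrib]
    refine Finset.sum_congr rfl fun i _ => ?_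
    rw [th_map, ← map_mul, hth]
    simp
  have : (fun m => ∑ i, T0 ℚ G (PowerSeries.coeff m (eqs (φ i) (si i * th (ps _ (d i).s))))) =
      fun m => - (lam b bi m - lam (1 : Matrix (ι ⊕ Fin r) (ι ⊕ Fin r)
        (PowerSeries (MonoidAlgebra ℚ G))) 1 m) := funext key
  rw [this]
  exact hneg

end Pool.Agent.NIL
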