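import Pool.Agent.NIL.St

/-!
# Module NC: vanishing at the elements of finite order for invertible matrices over `ℚ[G][t]`
-/

set_option autoImplicit false

noncomputable section

namespace Pool.Agent.NIL

namespace NCx

/-- the coefficient map -/
abbrev cm (G : Type) [Group G] {k k' : Type} [CommRing k] [CommRing k'] (φ : k →+* k') :
    MonoidAlgebra k G →+* MonoidAlgebra k' G := MonoidAlgebra.mapRingHom G φ

section

variable {G : Type} [Group G]

theorem cm_single {k k' : Type} [CommRing k] [CommRing k'] (φ : k →+* k') (g : G) (a : k) :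
    cm G φ (MonoidAlgebra.single g a) = MonoidAlgebra.single g (φ a) := by
  simp

theorem T0_map {k k' : Type} [CommRing k] [CommRing k'] (φ : k →+* k')
    (x : MonoidAlgebra k G) (c : ConjClasses G) : T0 k' G (cm G φ x) c = φ (T0 k G x c) := by
  classical
  induction x using MonoidAlgebra.induction_linear with
  | zero => simp
  | add x y hx hy => rw [map_add, map_add, map_add, Finsupp.add_apply, Finsupp.add_apply, hx, hy,
      map_add]
  | single g a =>
    rw [cm_single, T0_single, T0_single, Finsupp.single_apply, Finsupp.single_apply]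
    split_ifs <;> simp

theorem ps_map {R S : Type} [Ring R] [Ring S] (ψ : R →+* S) (f : Polynomial R) :
    ps S (f.map ψ) = PowerSeries.map ψ (ps R f) := by
  ext n
  simp [Polynomial.coeff_coe]

theorem th_map {R S : Type} [Ring R] [Ring S] (ψ : R →+* S) (f : PowerSeries R) :
    th (PowerSeries.map ψ f) = PowerSeries.map ψ (th f) := by
  ext n
  rw [coeff_th, PowerSeries.coeff_map, PowerSeries.coeff_map, coeff_th, map_nsmul]

variable {ι : Type} [Fintype ι]

/-- the traces of `U' θ U` -/
def L {k : Type} [CommRing k] (U U' : Matrix ι ι (Polynomial (MonoidAlgebra k G))) (m : ℕ) :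
    ConjClasses G →₀ k := lam (U.map (ps _)) (U'.map (ps _)) m

theorem L_map {k k' : Type} [CommRing k] [CommRing k'] (φ : k →+* k')
    (U U' : Matrix ι ι (Polynomial (MonoidAlgebra k G))) (m : ℕ) (c : ConjClasses G) :
    L (U.map (Polynomial.map (cm G φ))) (U'.map (Polynomial.map (cm G φ))) m c =
      φ (L U U' m c) := by
  unfold L lam
  rw [trc_apply, trc_apply, ← T0_map φ]
  congr 2
  rw [← PowerSeries.coeff_map]
  congr 1
  simp only [Matrix.trace, Matrix.diag, Matrix.mul_apply, Matrix.map_apply, map_sum, map_mul]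
  refine Finset.sum_congr rfl fun i _ => Finset.sum_congr rfl fun j _ => ?_
  rw [ps_map, ps_map, th_map]

theorem lam_smul {k : Type} [CommRing k] (v vi : Matrix ι ι (PowerSeries (MonoidAlgebra k G)))
    (a b m : ℕ) : lam (a • v) (b • vi) m = (a * b) • lam v vi m := by
  have h1 : (a • v).map th = a • v.map th := by
    ext i j : 2
    simp only [Matrix.map_apply, Matrix.smul_apply, map_nsmul]
  unfold lam
  rw [h1, Matrix.smul_mul, Matrix.mul_smul, smul_smul, map_nsmul, mul_comm]

/-- the traces vanish in large degrees -/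
theorem L_large {k : Type} [CommRing k] (U U' : Matrix ι ι (Polynomial (MonoidAlgebra k G)))
    (m : ℕ) (hm : ∑ i, ∑ j, ((U' i j).natDegree + (U j i).natDegree) < m) : L U U' m = 0 := by
  unfold L lam
  rw [trc_apply]
  have h1 : PowerSeries.coeff m (U'.map (ps _) * (U.map (ps _)).map th).trace = 0 := by
    simp only [Matrix.trace, Matrix.diag, Matrix.mul_apply, Matrix.map_apply, map_sum]
    refine Finset.sum_eq_zero fun i _ => Finset.sum_eq_zero fun j _ => ?_
    rw [PowerSeries.coeff_mul]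
    refine Finset.sum_eq_zero fun x hx => ?_
    have hx' := Finset.HasAntidiagonal.mem_antidiagonal.1 hx
    have hle : (U' i j).natDegree + (U j i).natDegree < m := by
      refine lt_of_le_of_lt ?_ hm
      have e1 : (U' i j).natDegree + (U j i).natDegree ≤
          ∑ j, ((U' i j).natDegree + (U j i).natDegree) :=
        Finset.single_le_sum (f := fun j => (U' i j).natDegree + (U j i).natDegree)
          (fun _ _ => Nat.zero_le _) (Finset.mem_univ j)
      have e2 : ∑ j, ((U' i j).natDegree + (U j i).natDegree) ≤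
          ∑ i, ∑ j, ((U' i j).natDegree + (U j i).natDegree) :=
        Finset.single_le_sum (f := fun i => ∑ j, ((U' i j).natDegree + (U j i).natDegree))
          (fun _ _ => Nat.zero_le _) (Finset.mem_univ i)
      exact e1.trans e2
    rw [coeff_th]
    by_cases h : (U' i j).natDegree < x.1
    · have e1 : PowerSeries.coeff x.1 (ps _ (U' i j)) = 0 := by
        simp only [Polynomial.coeToPowerSeries.ringHom_apply, Polynomial.coeff_coe]
        exact Polynomial.coeff_eq_zero_of_natDegree_lt h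
      rw [e1, zero_mul]
    · have e1 : PowerSeries.coeff x.2 (ps _ (U j i)) = 0 := by
        simp only [Polynomial.coeToPowerSeries.ringHom_apply, Polynomial.coeff_coe]
        exact Polynomial.coeff_eq_zero_of_natDegree_lt (by omega)
      rw [e1, smul_zero, mul_zero]
  rw [h1, map_zero]

/-! ### Denominators -/

theorem pm_nsmul {R S : Type} [Ring R] [Ring S] (ψ : R →+* S) (n : ℕ) (f : Polynomial R) :
    Polynomial.map ψ (n • f) = n • Polynomial.map ψ f :=
  map_nsmul (Polynomial.mapRingHom ψ) n f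

theorem den_add {A B : Type} [AddCommGroup A] [AddCommGroup B] (F : A →+ B) {x y : B} {N M : ℕ}
    {a b : A} (ha : F a = N • x) (hb : F b = M • y) : F (M • a + N • b) = (N * M) • (x + y) := by
  rw [map_add, map_nsmul, map_nsmul, ha, hb, smul_smul, smul_smul, smul_add, mul_comm M N]

theorem den_poly (f : Polynomial (MonoidAlgebra ℚ G)) :
    ∃ (N : ℕ) (a : Polynomial (MonoidAlgebra ℤ G)), 0 < N ∧
      a.map (cm G (Int.castRingHom ℚ)) = N • f := by
  induction f using Polynomial.induction_on' with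
  | add f g hf hg =>
    obtain ⟨N, a, hN, ha⟩ := hf
    obtain ⟨M, b, hM, hb⟩ := hg
    exact ⟨N * M, M • a + N • b, Nat.mul_pos hN hM,
      den_add (Polynomial.mapRingHom (cm G (Int.castRingHom ℚ))).toAddMonoidHom ha hb⟩
  | monomial n x =>
    induction x using MonoidAlgebra.induction_linear with
    | zero => exact ⟨1, 0, one_pos, by simp⟩
    | add x y hx hy =>
      obtain ⟨N, a, hN, ha⟩ := hx
      obtain ⟨M, b, hM, hb⟩ := hy
      refine ⟨N * M, M • a + N • b, Nat.mul_pos hN hM, ?_⟩
      rw [map_add]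
      exact den_add (Polynomial.mapRingHom (cm G (Int.castRingHom ℚ))).toAddMonoidHom ha hb
    | single g q =>
      refine ⟨q.den, Polynomial.monomial n (MonoidAlgebra.single g q.num), q.den_pos, ?_⟩
      rw [Polynomial.map_monomial, cm_single, ← map_nsmul]
      congr 1
      have h1 : (q.den : ℕ) • MonoidAlgebra.single g q = MonoidAlgebra.single g ((q.den : ℕ) • q) :=
        by simp
      rw [h1, nsmul_eq_mul, mul_comm, Rat.mul_den_eq_num]
      simp

theorem den_matrix (u : Matrix ι ι (Polynomial (MonoidAlgebra ℚ G))) :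
    ∃ (N : ℕ) (U : Matrix ι ι (Polynomial (MonoidAlgebra ℤ G))), 0 < N ∧
      U.map (Polynomial.map (cm G (Int.castRingHom ℚ))) = N • u := by
  classical
  choose N a hN ha using fun i j => den_poly (u i j)
  have hd : ∀ i j, N i j ∣ ∏ i, ∏ j, N i j := fun i j =>
    (Finset.dvd_prod_of_mem (fun j => N i j) (Finset.mem_univ j)).trans
      (Finset.dvd_prod_of_mem (fun i => ∏ j, N i j) (Finset.mem_univ i))
  choose q hq using hd
  refine ⟨∏ i, ∏ j, N i j, Matrix.of fun i j => q i j • a i j,
    Finset.prod_pos fun i _ => Finset.prod_pos fun j _ => hN i j, ?_⟩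
  ext i j : 2
  rw [Matrix.map_apply, Matrix.of_apply, pm_nsmul, ha, smul_smul, mul_comm (q i j), ← hq,
    Matrix.smul_apply]

theorem map_inj : Function.Injective
    (Polynomial.map (cm G (Int.castRingHom ℚ)) : Polynomial (MonoidAlgebra ℤ G) → _) := by
  apply Polynomial.map_injective
  exact MonoidAlgebra.map_injective (M := G) (Int.castRingHom ℚ : ℤ →+ ℚ) Int.cast_injective

/-! ### The power map -/

theorem Phi_val {k : Type} [CommRing k] (p : ℕ) (f : ConjClasses G →₀ k) (c : ConjClasses G)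
    (hc : cpow p c = c) (h : ∀ d, f d ≠ 0 → cpow p d = c → d = c) : Phi k G p f c = f c := by
  classical
  have e1 : Phi k G p f c = ∑ d ∈ f.support, (Finsupp.single (cpow p d) (f d)) c := by
    change (Finsupp.mapDomain (cpow p) f) c = _
    rw [Finsupp.mapDomain, Finsupp.sum_apply, Finsupp.sum]
  rw [e1, Finset.sum_eq_single c]
  · rw [hc, Finsupp.single_eq_same]
  · intro d hd hdc
    rw [Finsupp.single_apply, if_neg]
    intro h1
    exact hdc (h d (Finsupp.mem_support_iff.1 hd) h1)
  · intro h1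
    rw [hc, Finsupp.single_eq_same]
    exact Finsupp.notMem_support_iff.1 h1

theorem pow_eq_self {x : G} {p N : ℕ} (hp : p ≡ 1 [MOD N]) (hx : orderOf x ∣ N) : x ^ p = x := by
  have h1 : p ≡ 1 [MOD orderOf x] := hp.of_dvd hx
  have h2 := (pow_eq_pow_iff_modEq (x := x)).2 h1
  rwa [pow_one] at h2

theorem fin_of_conj {x g : G} {p : ℕ} (hp : p ≠ 0) (hg : IsOfFinOrder g)
    (h : cpow p (ConjClasses.mk x) = ConjClasses.mk g) : IsOfFinOrder x := by
  rw [cpow_mk, ConjClasses.mk_eq_mk_iff_isConj] at h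
  obtain ⟨c, hc⟩ := isConj_iff.1 h
  have h1 : IsOfFinOrder (x ^ p) := by
    rw [isOfFinOrder_iff_pow_eq_one] at hg ⊢
    obtain ⟨n, hn, hgn⟩ := hg
    refine ⟨n, hn, ?_⟩
    rw [← hc, conj_pow, conj_eq_one_iff] at hgn
    exact hgn
  exact h1.of_pow hp

/-! ### The congruence -/

variable [DecidableEq ι]

theorem congr_mod (hNM2 : St_NM2) (U U' : Matrix ι ι (Polynomial (MonoidAlgebra ℤ G))) (Q : ℕ)
    (h1 : U * U' = (Q ^ 2) • (1 : Matrix ι ι (Polynomial (MonoidAlgebra ℤ G))))
    (h2 : U' * U = (Q ^ 2) • (1 : Matrix ι ι (Polynomial (MonoidAlgebra ℤ G))))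
    (p : ℕ) (hp : p.Prime) (hpQ : ¬ p ∣ Q) (m : ℕ) (hm : 1 ≤ m) :
    L (U.map (Polynomial.map (cm G (Int.castRingHom (ZMod p)))))
      (U'.map (Polynomial.map (cm G (Int.castRingHom (ZMod p))))) (p * m) =
    Phi (ZMod p) G p (L (U.map (Polynomial.map (cm G (Int.castRingHom (ZMod p)))))
      (U'.map (Polynomial.map (cm G (Int.castRingHom (ZMod p))))) m) := by
  have := Fact.mk hp
  have hQ0 : ((Q : ZMod p)) ^ 2 ≠ 0 := by
    apply pow_ne_zero
    intro h
    exact hpQ ((ZMod.natCast_eq_zero_iff _ _).1 h)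
  obtain ⟨c, hc⟩ : ∃ c : ℕ, (c : ZMod p) * (Q : ZMod p) ^ 2 = 1 :=
    ⟨((Q : ZMod p) ^ 2)⁻¹.val, by
      rw [ZMod.natCast_val, ZMod.cast_id', id_eq, inv_mul_cancel₀ hQ0]⟩
  have hc' : (((c * Q ^ 2 : ℕ)) : ZMod p) = 1 := by
    push_cast
    exact hc
  set Ub := U.map (Polynomial.map (cm G (Int.castRingHom (ZMod p)))) with hUb
  set Ub' := U'.map (Polynomial.map (cm G (Int.castRingHom (ZMod p)))) with hUb'
  -- products
  have mm : ∀ A B : Matrix ι ι (Polynomial (MonoidAlgebra ℤ G)),
      A * B = (Q ^ 2) • (1 : Matrix ι ι (Polynomial (MonoidAlgebra ℤ G))) →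
      (A.map (Polynomial.map (cm G (Int.castRingHom (ZMod p))))).map (ps _) *
        (B.map (Polynomial.map (cm G (Int.castRingHom (ZMod p))))).map (ps _) =
      (Q ^ 2) • (1 : Matrix ι ι (PowerSeries (MonoidAlgebra (ZMod p) G))) := by
    intro A B hAB
    let F : Polynomial (MonoidAlgebra ℤ G) →+* PowerSeries (MonoidAlgebra (ZMod p) G) :=
      (ps _).comp (Polynomial.mapRingHom (cm G (Int.castRingHom (ZMod p))))
    have e1 : ∀ A : Matrix ι ι (Polynomial (MonoidAlgebra ℤ G)),
        (A.map (Polynomial.map (cm G (Int.castRingHom (ZMod p))))).map (ps _) =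
          F.mapMatrix A := fun A => rfl
    rw [e1, e1, ← map_mul, hAB, map_nsmul, map_one]
  have e1 := mm U U' h1
  have e2 := mm U' U h2
  rw [← hUb, ← hUb'] at e1 e2
  have key : ∀ (M : Type) [AddCommGroup M] [Module (ZMod p) M] (x : M),
      (c * Q ^ 2) • x = x := by
    intro M _ _ x
    rw [← Nat.cast_smul_eq_nsmul (ZMod p), hc', one_smul]
  have f1 : Ub.map (ps _) * (c • Ub'.map (ps _)) = 1 := by
    rw [Matrix.mul_smul, e1, smul_smul, key]
  have f2 : (c • Ub'.map (ps _)) * Ub.map (ps _) = 1 := by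
    rw [Matrix.smul_mul, e2, smul_smul, key]
  have h3 := hNM2 G ι p hp _ _ f1 f2 m hm
  have h4 : ∀ n, lam (Ub.map (ps _)) (c • Ub'.map (ps _)) n = c • L Ub Ub' n := by
    intro n
    have h5 := lam_smul (Ub.map (ps _)) (Ub'.map (ps _)) 1 c n
    rw [one_smul, one_mul] at h5
    exact h5
  rw [h4, h4, map_nsmul] at h3
  have h6 := congrArg (fun x => (Q ^ 2) • x) h3
  simp only [smul_smul] at h6
  rw [mul_comm, key, key] at h6
  exact h6

end

end NCx

open NCx in
theorem t_NC (hNM2 : St_NM2) : St_NC := by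
  intro G _ ι _ _ u ui hu hui m g hg
  -- degree zero
  rcases Nat.eq_zero_or_pos m with rfl | hm
  · have h0 : lam (u.map (ps _)) (ui.map (ps _)) 0 = 0 := by
      unfold lam
      rw [trc_apply]
      have h1 : PowerSeries.coeff 0 (ui.map (ps _) * (u.map (ps _)).map th).trace = 0 := by
        simp only [Matrix.trace, Matrix.diag, Matrix.mul_apply, Matrix.map_apply, map_sum]
        refine Finset.sum_eq_zero fun i _ => Finset.sum_eq_zero fun j _ => ?_
        rw [PowerSeries.coeff_mul]
        refine Finset.sum_eq_zero fun x hx => ?_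
        have hx' := Finset.HasAntidiagonal.mem_antidiagonal.1 hx
        have hx2 : x.2 = 0 := by omega
        rw [coeff_th, hx2, zero_smul, mul_zero]
      rw [h1, map_zero]
    rw [h0]
    rfl
  -- denominators
  obtain ⟨N₁, V, hN₁, hV⟩ := den_matrix u
  obtain ⟨N₂, V', hN₂, hV'⟩ := den_matrix ui
  obtain ⟨Q, hQ⟩ : ∃ Q, Q = N₁ * N₂ := ⟨_, rfl⟩
  have hQ0 : 0 < Q := by rw [hQ]; exact Nat.mul_pos hN₁ hN₂
  obtain ⟨U, hU⟩ : ∃ U, U = N₂ • V := ⟨_, rfl⟩
  obtain ⟨U', hU'⟩ : ∃ U', U' = N₁ • V' := ⟨_, rfl⟩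
  have ms : ∀ (n : ℕ) (A : Matrix ι ι (Polynomial (MonoidAlgebra ℤ G))),
      (n • A).map (Polynomial.map (cm G (Int.castRingHom ℚ))) =
        n • A.map (Polynomial.map (cm G (Int.castRingHom ℚ))) := by
    intro n A
    ext i j : 2
    rw [Matrix.map_apply, Matrix.smul_apply, pm_nsmul, Matrix.smul_apply, Matrix.map_apply]
  have eU : U.map (Polynomial.map (cm G (Int.castRingHom ℚ))) = Q • u := by
    rw [hU, ms, hV, smul_smul, mul_comm, ← hQ]
  have eU' : U'.map (Polynomial.map (cm G (Int.castRingHom ℚ))) = Q • ui := by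
    rw [hU', ms, hV', smul_smul, ← hQ]
  have prod : ∀ (A B : Matrix ι ι (Polynomial (MonoidAlgebra ℤ G)))
      (a b : Matrix ι ι (Polynomial (MonoidAlgebra ℚ G))), a * b = 1 →
      A.map (Polynomial.map (cm G (Int.castRingHom ℚ))) = Q • a →
      B.map (Polynomial.map (cm G (Int.castRingHom ℚ))) = Q • b →
      A * B = (Q ^ 2) • (1 : Matrix ι ι (Polynomial (MonoidAlgebra ℤ G))) := by
    intro A B a b hab hA hB
    let F : Polynomial (MonoidAlgebra ℤ G) →+* Polynomial (MonoidAlgebra ℚ G) :=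
      Polynomial.mapRingHom (cm G (Int.castRingHom ℚ))
    have hF : Function.Injective (F.mapMatrix (m := ι)) := by
      intro X Y hXY
      exact Matrix.ext fun i j => map_inj (congrFun (congrFun hXY i) j)
    apply hF
    have hA' : F.mapMatrix A = Q • a := hA
    have hB' : F.mapMatrix B = Q • b := hB
    rw [map_mul, map_nsmul, map_one, hA', hB', Matrix.smul_mul, Matrix.mul_smul, hab, smul_smul,
      pow_two]
  have hUU := prod U U' u ui hu eU eU'
  have hUU' := prod U' U ui u hui eU' eU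
  -- the integral traces
  have hl : ∀ n c, ((L U U' n c : ℤ) : ℚ) = (Q : ℚ) ^ 2 * lam (u.map (ps _)) (ui.map (ps _)) n c := by
    intro n c
    have h1 := L_map (Int.castRingHom ℚ) U U' n c
    rw [eU, eU'] at h1
    have h2 : ∀ (w : Matrix ι ι (Polynomial (MonoidAlgebra ℚ G))),
        (Q • w).map (ps _) = Q • w.map (ps _) := by
      intro w
      ext i j : 2
      rw [Matrix.map_apply, Matrix.smul_apply, map_nsmul, Matrix.smul_apply, Matrix.map_apply]
    unfold L at h1
    rw [h2, h2, lam_smul] at h1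
    change _ = ((L U U' n c : ℤ) : ℚ) at h1
    rw [← h1, Finsupp.smul_apply, nsmul_eq_mul]
    push_cast
    ring
  -- the common multiple of the orders
  classical
  obtain ⟨l, hldef⟩ : ∃ l, l = L U U' m := ⟨_, rfl⟩
  obtain ⟨N₀, hN₀⟩ : ∃ N₀ : ℕ, N₀ = orderOf g * ∏ c ∈ l.support,
      (if orderOf (Quotient.out c) = 0 then 1 else orderOf (Quotient.out c)) := ⟨_, rfl⟩
  have hN₀0 : N₀ ≠ 0 := by
    rw [hN₀]
    refine mul_ne_zero (orderOf_pos_iff.2 hg).ne' (Finset.prod_ne_zero_iff.2 fun c _ => ?_)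
    split_ifs with h
    · exact one_ne_zero
    · exact h
  obtain ⟨D, hD⟩ : ∃ D : ℕ, D = ∑ i, ∑ j, ((U' i j).natDegree + (U j i).natDegree) := ⟨_, rfl⟩
  obtain ⟨p, hp, hpb, hp1⟩ := Nat.exists_prime_gt_modEq_one
    (D + Q + (l (ConjClasses.mk g)).natAbs + 1) hN₀0
  have hpQ : ¬ p ∣ Q := by
    intro h
    have := Nat.le_of_dvd hQ0 h
    omega
  have hcong := congr_mod hNM2 U U' Q hUU hUU' p hp hpQ m hm
  have hlarge : L U U' (p * m) = 0 := by
    apply L_large
    have : p * 1 ≤ p * m := Nat.mul_le_mul_left p hm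
    omega
  have hval := DFunLike.congr_fun hcong (ConjClasses.mk g)
  rw [L_map, hlarge, Finsupp.zero_apply, map_zero, Phi_val] at hval
  · rw [L_map, ← hldef] at hval
    have h1 : ((l (ConjClasses.mk g) : ℤ) : ZMod p) = 0 := hval.symm
    have h2 : (p : ℤ) ∣ l (ConjClasses.mk g) := (ZMod.intCast_zmod_eq_zero_iff_dvd _ _).1 h1
    have h3 : l (ConjClasses.mk g) = 0 := by
      apply Int.eq_zero_of_dvd_of_natAbs_lt_natAbs h2
      rw [Int.natAbs_natCast]
      omega
    have h4 := hl m (ConjClasses.mk g)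
    rw [← hldef, h3, Int.cast_zero] at h4
    have h5 : (Q : ℚ) ^ 2 ≠ 0 := pow_ne_zero 2 (by exact_mod_cast hQ0.ne')
    exact (mul_eq_zero.1 h4.symm).resolve_left h5
  · rw [cpow_mk, pow_eq_self hp1]
    rw [hN₀]
    exact dvd_mul_right _ _
  · intro d hd hdg
    rw [L_map, ← hldef] at hd
    have hd' : d ∈ l.support := by
      rw [Finsupp.mem_support_iff]
      intro h
      apply hd
      rw [h, map_zero]
    have hdx : ConjClasses.mk (Quotient.out d) = d := Quotient.out_eq d
    rw [← hdx] at hdg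
    have hfin := fin_of_conj hp.ne_zero hg hdg
    have ho : orderOf (Quotient.out d) ≠ 0 := (orderOf_pos_iff.2 hfin).ne'
    have hdvd : orderOf (Quotient.out d) ∣ N₀ := by
      rw [hN₀]
      refine Dvd.dvd.mul_left ?_ _
      have h1 := Finset.dvd_prod_of_mem (fun c : ConjClasses G =>
        if orderOf (Quotient.out c) = 0 then 1 else orderOf (Quotient.out c)) hd'
      simp only [if_neg ho] at h1
      exact h1
    rw [cpow_mk, pow_eq_self hp1 hdvd, hdx] at hdg
    exact hdg

end Pool.Agent.NIL
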