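import Pool.Agent.NIL.St

/-!
# ND: the core
-/

set_option autoImplicit false

noncomputable section

namespace Pool.Agent.NIL

namespace NDx

/-- The coefficient embedding of the class functions. -/
def cf (G : Type) [Group G] : (ConjClasses G →₀ ℤ) →+ (ConjClasses G →₀ ℚ) :=
  Finsupp.mapRange.addMonoidHom (Int.castAddHom ℚ)

theorem cf_apply {G : Type} [Group G] (l : ConjClasses G →₀ ℤ) (c : ConjClasses G) :
    cf G l c = (l c : ℚ) := by
  simp [cf]

theorem cf_single {G : Type} [Group G] (c : ConjClasses G) (a : ℤ) :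
    cf G (Finsupp.single c a) = Finsupp.single c (a : ℚ) := by
  simp [cf]

theorem T0_iq {G : Type} [Group G] (x : MonoidAlgebra ℤ G) :
    T0 ℚ G (iq G x) = cf G (T0 ℤ G x) := by
  induction x using MonoidAlgebra.induction_linear with
  | zero => simp
  | add x y hx hy => rw [map_add, map_add, map_add, map_add, hx, hy]
  | single g r =>
    rw [T0_single, cf_single]
    have h : iq G (MonoidAlgebra.single g r) = MonoidAlgebra.single g (r : ℚ) := by
      simp [iq]
    rw [h, T0_single]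

theorem Phi_cf {G : Type} [Group G] (p : ℕ) (l : ConjClasses G →₀ ℤ) :
    Phi ℚ G p (cf G l) = cf G (Phi ℤ G p l) := by
  induction l using Finsupp.induction_linear with
  | zero => simp
  | add x y hx hy => rw [map_add, map_add, map_add, map_add, hx, hy]
  | single c a =>
    rw [cf_single]
    simp only [Phi, Finsupp.mapDomain.addMonoidHom_apply, Finsupp.mapDomain_single]
    rw [cf_single]

theorem lam_iqs {G : Type} [Group G] {ι : Type} [Fintype ι]
    (v vi : Matrix ι ι (PowerSeries (MonoidAlgebra ℤ G))) (m : ℕ) :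
    lam (v.map (iqs G)) (vi.map (iqs G)) m = cf G (lam v vi m) := by
  have h1 : (v.map (iqs G)).map th = (v.map th).map (iqs G) := by
    ext i j : 1
    simp only [Matrix.map_apply]
    refine PowerSeries.ext fun n => ?_
    rw [coeff_th, PowerSeries.coeff_map, PowerSeries.coeff_map, coeff_th, map_nsmul]
  unfold lam
  rw [h1, ← Matrix.map_mul, trc_apply, trc_apply]
  have h2 : ((vi * v.map th).map (iqs G)).trace = iqs G (vi * v.map th).trace := by
    simp only [Matrix.trace, Matrix.diag, Matrix.map_apply, map_sum]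
  rw [h2, PowerSeries.coeff_map, T0_iq]

theorem Phi_zero {G : Type} [Group G] (p : ℕ) (l : ConjClasses G →₀ ℚ) (c : ConjClasses G)
    (h : ∀ c', cpow p c' = c → l c' = 0) : Phi ℚ G p l c = 0 := by
  simp only [Phi, Finsupp.mapDomain.addMonoidHom_apply, Finsupp.mapDomain]
  rw [Finsupp.sum_apply, Finsupp.sum]
  refine Finset.sum_eq_zero fun a _ => ?_
  by_cases h1 : cpow p a = c
  · rw [h a h1, Finsupp.single_zero, Finsupp.zero_apply]
  · rw [Finsupp.single_eq_of_ne]
    first
      | exact h1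
      | exact fun h2 => h1 h2.symm

theorem fin_of_cpow {G : Type} [Group G] {p : ℕ} (hp : 0 < p) {x g : G}
    (h : cpow p (ConjClasses.mk x) = ConjClasses.mk g) (hg : IsOfFinOrder g) :
    IsOfFinOrder x := by
  rw [cpow_mk] at h
  obtain ⟨y, hy⟩ := isConj_iff.1 (ConjClasses.mk_eq_mk_iff_isConj.1 h)
  have h1 : IsOfFinOrder (x ^ p) := by
    obtain ⟨n, hn, hn1⟩ := isOfFinOrder_iff_pow_eq_one.1 hg
    refine isOfFinOrder_iff_pow_eq_one.2 ⟨n, hn, ?_⟩
    have h2 : (y * x ^ p * y⁻¹) ^ n = y * (x ^ p) ^ n * y⁻¹ := conj_pow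
    rw [hy, hn1] at h2
    have h3 : (x ^ p) ^ n = y⁻¹ * (y * (x ^ p) ^ n * y⁻¹) * y := by group
    rw [h3, ← h2]
    group
  obtain ⟨n, hn, hn1⟩ := isOfFinOrder_iff_pow_eq_one.1 h1
  exact isOfFinOrder_iff_pow_eq_one.2 ⟨p * n, Nat.mul_pos hp hn, by rw [pow_mul, hn1]⟩

end NDx

theorem t_ND (hNM1 : St_NM1) (hNC : St_NC) : St_ND := by
  intro G _ ι _ _ v vi u ui a ai b bi hv hv' hu hu' ha ha' hb hb' hab
  have hV : v.map (iqs G) * vi.map (iqs G) = 1 := by
    rw [← Matrix.map_mul, hv, Matrix.map_one _ (map_zero _) (map_one _)]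
  have hV' : vi.map (iqs G) * v.map (iqs G) = 1 := by
    rw [← Matrix.map_mul, hv', Matrix.map_one _ (map_zero _) (map_one _)]
  have hU : u.map (ps (MonoidAlgebra ℚ G)) * ui.map (ps _) = 1 := by
    rw [← Matrix.map_mul, hu, Matrix.map_one _ (map_zero _) (map_one _)]
  have hU' : ui.map (ps (MonoidAlgebra ℚ G)) * u.map (ps _) = 1 := by
    rw [← Matrix.map_mul, hu', Matrix.map_one _ (map_zero _) (map_one _)]
  have hinv : vi.map (iqs G) * ai = bi * ui.map (ps _) := by
    have h1 : (vi.map (iqs G) * ai) * (a * v.map (iqs G)) = 1 := by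
      rw [show (vi.map (iqs G) * ai) * (a * v.map (iqs G)) =
        vi.map (iqs G) * (ai * a) * v.map (iqs G) by simp only [Matrix.mul_assoc], ha',
        Matrix.mul_one, hV']
    have h2 : (u.map (ps (MonoidAlgebra ℚ G)) * b) * (bi * ui.map (ps _)) = 1 := by
      rw [show (u.map (ps (MonoidAlgebra ℚ G)) * b) * (bi * ui.map (ps _)) =
        u.map (ps _) * (b * bi) * ui.map (ps _) by simp only [Matrix.mul_assoc], hb,
        Matrix.mul_one, hU]
    calc vi.map (iqs G) * ai
        = (vi.map (iqs G) * ai) * ((u.map (ps (MonoidAlgebra ℚ G)) * b) * (bi * ui.map (ps _))) := by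
          rw [h2, Matrix.mul_one]
      _ = ((vi.map (iqs G) * ai) * (a * v.map (iqs G))) * (bi * ui.map (ps _)) := by
          rw [hab]; simp only [Matrix.mul_assoc]
      _ = bi * ui.map (ps _) := by rw [h1, Matrix.one_mul]
  have key : ∀ m, lam b bi m - lam a ai m =
      lam (v.map (iqs G)) (vi.map (iqs G)) m - lam (u.map (ps _)) (ui.map (ps _)) m := by
    intro m
    have e1 := lam_mul (v := a) (vi := ai) (w := v.map (iqs G)) (wi := vi.map (iqs G)) ha' hV m
    have e2 := lam_mul (v := u.map (ps (MonoidAlgebra ℚ G))) (vi := ui.map (ps _)) (w := b)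
      (wi := bi) hU' hb m
    rw [hab, hinv, e2] at e1
    rw [sub_eq_sub_iff_add_eq_add, add_comm, e1, add_comm]
  have hWv : WF (fun m => lam (v.map (iqs G)) (vi.map (iqs G)) m) := by
    refine ⟨fun m g _ => ⟨lam v vi m (ConjClasses.mk g), ?_⟩, fun p hp m hm g _ => ?_⟩
    · dsimp only
      rw [NDx.lam_iqs, NDx.cf_apply]
    · obtain ⟨D, hD⟩ := hNM1 G ι p hp v vi hv hv' m hm
      refine ⟨D (ConjClasses.mk g), ?_⟩
      dsimp only
      rw [NDx.lam_iqs, NDx.lam_iqs, NDx.Phi_cf, NDx.cf_apply, NDx.cf_apply]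
      have h3 := DFunLike.congr_fun hD (ConjClasses.mk g)
      rw [Finsupp.sub_apply, Finsupp.smul_apply, nsmul_eq_mul] at h3
      exact_mod_cast h3
  have hWu : WF (fun m => lam (u.map (ps (MonoidAlgebra ℚ G))) (ui.map (ps _)) m) := by
    refine ⟨fun m g hg => ⟨0, ?_⟩, fun p hp m _ g hg => ⟨0, ?_⟩⟩
    · dsimp only
      rw [hNC G ι u ui hu hu' m g hg, Int.cast_zero]
    · dsimp only
      rw [hNC G ι u ui hu hu' (p * m) g hg, NDx.Phi_zero, Int.cast_zero, mul_zero, sub_zero]
      intro c hc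
      obtain ⟨x, rfl⟩ := ConjClasses.mk_surjective c
      exact hNC G ι u ui hu hu' m x (NDx.fin_of_cpow hp.pos hc hg)
  have h := hWv.sub hWu
  have hfun : (fun m => lam b bi m - lam a ai m) =
      fun m => lam (v.map (iqs G)) (vi.map (iqs G)) m - lam (u.map (ps _)) (ui.map (ps _)) m :=
    funext key
  rw [hfun]
  exact h

end Pool.Agent.NIL
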