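import Pool.Agent.NIL.St

/-!
# NE2: the arithmetic of the Swan modules

Project NIL (architect helper14).
-/

set_option autoImplicit false

noncomputable section

namespace Pool.Agent.NIL

namespace NE2x

/-! ## Abstract identities -/

theorem abs_mul {R : Type} [Ring R] (E B C : R) (hE : E * E = E) (hC : ∀ x, C * x = x * C) :
    (E + B * (1 - E)) * (E + C * (1 - E)) = E + (B * C) * (1 - E) := by
  have h1 : E * (1 - E) = 0 := by rw [mul_sub, mul_one, hE, sub_self]
  have h2 : (1 - E) * E = 0 := by rw [sub_mul, one_mul, hE, sub_self]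
  have h3 : (1 - E) * (1 - E) = 1 - E := by rw [sub_mul, one_mul, h1, sub_zero]
  have h4 : E * (C * (1 - E)) = 0 := by rw [← mul_assoc, ← hC, mul_assoc, h1, mul_zero]
  have h5 : B * (1 - E) * E = 0 := by rw [mul_assoc, h2, mul_zero]
  have h6 : B * (1 - E) * (C * (1 - E)) = B * C * (1 - E) := by
    rw [mul_assoc, ← mul_assoc (1 - E) C, ← hC (1 - E), mul_assoc C, h3, mul_assoc]
  rw [add_mul, mul_add, mul_add, hE, h4, h5, h6, add_zero, zero_add]

theorem abs_mul2 {R : Type} [Ring R] (E B C : R) (hE : E * E = E) (hC : ∀ x, C * x = x * C) :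
    (E + B * (1 - E)) * (C * (1 - E)) = (B * C) * (1 - E) := by
  have h1 : E * (1 - E) = 0 := by rw [mul_sub, mul_one, hE, sub_self]
  have h3 : (1 - E) * (1 - E) = 1 - E := by rw [sub_mul, one_mul, h1, sub_zero]
  have h4 : E * (C * (1 - E)) = 0 := by rw [← mul_assoc, ← hC, mul_assoc, h1, mul_zero]
  have h6 : B * (1 - E) * (C * (1 - E)) = B * C * (1 - E) := by
    rw [mul_assoc, ← mul_assoc (1 - E) C, ← hC (1 - E), mul_assoc C, h3, mul_assoc]
  rw [add_mul, h4, h6, zero_add]

theorem abs_W {R : Type} [Ring R] (A C D n : R) (hC : ∀ x, C * x = x * C)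
    (hn : ∀ x, n * x = x * n) (hDD : D * D = n * D) (h2 : A + C + n * (A * C) = 0) :
    (1 + A * D) * (1 + C * D) = 1 := by
  have h3 : A * D * (C * D) = n * (A * C) * D := by
    calc A * D * (C * D) = A * (D * C) * D := by simp only [mul_assoc]
      _ = A * (C * D) * D := by rw [← hC D]
      _ = A * C * (D * D) := by simp only [mul_assoc]
      _ = A * C * n * D := by rw [hDD, ← mul_assoc]
      _ = n * (A * C) * D := by rw [← hn (A * C)]
  calc (1 + A * D) * (1 + C * D) = 1 + (A * D + C * D + A * D * (C * D)) := by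
        rw [add_mul, one_mul, mul_add (A * D), mul_one]
        abel
    _ = 1 + (A + C + n * (A * C)) * D := by rw [h3, add_mul, add_mul]
    _ = 1 := by rw [h2, zero_mul, add_zero]

/-! ## The element `Σ_H` -/

variable {G : Type} [Group G] (H : Subgroup G)

theorem sg_eq [Fintype H] : sg H = ∑ h : H, MonoidAlgebra.single (h : G) (1 : ℤ) :=
  finsum_eq_sum_of_fintype _

variable [Finite H]

theorem sg_mul_sg : sg H * sg H = (Nat.card H) • sg H := by
  classical
  have := Fintype.ofFinite H
  rw [sg_eq, Finset.sum_mul]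
  have h1 : ∀ a : H, MonoidAlgebra.single (a : G) (1 : ℤ) *
      ∑ h : H, MonoidAlgebra.single (h : G) (1 : ℤ) =
      ∑ h : H, MonoidAlgebra.single (h : G) (1 : ℤ) := by
    intro a
    rw [Finset.mul_sum]
    simp only [MonoidAlgebra.single_mul_single, mul_one]
    exact Fintype.sum_equiv (Equiv.mulLeft a) _ _ fun h => rfl
  rw [Finset.sum_congr rfl fun a _ => h1 a, Finset.sum_const, Finset.card_univ,
    Nat.card_eq_fintype_card]

theorem card_pos : 0 < Nat.card H := Nat.card_pos

theorem eps_mul_eps : eps H * eps H = eps H := by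
  have hc : (Nat.card H : ℚ) ≠ 0 := by exact_mod_cast (card_pos H).ne'
  unfold eps
  rw [smul_mul_smul_comm, ← map_mul, sg_mul_sg, map_nsmul, ← Nat.cast_smul_eq_nsmul ℚ, smul_smul]
  congr 1
  field_simp

theorem T0_sg : T0 ℚ G (iq G (sg H)) (ConjClasses.mk 1) = 1 := by
  classical
  have := Fintype.ofFinite H
  rw [sg_eq, map_sum, map_sum, Finsupp.finsetSum_apply]
  have h1 : ∀ h : H, T0 ℚ G (iq G (MonoidAlgebra.single (h : G) (1 : ℤ))) (ConjClasses.mk 1) =
      if h = 1 then 1 else 0 := by
    intro h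
    have e1 : iq G (MonoidAlgebra.single (h : G) (1 : ℤ)) = MonoidAlgebra.single (h : G) (1 : ℚ) := by
      simp [iq]
    rw [e1, T0_single, Finsupp.single_apply]
    congr 1
    rw [ConjClasses.mk_eq_mk_iff_isConj, isConj_one_left]
    simp
  rw [Finset.sum_congr rfl fun h _ => h1 h]
  simp

/-- The trace of `1 - ε`. -/
def tau : ConjClasses G →₀ ℚ := T0 ℚ G (1 - eps H)

theorem tau_one : tau H (ConjClasses.mk 1) = 1 - (Nat.card H : ℚ)⁻¹ := by
  classical
  unfold tau
  have h1 : T0 ℚ G (1 : MonoidAlgebra ℚ G) (ConjClasses.mk 1) = 1 := by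
    rw [MonoidAlgebra.one_def, T0_single, Finsupp.single_apply, if_pos rfl]
  have h2 : T0 ℚ G (eps H) (ConjClasses.mk 1) = (Nat.card H : ℚ)⁻¹ := by
    have e1 : T0 ℚ G (eps H) = (Nat.card H : ℚ)⁻¹ • T0 ℚ G (iq G (sg H)) := by
      unfold eps T0
      simp [Finsupp.mapDomain_smul]
    rw [e1, Finsupp.smul_apply, T0_sg, smul_eq_mul, mul_one]
  rw [map_sub, Finsupp.sub_apply, h1, h2]

/-! ## The elements `κ` -/

theorem cq_comm (b : PowerSeries ℤ) (x : PowerSeries (MonoidAlgebra ℚ G)) :
    cq G b * x = x * cq G b := by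
  ext m : 1
  rw [PowerSeries.coeff_mul, PowerSeries.coeff_mul, ← Finset.Nat.sum_antidiagonal_swap]
  refine Finset.sum_congr rfl fun y _ => ?_
  simp only [Prod.fst_swap, Prod.snd_swap, PowerSeries.coeff_map, eq_intCast]
  exact Int.cast_comm _ _

theorem C_eps_mul : PowerSeries.C (eps H) * PowerSeries.C (eps H) = PowerSeries.C (eps H) := by
  rw [← map_mul, eps_mul_eps]

theorem kap_mul (b c : PowerSeries ℤ) : kap H b * kap H c = kap H (b * c) := by
  unfold kap
  rw [abs_mul _ _ _ (C_eps_mul H) (cq_comm c), map_mul]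

theorem th_C {R : Type} [Ring R] (a : R) : th (PowerSeries.C a) = 0 := by
  ext m
  rw [coeff_th, PowerSeries.coeff_C]
  split_ifs with h
  · rw [h, zero_smul, map_zero]
  · rw [smul_zero, map_zero]

theorem th_one {R : Type} [Ring R] : th (1 : PowerSeries R) = 0 := by
  rw [← map_one (PowerSeries.C (R := R)), th_C]

theorem th_map {R S : Type} [Ring R] [Ring S] (f : R →+* S) (b : PowerSeries R) :
    th (PowerSeries.map f b) = PowerSeries.map f (th b) := by
  ext m
  rw [coeff_th, PowerSeries.coeff_map, PowerSeries.coeff_map, coeff_th, map_nsmul]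

omit [Finite H] in
theorem th_kap (b : PowerSeries ℤ) :
    th (kap H b) = cq G (th b) * (1 - PowerSeries.C (eps H)) := by
  unfold kap
  rw [map_add, th_C, zero_add, th_mul, map_sub, th_C, th_one, sub_zero, mul_zero, add_zero, th_map]

theorem kap_th (b bi : PowerSeries ℤ) :
    kap H bi * th (kap H b) = cq G (bi * th b) * (1 - PowerSeries.C (eps H)) := by
  rw [th_kap]
  unfold kap
  rw [abs_mul2 _ _ _ (C_eps_mul H) (cq_comm _), map_mul]

theorem lam_kap (b bi : PowerSeries ℤ) (m : ℕ) :
    T0 ℚ G (PowerSeries.coeff m (kap H bi * th (kap H b))) =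
      (PowerSeries.coeff m (bi * th b)) • tau H := by
  rw [kap_th]
  have h1 : (1 - PowerSeries.C (eps H) : PowerSeries (MonoidAlgebra ℚ G)) =
      PowerSeries.C (1 - eps H) := by rw [map_sub, map_one]
  rw [h1, PowerSeries.coeff_mul_C, PowerSeries.coeff_map, eq_intCast, ← zsmul_eq_mul, map_zsmul]
  rfl

/-! ## The integral form -/

/-- `1 + a (h - Σ_H)`. -/
def W (a : PowerSeries ℤ) : PowerSeries (MonoidAlgebra ℤ G) :=
  1 + PowerSeries.map (Int.castRingHom (MonoidAlgebra ℤ G)) a *
    ((Nat.card H : PowerSeries (MonoidAlgebra ℤ G)) - PowerSeries.C (sg H))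

theorem cz_comm (b : PowerSeries ℤ) (x : PowerSeries (MonoidAlgebra ℤ G)) :
    PowerSeries.map (Int.castRingHom (MonoidAlgebra ℤ G)) b * x =
      x * PowerSeries.map (Int.castRingHom (MonoidAlgebra ℤ G)) b := by
  ext m : 1
  rw [PowerSeries.coeff_mul, PowerSeries.coeff_mul, ← Finset.Nat.sum_antidiagonal_swap]
  refine Finset.sum_congr rfl fun y _ => ?_
  simp only [Prod.fst_swap, Prod.snd_swap, PowerSeries.coeff_map, eq_intCast]
  exact Int.cast_comm _ _

theorem W_mul {a c : PowerSeries ℤ}
    (h : (1 + (Nat.card H : PowerSeries ℤ) * a) * (1 + (Nat.card H : PowerSeries ℤ) * c) = 1) :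
    W H a * W H c = 1 := by
  have hh : (Nat.card H : PowerSeries ℤ) ≠ 0 := by
    intro h0
    have h1 := congrArg PowerSeries.constantCoeff h0
    rw [map_natCast, map_zero] at h1
    exact (card_pos H).ne' (by exact_mod_cast h1)
  have h0 : a + c + (Nat.card H : PowerSeries ℤ) * (a * c) = 0 := by
    have h1 : (Nat.card H : PowerSeries ℤ) * (a + c + (Nat.card H : PowerSeries ℤ) * (a * c)) = 0 := by
      linear_combination h
    exact (mul_eq_zero.1 h1).resolve_left hh
  set D : PowerSeries (MonoidAlgebra ℤ G) :=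
    (Nat.card H : PowerSeries (MonoidAlgebra ℤ G)) - PowerSeries.C (sg H) with hD
  have hDD : D * D = (Nat.card H : PowerSeries (MonoidAlgebra ℤ G)) * D := by
    have e1 : PowerSeries.C (sg H) * PowerSeries.C (sg H) =
        (Nat.card H : PowerSeries (MonoidAlgebra ℤ G)) * PowerSeries.C (sg H) := by
      rw [← map_mul, sg_mul_sg, map_nsmul, nsmul_eq_mul]
    have e2 : PowerSeries.C (sg H) * (Nat.card H : PowerSeries (MonoidAlgebra ℤ G)) =
        (Nat.card H : PowerSeries (MonoidAlgebra ℤ G)) * PowerSeries.C (sg H) :=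
      (Nat.cast_comm _ _).symm
    rw [hD, sub_mul, mul_sub, mul_sub, e1, e2]
    abel
  set A := PowerSeries.map (Int.castRingHom (MonoidAlgebra ℤ G)) a with hA
  set C := PowerSeries.map (Int.castRingHom (MonoidAlgebra ℤ G)) c with hC
  have hCc : ∀ x, C * x = x * C := cz_comm c
  have h2 : A + C + (Nat.card H : PowerSeries (MonoidAlgebra ℤ G)) * (A * C) = 0 := by
    have := congrArg (PowerSeries.map (Int.castRingHom (MonoidAlgebra ℤ G))) h0
    simpa [map_add, map_mul, hA, hC] using this
  exact abs_W A C D _ hCc (fun x => Nat.cast_comm _ _) hDD h2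

theorem iqs_W (a : PowerSeries ℤ) :
    iqs G (W H a) = kap H (1 + (Nat.card H : PowerSeries ℤ) * a) := by
  have hc : (Nat.card H : ℚ) ≠ 0 := by exact_mod_cast (card_pos H).ne'
  have h1 : iqs G (PowerSeries.map (Int.castRingHom (MonoidAlgebra ℤ G)) a) = cq G a := by
    ext m : 1
    simp [iqs, cq]
  have h2 : iqs G (PowerSeries.C (sg H)) =
      (Nat.card H : PowerSeries (MonoidAlgebra ℚ G)) * PowerSeries.C (eps H) := by
    have e1 : iq G (sg H) = (Nat.card H) • eps H := by
      unfold eps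
      rw [← Nat.cast_smul_eq_nsmul ℚ, smul_smul, mul_inv_cancel₀ hc, one_smul]
    rw [iqs, PowerSeries.map_C, e1, map_nsmul, nsmul_eq_mul]
  unfold W kap
  rw [map_add, map_one, map_mul, map_sub, h1, h2, map_natCast, map_add, map_mul, map_one,
    map_natCast, add_mul, one_mul]
  have h3 : (Nat.card H : PowerSeries (MonoidAlgebra ℚ G)) * cq G a =
      cq G a * (Nat.card H : PowerSeries (MonoidAlgebra ℚ G)) := Nat.cast_comm _ _
  rw [h3, mul_assoc (cq G a), mul_sub (Nat.card H : PowerSeries (MonoidAlgebra ℚ G)), mul_one]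
  abel

/-! ## Comparison of the traces over `ℤ` and over `ℚ` -/

theorem T0_iq (x : MonoidAlgebra ℤ G) :
    T0 ℚ G (iq G x) = (T0 ℤ G x).mapRange (Int.cast : ℤ → ℚ) Int.cast_zero := by
  induction x using MonoidAlgebra.induction_linear with
  | zero => simp
  | add x y hx hy =>
    rw [map_add, map_add, hx, hy, map_add]
    ext c
    simp
  | single g r =>
    have e1 : iq G (MonoidAlgebra.single g r) = MonoidAlgebra.single g (r : ℚ) := by
      simp [iq]
    rw [e1, T0_single, T0_single, Finsupp.mapRange_single]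

theorem Phi_cast (p : ℕ) (x : ConjClasses G →₀ ℤ) :
    Phi ℚ G p (x.mapRange (Int.cast : ℤ → ℚ) Int.cast_zero) =
      (Phi ℤ G p x).mapRange (Int.cast : ℤ → ℚ) Int.cast_zero := by
  unfold Phi
  show Finsupp.mapDomain (cpow p) _ = (Finsupp.mapDomain (cpow p) x).mapRange _ _
  induction x using Finsupp.induction_linear with
  | zero => simp
  | add x y hx hy =>
    have e1 : (x + y).mapRange (Int.cast : ℤ → ℚ) Int.cast_zero =
        x.mapRange (Int.cast : ℤ → ℚ) Int.cast_zero + y.mapRange (Int.cast : ℤ → ℚ) Int.cast_zero := by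
      ext c
      simp
    rw [e1, Finsupp.mapDomain_add, hx, hy, Finsupp.mapDomain_add]
    ext c
    simp
  | single c r => simp

theorem WF_W (hNM1 : St_NM1) {a c : PowerSeries ℤ}
    (h : (1 + (Nat.card H : PowerSeries ℤ) * a) * (1 + (Nat.card H : PowerSeries ℤ) * c) = 1) :
    WF (fun m => T0 ℚ G (PowerSeries.coeff m (kap H (1 + (Nat.card H : PowerSeries ℤ) * c) *
      th (kap H (1 + (Nat.card H : PowerSeries ℤ) * a))))) := by
  have h' : (1 + (Nat.card H : PowerSeries ℤ) * c) * (1 + (Nat.card H : PowerSeries ℤ) * a) = 1 := by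
    rw [mul_comm]
    exact h
  let v : Matrix Unit Unit (PowerSeries (MonoidAlgebra ℤ G)) := Matrix.of fun _ _ => W H a
  let vi : Matrix Unit Unit (PowerSeries (MonoidAlgebra ℤ G)) := Matrix.of fun _ _ => W H c
  have h1 : v * vi = 1 := by
    ext i j : 2
    simp [v, vi, Matrix.mul_apply, W_mul H h]
  have h2 : vi * v = 1 := by
    ext i j : 2
    simp [v, vi, Matrix.mul_apply, W_mul H h']
  have h3 : ∀ m, T0 ℚ G (PowerSeries.coeff m (kap H (1 + (Nat.card H : PowerSeries ℤ) * c) *
      th (kap H (1 + (Nat.card H : PowerSeries ℤ) * a)))) =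
      (lam v vi m).mapRange (Int.cast : ℤ → ℚ) Int.cast_zero := by
    intro m
    have e1 : lam v vi m = T0 ℤ G (PowerSeries.coeff m (W H c * th (W H a))) := by
      simp [lam, trc_apply, v, vi, Matrix.trace, Matrix.mul_apply]
    rw [e1, ← T0_iq, ← iqs_W, ← iqs_W, th_map, ← map_mul, PowerSeries.coeff_map]
  refine ⟨fun m g _ => ⟨lam v vi m (ConjClasses.mk g), ?_⟩, fun p hp m hm g _ => ?_⟩
  · simp only [h3, Finsupp.mapRange_apply]
  · obtain ⟨D, hD⟩ := hNM1 G Unit p hp v vi h1 h2 m hm
    refine ⟨D (ConjClasses.mk g), ?_⟩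
    have h4 := congrArg (fun x : ConjClasses G →₀ ℤ => ((x (ConjClasses.mk g) : ℤ) : ℚ)) hD
    simp only [Finsupp.sub_apply, Finsupp.smul_apply] at h4
    simp only [h3, Phi_cast, Finsupp.mapRange_apply]
    rw [← Int.cast_sub, h4]
    simp

/-! ## Logarithmic derivatives of integral power series -/

theorem logd {b bi c ci : PowerSeries ℤ} (hb : b * bi = 1) (hc : c * ci = 1)
    (hb0 : PowerSeries.constantCoeff b = 1) {m : ℕ}
    (hlt : ∀ j < m, PowerSeries.coeff j b = PowerSeries.coeff j c) :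
    (∀ j < m, PowerSeries.coeff j (bi * th b) = PowerSeries.coeff j (ci * th c)) ∧
      PowerSeries.coeff m (bi * th b) - PowerSeries.coeff m (ci * th c) =
        m * (PowerSeries.coeff m b - PowerSeries.coeff m c) := by
  obtain ⟨e, he⟩ : (PowerSeries.X : PowerSeries ℤ) ^ m ∣ b - c := by
    rw [PowerSeries.X_pow_dvd_iff]
    intro j hj
    rw [map_sub, hlt j hj, sub_self]
  have hthX : th ((PowerSeries.X : PowerSeries ℤ) ^ m) = (m : PowerSeries ℤ) * PowerSeries.X ^ m := by
    ext j
    rw [coeff_th, ← nsmul_eq_mul, map_nsmul, PowerSeries.coeff_X_pow]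
    split_ifs with h
    · rw [h]
    · simp
  have h1 : bi * th b - ci * th c =
      PowerSeries.X ^ m * (bi * ((m : PowerSeries ℤ) * e + th e) - bi * ci * e * th c) := by
    have e1 : th b = th c + th (PowerSeries.X ^ m * e) := by
      rw [← he, ← map_add]
      congr 1
      ring
    have e2 : bi - ci = - (bi * ci * (PowerSeries.X ^ m * e)) := by
      rw [← he]
      linear_combination (-bi) * hc + ci * hb
    rw [e1, th_mul, hthX]
    linear_combination (th c) * e2
  have h2 : ∀ f : PowerSeries ℤ, PowerSeries.constantCoeff (th f) = 0 := by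
    intro f
    rw [← PowerSeries.coeff_zero_eq_constantCoeff_apply, coeff_th, zero_smul]
  have hbi0 : PowerSeries.constantCoeff bi = 1 := by
    have := congrArg PowerSeries.constantCoeff hb
    rwa [map_mul, hb0, one_mul, map_one] at this
  refine ⟨fun j hj => ?_, ?_⟩
  · have h3 := congrArg (PowerSeries.coeff j) h1
    rw [map_sub, PowerSeries.coeff_X_pow_mul', if_neg (by omega)] at h3
    exact sub_eq_zero.1 h3
  · have h3 := congrArg (PowerSeries.coeff m) h1
    have h5 : PowerSeries.constantCoeff (bi * ((m : PowerSeries ℤ) * e + th e) - bi * ci * e * th c) =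
        m * PowerSeries.constantCoeff e := by
      rw [map_sub, map_mul, map_mul (PowerSeries.constantCoeff) (bi * ci * e), map_add, map_mul,
        h2, h2, hbi0, map_natCast]
      ring
    rw [map_sub, PowerSeries.coeff_X_pow_mul', if_pos le_rfl, Nat.sub_self,
      PowerSeries.coeff_zero_eq_constantCoeff_apply, h5] at h3
    have h4 := congrArg (PowerSeries.coeff m) he
    rw [map_sub, PowerSeries.coeff_X_pow_mul', if_pos le_rfl, Nat.sub_self,
      PowerSeries.coeff_zero_eq_constantCoeff_apply] at h4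
    rw [h3, h4]

end NE2x

open NE2x in
theorem t_NE2 (hNM1 : St_NM1) : St_NE2 := by
  intro G _ H _ b bi hb hb0 hWF i
  induction i using Nat.strong_induction_on with
  | _ m ih =>
  intro hm
  set h : ℕ := Nat.card H with hh
  have hpos : 0 < h := card_pos H
  -- the truncation
  let a : PowerSeries ℤ := PowerSeries.mk fun j =>
    if 1 ≤ j ∧ j < m then PowerSeries.coeff j b / (h : ℤ) else 0
  let c : PowerSeries ℤ := 1 + (h : PowerSeries ℤ) * a
  have ha0 : PowerSeries.coeff 0 a = 0 := by simp [a]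
  have hc_coeff : ∀ j, PowerSeries.coeff j c =
      (if j = 0 then 1 else 0) + (h : ℤ) * PowerSeries.coeff j a := by
    intro j
    simp only [c]
    rw [map_add, PowerSeries.coeff_one, ← nsmul_eq_mul, map_nsmul, nsmul_eq_mul]
  have hlt : ∀ j < m, PowerSeries.coeff j b = PowerSeries.coeff j c := by
    intro j hj
    rw [hc_coeff]
    rcases Nat.eq_zero_or_pos j with h0 | h0
    · subst h0
      rw [ha0, mul_zero, add_zero, if_pos rfl, PowerSeries.coeff_zero_eq_constantCoeff_apply, hb0]
    · rw [if_neg (by omega), zero_add]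
      simp only [a, PowerSeries.coeff_mk]
      rw [if_pos ⟨h0, hj⟩, Int.mul_ediv_cancel' (ih j hj h0)]
  have hcm : PowerSeries.coeff m c = 0 := by
    rw [hc_coeff, if_neg (by omega), zero_add]
    simp [a]
  have hc0 : PowerSeries.constantCoeff c = ((1 : ℤˣ) : ℤ) := by
    rw [← PowerSeries.coeff_zero_eq_constantCoeff_apply, hc_coeff, ha0]
    simp
  let ci : PowerSeries ℤ := PowerSeries.invOfUnit c 1
  have hci : c * ci = 1 := PowerSeries.mul_invOfUnit c 1 hc0
  let a' : PowerSeries ℤ := - (a * ci)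
  have hci' : ci = 1 + (h : PowerSeries ℤ) * a' := by
    have : c * ci = ci + (h : PowerSeries ℤ) * (a * ci) := by
      simp only [c]
      ring
    simp only [a']
    linear_combination hci - this
  have hprod : (1 + (h : PowerSeries ℤ) * a) * (1 + (h : PowerSeries ℤ) * a') = 1 := by
    rw [← hci']
    exact hci
  have hW := WF_W H hNM1 hprod
  have hl := hWF.sub hW
  obtain ⟨hj, hmm⟩ := logd hb hci hb0 hlt
  set L : ℕ → (ConjClasses G →₀ ℚ) := fun j =>
    (PowerSeries.coeff j (bi * th b) - PowerSeries.coeff j (ci * th c)) • tau H with hL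
  have hLWF : WF L := by
    have e1 : L = fun m => T0 ℚ G (PowerSeries.coeff m (kap H bi * th (kap H b))) -
        T0 ℚ G (PowerSeries.coeff m (kap H (1 + (h : PowerSeries ℤ) * a') *
          th (kap H (1 + (h : PowerSeries ℤ) * a)))) := by
      funext j
      rw [lam_kap, lam_kap, ← hci', ← sub_smul]
    rw [e1]
    exact hl
  have hL0 : ∀ j < m, L j = 0 := by
    intro j hjm
    simp only [hL, hj j hjm, sub_self, zero_smul]
  have hLm : L m (ConjClasses.mk 1) =
      (m : ℚ) * (PowerSeries.coeff m b : ℤ) * (1 - (h : ℚ)⁻¹) := by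
    simp only [hL, hmm, hcm, sub_zero, Finsupp.smul_apply, tau_one, zsmul_eq_mul]
    push_cast
    ring
  have h1fin : IsOfFinOrder (1 : G) := IsOfFinOrder.one
  obtain ⟨N, hN⟩ := hLWF.1 m 1 h1fin
  have hdvd : m ∣ N.natAbs := by
    rw [Nat.dvd_iff_prime_pow_dvd_dvd]
    intro p k hp hk
    rcases Nat.eq_zero_or_pos k with hk0 | hk0
    · subst hk0
      simp
    · have hpm : p ∣ m := (dvd_pow_self p hk0.ne').trans hk
      obtain ⟨m₁, rfl⟩ := hpm
      have hm1 : 1 ≤ m₁ := by
        rcases Nat.eq_zero_or_pos m₁ with h0 | h0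
        · subst h0
          simp at hm
        · exact h0
      have hlt1 : m₁ < p * m₁ := by
        have := hp.two_le
        nlinarith
      obtain ⟨C, hC⟩ := hLWF.2 p hp m₁ hm1 1 h1fin
      rw [hL0 m₁ hlt1, map_zero, Finsupp.zero_apply, sub_zero, hN] at hC
      have hCz : N = (p : ℤ) ^ (padicValNat p m₁ + 1) * C := by exact_mod_cast hC
      have hval : padicValNat p (p * m₁) = padicValNat p m₁ + 1 := by
        have : Fact p.Prime := ⟨hp⟩
        rw [padicValNat.mul hp.ne_zero (by omega), padicValNat.self hp.one_lt]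
        ring
      have hkle : k ≤ padicValNat p m₁ + 1 := by
        have : Fact p.Prime := ⟨hp⟩
        rw [← hval]
        exact (padicValNat_dvd_iff_le (by positivity)).1 hk
      have h5 : ((p ^ k : ℕ) : ℤ) ∣ N := by
        rw [hCz]
        push_cast
        exact (pow_dvd_pow _ hkle).mul_right C
      exact Int.natCast_dvd.1 h5
  obtain ⟨e, he⟩ : (m : ℤ) ∣ N := Int.natCast_dvd.2 hdvd
  have hmQ : (m : ℚ) ≠ 0 := by
    have : 0 < m := hm
    exact_mod_cast this.ne'
  have hhQ : (h : ℚ) ≠ 0 := by exact_mod_cast hpos.ne'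
  have h6 : ((PowerSeries.coeff m b : ℤ) : ℚ) * (1 - (h : ℚ)⁻¹) = e := by
    have h7 : (m : ℚ) * ((PowerSeries.coeff m b : ℤ) * (1 - (h : ℚ)⁻¹)) = m * e := by
      rw [← mul_assoc, ← hLm, hN, he]
      push_cast
      ring
    exact mul_left_cancel₀ hmQ h7
  refine ⟨PowerSeries.coeff m b - e, ?_⟩
  have h8 : ((PowerSeries.coeff m b : ℤ) : ℚ) = (h : ℚ) * ((PowerSeries.coeff m b : ℤ) - e) := by
    rw [← h6]
    field_simp
    ring
  exact_mod_cast h8

end Pool.Agent.NIL
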