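import Pool.Agent.NIL.St

/-!
# NF: the commutative Dwork lemma

Project NIL (architect helper14); module by helper61.
-/

set_option autoImplicit false

noncomputable section

namespace Pool.Agent.NIL

namespace NFx

/-! ## Comparison of the traces over `ℤ` and over `ℚ` -/

/-- The coefficient embedding of the class functions. -/
def cf (G : Type) [Group G] : (ConjClasses G →₀ ℤ) →+ (ConjClasses G →₀ ℚ) :=
  Finsupp.mapRange.addMonoidHom (Int.castAddHom ℚ)

theorem cf_apply {G : Type} [Group G] (l : ConjClasses G →₀ ℤ) (c : ConjClasses G) :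
    cf G l c = (l c : ℚ) := by
  simp [cf]

theorem cf_single {G : Type} [Group G] (c : ConjClasses G) (a : ℤ) :
    cf G (Finsupp.single c a) = Finsupp.single c (a : ℚ) := by
  simp [cf]

theorem T0_iq {G : Type} [Group G] (x : MonoidAlgebra ℤ G) :
    T0 ℚ G (iq G x) = cf G (T0 ℤ G x) := by
  induction x using MonoidAlgebra.induction_linear with
  | zero => simp
  | add x y hx hy => rw [map_add, map_add, map_add, map_add, hx, hy]
  | single g r =>
    rw [T0_single, cf_single]
    have h : iq G (MonoidAlgebra.single g r) = MonoidAlgebra.single g (r : ℚ) := by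
      simp [iq]
    rw [h, T0_single]

theorem Phi_cf {G : Type} [Group G] (p : ℕ) (l : ConjClasses G →₀ ℤ) :
    Phi ℚ G p (cf G l) = cf G (Phi ℤ G p l) := by
  induction l using Finsupp.induction_linear with
  | zero => simp
  | add x y hx hy => rw [map_add, map_add, map_add, map_add, hx, hy]
  | single c a =>
    rw [cf_single]
    simp only [Phi, Finsupp.mapDomain.addMonoidHom_apply, Finsupp.mapDomain_single]
    rw [cf_single]

theorem th_map {R S : Type} [Ring R] [Ring S] (f : R →+* S) (b : PowerSeries R) :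
    th (PowerSeries.map f b) = PowerSeries.map f (th b) := by
  ext m
  rw [coeff_th, PowerSeries.coeff_map, PowerSeries.coeff_map, coeff_th, map_nsmul]

/-- The logarithmic derivative of a unit of `ℤ[G][[t]]` satisfies the congruences. -/
theorem WF_int (hNM1 : St_NM1) {G : Type} [Group G] {a c : PowerSeries (MonoidAlgebra ℤ G)}
    (h : a * c = 1) (h' : c * a = 1) :
    WF (fun m => T0 ℚ G (PowerSeries.coeff m (iqs G c * th (iqs G a)))) := by
  let v : Matrix Unit Unit (PowerSeries (MonoidAlgebra ℤ G)) := Matrix.of fun _ _ => a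
  let vi : Matrix Unit Unit (PowerSeries (MonoidAlgebra ℤ G)) := Matrix.of fun _ _ => c
  have h1 : v * vi = 1 := by
    ext i j : 2
    simp [v, vi, Matrix.mul_apply, h]
  have h2 : vi * v = 1 := by
    ext i j : 2
    simp [v, vi, Matrix.mul_apply, h']
  have h3 : ∀ m, T0 ℚ G (PowerSeries.coeff m (iqs G c * th (iqs G a))) = cf G (lam v vi m) := by
    intro m
    have e1 : lam v vi m = T0 ℤ G (PowerSeries.coeff m (c * th a)) := by
      simp [lam, trc_apply, v, vi, Matrix.trace, Matrix.mul_apply]
    rw [e1, ← T0_iq, th_map, ← map_mul, PowerSeries.coeff_map]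
  refine ⟨fun m g _ => ⟨lam v vi m (ConjClasses.mk g), ?_⟩, fun p hp m hm g _ => ?_⟩
  · simp only [h3, cf_apply]
  · obtain ⟨D, hD⟩ := hNM1 G Unit p hp v vi h1 h2 m hm
    refine ⟨D (ConjClasses.mk g), ?_⟩
    have h4 := congrArg (fun x : ConjClasses G →₀ ℤ => ((x (ConjClasses.mk g) : ℤ) : ℚ)) hD
    simp only [Finsupp.sub_apply, Finsupp.smul_apply] at h4
    simp only [h3, Phi_cf, cf_apply]
    rw [← Int.cast_sub, h4]
    simp

/-! ## Logarithmic derivatives -/

theorem logd {R : Type} [CommRing R] {b bi c ci : PowerSeries R} (hb : b * bi = 1)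
    (hc : c * ci = 1) (hb0 : PowerSeries.constantCoeff b = 1) {m : ℕ}
    (hlt : ∀ j < m, PowerSeries.coeff j b = PowerSeries.coeff j c) :
    (∀ j < m, PowerSeries.coeff j (bi * th b) = PowerSeries.coeff j (ci * th c)) ∧
      PowerSeries.coeff m (bi * th b) - PowerSeries.coeff m (ci * th c) =
        m • (PowerSeries.coeff m b - PowerSeries.coeff m c) := by
  obtain ⟨e, he⟩ : (PowerSeries.X : PowerSeries R) ^ m ∣ b - c := by
    rw [PowerSeries.X_pow_dvd_iff]
    intro j hj
    rw [map_sub, hlt j hj, sub_self]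
  have hthX : th ((PowerSeries.X : PowerSeries R) ^ m) = (m : PowerSeries R) * PowerSeries.X ^ m := by
    ext j
    rw [coeff_th, ← nsmul_eq_mul, map_nsmul, PowerSeries.coeff_X_pow]
    split_ifs with h
    · rw [h]
    · simp
  have h1 : bi * th b - ci * th c =
      PowerSeries.X ^ m * (bi * ((m : PowerSeries R) * e + th e) - bi * ci * e * th c) := by
    have e1 : th b = th c + th (PowerSeries.X ^ m * e) := by
      rw [← he, ← map_add]
      congr 1
      ring
    have e2 : bi - ci = - (bi * ci * (PowerSeries.X ^ m * e)) := by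
      rw [← he]
      linear_combination (-bi) * hc + ci * hb
    rw [e1, th_mul, hthX]
    linear_combination (th c) * e2
  have h2 : ∀ f : PowerSeries R, PowerSeries.constantCoeff (th f) = 0 := by
    intro f
    rw [← PowerSeries.coeff_zero_eq_constantCoeff_apply, coeff_th, zero_smul]
  have hbi0 : PowerSeries.constantCoeff bi = 1 := by
    have := congrArg PowerSeries.constantCoeff hb
    rwa [map_mul, hb0, one_mul, map_one] at this
  refine ⟨fun j hj => ?_, ?_⟩
  · have h3 := congrArg (PowerSeries.coeff j) h1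
    rw [map_sub, PowerSeries.coeff_X_pow_mul', if_neg (by omega)] at h3
    exact sub_eq_zero.1 h3
  · have h3 := congrArg (PowerSeries.coeff m) h1
    have h5 : PowerSeries.constantCoeff (bi * ((m : PowerSeries R) * e + th e) - bi * ci * e * th c) =
        m * PowerSeries.constantCoeff e := by
      rw [map_sub, map_mul, map_mul (PowerSeries.constantCoeff) (bi * ci * e), map_add, map_mul,
        h2, h2, hbi0, map_natCast]
      ring
    rw [map_sub, PowerSeries.coeff_X_pow_mul', if_pos le_rfl, Nat.sub_self,
      PowerSeries.coeff_zero_eq_constantCoeff_apply, h5] at h3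
    have h4 := congrArg (PowerSeries.coeff m) he
    rw [map_sub, PowerSeries.coeff_X_pow_mul', if_pos le_rfl, Nat.sub_self,
      PowerSeries.coeff_zero_eq_constantCoeff_apply] at h4
    rw [h3, h4, nsmul_eq_mul]

/-! ## Commutative groups -/

theorem mk_inj {A : Type} [CommGroup A] {a b : A} (h : ConjClasses.mk a = ConjClasses.mk b) :
    a = b := by
  obtain ⟨c, hc⟩ := isConj_iff.1 (ConjClasses.mk_eq_mk_iff_isConj.1 h)
  rw [← hc, mul_comm c a, mul_assoc, mul_inv_cancel, mul_one]

theorem T0_comm {A : Type} [CommGroup A] (x : MonoidAlgebra ℚ A) (a : A) :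
    T0 ℚ A x (ConjClasses.mk a) = x.coeff a := by
  classical
  induction x using MonoidAlgebra.induction_linear with
  | zero => simp
  | add x y hx hy => rw [map_add, Finsupp.add_apply, hx, hy, MonoidAlgebra.coeff_add,
      Finsupp.add_apply]
  | single g r =>
    rw [T0_single, Finsupp.single_apply, MonoidAlgebra.coeff_single, Finsupp.single_apply]
    congr 1
    exact propext ⟨fun h => mk_inj h, fun h => by rw [h]⟩

/-- An element of `ℚ[A]` with integral coefficients comes from `ℤ[A]`. -/
theorem exists_iq {A : Type} [CommGroup A] [Finite A] (x : MonoidAlgebra ℚ A)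
    (h : ∀ a : A, ∃ c : ℤ, x.coeff a = c) : ∃ y : MonoidAlgebra ℤ A, iq A y = x := by
  classical
  choose f hf using h
  have := Fintype.ofFinite A
  refine ⟨∑ a : A, MonoidAlgebra.single a (f a), ?_⟩
  rw [map_sum]
  have h1 : ∀ a : A, iq A (MonoidAlgebra.single a (f a)) = MonoidAlgebra.single a (x.coeff a) := by
    intro a
    rw [hf a]
    simp [iq]
  rw [Finset.sum_congr rfl fun a _ => h1 a]
  apply MonoidAlgebra.coeff_injective
  ext b
  rw [MonoidAlgebra.coeff_sum, Finsupp.finsetSum_apply]
  simp only [MonoidAlgebra.coeff_single, Finsupp.single_apply]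
  simp

/-- Divisibility from the congruences. -/
theorem dvd_of_WF {A : Type} [CommGroup A] [Finite A] {L : ℕ → (ConjClasses A →₀ ℚ)} (hL : WF L)
    {m : ℕ} (hm : 1 ≤ m) (h0 : ∀ j < m, L j = 0) (a : A) :
    ∃ c : ℤ, L m (ConjClasses.mk a) = m * c := by
  have hfin : IsOfFinOrder a := isOfFinOrder_of_finite a
  obtain ⟨N, hN⟩ := hL.1 m a hfin
  have hdvd : m ∣ N.natAbs := by
    rw [Nat.dvd_iff_prime_pow_dvd_dvd]
    intro p k hp hk
    rcases Nat.eq_zero_or_pos k with hk0 | hk0
    · subst hk0
      simp
    · have hpm : p ∣ m := (dvd_pow_self p hk0.ne').trans hk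
      obtain ⟨m₁, rfl⟩ := hpm
      have hm1 : 1 ≤ m₁ := by
        rcases Nat.eq_zero_or_pos m₁ with h0 | h0
        · subst h0
          simp at hm
        · exact h0
      have hlt1 : m₁ < p * m₁ := by
        have := hp.two_le
        nlinarith
      obtain ⟨C, hC⟩ := hL.2 p hp m₁ hm1 a hfin
      rw [h0 m₁ hlt1, map_zero, Finsupp.zero_apply, sub_zero, hN] at hC
      have hCz : N = (p : ℤ) ^ (padicValNat p m₁ + 1) * C := by exact_mod_cast hC
      have hval : padicValNat p (p * m₁) = padicValNat p m₁ + 1 := by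
        have : Fact p.Prime := ⟨hp⟩
        rw [padicValNat.mul hp.ne_zero (by omega), padicValNat.self hp.one_lt]
        ring
      have hkle : k ≤ padicValNat p m₁ + 1 := by
        have : Fact p.Prime := ⟨hp⟩
        rw [← hval]
        exact (padicValNat_dvd_iff_le (by positivity)).1 hk
      have h5 : ((p ^ k : ℕ) : ℤ) ∣ N := by
        rw [hCz]
        push_cast
        exact (pow_dvd_pow _ hkle).mul_right C
      exact Int.natCast_dvd.1 h5
  obtain ⟨e, he⟩ : (m : ℤ) ∣ N := Int.natCast_dvd.2 hdvd
  refine ⟨e, ?_⟩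
  rw [hN, he]
  push_cast
  ring

end NFx

open NFx in
theorem t_NF (hNM1 : St_NM1) : St_NF := by
  intro A _ _ w wi hw hw0 hWF
  have key : ∀ m : ℕ, ∃ c : MonoidAlgebra ℤ A, iq A c = PowerSeries.coeff m w := by
    intro m
    induction m using Nat.strong_induction_on with
    | _ m ih =>
    rcases Nat.eq_zero_or_pos m with hm0 | hm
    · subst hm0
      exact ⟨1, by rw [map_one, PowerSeries.coeff_zero_eq_constantCoeff_apply, hw0]⟩
    -- the truncation
    have ih' : ∀ j : ℕ, ∃ c : MonoidAlgebra ℤ A, j < m → iq A c = PowerSeries.coeff j w := by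
      intro j
      by_cases hj : j < m
      · obtain ⟨c, hc⟩ := ih j hj
        exact ⟨c, fun _ => hc⟩
      · exact ⟨0, fun h => absurd h hj⟩
    choose f hf using ih'
    let a : PowerSeries (MonoidAlgebra ℤ A) := PowerSeries.mk fun j =>
      if j = 0 then 1 else if j < m then f j else 0
    have ha0 : PowerSeries.constantCoeff a = ((1 : (MonoidAlgebra ℤ A)ˣ) : MonoidAlgebra ℤ A) := by
      rw [← PowerSeries.coeff_zero_eq_constantCoeff_apply]
      simp [a]
    let c : PowerSeries (MonoidAlgebra ℤ A) := PowerSeries.invOfUnit a 1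
    have hac : a * c = 1 := PowerSeries.mul_invOfUnit a 1 ha0
    have hca : c * a = 1 := by rw [mul_comm, hac]
    have hlt : ∀ j < m, PowerSeries.coeff j w = PowerSeries.coeff j (iqs A a) := by
      intro j hj
      rw [PowerSeries.coeff_map]
      simp only [a, PowerSeries.coeff_mk]
      split_ifs with h1
      · subst h1
        rw [map_one, PowerSeries.coeff_zero_eq_constantCoeff_apply, hw0]
      · exact (hf j hj).symm
    have ham : PowerSeries.coeff m (iqs A a) = 0 := by
      rw [PowerSeries.coeff_map]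
      simp only [a, PowerSeries.coeff_mk]
      rw [if_neg (by omega), if_neg (by omega), map_zero]
    have hW := WF_int hNM1 hac hca
    have hAC : iqs A a * iqs A c = 1 := by rw [← map_mul, hac, map_one]
    obtain ⟨hj, hmm⟩ := logd hw hAC hw0 hlt
    have hl := hWF.sub hW
    have h0 : ∀ j < m, (fun m => T0 ℚ A (PowerSeries.coeff m (wi * th w)) -
        T0 ℚ A (PowerSeries.coeff m (iqs A c * th (iqs A a)))) j = 0 := by
      intro j hjm
      simp only [hj j hjm, sub_self]
    refine exists_iq _ fun x => ?_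
    obtain ⟨e, he⟩ := dvd_of_WF hl hm h0 x
    refine ⟨e, ?_⟩
    have hmQ : (m : ℚ) ≠ 0 := by exact_mod_cast (show m ≠ 0 by omega)
    have h6 : (m : ℚ) * (PowerSeries.coeff m w).coeff x = m * e := by
      rw [← he, ← map_sub, hmm, ham, sub_zero, T0_comm, MonoidAlgebra.coeff_smul, Finsupp.smul_apply,
        nsmul_eq_mul]
    exact mul_left_cancel₀ hmQ h6
  choose g hg using key
  refine ⟨PowerSeries.mk g, ?_⟩
  ext m : 1
  rw [PowerSeries.coeff_map, PowerSeries.coeff_mk, hg]

end Pool.Agent.NIL
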