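import Pool.Agent.NIL.St

/-!
# NG0: existence of the data
-/

set_option autoImplicit false

noncomputable section

namespace Pool.Agent.NIL

namespace NG0x

variable {B C : Type} [CommRing B] [CommRing C]

theorem rankOne_map {k : Type} [Fintype k] (f : B →+* C) (e : Matrix k k B) (h : RankOne e) :
    RankOne (e.map f) := by
  refine ⟨?_, ?_, ?_⟩
  · rw [← Matrix.map_mul, h.idem]
  · intro i j a b
    simp only [Matrix.map_apply]
    rw [← map_mul, h.minors, map_mul]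
  · have h1 : (e.map f).trace = f e.trace := by
      simp only [Matrix.trace, Matrix.diag, Matrix.map_apply, map_sum]
    rw [h1, h.trace, map_one]

theorem map_C_ev {m n : Type} (c : Matrix m n B) :
    (c.map (Polynomial.C : B →+* Polynomial B)).map (Polynomial.evalRingHom (0 : B)) = c := by
  ext i j
  simp

theorem ev_iqp (A : Type) [CommGroup A] (p : RT A) :
    Polynomial.evalRingHom (0 : MonoidAlgebra ℚ A) (iqp A p) =
      iq A (Polynomial.evalRingHom (0 : MonoidAlgebra ℤ A) p) := by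
  simp only [iqp, Polynomial.coe_evalRingHom, Polynomial.coe_mapRingHom]
  rw [← Polynomial.coeff_zero_eq_eval_zero, ← Polynomial.coeff_zero_eq_eval_zero,
    Polynomial.coeff_map]

end NG0x

open NG0x in
theorem t_NG0 (hNQ : St_NQ) : St_NG0 := by
  intro A _ _ k e he h0
  obtain ⟨x0, y0, hxy0, hyx0⟩ := h0
  obtain ⟨x, y, hxy, hyx⟩ := hNQ A k (e.map (iqp A)) (rankOne_map (iqp A) e he)
  -- notation
  obtain ⟨X0, hX0⟩ : ∃ X0 : Matrix (Fin k) Unit (MonoidAlgebra ℚ A), X0 = x0.map (iq A) := ⟨_, rfl⟩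
  obtain ⟨Y0, hY0⟩ : ∃ Y0 : Matrix Unit (Fin k) (MonoidAlgebra ℚ A), Y0 = y0.map (iq A) := ⟨_, rfl⟩
  obtain ⟨xe, hxe⟩ : ∃ xe : Matrix (Fin k) Unit (MonoidAlgebra ℚ A),
      xe = x.map (Polynomial.evalRingHom 0) := ⟨_, rfl⟩
  obtain ⟨ye, hye⟩ : ∃ ye : Matrix Unit (Fin k) (MonoidAlgebra ℚ A),
      ye = y.map (Polynomial.evalRingHom 0) := ⟨_, rfl⟩
  have e1 : Y0 * X0 = 1 := by
    rw [hX0, hY0, ← Matrix.map_mul, hyx0, Matrix.map_one _ (map_zero _) (map_one _)]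
  have e2 : ye * xe = 1 := by
    rw [hxe, hye, ← Matrix.map_mul, hyx, Matrix.map_one _ (map_zero _) (map_one _)]
  have e3 : xe * ye = X0 * Y0 := by
    rw [hxe, hye, hX0, hY0, ← Matrix.map_mul, ← Matrix.map_mul, hxy, hxy0]
    ext i j : 1
    simp only [Matrix.map_apply]
    exact ev_iqp A (e i j)
  obtain ⟨c, hc⟩ : ∃ c : Matrix Unit Unit (MonoidAlgebra ℚ A), c = Y0 * xe := ⟨_, rfl⟩
  obtain ⟨c', hc'⟩ : ∃ c' : Matrix Unit Unit (MonoidAlgebra ℚ A), c' = ye * X0 := ⟨_, rfl⟩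
  have e4 : c * c' = 1 := by
    rw [hc, hc', Matrix.mul_assoc, ← Matrix.mul_assoc xe, e3, Matrix.mul_assoc X0, e1,
      Matrix.mul_one, e1]
  have e5 : c' * c = 1 := by
    rw [hc, hc', Matrix.mul_assoc, ← Matrix.mul_assoc X0, ← e3, Matrix.mul_assoc xe, e2,
      Matrix.mul_one, e2]
  have e6 : xe = X0 * c := by
    rw [hc, ← Matrix.mul_assoc, ← e3, Matrix.mul_assoc, e2, Matrix.mul_one]
  refine ⟨⟨x0, y0, x * c'.map Polynomial.C, c.map Polynomial.C * y, hxy0, hyx0, ?_, ?_, ?_⟩⟩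
  · rw [Matrix.mul_assoc, ← Matrix.mul_assoc (c'.map Polynomial.C), ← Matrix.map_mul, e5,
      Matrix.map_one _ (map_zero _) (map_one _), Matrix.one_mul, hxy]
  · rw [Matrix.mul_assoc, ← Matrix.mul_assoc y, hyx, Matrix.one_mul, ← Matrix.map_mul, e4,
      Matrix.map_one _ (map_zero _) (map_one _)]
  · rw [Matrix.map_mul, map_C_ev, ← hxe, e6, Matrix.mul_assoc, e4, Matrix.mul_one, hX0]

end Pool.Agent.NIL
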