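import Pool.Agent.NIL.St

/-!
# NIL, module NG1: if `s` is integral the module is free (helper38)
-/

set_option autoImplicit false

noncomputable section

namespace Pool.Agent.NIL

namespace NG1x

lemma iq_injective (A : Type) [Group A] : Function.Injective (iq A) :=
  MonoidAlgebra.map_injective (M := A) (Int.castRingHom ℚ).toAddMonoidHom
    (RingHom.injective_int (Int.castRingHom ℚ))

lemma lift_poly {R Q : Type} [CommRing R] [CommRing Q] (f : R →+* Q) (g : PowerSeries R)
    (p : Polynomial Q) (h : PowerSeries.map f g = ps Q p) :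
    ∃ p' : Polynomial R, p'.map f = p := by
  refine ⟨PowerSeries.trunc (p.natDegree + 1) g, ?_⟩
  ext n
  have h1 := congrArg (PowerSeries.coeff n) h
  rw [PowerSeries.coeff_map] at h1
  have h2 : PowerSeries.coeff n (ps Q p) = p.coeff n := by
    simp [ps]
  rw [h2] at h1
  rw [Polynomial.coeff_map, PowerSeries.coeff_trunc]
  split_ifs with hn
  · exact h1
  · rw [map_zero, Polynomial.coeff_eq_zero_of_natDegree_lt (by omega)]

lemma map_ps {R Q : Type} [CommRing R] [CommRing Q] (f : R →+* Q) (p : Polynomial R) :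
    PowerSeries.map f (ps R p) = ps Q (p.map f) := by
  ext n
  simp [ps]

lemma ps_C {R : Type} [CommRing R] (a : R) : ps R (Polynomial.C a) = PowerSeries.C a := by
  simp [ps]

lemma cc_ps {R : Type} [CommRing R] (p : Polynomial R) :
    PowerSeries.constantCoeff (ps R p) = p.coeff 0 := by
  simp [ps]

lemma exists_inv {R : Type} [CommRing R] (u : PowerSeries R)
    (h : PowerSeries.constantCoeff u = 1) : ∃ v : PowerSeries R, v * u = 1 := by
  have h1 : IsUnit u := PowerSeries.isUnit_iff_constantCoeff.2 (h ▸ isUnit_one)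
  obtain ⟨w, rfl⟩ := h1
  exact ⟨((w⁻¹ : (PowerSeries R)ˣ) : PowerSeries R), Units.inv_mul w⟩

lemma core {R Q : Type} [CommRing R] [CommRing Q] (f : R →+* Q) (hf : Function.Injective f)
    {κ : Type} [Fintype κ] (e : κ → κ → Polynomial R) (a b : κ → R) (x y : κ → Polynomial Q)
    (h0 : ∀ i j, a i * b j = (e i j).coeff 0) (h0' : ∑ j, b j * a j = 1)
    (h1 : ∀ i j, x i * y j = (e i j).map f) (h1' : ∑ j, y j * x j = 1)
    (hx : ∀ i, (x i).coeff 0 = f (a i)) (s' : PowerSeries R)
    (hs : PowerSeries.map f s' = ps Q (∑ j, Polynomial.C (f (b j)) * x j)) :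
    ∃ x' y' : κ → Polynomial R, (∀ i j, x' i * y' j = e i j) ∧ ∑ j, y' j * x' j = 1 := by
  classical
  have hfp : Function.Injective (Polynomial.map f) := Polynomial.map_injective f hf
  -- the constant term of s'
  have hs0 : PowerSeries.constantCoeff s' = 1 := by
    apply hf
    have h2 : f (PowerSeries.constantCoeff s') = PowerSeries.constantCoeff (PowerSeries.map f s') := by
      rw [← PowerSeries.coeff_zero_eq_constantCoeff_apply, ← PowerSeries.coeff_zero_eq_constantCoeff_apply,
        PowerSeries.coeff_map]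
    rw [h2, hs, cc_ps, Polynomial.finsetSum_coeff]
    simp only [Polynomial.coeff_C_mul, hx]
    rw [← h0', map_sum]
    exact Finset.sum_congr rfl fun j _ => (map_mul f _ _).symm
  obtain ⟨si, hsi⟩ := exists_inv s' hs0
  set F : κ → PowerSeries R := fun i => ∑ j, ps R (e i j) * PowerSeries.C (a j) with hF
  set H : κ → PowerSeries R := fun j => ∑ i, PowerSeries.C (b i) * ps R (e i j) with hH
  set u : PowerSeries R := ∑ i, PowerSeries.C (b i) * F i with hu
  set S : PowerSeries Q := ps Q (∑ j, Polynomial.C (f (b j)) * x j) with hS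
  have hS' : S = ∑ j, PowerSeries.C (f (b j)) * ps Q (x j) := by
    rw [hS, map_sum]
    exact Finset.sum_congr rfl fun j _ => by rw [map_mul, ps_C]
  set τ : PowerSeries Q := ∑ j, ps Q (y j) * PowerSeries.C (f (a j)) with hτ
  have hE : ∀ i j, PowerSeries.map f (ps R (e i j)) = ps Q (x i) * ps Q (y j) := by
    intro i j
    rw [map_ps, ← h1, map_mul]
  have hFx : ∀ i, PowerSeries.map f (F i) = ps Q (x i) * τ := by
    intro i
    rw [hF, hτ, map_sum, Finset.mul_sum]
    refine Finset.sum_congr rfl fun j _ => ?_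
    rw [map_mul, hE, PowerSeries.map_C, mul_assoc]
  have hHy : ∀ j, PowerSeries.map f (H j) = S * ps Q (y j) := by
    intro j
    rw [hH, hS', map_sum, Finset.sum_mul]
    refine Finset.sum_congr rfl fun i _ => ?_
    rw [map_mul, hE, PowerSeries.map_C, mul_assoc]
  have hu' : PowerSeries.map f u = S * τ := by
    rw [hu, hS', map_sum, Finset.sum_mul]
    refine Finset.sum_congr rfl fun i _ => ?_
    rw [map_mul, hFx, PowerSeries.map_C, mul_assoc]
  have hu0 : PowerSeries.constantCoeff u = 1 := by
    have h3 : ∀ i, PowerSeries.constantCoeff (F i) = a i := by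
      intro i
      rw [hF]
      simp only [map_sum, map_mul, cc_ps, PowerSeries.constantCoeff_C, ← h0]
      calc ∑ j, a i * b j * a j = a i * ∑ j, b j * a j := by
            rw [Finset.mul_sum]
            exact Finset.sum_congr rfl fun j _ => mul_assoc _ _ _
        _ = a i := by rw [h0', mul_one]
    rw [hu]
    simp only [map_sum, map_mul, h3, PowerSeries.constantCoeff_C]
    exact h0'
  obtain ⟨ui, hui⟩ := exists_inv u hu0
  have hX : ∀ i, PowerSeries.map f (ui * s' * F i) = ps Q (x i) := by
    intro i
    have h4 : PowerSeries.map f ui * (S * τ) = 1 := by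
      rw [← hu', ← map_mul, hui, map_one]
    rw [map_mul, map_mul, hFx, hs]
    calc PowerSeries.map f ui * S * (ps Q (x i) * τ)
        = ps Q (x i) * (PowerSeries.map f ui * (S * τ)) := by ring
      _ = ps Q (x i) := by rw [h4, mul_one]
  have hY : ∀ j, PowerSeries.map f (si * H j) = ps Q (y j) := by
    intro j
    have h5 : PowerSeries.map f si * S = 1 := by
      rw [← hs, ← map_mul, hsi, map_one]
    rw [map_mul, hHy, ← mul_assoc, h5, one_mul]
  choose x' hx' using fun i => lift_poly f _ _ (hX i)
  choose y' hy' using fun j => lift_poly f _ _ (hY j)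
  refine ⟨x', y', fun i j => ?_, ?_⟩
  · apply hfp
    rw [Polynomial.map_mul, hx', hy', h1]
  · apply hfp
    rw [Polynomial.map_sum, Polynomial.map_one, ← h1']
    exact Finset.sum_congr rfl fun j _ => by rw [Polynomial.map_mul, hx', hy']

end NG1x

theorem t_NG1 : St_NG1 := by
  intro A _ _ κ _ _ e _ d hs
  obtain ⟨s', hs'⟩ := hs
  have hsum : d.s = ∑ j, Polynomial.C (iq A (d.y0 () j)) * d.x j () := by
    simp [Dat.s, Matrix.mul_apply]
  rw [hsum] at hs'
  obtain ⟨x', y', h1, h2⟩ := NG1x.core (iq A) (NG1x.iq_injective A) (fun i j => e i j)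
    (fun i => d.x0 i ()) (fun j => d.y0 () j) (fun i => d.x i ()) (fun j => d.y () j)
    (fun i j => by
      have h := congrFun (congrFun d.h0 i) j
      simpa [Matrix.mul_apply, Polynomial.coeff_zero_eq_eval_zero] using h)
    (by
      have h := congrFun (congrFun d.h0' ()) ()
      simpa [Matrix.mul_apply] using h)
    (fun i j => by
      have h := congrFun (congrFun d.h1 i) j
      simpa [Matrix.mul_apply] using h)
    (by
      have h := congrFun (congrFun d.h1' ()) ()
      simpa [Matrix.mul_apply] using h)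
    (fun i => by
      have h := congrFun (congrFun d.hx i) ()
      simpa [Polynomial.coeff_zero_eq_eval_zero] using h)
    s' hs'
  refine ⟨Matrix.of fun i _ => x' i, Matrix.of fun _ j => y' j, ?_, ?_⟩
  · ext1 i j
    simp [Matrix.mul_apply, h1]
  · ext1 i j
    simp [Matrix.mul_apply, h2]

end Pool.Agent.NIL
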