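import Pool.Agent.NIL.St

/-!
# Averaging over a finite group of automorphisms
-/

set_option autoImplicit false

noncomputable section

namespace Pool.Agent.NIL

namespace NG3x

theorem th_one {R : Type} [Ring R] : th (1 : PowerSeries R) = 0 := by
  ext m
  rw [coeff_th, PowerSeries.coeff_one]
  split_ifs with h
  · subst h; simp
  · simp

theorem th_prod {R ι : Type} [CommRing R] (S : Finset ι) (f g : ι → PowerSeries R)
    (h : ∀ i, f i * g i = 1) :
    (∏ i ∈ S, g i) * th (∏ i ∈ S, f i) = ∑ i ∈ S, g i * th (f i) := by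
  classical
  induction S using Finset.induction_on with
  | empty => simp [th_one]
  | insert a S ha ih =>
    rw [Finset.prod_insert ha, Finset.prod_insert ha, Finset.sum_insert ha, th_mul, ← ih]
    have h1 : (∏ i ∈ S, f i) * (∏ i ∈ S, g i) = 1 := by
      rw [← Finset.prod_mul_distrib]
      exact Finset.prod_eq_one fun i _ => h i
    linear_combination (g a * th (f a)) * h1 + ((∏ i ∈ S, g i) * th (∏ i ∈ S, f i)) * h a

theorem th_map {R S : Type} [Ring R] [Ring S] (F : R →+* S) (f : PowerSeries R) :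
    th (PowerSeries.map F f) = PowerSeries.map F (th f) := by
  ext m
  simp

variable {A G Γ : Type} [CommGroup A] [Group G] [Group Γ] [Fintype Γ]

/-- The number of the `γ` with `γ z = a`. -/
def cnt (ρ : Γ →* MulAut A) (a z : A) : ℤ := by
  classical
  exact ∑ γ : Γ, if ρ γ z = a then (1 : ℤ) else 0

theorem cnt_orbit (ρ : Γ →* MulAut A) (a z : A) (γ' : Γ) : cnt ρ a (ρ γ' z) = cnt ρ a z := by
  classical
  unfold cnt
  have h := Equiv.sum_comp (Equiv.mulRight γ') (fun γ : Γ => if ρ γ z = a then (1 : ℤ) else 0)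
  rw [← h]
  refine Finset.sum_congr rfl fun γ _ => ?_
  rw [Equiv.coe_mulRight, map_mul]
  rfl

/-- The same number as a function of the conjugacy class of `φ z`. -/
def cntC (φ : A →* G) (ρ : Γ →* MulAut A) (a : A) (C : ConjClasses G) : ℤ := by
  classical
  exact if h : ∃ z, ConjClasses.mk (φ z) = C then cnt ρ a h.choose else 0

theorem cntC_mk (φ : A →* G) (ρ : Γ →* MulAut A)
    (hc : ∀ a b : A, IsConj (φ a) (φ b) → ∃ γ : Γ, ρ γ a = b) (a z : A) :
    cntC φ ρ a (ConjClasses.mk (φ z)) = cnt ρ a z := by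
  classical
  have h : ∃ z', ConjClasses.mk (φ z') = ConjClasses.mk (φ z) := ⟨z, rfl⟩
  unfold cntC
  rw [dif_pos h]
  obtain ⟨γ, hγ⟩ := hc _ _ (ConjClasses.mk_eq_mk_iff_isConj.1 h.choose_spec)
  rw [← cnt_orbit ρ a h.choose γ, hγ]

theorem cntC_eq_zero (φ : A →* G) (ρ : Γ →* MulAut A) (a : A) (C : ConjClasses G)
    (h : ¬ ∃ z, ConjClasses.mk (φ z) = C) : cntC φ ρ a C = 0 := by
  classical
  unfold cntC
  rw [dif_neg h]

/-- The sum of `n(a, C) X(C)` over the classes `C`. -/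
def Fu (φ : A →* G) (ρ : Γ →* MulAut A) (a : A) : (ConjClasses G →₀ ℚ) →+ ℚ :=
  Finsupp.liftAddHom fun C => AddMonoidHom.mulLeft (cntC φ ρ a C : ℚ)

theorem Fu_single (φ : A →* G) (ρ : Γ →* MulAut A) (a : A) (C : ConjClasses G) (r : ℚ) :
    Fu φ ρ a (Finsupp.single C r) = cntC φ ρ a C * r := by
  simp [Fu]

theorem Fu_apply (φ : A →* G) (ρ : Γ →* MulAut A) (a : A) (X : ConjClasses G →₀ ℚ) :
    Fu φ ρ a X = ∑ C ∈ X.support, cntC φ ρ a C * X C := by
  simp [Fu, Finsupp.sum]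

theorem Fu_int [Finite A] (φ : A →* G) (ρ : Γ →* MulAut A) (a : A) (X : ConjClasses G →₀ ℚ) (q : ℚ)
    (h : ∀ g : G, IsOfFinOrder g → ∃ c : ℤ, X (ConjClasses.mk g) = q * c) :
    ∃ c : ℤ, Fu φ ρ a X = q * c := by
  classical
  have h1 : ∀ C : ConjClasses G, ∃ d : ℤ, (cntC φ ρ a C : ℚ) * X C = q * d := by
    intro C
    by_cases hC : ∃ z, ConjClasses.mk (φ z) = C
    · obtain ⟨z, rfl⟩ := hC
      obtain ⟨c, hc⟩ := h (φ z) (φ.isOfFinOrder (isOfFinOrder_of_finite z))
      exact ⟨cntC φ ρ a (ConjClasses.mk (φ z)) * c, by rw [hc]; push_cast; ring⟩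
    · exact ⟨0, by rw [cntC_eq_zero φ ρ a C hC]; simp⟩
  choose d hd using h1
  refine ⟨∑ C ∈ X.support, d C, ?_⟩
  rw [Fu_apply]
  push_cast
  rw [Finset.mul_sum]
  exact Finset.sum_congr rfl fun C _ => hd C

theorem single_mk_apply (x a : A) (r : ℚ) :
    (Finsupp.single (ConjClasses.mk x) r : ConjClasses A →₀ ℚ) (ConjClasses.mk a) =
      (by classical exact if x = a then r else 0) := by
  classical
  rw [Finsupp.single_apply]
  congr 1
  rw [ConjClasses.mk_eq_mk_iff_isConj, isConj_iff_eq]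

theorem sum_ite_eq_cnt (ρ : Γ →* MulAut A) (a z : A) (r : ℚ) :
    (∑ γ : Γ, (by classical exact if ρ γ z = a then r else 0 : ℚ)) = cnt ρ a z * r := by
  classical
  unfold cnt
  push_cast
  rw [Finset.sum_mul]
  refine Finset.sum_congr rfl fun γ _ => ?_
  split_ifs <;> simp

theorem key1 (φ : A →* G) (ρ : Γ →* MulAut A)
    (hc : ∀ a b : A, IsConj (φ a) (φ b) → ∃ γ : Γ, ρ γ a = b) (a : A) (l : MonoidAlgebra ℚ A) :
    Fu φ ρ a (T0 ℚ G (MonoidAlgebra.mapDomainRingHom ℚ φ l)) =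
      T0 ℚ A (∑ γ : Γ, MonoidAlgebra.mapDomainRingHom ℚ (ρ γ).toMonoidHom l) (ConjClasses.mk a) := by
  classical
  induction l using MonoidAlgebra.induction_linear with
  | zero => simp
  | add x y hx hy =>
    simp only [map_add, Finset.sum_add_distrib, Finsupp.add_apply] at hx hy ⊢
    rw [hx, hy]
  | single z r =>
    have h1 : MonoidAlgebra.mapDomainRingHom ℚ φ (MonoidAlgebra.single z r) =
        MonoidAlgebra.single (φ z) r := by simp
    have h2 : ∀ γ : Γ, MonoidAlgebra.mapDomainRingHom ℚ (ρ γ).toMonoidHom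
        (MonoidAlgebra.single z r) = MonoidAlgebra.single (ρ γ z) r := by intro γ; simp
    rw [h1, T0_single, Fu_single, cntC_mk φ ρ hc, map_sum, Finsupp.finsetSum_apply,
      ← sum_ite_eq_cnt]
    refine Finset.sum_congr rfl fun γ _ => ?_
    rw [h2, T0_single, single_mk_apply]

theorem key2 (φ : A →* G) (ρ : Γ →* MulAut A)
    (hc : ∀ a b : A, IsConj (φ a) (φ b) → ∃ γ : Γ, ρ γ a = b) (p : ℕ) (a : A)
    (l : MonoidAlgebra ℚ A) :
    Fu φ ρ a (Phi ℚ G p (T0 ℚ G (MonoidAlgebra.mapDomainRingHom ℚ φ l))) =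
      Phi ℚ A p (T0 ℚ A (∑ γ : Γ, MonoidAlgebra.mapDomainRingHom ℚ (ρ γ).toMonoidHom l))
        (ConjClasses.mk a) := by
  classical
  induction l using MonoidAlgebra.induction_linear with
  | zero => simp
  | add x y hx hy =>
    simp only [map_add, Finset.sum_add_distrib, Finsupp.add_apply] at hx hy ⊢
    rw [hx, hy]
  | single z r =>
    have h1 : MonoidAlgebra.mapDomainRingHom ℚ φ (MonoidAlgebra.single z r) =
        MonoidAlgebra.single (φ z) r := by simp
    have h2 : ∀ γ : Γ, MonoidAlgebra.mapDomainRingHom ℚ (ρ γ).toMonoidHom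
        (MonoidAlgebra.single z r) = MonoidAlgebra.single (ρ γ z) r := by intro γ; simp
    have h3 : ∀ (H : Type) [Group H] (g : H), Phi ℚ H p (Finsupp.single (ConjClasses.mk g) r) =
        Finsupp.single (ConjClasses.mk (g ^ p)) r := by
      intro H _ g
      simp [Phi]
    rw [h1, T0_single, h3, ← map_pow, Fu_single, cntC_mk φ ρ hc, map_sum, map_sum,
      Finsupp.finsetSum_apply, ← sum_ite_eq_cnt]
    refine Finset.sum_congr rfl fun γ _ => ?_
    rw [h2, T0_single, h3, ← map_pow, single_mk_apply]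

end NG3x

open NG3x in
theorem t_NG3 : St_NG3 := by
  intro A G Γ _ _ _ _ _ φ ρ _ hc s si hs hWF
  have hm : ∀ m : ℕ, PowerSeries.coeff m ((∏ γ : Γ, eqs (ρ γ).toMonoidHom si) *
      th (∏ γ : Γ, eqs (ρ γ).toMonoidHom s)) =
      ∑ γ : Γ, MonoidAlgebra.mapDomainRingHom ℚ (ρ γ).toMonoidHom
        (PowerSeries.coeff m (si * th s)) := by
    intro m
    rw [th_prod _ _ _ fun γ => by rw [← map_mul, hs, map_one], map_sum]
    refine Finset.sum_congr rfl fun γ _ => ?_
    rw [th_map, ← map_mul, PowerSeries.coeff_map]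
  have hL : ∀ m : ℕ, T0 ℚ G (PowerSeries.coeff m (eqs φ (si * th s))) =
      T0 ℚ G (MonoidAlgebra.mapDomainRingHom ℚ φ (PowerSeries.coeff m (si * th s))) := by
    intro m
    rw [PowerSeries.coeff_map]
  have hF : ∀ (m : ℕ) (a : A), T0 ℚ A (PowerSeries.coeff m ((∏ γ : Γ, eqs (ρ γ).toMonoidHom si) *
      th (∏ γ : Γ, eqs (ρ γ).toMonoidHom s))) (ConjClasses.mk a) =
      Fu φ ρ a (T0 ℚ G (PowerSeries.coeff m (eqs φ (si * th s)))) := by
    intro m a
    rw [hm, hL, key1 φ ρ hc]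
  refine ⟨fun m a _ => ?_, fun p hp m hm1 a _ => ?_⟩
  · obtain ⟨c, h⟩ := Fu_int φ ρ a _ 1 fun g hg => by
      obtain ⟨c, h⟩ := hWF.1 m g hg
      exact ⟨c, by rw [one_mul]; exact h⟩
    exact ⟨c, by rw [hF, h, one_mul]⟩
  · obtain ⟨c, h⟩ := Fu_int φ ρ a (T0 ℚ G (PowerSeries.coeff (p * m) (eqs φ (si * th s))) -
        Phi ℚ G p (T0 ℚ G (PowerSeries.coeff m (eqs φ (si * th s)))))
        ((p : ℚ) ^ (padicValNat p m + 1)) fun g hg => by
      obtain ⟨c, h⟩ := hWF.2 p hp m hm1 g hg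
      exact ⟨c, by rw [Finsupp.sub_apply]; exact h⟩
    refine ⟨c, ?_⟩
    rw [← h, map_sub, ← hF, hL m, key2 φ ρ hc, ← hm]

end Pool.Agent.NIL
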