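import Pool.Agent.NIL.St

/-!
# Module NG4: the tensor product over `Γ`
-/

set_option autoImplicit false

noncomputable section

namespace Pool.Agent.NIL

namespace NG4x

/-- The general form of the computation: a sum over functions of products is a product of sums. -/
theorem sum_prod {B Γ κ : Type} [CommRing B] [Fintype Γ] [DecidableEq Γ] [Fintype κ]
    (F : Γ → κ → B) : ∑ l : Γ → κ, ∏ γ, F γ (l γ) = ∏ γ, ∑ b, F γ b := by
  classical
  rw [Finset.prod_univ_sum, Fintype.piFinset_univ]

theorem map_iq {A : Type} [CommGroup A] (ψ : A →* A) (p : MonoidAlgebra ℤ A) :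
    iq A (MonoidAlgebra.mapDomainRingHom ℤ ψ p) = MonoidAlgebra.mapDomainRingHom ℚ ψ (iq A p) := by
  induction p using MonoidAlgebra.induction_linear with
  | zero => simp only [map_zero]
  | add x y hx hy => simp only [map_add, hx, hy]
  | single g r => simp

theorem iqp_ext {A : Type} [CommGroup A] (ψ : A →* A) (p : RT A) :
    iqp A (ext ψ p) = Polynomial.mapRingHom (MonoidAlgebra.mapDomainRingHom ℚ ψ) (iqp A p) := by
  ext1 n
  simp only [ext, iqp, Polynomial.coe_mapRingHom, Polynomial.coeff_map]
  exact map_iq ψ _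

theorem eval_ext {A : Type} [CommGroup A] (ψ : A →* A) (p : RT A) :
    Polynomial.evalRingHom 0 (ext ψ p) =
      MonoidAlgebra.mapDomainRingHom ℤ ψ (Polynomial.evalRingHom 0 p) := by
  simp only [ext, Polynomial.coe_evalRingHom, Polynomial.coe_mapRingHom,
    ← Polynomial.coeff_zero_eq_eval_zero, Polynomial.coeff_map]

theorem eval_map {A : Type} [CommGroup A] (ψ : A →* A) (p : Polynomial (MonoidAlgebra ℚ A)) :
    Polynomial.evalRingHom 0 (Polynomial.mapRingHom (MonoidAlgebra.mapDomainRingHom ℚ ψ) p) =
      MonoidAlgebra.mapDomainRingHom ℚ ψ (Polynomial.evalRingHom 0 p) := by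
  simp only [Polynomial.coe_evalRingHom, Polynomial.coe_mapRingHom,
    ← Polynomial.coeff_zero_eq_eval_zero, Polynomial.coeff_map]

end NG4x

open NG4x in
theorem t_NG4 : St_NG4 := by
  intro A Γ _ _ _ _ _ ρ k e he d
  refine ⟨⟨?_, ?_, ?_⟩, ?_⟩
  · ext1 i j
    simp only [tens, Matrix.mul_apply, Matrix.of_apply, ← Finset.prod_mul_distrib, ← map_mul]
    rw [sum_prod (fun γ b => ext (ρ γ).toMonoidHom (e (i γ) b * e b (j γ)))]
    refine Finset.prod_congr rfl fun γ _ => ?_
    rw [← map_sum, ← Matrix.mul_apply, he.idem]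
  · intro i j a b
    simp only [tens, Matrix.of_apply, ← Finset.prod_mul_distrib, ← map_mul]
    refine Finset.prod_congr rfl fun γ _ => ?_
    rw [he.minors]
  · simp only [tens, Matrix.trace, Matrix.diag, Matrix.of_apply]
    rw [sum_prod (fun γ b => ext (ρ γ).toMonoidHom (e b b))]
    refine Finset.prod_eq_one fun γ _ => ?_
    rw [← map_sum]
    have h : ∑ i, e i i = 1 := he.trace
    rw [h, map_one]
  · refine ⟨⟨Matrix.of fun i _ => ∏ γ, MonoidAlgebra.mapDomainRingHom ℤ (ρ γ).toMonoidHom
        (d.x0 (i γ) ()),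
      Matrix.of fun _ i => ∏ γ, MonoidAlgebra.mapDomainRingHom ℤ (ρ γ).toMonoidHom
        (d.y0 () (i γ)),
      Matrix.of fun i _ => ∏ γ, Polynomial.mapRingHom (MonoidAlgebra.mapDomainRingHom ℚ
        (ρ γ).toMonoidHom) (d.x (i γ) ()),
      Matrix.of fun _ i => ∏ γ, Polynomial.mapRingHom (MonoidAlgebra.mapDomainRingHom ℚ
        (ρ γ).toMonoidHom) (d.y () (i γ)), ?_, ?_, ?_, ?_, ?_⟩, ?_⟩
    · ext1 i j
      simp only [Matrix.mul_apply, Matrix.of_apply, Matrix.map_apply, tens,
        Finset.univ_unique, Finset.sum_singleton, ← Finset.prod_mul_distrib, ← map_mul]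
      rw [map_prod]
      refine Finset.prod_congr rfl fun γ _ => ?_
      rw [eval_ext]
      have h := congrFun (congrFun d.h0 (i γ)) (j γ)
      simp only [Matrix.mul_apply, Matrix.map_apply, Finset.univ_unique,
        Finset.sum_singleton] at h
      rw [← h]
    · ext1 i j
      simp only [Matrix.mul_apply, Matrix.of_apply, ← Finset.prod_mul_distrib, ← map_mul]
      rw [sum_prod (fun γ b => MonoidAlgebra.mapDomainRingHom ℤ (ρ γ).toMonoidHom
        (d.y0 () b * d.x0 b ()))]
      have h := congrFun (congrFun d.h0' ()) ()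
      simp only [Matrix.mul_apply, Matrix.one_apply_eq] at h
      have e1 : (1 : Matrix Unit Unit (MonoidAlgebra ℤ A)) i j = 1 := Matrix.one_apply_eq _
      rw [e1]
      refine Finset.prod_eq_one fun γ _ => ?_
      rw [← map_sum, h, map_one]
    · ext1 i j
      simp only [Matrix.mul_apply, Matrix.of_apply, Matrix.map_apply, tens,
        Finset.univ_unique, Finset.sum_singleton, ← Finset.prod_mul_distrib, ← map_mul]
      rw [map_prod]
      refine Finset.prod_congr rfl fun γ _ => ?_
      rw [iqp_ext]
      have h := congrFun (congrFun d.h1 (i γ)) (j γ)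
      simp only [Matrix.mul_apply, Matrix.map_apply, Finset.univ_unique,
        Finset.sum_singleton] at h
      rw [← h]
    · ext1 i j
      simp only [Matrix.mul_apply, Matrix.of_apply, ← Finset.prod_mul_distrib, ← map_mul]
      rw [sum_prod (fun γ b => Polynomial.mapRingHom (MonoidAlgebra.mapDomainRingHom ℚ
        (ρ γ).toMonoidHom) (d.y () b * d.x b ()))]
      have h := congrFun (congrFun d.h1' ()) ()
      simp only [Matrix.mul_apply, Matrix.one_apply_eq] at h
      have e1 : (1 : Matrix Unit Unit (Polynomial (MonoidAlgebra ℚ A))) i j = 1 :=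
        Matrix.one_apply_eq _
      rw [e1]
      refine Finset.prod_eq_one fun γ _ => ?_
      rw [← map_sum, h, map_one]
    · ext1 i j
      simp only [Matrix.of_apply, Matrix.map_apply]
      rw [map_prod, map_prod]
      refine Finset.prod_congr rfl fun γ _ => ?_
      rw [eval_map, map_iq]
      have h := congrFun (congrFun d.hx (i γ)) ()
      simp only [Matrix.map_apply] at h
      rw [h]
    · unfold Dat.s
      simp only [Matrix.mul_apply, Matrix.of_apply, Matrix.map_apply]
      have e1 : ∀ l : Γ → Fin k, Polynomial.C (iq A (∏ γ, MonoidAlgebra.mapDomainRingHom ℤ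
          (ρ γ).toMonoidHom (d.y0 () (l γ)))) = ∏ γ, Polynomial.mapRingHom
            (MonoidAlgebra.mapDomainRingHom ℚ (ρ γ).toMonoidHom)
              (Polynomial.C (iq A (d.y0 () (l γ)))) := by
        intro l
        rw [map_prod, map_prod]
        refine Finset.prod_congr rfl fun γ _ => ?_
        rw [map_iq, Polynomial.coe_mapRingHom, Polynomial.map_C]
      simp only [e1, ← Finset.prod_mul_distrib, ← map_mul]
      rw [sum_prod (fun γ b => Polynomial.mapRingHom (MonoidAlgebra.mapDomainRingHom ℚ
        (ρ γ).toMonoidHom) (Polynomial.C (iq A (d.y0 () b)) * d.x b ())), map_prod]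
      refine Finset.prod_congr rfl fun γ _ => ?_
      rw [← map_sum]
      exact Polynomial.polynomial_map_coe

end Pool.Agent.NIL
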