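import Pool.Agent.NIL.St2

/-!
# Module NGG: the general clause
-/

set_option autoImplicit false

noncomputable section

namespace Pool.Agent.NIL

namespace NGGx

theorem tw {B : Type} [Ring B] {κ μ ν : Type} [Fintype κ] [DecidableEq κ] [Fintype μ]
    [DecidableEq μ] [Fintype ν] [DecidableEq ν] {e : Matrix κ κ B} {x : Matrix κ ν B}
    {y : Matrix ν κ B} {X : Matrix (κ ⊕ μ) (ν ⊕ μ) B} {Y : Matrix (ν ⊕ μ) (κ ⊕ μ) B}
    (hxy : x * y = e) (hyx : y * x = 1) (hXY : X * Y = Matrix.fromBlocks e 0 0 1) (hYX : Y * X = 1) :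
    (Y * (Matrix.fromBlocks x 0 0 1 : Matrix (κ ⊕ μ) (ν ⊕ μ) B)) *
      ((Matrix.fromBlocks y 0 0 1 : Matrix (ν ⊕ μ) (κ ⊕ μ) B) * X) = 1 ∧
    ((Matrix.fromBlocks y 0 0 1 : Matrix (ν ⊕ μ) (κ ⊕ μ) B) * X) *
      (Y * (Matrix.fromBlocks x 0 0 1 : Matrix (κ ⊕ μ) (ν ⊕ μ) B)) = 1 := by
  have h1 : (Matrix.fromBlocks x 0 0 1 : Matrix (κ ⊕ μ) (ν ⊕ μ) B) *
      (Matrix.fromBlocks y 0 0 1 : Matrix (ν ⊕ μ) (κ ⊕ μ) B) = X * Y := by
    rw [Matrix.fromBlocks_multiply, hXY]
    simp [hxy]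
  constructor
  · calc (Y * (Matrix.fromBlocks x 0 0 1 : Matrix (κ ⊕ μ) (ν ⊕ μ) B)) *
          ((Matrix.fromBlocks y 0 0 1 : Matrix (ν ⊕ μ) (κ ⊕ μ) B) * X)
        = Y * ((Matrix.fromBlocks x 0 0 1 : Matrix (κ ⊕ μ) (ν ⊕ μ) B) *
          (Matrix.fromBlocks y 0 0 1 : Matrix (ν ⊕ μ) (κ ⊕ μ) B)) * X := by
          simp only [Matrix.mul_assoc]
      _ = (Y * X) * (Y * X) := by rw [h1]; simp only [Matrix.mul_assoc]
      _ = 1 := by rw [hYX, Matrix.mul_one]
  · calc ((Matrix.fromBlocks y 0 0 1 : Matrix (ν ⊕ μ) (κ ⊕ μ) B) * X) *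
          (Y * (Matrix.fromBlocks x 0 0 1 : Matrix (κ ⊕ μ) (ν ⊕ μ) B))
        = (Matrix.fromBlocks y 0 0 1 : Matrix (ν ⊕ μ) (κ ⊕ μ) B) * (X * Y) *
          (Matrix.fromBlocks x 0 0 1 : Matrix (κ ⊕ μ) (ν ⊕ μ) B) := by
          simp only [Matrix.mul_assoc]
      _ = 1 := by
          rw [hXY, Matrix.fromBlocks_multiply, Matrix.fromBlocks_multiply]
          have : y * e * x = 1 := by
            rw [← hxy, ← Matrix.mul_assoc, hyx, Matrix.one_mul, hyx]
          simp [this]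

theorem th_map {R S : Type} [Ring R] [Ring S] (f : R →+* S) (z : PowerSeries R) :
    th (PowerSeries.map f z) = PowerSeries.map f (th z) := by
  ext m
  simp

theorem th_one {R : Type} [Ring R] : th (1 : PowerSeries R) = 0 := by
  ext m
  rw [coeff_th, PowerSeries.coeff_one]
  split_ifs with h
  · rw [h]; simp
  · simp

theorem iq_nat {A G : Type} [Group A] [Group G] (φ : A →* G) (z : MonoidAlgebra ℤ A) :
    iq G (MonoidAlgebra.mapDomainRingHom ℤ φ z) =
      MonoidAlgebra.mapDomainRingHom ℚ φ (iq A z) := by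
  induction z using MonoidAlgebra.induction_linear with
  | zero => simp
  | add x y hx hy => simp only [map_add, hx, hy]
  | single g r => simp

theorem one_map_th {R : Type} [Ring R] {κ : Type} [DecidableEq κ] :
    (1 : Matrix κ κ (PowerSeries R)).map (th (R := R)) = 0 := by
  ext i j : 1
  rw [Matrix.map_apply, Matrix.one_apply]
  by_cases h : i = j
  · rw [if_pos h, th_one]
    rfl
  · rw [if_neg h, map_zero]
    rfl

theorem ps_map {R S : Type} [Ring R] [Ring S] (f : R →+* S) (p : Polynomial R) :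
    ps S (p.map f) = PowerSeries.map f (ps R p) := by
  ext n : 1
  simp

theorem blk_map {R S : Type} [Ring R] [Ring S] (f : R →+* S) {κ μ ν : Type}
    [DecidableEq μ] (P : Matrix κ ν R) :
    (Matrix.fromBlocks P 0 0 1 : Matrix (κ ⊕ μ) (ν ⊕ μ) R).map f =
      Matrix.fromBlocks (P.map f) 0 0 1 := by
  rw [Matrix.fromBlocks_map, Matrix.map_zero f (map_zero f), Matrix.map_zero f (map_zero f),
    Matrix.map_one f (map_zero f) (map_one f)]

/-- the logarithmic derivative of a block matrix -/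
theorem lam_block {k G : Type} [CommRing k] [Group G] {ν κ : Type} [Fintype ν] [DecidableEq ν]
    [Fintype κ] [DecidableEq κ] (W Wi : Matrix ν ν (PowerSeries (MonoidAlgebra k G)))
    (h : W * Wi = 1) (m : ℕ) :
    lam (Matrix.fromBlocks Wi 0 0 1 : Matrix (ν ⊕ κ) (ν ⊕ κ) (PowerSeries (MonoidAlgebra k G)))
      (Matrix.fromBlocks W 0 0 1) m = - trc m (Wi * W.map th) := by
  have e : (Matrix.fromBlocks Wi 0 0 1 :
      Matrix (ν ⊕ κ) (ν ⊕ κ) (PowerSeries (MonoidAlgebra k G))).map th =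
      Matrix.fromBlocks (Wi.map th) 0 0 0 := by
    rw [Matrix.fromBlocks_map, one_map_th]
    congr 1
    · ext i j : 1
      simp
    · ext i j : 1
      simp
  have h2 : W.map th * Wi + W * Wi.map th = 0 := by
    rw [← map_th_mul, h, one_map_th]
  have h3 : trc m (W * Wi.map th) = - trc m (Wi * W.map th) := by
    rw [trc_mul_comm m Wi, eq_neg_iff_add_eq_zero, add_comm, ← map_add, h2, map_zero]
  rw [← h3]
  unfold lam
  rw [e, Matrix.fromBlocks_multiply, trc_apply, trc_apply]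
  simp [Matrix.trace, Fintype.sum_sum_type]

theorem lam_one {k G : Type} [CommRing k] [Group G] {κ : Type} [Fintype κ] [DecidableEq κ] (m : ℕ) :
    lam (1 : Matrix κ κ (PowerSeries (MonoidAlgebra k G))) 1 m = 0 := by
  unfold lam
  rw [one_map_th, Matrix.mul_zero, map_zero]

theorem tr_eq {H G : Type} [Group H] [Group G] (φ : H →* G) {k : ℕ} {e : Matrix (Fin k) (Fin k) (RT H)}
    {n : ℕ} (b : Bases e n) (m : ℕ) :
    b.tr φ m = trc m (b.wi.map (eqs φ) * (b.w.map (eqs φ)).map th) := by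
  unfold Bases.tr
  rw [trc_apply]
  congr 1
  have h1 : (b.w.map (eqs φ)).map th = (b.w.map th).map (eqs φ) := by
    ext i j : 1
    simp only [Matrix.map_apply]
    exact th_map _ _
  rw [h1, ← Matrix.map_mul, ← PowerSeries.coeff_map]
  congr 1
  exact AddMonoidHom.map_trace (eqs φ : _ →+* _).toAddMonoidHom _

end NGGx

open NGGx in
/-- NGG: the general clause. -/
theorem t_NGG (hND : St_ND) : St_NGG := by
  intro H G _ _ φ k n e b hst
  classical
  obtain ⟨r, X, Y, hXY, hYX⟩ := hst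
  -- the maps induced by `φ`
  let ez : PowerSeries (MonoidAlgebra ℤ H) →+* PowerSeries (MonoidAlgebra ℤ G) :=
    PowerSeries.map (MonoidAlgebra.mapDomainRingHom ℤ φ)
  let eq' : Polynomial (MonoidAlgebra ℚ H) →+* Polynomial (MonoidAlgebra ℚ G) :=
    Polynomial.mapRingHom (MonoidAlgebra.mapDomainRingHom ℚ φ)
  let X1 := X.map (ps (MonoidAlgebra ℤ G))
  let Y1 := Y.map (ps (MonoidAlgebra ℤ G))
  let X2 := X.map (Polynomial.mapRingHom (iq G))
  let Y2 := Y.map (Polynomial.mapRingHom (iq G))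
  have n1 : (e.map (ext φ)).map (ps (MonoidAlgebra ℤ G)) = (e.map (ps _)).map ez := by
    ext i j : 1
    simp only [Matrix.map_apply]
    exact ps_map _ _
  have n2 : (e.map (ext φ)).map (Polynomial.mapRingHom (iq G)) =
      (e.map (Polynomial.mapRingHom (iq H))).map eq' := by
    ext i j : 1
    refine Polynomial.ext fun n => ?_
    simp only [Matrix.map_apply, eq', ext, Polynomial.coe_mapRingHom, Polynomial.coeff_map]
    exact iq_nat φ _
  have n3 : ∀ z : PowerSeries (MonoidAlgebra ℤ H), iqs G (ez z) = eqs φ (iqs H z) := by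
    intro z
    ext n : 1
    simp only [ez, PowerSeries.coeff_map]
    exact iq_nat φ _
  have hX1 : X1 * Y1 = Matrix.fromBlocks ((e.map (ps _)).map ez) 0 0 1 := by
    rw [← n1, ← Matrix.map_mul, hXY, blk_map]
  have hY1 : Y1 * X1 = 1 := by
    rw [← Matrix.map_mul, hYX, Matrix.map_one _ (map_zero _) (map_one _)]
  have hX2 : X2 * Y2 = Matrix.fromBlocks ((e.map (Polynomial.mapRingHom (iq H))).map eq') 0 0 1 := by
    rw [← n2, ← Matrix.map_mul, hXY, blk_map]
  have hY2 : Y2 * X2 = 1 := by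
    rw [← Matrix.map_mul, hYX, Matrix.map_one _ (map_zero _) (map_one _)]
  have hv := tw (x := b.x'.map ez) (y := b.y'.map ez) (by rw [← Matrix.map_mul, b.xy'])
    (by rw [← Matrix.map_mul, b.yx']; simp) hX1 hY1
  have hu := tw (x := b.x.map eq') (y := b.y.map eq') (by rw [← Matrix.map_mul, b.xy])
    (by rw [← Matrix.map_mul, b.yx]; simp) hX2 hY2
  -- the matrices over the power series over `ℚ[G]`
  set x1 : Matrix (Fin k) (Fin n) (PowerSeries (MonoidAlgebra ℚ G)) :=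
    (b.x.map (ps _)).map (eqs φ) with hx1
  set y1 : Matrix (Fin n) (Fin k) (PowerSeries (MonoidAlgebra ℚ G)) :=
    (b.y.map (ps _)).map (eqs φ) with hy1
  set x2 : Matrix (Fin k) (Fin n) (PowerSeries (MonoidAlgebra ℚ G)) :=
    (b.x'.map (iqs H)).map (eqs φ) with hx2
  set y2 : Matrix (Fin n) (Fin k) (PowerSeries (MonoidAlgebra ℚ G)) :=
    (b.y'.map (iqs H)).map (eqs φ) with hy2
  have hee : (b.x.map (ps _)) * (b.y.map (ps _)) = (b.x'.map (iqs H)) * (b.y'.map (iqs H)) := by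
    rw [← Matrix.map_mul, ← Matrix.map_mul, b.xy, b.xy']
    ext i j : 1
    simp only [Matrix.map_apply]
    exact ps_map _ _
  have exy : x1 * y1 = x2 * y2 := by
    have h := congrArg (fun M => M.map (eqs φ)) hee
    simp only [Matrix.map_mul] at h
    exact h
  have e11 : y1 * x1 = 1 := by
    rw [hx1, hy1, ← Matrix.map_mul, ← Matrix.map_mul, b.yx]
    simp
  have e22 : y2 * x2 = 1 := by
    rw [hx2, hy2, ← Matrix.map_mul, ← Matrix.map_mul, b.yx']
    simp
  have hw : b.w.map (eqs φ) = y2 * x1 := by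
    unfold Bases.w
    rw [Matrix.map_mul]
  have hwi : b.wi.map (eqs φ) = y1 * x2 := by
    unfold Bases.wi
    rw [Matrix.map_mul]
  have hWW : (y2 * x1) * (y1 * x2) = 1 := by
    calc (y2 * x1) * (y1 * x2) = y2 * (x1 * y1) * x2 := by simp only [Matrix.mul_assoc]
      _ = (y2 * x2) * (y2 * x2) := by rw [exy]; simp only [Matrix.mul_assoc]
      _ = 1 := by rw [e22, Matrix.mul_one]
  have hWW' : (y1 * x2) * (y2 * x1) = 1 := by
    calc (y1 * x2) * (y2 * x1) = y1 * (x2 * y2) * x1 := by simp only [Matrix.mul_assoc]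
      _ = (y1 * x1) * (y1 * x1) := by rw [← exy]; simp only [Matrix.mul_assoc]
      _ = 1 := by rw [e11, Matrix.mul_one]
  have hxx : x1 * (y1 * x2) = x2 := by
    rw [← Matrix.mul_assoc, exy, Matrix.mul_assoc, e22, Matrix.mul_one]
  have blk : ∀ P Q : Matrix (Fin n) (Fin n) (PowerSeries (MonoidAlgebra ℚ G)), P * Q = 1 →
      (Matrix.fromBlocks P 0 0 1 : Matrix (Fin n ⊕ Fin r) (Fin n ⊕ Fin r)
        (PowerSeries (MonoidAlgebra ℚ G))) * Matrix.fromBlocks Q 0 0 1 = 1 := by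
    intro P Q h
    rw [Matrix.fromBlocks_multiply]
    simp only [Matrix.mul_zero, Matrix.zero_mul, add_zero, Matrix.mul_one, zero_add]
    rw [h, Matrix.fromBlocks_one]
  have hrel : (1 : Matrix (Fin n ⊕ Fin r) (Fin n ⊕ Fin r) (PowerSeries (MonoidAlgebra ℚ G))) *
      (Y1 * (Matrix.fromBlocks (b.x'.map ez) 0 0 1 :
        Matrix (Fin k ⊕ Fin r) (Fin n ⊕ Fin r) _)).map (iqs G) =
      (Y2 * (Matrix.fromBlocks (b.x.map eq') 0 0 1 :
        Matrix (Fin k ⊕ Fin r) (Fin n ⊕ Fin r) _)).map (ps _) *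
        (Matrix.fromBlocks (y1 * x2) 0 0 1) := by
    rw [Matrix.one_mul]
    have hY12 : Y2.map (ps _) = Y1.map (iqs G) := by
      ext i j : 1
      simp only [Matrix.map_apply, Y1, Y2]
      exact ps_map _ _
    have c1 : (b.x'.map ez).map (iqs G) = x2 := by
      rw [hx2]
      ext i j : 1
      simp only [Matrix.map_apply]
      exact n3 _
    have c2 : (b.x.map eq').map (ps _) = x1 := by
      rw [hx1]
      ext i j : 1
      simp only [Matrix.map_apply]
      exact ps_map _ _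
    rw [Matrix.map_mul, Matrix.map_mul, blk_map, blk_map,
      hY12, c1, c2, Matrix.mul_assoc]
    congr 1
    rw [Matrix.fromBlocks_multiply]
    clear_value x1 y1 x2 y2
    simp [hxx]
  have hWF := hND G (Fin n ⊕ Fin r) _ _ _ _ 1 1 (Matrix.fromBlocks (y1 * x2) 0 0 1)
    (Matrix.fromBlocks (y2 * x1) 0 0 1) hv.1 hv.2 hu.1 hu.2 (by simp) (by simp)
    (blk _ _ hWW') (blk _ _ hWW) hrel
  have hneg := hWF.neg
  have : b.tr φ = fun m =>
      - (lam (Matrix.fromBlocks (y1 * x2) 0 0 1 : Matrix (Fin n ⊕ Fin r) (Fin n ⊕ Fin r)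
        (PowerSeries (MonoidAlgebra ℚ G))) (Matrix.fromBlocks (y2 * x1) 0 0 1) m -
      lam (1 : Matrix (Fin n ⊕ Fin r) (Fin n ⊕ Fin r)
        (PowerSeries (MonoidAlgebra ℚ G))) 1 m) := by
    funext m
    rw [lam_one, sub_zero, lam_block _ _ hWW, neg_neg, tr_eq, hw, hwi]
  rw [this]
  exact hneg

end Pool.Agent.NIL
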