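import Pool.Agent.NIL.St

/-!
# The Swan map is a homomorphism
-/

set_option autoImplicit false

noncomputable section

namespace Pool.Agent.NIL.NHx

/-- The abstract form: the isomorphism is right multiplication by a matrix. -/
theorem abst {R : Type} [Ring R] (S1 S2 S3 : Submodule R R) (g K : R)
    (hg : ∀ x, g * x = x * g) (hinj : ∀ x, g * x = 0 → x = 0)
    (h1 : ∀ s ∈ S1, s * g ∈ S3) (hK1 : ∀ r, r * K ∈ S1) (hK2 : ∀ r, r * K ∈ S2)
    (hK3 : ∀ r, r * K ∈ S3) (hg2 : ∀ r, r * g ∈ S2)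
    (hm2 : ∀ s ∈ S2, ∃ r, g * r = s * (1 + K))
    (hm3 : ∀ s ∈ S3, ∃ r ∈ S1, g * r = s * (1 + K)) :
    Nonempty ((S1 × S2) ≃ₗ[R] (S3 × R)) := by
  classical
  have canc : ∀ x y, g * x = g * y → x = y := fun x y h =>
    sub_eq_zero.1 (hinj _ (by rw [mul_sub, h, sub_self]))
  choose m2 em2 using fun s : S2 => hm2 s.1 s.2
  choose m3 hm3' em3 using fun s : S3 => hm3 s.1 s.2
  have m2_add : ∀ a b, m2 (a + b) = m2 a + m2 b := fun a b =>
    canc _ _ (by rw [em2, mul_add g, em2, em2, Submodule.coe_add, add_mul])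
  have m2_smul : ∀ (r : R) a, m2 (r • a) = r * m2 a := fun r a =>
    canc _ _ (by
      rw [em2, ← mul_assoc, hg r, mul_assoc, em2, Submodule.coe_smul, smul_eq_mul, mul_assoc])
  have m3_add : ∀ a b, m3 (a + b) = m3 a + m3 b := fun a b =>
    canc _ _ (by rw [em3, mul_add g, em3, em3, Submodule.coe_add, add_mul])
  have m3_smul : ∀ (r : R) a, m3 (r • a) = r * m3 a := fun r a =>
    canc _ _ (by
      rw [em3, ← mul_assoc, hg r, mul_assoc, em3, Submodule.coe_smul, smul_eq_mul, mul_assoc])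
  have hsq : (1 + K) * (1 - K) = 1 - K * K := by noncomm_ring
  have hgK : g * K = K * g := hg K
  have F1 : ∀ p : S1 × S2, (p.1 : R) * g + (p.2 : R) * K ∈ S3 := fun p =>
    S3.add_mem (h1 _ p.1.2) (hK3 _)
  have G1 : ∀ p : S3 × R, m3 p.1 * (1 - K) - p.2 * K ∈ S1 := fun p => by
    rw [mul_sub, mul_one]
    exact S1.sub_mem (S1.sub_mem (hm3' _) (hK1 _)) (hK1 _)
  have G2 : ∀ p : S3 × R, (p.1 : R) * K + p.2 * g ∈ S2 := fun p =>
    S2.add_mem (hK2 _) (hg2 _)
  let Fw : (S1 × S2) →ₗ[R] (S3 × R) :=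
    { toFun := fun p => (⟨(p.1 : R) * g + (p.2 : R) * K, F1 p⟩, -((p.1 : R) * K) + m2 p.2 * (1 - K))
      map_add' := fun p q => by
        refine Prod.ext (Subtype.ext ?_) ?_
        · simp only [Prod.fst_add, Prod.snd_add, Submodule.coe_add]
          noncomm_ring
        · simp only [Prod.fst_add, Prod.snd_add, Submodule.coe_add, m2_add]
          noncomm_ring
      map_smul' := fun r p => by
        refine Prod.ext (Subtype.ext ?_) ?_
        · simp only [Prod.smul_fst, Prod.smul_snd, Submodule.coe_smul, smul_eq_mul, RingHom.id_apply]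
          noncomm_ring
        · simp only [Prod.smul_fst, Prod.smul_snd, Submodule.coe_smul, smul_eq_mul, RingHom.id_apply,
            m2_smul]
          noncomm_ring }
  let Bw : (S3 × R) → (S1 × S2) := fun p =>
    (⟨m3 p.1 * (1 - K) - p.2 * K, G1 p⟩, ⟨(p.1 : R) * K + p.2 * g, G2 p⟩)
  refine ⟨LinearEquiv.mk Fw Bw ?_ ?_⟩
  · intro p
    have e2 : g * m2 p.2 = (p.2 : R) * (1 + K) := em2 p.2
    refine Prod.ext (Subtype.ext (canc _ _ ?_)) (Subtype.ext ?_)
    · change g * (m3 ⟨(p.1 : R) * g + (p.2 : R) * K, F1 p⟩ * (1 - K) -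
        (-((p.1 : R) * K) + m2 p.2 * (1 - K)) * K) = g * (p.1 : R)
      have e3 : g * m3 ⟨(p.1 : R) * g + (p.2 : R) * K, F1 p⟩ =
        ((p.1 : R) * g + (p.2 : R) * K) * (1 + K) := em3 _
      calc g * (m3 ⟨(p.1 : R) * g + (p.2 : R) * K, F1 p⟩ * (1 - K) -
            (-((p.1 : R) * K) + m2 p.2 * (1 - K)) * K)
          = (g * m3 ⟨(p.1 : R) * g + (p.2 : R) * K, F1 p⟩) * (1 - K) + (g * (p.1 : R)) * K * K
            - (g * m2 p.2) * (1 - K) * K := by noncomm_ring
        _ = g * (p.1 : R) := by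
            rw [e3, e2, hg]
            have h2 : (p.1 : R) * g * K = (p.1 : R) * K * g := by rw [mul_assoc, hgK, mul_assoc]
            noncomm_ring
    · change ((p.1 : R) * g + (p.2 : R) * K) * K +
        (-((p.1 : R) * K) + m2 p.2 * (1 - K)) * g = (p.2 : R)
      have h3 : m2 p.2 * (1 - K) * g = (g * m2 p.2) * (1 - K) := by
        rw [mul_assoc, ← hg (1 - K), ← mul_assoc, ← hg]
      have h2 : (p.1 : R) * g * K = (p.1 : R) * K * g := by rw [mul_assoc, hgK, mul_assoc]
      rw [add_mul, add_mul, h3, e2, h2]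
      noncomm_ring
  · intro p
    have e3 : g * m3 p.1 = (p.1 : R) * (1 + K) := em3 p.1
    refine Prod.ext (Subtype.ext ?_) (canc _ _ ?_)
    · change (m3 p.1 * (1 - K) - p.2 * K) * g + ((p.1 : R) * K + p.2 * g) * K = (p.1 : R)
      have h3 : m3 p.1 * (1 - K) * g = (g * m3 p.1) * (1 - K) := by
        rw [mul_assoc, ← hg (1 - K), ← mul_assoc, ← hg]
      have h2 : p.2 * g * K = p.2 * K * g := by rw [mul_assoc, hgK, mul_assoc]
      rw [sub_mul, add_mul, h3, e3, h2]
      noncomm_ring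
    · change g * (-((m3 p.1 * (1 - K) - p.2 * K) * K) +
        m2 ⟨(p.1 : R) * K + p.2 * g, G2 p⟩ * (1 - K)) = g * p.2
      have e2 : g * m2 ⟨(p.1 : R) * K + p.2 * g, G2 p⟩ =
        ((p.1 : R) * K + p.2 * g) * (1 + K) := em2 _
      calc g * (-((m3 p.1 * (1 - K) - p.2 * K) * K) +
            m2 ⟨(p.1 : R) * K + p.2 * g, G2 p⟩ * (1 - K))
          = -((g * m3 p.1) * (1 - K) * K) + (g * p.2) * K * K +
            (g * m2 ⟨(p.1 : R) * K + p.2 * g, G2 p⟩) * (1 - K) := by noncomm_ring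
        _ = g * p.2 := by
            rw [e3, e2, hg p.2]
            noncomm_ring

theorem sg_eq {G : Type} [Group G] (H : Subgroup G) [Fintype H] :
    sg H = ∑ h : H, MonoidAlgebra.single (h : G) (1 : ℤ) := by
  rw [sg, finsum_eq_sum_of_fintype]

theorem sg_sq {G : Type} [Group G] (H : Subgroup G) [Finite H] :
    sg H * sg H = (Nat.card H : MonoidAlgebra ℤ G) * sg H := by
  have := Fintype.ofFinite H
  rw [sg_eq, Finset.sum_mul]
  have h1 : ∀ a : H, MonoidAlgebra.single (a : G) (1 : ℤ) *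
      ∑ h : H, MonoidAlgebra.single (h : G) (1 : ℤ) = ∑ h : H, MonoidAlgebra.single (h : G) (1 : ℤ) := by
    intro a
    rw [Finset.mul_sum]
    refine Fintype.sum_equiv (Equiv.mulLeft a) _ _ fun b => ?_
    rw [MonoidAlgebra.single_mul_single, one_mul]
    rfl
  rw [Finset.sum_congr rfl fun a _ => h1 a, Finset.sum_const, nsmul_eq_mul, Finset.card_univ,
    Nat.card_eq_fintype_card]

theorem cst_comm {G : Type} [Group G] (f : Polynomial ℤ) (x : RT G) :
    cst G f * x = x * cst G f := by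
  unfold cst
  induction f using Polynomial.induction_on' with
  | add p q hp hq => rw [Polynomial.map_add, add_mul, mul_add, hp, hq]
  | monomial n a =>
    rw [Polynomial.map_monomial, ← Polynomial.C_mul_X_pow_eq_monomial, mul_assoc, Polynomial.X_pow_mul,
      ← mul_assoc, ← mul_assoc]
    congr 1
    rw [eq_intCast, map_intCast]
    exact Int.cast_commute a x

theorem cst_mul {G : Type} [Group G] (f g : Polynomial ℤ) : cst G (f * g) = cst G f * cst G g := by
  unfold cst
  rw [Polynomial.map_mul]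

theorem cst_inj {G : Type} [Group G] (g : Polynomial ℤ) (hg : g.coeff 0 = 1) (x : RT G)
    (h : cst G g * x = 0) : x = 0 := by
  ext1 n
  rw [Polynomial.coeff_zero]
  induction n using Nat.strong_induction_on with
  | _ n ih =>
    have h1 := congrArg (fun y => Polynomial.coeff y n) h
    simp only [Polynomial.coeff_mul, Polynomial.coeff_zero] at h1
    rw [Finset.sum_eq_single (0, n)] at h1
    · simpa [cst, Polynomial.coeff_map, hg] using h1
    · rintro ⟨i, j⟩ hij hne
      have h2 : i + j = n := Finset.HasAntidiagonal.mem_antidiagonal.1 hij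
      have h3 : j < n := by
        rcases Nat.eq_zero_or_pos i with h0 | h0
        · subst h0
          exact absurd (by simp at h2; simp [h2]) hne
        · omega
      simp [ih j h3]
    · intro h2
      exact absurd (Finset.HasAntidiagonal.mem_antidiagonal.2 (by simp)) h2

end Pool.Agent.NIL.NHx

namespace Pool.Agent.NIL

open NHx in
theorem t_NH : St_NH := by
  intro G _ H _ f g g' _ hg hh
  obtain ⟨k, hk⟩ : ∃ k : Polynomial ℤ, g * g' = 1 + Polynomial.C (Nat.card H : ℤ) * k := by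
    obtain ⟨k, hk⟩ := (Polynomial.C_dvd_iff_dvd_coeff (Nat.card H : ℤ) (g * g' - 1)).2 hh
    exact ⟨k, by rw [← hk]; ring⟩
  set s : RT G := Polynomial.C (sg H) with hs
  have hss : s * s = cst G (Polynomial.C (Nat.card H : ℤ)) * s := by
    rw [hs, ← Polynomial.C_mul, sg_sq, Polynomial.C_mul]
    congr 1
    simp [cst]
  have hkk : cst G g * cst G g' = 1 + cst G (Polynomial.C (Nat.card H : ℤ)) * cst G k := by
    rw [← cst_mul, hk, ← cst_mul]
    simp [cst]
  have hmem : ∀ (p : Polynomial ℤ) (y : RT G), y ∈ Swan H p ↔ ∃ a b, a * cst G p + b * s = y := by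
    intro p y
    rw [Swan, Submodule.mem_span_pair]
    rfl
  have hsk : ∀ p : Polynomial ℤ, ∀ r : RT G, r * (cst G k * s) ∈ Swan H p := fun p r =>
    (hmem p _).2 ⟨0, r * cst G k, by rw [zero_mul, zero_add, mul_assoc]⟩
  -- the formula for `s (1 + k s)`
  have hs1 : s * (1 + cst G k * s) = cst G g * (cst G g' * s) := by
    calc s * (1 + cst G k * s) = s + (s * cst G k) * s := by noncomm_ring
      _ = s + cst G k * (s * s) := by rw [← cst_comm k s, mul_assoc]
      _ = (1 + cst G k * cst G (Polynomial.C (Nat.card H : ℤ))) * s := by rw [hss]; noncomm_ring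
      _ = (cst G g * cst G g') * s := by rw [hkk, cst_comm k]
      _ = _ := by rw [mul_assoc]
  refine abst (Swan H f) (Swan H g) (Swan H (f * g)) (cst G g) (cst G k * s) (cst_comm g)
    (cst_inj g hg) ?_ (hsk f) (hsk g) (hsk (f * g)) ?_ ?_ ?_
  · intro y hy
    obtain ⟨a, b, rfl⟩ := (hmem f y).1 hy
    refine (hmem _ _).2 ⟨a, b * cst G g, ?_⟩
    rw [add_mul, cst_mul, mul_assoc, mul_assoc, mul_assoc, ← cst_comm g s]
  · intro r
    exact (hmem _ _).2 ⟨r, 0, by rw [zero_mul, add_zero]⟩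
  · intro y hy
    obtain ⟨a, b, rfl⟩ := (hmem g y).1 hy
    refine ⟨a * (1 + cst G k * s) + b * (cst G g' * s), ?_⟩
    rw [add_mul, mul_assoc b s, hs1, mul_add, ← mul_assoc (cst G g) a, cst_comm g a,
      ← mul_assoc (cst G g) b, cst_comm g b, mul_assoc b]
  · intro y hy
    obtain ⟨a, b, rfl⟩ := (hmem (f * g) y).1 hy
    refine ⟨a * cst G f * (1 + cst G k * s) + b * (cst G g' * s), ?_, ?_⟩
    · refine Submodule.add_mem _ ?_ ?_
      · rw [mul_add, mul_one]
        exact Submodule.add_mem _ ((hmem _ _).2 ⟨a, 0, by rw [zero_mul, add_zero]⟩) (hsk f _)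
      · exact (hmem _ _).2 ⟨0, b * cst G g', by rw [zero_mul, zero_add, mul_assoc]⟩
    · rw [add_mul, mul_assoc b s, hs1, mul_add, cst_mul, ← mul_assoc a, ← mul_assoc (cst G g),
        cst_comm g (a * cst G f), ← mul_assoc (cst G g) b, cst_comm g b, mul_assoc b]

end Pool.Agent.NIL
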