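import Pool.Agent.NIL.St

/-!
# Swan modules are projective
-/

set_option autoImplicit false

noncomputable section

namespace Pool.Agent.NIL.NPx

open Polynomial

theorem sg_sq {G : Type} [Group G] (H : Subgroup G) [Finite H] :
    sg H * sg H = (Nat.card H : ℤ) • sg H := by
  classical
  have := Fintype.ofFinite H
  have hs : sg H = ∑ h : H, MonoidAlgebra.single (h : G) (1 : ℤ) := by
    unfold sg
    exact finsum_eq_sum_of_fintype _
  have h1 : ∀ h : H, MonoidAlgebra.single (h : G) (1 : ℤ) * sg H = sg H := by
    intro h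
    rw [hs, Finset.mul_sum]
    refine Fintype.sum_equiv (Equiv.mulLeft h) _ _ fun x => ?_
    rw [MonoidAlgebra.single_mul_single, one_mul]
    rfl
  calc sg H * sg H = (∑ h : H, MonoidAlgebra.single (h : G) (1 : ℤ)) * sg H := by rw [← hs]
    _ = ∑ h : H, MonoidAlgebra.single (h : G) (1 : ℤ) * sg H := by rw [Finset.sum_mul]
    _ = ∑ _h : H, sg H := Finset.sum_congr rfl fun h _ => h1 h
    _ = (Nat.card H : ℤ) • sg H := by
      rw [Finset.sum_const, Finset.card_univ, Nat.card_eq_fintype_card, natCast_zsmul]

theorem C_int {R : Type} [Ring R] (c : ℤ) : (Polynomial.C (c : R)) = (c : Polynomial R) :=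
  map_intCast (Polynomial.C : R →+* Polynomial R) c

theorem cst_comm (G : Type) [Group G] (f : Polynomial ℤ) (a : RT G) :
    cst G f * a = a * cst G f := by
  unfold cst
  induction f using Polynomial.induction_on' with
  | add p q hp hq => rw [Polynomial.map_add, add_mul, mul_add, hp, hq]
  | monomial n c =>
    rw [Polynomial.map_monomial, ← Polynomial.C_mul_X_pow_eq_monomial, eq_intCast,
      C_int, mul_assoc]
    have e1 : (X : RT G) ^ n * a = a * X ^ n := (Polynomial.X_pow_mul (p := a) (n := n))
    rw [e1, ← mul_assoc, ← mul_assoc, (Int.cast_commute c a).eq]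

theorem mul_cst_inj {G : Type} [Group G] {f : Polynomial ℤ} (h0 : f.coeff 0 = 1) {a : RT G}
    (h : a * cst G f = 0) : a = 0 := by
  ext1 n
  rw [Polynomial.coeff_zero]
  induction n using Nat.strong_induction_on with
  | _ n ih =>
    have h1 : (a * cst G f).coeff n = a.coeff n := by
      rw [Polynomial.coeff_mul, Finset.sum_eq_single (n, 0)]
      · unfold cst
        rw [Polynomial.coeff_map, h0]
        simp
      · rintro ⟨i, j⟩ hij hne
        rw [Finset.HasAntidiagonal.mem_antidiagonal] at hij
        simp only at hij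
        have hlt : i < n := by
          rcases Nat.lt_or_ge i n with h2 | h2
          · exact h2
          · exfalso
            apply hne
            have : i = n := by omega
            have : j = 0 := by omega
            simp_all
        show a.coeff i * _ = 0
        rw [ih i hlt, zero_mul]
      · intro h2
        exfalso
        apply h2
        simp
    rw [← h1, h, Polynomial.coeff_zero]

end Pool.Agent.NIL.NPx

namespace Pool.Agent.NIL

open NPx

theorem t_NP : St_NP := by
  intro G _ H _ f f' h0 hd
  obtain ⟨k, hk⟩ : (Polynomial.C (Nat.card H : ℤ)) ∣ (f * f' - 1) :=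
    (Polynomial.C_dvd_iff_dvd_coeff _ _).2 hd
  set F : RT G := cst G f with hF
  set F' : RT G := cst G f' with hF'
  set K : RT G := cst G k with hK
  set S : RT G := Polynomial.C (sg H) with hS
  have hSS : S * S = (Nat.card H : RT G) * S := by
    rw [hS, ← Polynomial.C_mul, sg_sq, zsmul_eq_mul, Polynomial.C_mul, Int.cast_natCast,
      map_natCast Polynomial.C]
  have hFF : F * F' = 1 + (Nat.card H : RT G) * K := by
    have e : f * f' = 1 + Polynomial.C (Nat.card H : ℤ) * k := by
      rw [← hk]; ring
    have e2 : cst G (f * f') = cst G (1 + Polynomial.C (Nat.card H : ℤ) * k) := by rw [e]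
    unfold cst at e2
    rw [Polynomial.map_mul, Polynomial.map_add, Polynomial.map_mul, Polynomial.map_one,
      Polynomial.map_C, eq_intCast, C_int, Int.cast_natCast] at e2
    exact e2
  have cF : ∀ a : RT G, F * a = a * F := cst_comm G f
  have cF' : ∀ a : RT G, F' * a = a * F' := cst_comm G f'
  have cK : ∀ a : RT G, K * a = a * K := cst_comm G k
  have cn : ∀ a : RT G, (Nat.card H : RT G) * a = a * (Nat.card H : RT G) := fun a =>
    (Nat.cast_commute _ a).eq
  -- right multiplication by `F`
  let rF : RT G →ₗ[RT G] RT G := LinearMap.toSpanSingleton (RT G) (RT G) F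
  have hrF : ∀ a, rF a = a * F := fun a => rfl
  have hinj : Function.Injective rF := by
    rw [← LinearMap.ker_eq_bot, LinearMap.ker_eq_bot']
    intro a ha
    rw [hrF] at ha
    exact mul_cst_inj h0 ha
  have hrange : ∀ s : Swan H f, (s : RT G) * (1 + K * S) ∈ LinearMap.range rF := by
    rintro ⟨s, hs⟩
    show s * (1 + K * S) ∈ LinearMap.range rF
    unfold Swan at hs
    induction hs using Submodule.span_induction with
    | mem x hx =>
      rcases hx with rfl | hx
      · refine ⟨1 + K * S, ?_⟩
        rw [hrF, ← cF]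
      · rw [Set.mem_singleton_iff] at hx
        subst hx
        refine ⟨F' * S, ?_⟩
        have e4 : S * (K * S) = (Nat.card H : RT G) * K * S := by
          rw [← mul_assoc, ← cK, mul_assoc K S S, hSS, ← mul_assoc, ← cn K]
        rw [hrF, ← cF, ← mul_assoc, hFF, ← hS, add_mul, mul_add, one_mul, mul_one, e4]
    | zero => rw [zero_mul]; exact Submodule.zero_mem _
    | add x y _ _ hx hy => rw [add_mul]; exact Submodule.add_mem _ hx hy
    | smul a x _ hx =>
      rw [smul_eq_mul, mul_assoc, ← smul_eq_mul]
      exact Submodule.smul_mem _ _ hx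
  let g0 : Swan H f →ₗ[RT G] RT G :=
    (LinearMap.toSpanSingleton (RT G) (RT G) (1 + K * S)).comp (Swan H f).subtype
  have hg0 : ∀ s, g0 s = (s : RT G) * (1 + K * S) := fun s => rfl
  let μ : Swan H f →ₗ[RT G] RT G :=
    (LinearEquiv.ofInjective rF hinj).symm.toLinearMap.comp (g0.codRestrict _ hrange)
  have hμ : ∀ s : Swan H f, μ s * F = (s : RT G) * (1 + K * S) := by
    intro s
    have e1 : rF (μ s) = g0 s := by
      have := LinearEquiv.apply_symm_apply (LinearEquiv.ofInjective rF hinj)
        (g0.codRestrict _ hrange s)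
      have h2 := congrArg Subtype.val this
      rw [LinearEquiv.ofInjective_apply] at h2
      exact h2
    rw [← hrF, e1, hg0]
  let i : Swan H f →ₗ[RT G] RT G × RT G :=
    ((LinearMap.toSpanSingleton (RT G) (RT G) (1 - K * S)).comp μ).prod
      ((LinearMap.toSpanSingleton (RT G) (RT G) (K * K * S)).comp (Swan H f).subtype)
  have hi : ∀ s, i s = (μ s * (1 - K * S), (s : RT G) * (K * K * S)) := fun s => rfl
  have hFm : F ∈ Swan H f := Submodule.subset_span (by simp [hF])
  have hSm : S ∈ Swan H f := Submodule.subset_span (by simp [hS])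
  let p : RT G × RT G →ₗ[RT G] Swan H f :=
    LinearMap.coprod (LinearMap.toSpanSingleton (RT G) _ ⟨F, hFm⟩)
      (LinearMap.toSpanSingleton (RT G) _ ⟨S, hSm⟩)
  have hp : ∀ a b, ((p (a, b) : Swan H f) : RT G) = a * F + b * S := fun a b => rfl
  refine Module.Projective.of_split i p ?_
  refine LinearMap.ext fun s => Subtype.ext ?_
  show ((p (i s) : Swan H f) : RT G) = (s : RT G)
  rw [hi, hp]
  have e1 : μ s * (1 - K * S) * F = (s : RT G) * (1 + K * S) * (1 - K * S) := by
    rw [mul_assoc, ← cF, ← mul_assoc, hμ]
  have e3 : K * S * (K * S) = K * K * S * S := by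
    rw [mul_assoc K S, ← mul_assoc S K S, ← cK S]
    simp only [mul_assoc]
  rw [e1, mul_assoc, mul_assoc, ← mul_add]
  have e2 : (1 + K * S) * (1 - K * S) + K * K * S * S = 1 := by
    rw [mul_sub, mul_one, add_mul, one_mul, e3]
    abel
  rw [e2, mul_one]

end Pool.Agent.NIL
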