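import Pool.Agent.NIL.St2
import Pool.Agent.NIL.P_NP

/-!
# Congruent polynomials have isomorphic Swan modules
-/

set_option autoImplicit false

noncomputable section

namespace Pool.Agent.NIL.NIx

/-- the key computation -/
theorem key {R : Type*} [Ring R] (F G K S h : R) (cF : ∀ a, F * a = a * F)
    (cG : ∀ a, G * a = a * G) (cK : ∀ a, K * a = a * K) (hS : S * S = h * S)
    (ch : ∀ a, h * a = a * h) (hfg : G = F + h * K) (s : R)
    (hs : s ∈ Submodule.span R ({F, S} : Set R)) :
    ∃ r ∈ Submodule.span R ({G, S} : Set R), r * F = s * (G - K * S) := by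
  rw [Submodule.mem_span_pair] at hs
  obtain ⟨a, b, rfl⟩ := hs
  simp only [smul_eq_mul]
  refine ⟨a * (G - K * S) + b * S, ?_, ?_⟩
  · rw [Submodule.mem_span_pair]
    refine ⟨a, b - a * K, ?_⟩
    simp only [smul_eq_mul]
    noncomm_ring
  · have e1 : a * (G - K * S) * F = a * F * (G - K * S) := by
      rw [mul_assoc, ← cF, ← mul_assoc]
    have e2 : S * (G - K * S) = F * S := by
      have e3 : S * (K * S) = h * K * S := by
        rw [← mul_assoc, ← cK S, mul_assoc, hS, ← mul_assoc, ← ch K]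
      rw [mul_sub, e3, ← cG S, hfg, add_mul]
      abel
    rw [add_mul, add_mul, e1, mul_assoc b S, mul_assoc b S, e2, cF S]

/-- isomorphism of two left ideals -/
theorem main {R : Type*} [Ring R] (F G K S h : R) (cF : ∀ a, F * a = a * F)
    (cG : ∀ a, G * a = a * G) (cK : ∀ a, K * a = a * K) (hS : S * S = h * S)
    (ch : ∀ a, h * a = a * h) (hfg : G = F + h * K) (iF : ∀ a, a * F = 0 → a = 0)
    (iG : ∀ a, a * G = 0 → a = 0) :
    Nonempty (Submodule.span R ({F, S} : Set R) ≃ₗ[R] Submodule.span R ({G, S} : Set R)) := by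
  have iF' : ∀ a b, a * F = b * F → a = b := fun a b e =>
    sub_eq_zero.1 (iF _ (by rw [sub_mul, e, sub_self]))
  have iG' : ∀ a b, a * G = b * G → a = b := fun a b e =>
    sub_eq_zero.1 (iG _ (by rw [sub_mul, e, sub_self]))
  have h1 := key F G K S h cF cG cK hS ch hfg
  have h2 := key G F (-K) S h cG cF (fun a => by rw [neg_mul, mul_neg, cK]) hS ch
    (by rw [hfg]; noncomm_ring)
  choose φ hφ1 hφ2 using h1
  choose ψ hψ1 hψ2 using h2
  have hc : (G - K * S) * (F - -K * S) = F * G := by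
    have e3 : K * S * (K * S) = h * K * K * S := by
      rw [mul_assoc K S (K * S), ← mul_assoc S K S, ← cK S, mul_assoc K S S, hS, ← mul_assoc,
        ← mul_assoc, ← ch (K * K), ← mul_assoc]
    have e4 : G * (K * S) = K * S * F + h * K * K * S := by
      rw [← cF (K * S), hfg, add_mul]
      congr 1
      rw [mul_assoc, mul_assoc, mul_assoc]
    rw [neg_mul, sub_neg_eq_add, sub_mul, mul_add, mul_add, e3, e4, cG F]
    abel
  have hc' : (F - -K * S) * (G - K * S) = G * F := by
    have e3 : K * S * (K * S) = h * K * K * S := by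
      rw [mul_assoc K S (K * S), ← mul_assoc S K S, ← cK S, mul_assoc K S S, hS, ← mul_assoc,
        ← mul_assoc, ← ch (K * K), ← mul_assoc]
    have e4 : K * S * G = F * (K * S) + h * K * K * S := by
      rw [← cG (K * S), hfg, add_mul]
      congr 1
      rw [mul_assoc, mul_assoc, mul_assoc]
    rw [neg_mul, sub_neg_eq_add, mul_sub, add_mul, add_mul, e3, e4, cF G]
    abel
  refine ⟨{ toFun := fun s => ⟨φ s.1 s.2, hφ1 s.1 s.2⟩
            map_add' := ?_
            map_smul' := ?_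
            invFun := fun s => ⟨ψ s.1 s.2, hψ1 s.1 s.2⟩
            left_inv := ?_
            right_inv := ?_ }⟩
  · rintro ⟨a, ha⟩ ⟨b, hb⟩
    refine Subtype.ext (iF' _ _ ?_)
    show φ (a + b) _ * F = (φ a ha + φ b hb) * F
    rw [hφ2, add_mul, add_mul, hφ2, hφ2]
  · rintro c ⟨a, ha⟩
    refine Subtype.ext (iF' _ _ ?_)
    show φ (c * a) _ * F = (c * φ a ha) * F
    rw [hφ2, mul_assoc, mul_assoc, hφ2]
  · rintro ⟨a, ha⟩
    refine Subtype.ext ?_
    show ψ (φ a ha) (hφ1 a ha) = a
    refine iF' _ _ (iG' _ _ ?_)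
    rw [mul_assoc, cF G, ← mul_assoc, hψ2, mul_assoc, ← cF, ← mul_assoc, hφ2, mul_assoc, hc,
      ← mul_assoc]
  · rintro ⟨a, ha⟩
    refine Subtype.ext ?_
    show φ (ψ a ha) (hψ1 a ha) = a
    refine iG' _ _ (iF' _ _ ?_)
    rw [mul_assoc, cG F, ← mul_assoc, hφ2, mul_assoc, ← cG, ← mul_assoc, hψ2, mul_assoc, hc',
      ← mul_assoc]

end Pool.Agent.NIL.NIx

namespace Pool.Agent.NIL

theorem t_NI : St_NI := by
  intro G _ H _ f g hf hg hdvd
  obtain ⟨c, hc⟩ := (Polynomial.C_dvd_iff_dvd_coeff (Nat.card H : ℤ) (f - g)).2 hdvd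
  refine NIx.main (cst G f) (cst G g) (cst G (-c)) (Polynomial.C (sg H)) (Nat.card H : RT G)
    (NPx.cst_comm G f) (NPx.cst_comm G g) (NPx.cst_comm G (-c)) ?_
    (fun a => (Nat.cast_commute _ a).eq) ?_ (fun a ha => NPx.mul_cst_inj hf ha)
    (fun a ha => NPx.mul_cst_inj hg ha)
  · rw [← Polynomial.C_mul, NPx.sg_sq, ← map_natCast Polynomial.C, ← Polynomial.C_mul]
    congr 1
    rw [zsmul_eq_mul, Int.cast_natCast]
  · have e : g = f + Polynomial.C (Nat.card H : ℤ) * (-c) := by
      rw [mul_neg, ← hc]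
      ring
    have e2 : cst G (Polynomial.C (Nat.card H : ℤ)) = (Nat.card H : RT G) := by
      unfold cst
      rw [Polynomial.map_C, eq_intCast, Int.cast_natCast, map_natCast]
    conv_lhs => rw [e]
    unfold cst at e2 ⊢
    rw [Polynomial.map_add, Polynomial.map_mul, e2]

end Pool.Agent.NIL
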