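import Pool.Agent.NIL.St

/-!
# NM1: the Dwork congruences for matrices over `ℤ[G][[t]]` (helper32)
-/

set_option autoImplicit false

noncomputable section

namespace Pool.Agent.NIL

namespace NM1x

/-- A matrix of power series as a power series of matrices. -/
def pm {R : Type} [Ring R] {ι : Type} (A : Matrix ι ι (PowerSeries R)) :
    PowerSeries (Matrix ι ι R) :=
  PowerSeries.mk fun m => A.map (PowerSeries.coeff m)

theorem coeff_pm {R : Type} [Ring R] {ι : Type} [Fintype ι] [DecidableEq ι]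
    (A : Matrix ι ι (PowerSeries R)) (m : ℕ) :
    PowerSeries.coeff m (pm A) = A.map (PowerSeries.coeff m) := by
  simp [pm]

theorem pm_mul {R : Type} [Ring R] {ι : Type} [Fintype ι] [DecidableEq ι]
    (A B : Matrix ι ι (PowerSeries R)) : pm (A * B) = pm A * pm B := by
  ext m : 1
  rw [coeff_pm, PowerSeries.coeff_mul]
  ext i j : 2
  simp only [coeff_pm, Matrix.map_apply, Matrix.mul_apply, map_sum, PowerSeries.coeff_mul,
    Matrix.sum_apply]
  rw [Finset.sum_comm]

theorem pm_one {R : Type} [Ring R] {ι : Type} [Fintype ι] [DecidableEq ι] :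
    pm (1 : Matrix ι ι (PowerSeries R)) = 1 := by
  ext m : 1
  rw [coeff_pm, PowerSeries.coeff_one]
  ext i j : 2
  rw [Matrix.map_apply]
  by_cases hij : i = j
  · subst hij
    rw [Matrix.one_apply_eq, PowerSeries.coeff_one]
    split_ifs <;> simp
  · rw [Matrix.one_apply_ne hij]
    split_ifs <;> simp [Matrix.one_apply_ne hij]

theorem pm_th {R : Type} [Ring R] {ι : Type} [Fintype ι] [DecidableEq ι]
    (A : Matrix ι ι (PowerSeries R)) : pm (A.map th) = th (pm A) := by
  ext m : 1
  rw [coeff_pm, coeff_th, coeff_pm]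
  ext i j : 2
  simp [Matrix.map_apply, Matrix.smul_apply]

/-- The trace with values in the functions on the conjugacy classes. -/
def TT (k G : Type) [CommRing k] [Group G] (ι : Type) [Fintype ι] :
    Matrix ι ι (MonoidAlgebra k G) →+ (ConjClasses G →₀ k) :=
  (T0 k G).comp (Matrix.traceAddMonoidHom ι _)

theorem TT_apply {k G : Type} [CommRing k] [Group G] {ι : Type} [Fintype ι]
    (A : Matrix ι ι (MonoidAlgebra k G)) : TT k G ι A = T0 k G A.trace := rfl

theorem TT_mul_comm {k G : Type} [CommRing k] [Group G] {ι : Type} [Fintype ι]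
    (A B : Matrix ι ι (MonoidAlgebra k G)) : TT k G ι (A * B) = TT k G ι (B * A) := by
  simp only [TT_apply, Matrix.trace, Matrix.diag, Matrix.mul_apply, map_sum]
  rw [Finset.sum_comm]
  exact Finset.sum_congr rfl fun j _ => Finset.sum_congr rfl fun i _ => T0_mul_comm _ _

theorem TT_coeff {k G : Type} [CommRing k] [Group G] {ι : Type} [Fintype ι] [DecidableEq ι]
    (A : Matrix ι ι (PowerSeries (MonoidAlgebra k G))) (m : ℕ) :
    TT k G ι (PowerSeries.coeff m (pm A)) = trc m A := by
  rw [coeff_pm, TT_apply, trc_apply]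
  congr 1
  simp [Matrix.trace, Matrix.diag, Matrix.map_apply, map_sum]

theorem lam_eq {k G : Type} [CommRing k] [Group G] {ι : Type} [Fintype ι] [DecidableEq ι]
    (v vi : Matrix ι ι (PowerSeries (MonoidAlgebra k G))) (m : ℕ) :
    lam v vi m = TT k G ι (PowerSeries.coeff m (pm vi * th (pm v))) := by
  rw [← pm_th, ← pm_mul, TT_coeff]
  rfl

end NM1x

/-- NM1: the Dwork congruences for matrices over `ℤ[G][[t]]`. -/
theorem t_NM1 (hNA : St_NA) (hNB : St_NB) : St_NM1 := by
  intro G _ ι _ _ p hp v vi h1 h2 m hm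
  obtain ⟨D, hD⟩ := hNB (Matrix ι ι (MonoidAlgebra ℤ G)) (ConjClasses G →₀ ℤ) (NM1x.TT ℤ G ι)
    (Phi ℤ G p) p hp NM1x.TT_mul_comm (fun k hk z => hNA G ι p hp k hk z) (NM1x.pm v)
    (NM1x.pm vi) (by rw [← NM1x.pm_mul, h1, NM1x.pm_one]) (by rw [← NM1x.pm_mul, h2, NM1x.pm_one])
    m hm
  exact ⟨D, by rw [NM1x.lam_eq, NM1x.lam_eq]; exact hD⟩

end Pool.Agent.NIL
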