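import Pool.Agent.NIL.St

/-!
# Module NM2
-/

set_option autoImplicit false

noncomputable section

namespace Pool.Agent.NIL

namespace NM2x

/-- Matrices of power series as power series of matrices. -/
def psi {R : Type} [Ring R] {ι : Type} [Fintype ι] [DecidableEq ι]
    (A : Matrix ι ι (PowerSeries R)) : PowerSeries (Matrix ι ι R) :=
  PowerSeries.mk fun m => A.map (PowerSeries.coeff m)

theorem coeff_psi {R : Type} [Ring R] {ι : Type} [Fintype ι] [DecidableEq ι]
    (A : Matrix ι ι (PowerSeries R)) (m : ℕ) :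
    PowerSeries.coeff m (psi A) = A.map (PowerSeries.coeff m) := by
  simp [psi]

theorem psi_mul {R : Type} [Ring R] {ι : Type} [Fintype ι] [DecidableEq ι]
    (A B : Matrix ι ι (PowerSeries R)) : psi (A * B) = psi A * psi B := by
  apply PowerSeries.ext
  intro m
  rw [PowerSeries.coeff_mul, coeff_psi]
  ext i j
  rw [Matrix.sum_apply]
  simp only [coeff_psi, Matrix.map_apply, Matrix.mul_apply, map_sum, PowerSeries.coeff_mul]
  rw [Finset.sum_comm]

theorem psi_one {R : Type} [Ring R] {ι : Type} [Fintype ι] [DecidableEq ι] :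
    psi (1 : Matrix ι ι (PowerSeries R)) = 1 := by
  apply PowerSeries.ext
  intro m
  rw [coeff_psi, PowerSeries.coeff_one]
  ext i j
  by_cases hij : i = j
  · subst hij
    by_cases hm : m = 0
    · simp [hm]
    · simp [hm, PowerSeries.coeff_one]
  · by_cases hm : m = 0
    · simp [hm, hij]
    · simp [hm, hij]

theorem psi_th {R : Type} [Ring R] {ι : Type} [Fintype ι] [DecidableEq ι]
    (A : Matrix ι ι (PowerSeries R)) : psi (A.map th) = th (psi A) := by
  apply PowerSeries.ext
  intro m
  rw [coeff_psi, coeff_th, coeff_psi]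
  ext i j
  simp

/-- The trace followed by `T0`, for matrices over `k[G]`. -/
def TT (k G : Type) [CommRing k] [Group G] (ι : Type) [Fintype ι] :
    Matrix ι ι (MonoidAlgebra k G) →+ (ConjClasses G →₀ k) :=
  (T0 k G).comp (Matrix.traceAddMonoidHom ι _)

theorem TT_apply {k G : Type} [CommRing k] [Group G] {ι : Type} [Fintype ι]
    (A : Matrix ι ι (MonoidAlgebra k G)) : TT k G ι A = T0 k G A.trace := rfl

theorem TT_mul_comm {k G : Type} [CommRing k] [Group G] {ι : Type} [Fintype ι]
    (A B : Matrix ι ι (MonoidAlgebra k G)) : TT k G ι (A * B) = TT k G ι (B * A) := by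
  simp only [TT_apply, Matrix.trace, Matrix.diag, Matrix.mul_apply, map_sum]
  rw [Finset.sum_comm]
  exact Finset.sum_congr rfl fun j _ => Finset.sum_congr rfl fun i _ => T0_mul_comm _ _

theorem lam_eq {k G : Type} [CommRing k] [Group G] {ι : Type} [Fintype ι] [DecidableEq ι]
    (v vi : Matrix ι ι (PowerSeries (MonoidAlgebra k G))) (m : ℕ) :
    TT k G ι (PowerSeries.coeff m (psi vi * th (psi v))) = lam v vi m := by
  rw [← psi_th, ← psi_mul, coeff_psi, TT_apply]
  unfold lam
  rw [trc_apply]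
  congr 1
  simp [Matrix.trace]

end NM2x

open NM2x in
theorem t_NM2 (hNA2 : St_NA2) (hNB : St_NB) : St_NM2 := by
  intro G _ ι _ _ p hp v vi h1 h2 m hm
  have key := hNB (Matrix ι ι (MonoidAlgebra (ZMod p) G)) (ConjClasses G →₀ ZMod p)
    (TT (ZMod p) G ι) (Phi (ZMod p) G p) p hp TT_mul_comm (by
      intro k hk z
      refine ⟨0, ?_⟩
      obtain ⟨k', rfl⟩ : ∃ k', k = k' + 1 := ⟨k - 1, by omega⟩
      rw [smul_zero, sub_eq_zero, Nat.add_sub_cancel, pow_succ, pow_mul]
      exact hNA2 G ι p hp (z ^ p ^ k')) (psi v) (psi vi)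
    (by rw [← psi_mul, h1, psi_one]) (by rw [← psi_mul, h2, psi_one]) m hm
  obtain ⟨D, hD⟩ := key
  rw [lam_eq, lam_eq] at hD
  have h0 : (p ^ (padicValNat p m + 1)) • D = 0 := by
    ext c
    rw [Finsupp.smul_apply, nsmul_eq_mul, Nat.cast_pow, CharP.cast_eq_zero, pow_succ, mul_zero,
      zero_mul]
    rfl
  rw [h0, sub_eq_zero] at hD
  exact hD

end Pool.Agent.NIL
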