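import Pool.Agent.NIL.St

/-!
# NE1: the polynomial matrices of a stable isomorphism of Swan modules
-/

set_option autoImplicit false

noncomputable section

namespace Pool.Agent.NIL

namespace NE1x

variable {G : Type} [Group G]

theorem sg_mul (H : Subgroup G) [Finite H] : sg H * sg H = (Nat.card H : ℤ) • sg H := by
  classical
  have := Fintype.ofFinite H
  have hs : sg H = ∑ h : H, MonoidAlgebra.single (h : G) (1 : ℤ) := finsum_eq_sum_of_fintype _
  have h1 : ∀ a : H, MonoidAlgebra.single (a : G) (1 : ℤ) * sg H = sg H := by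
    intro a
    rw [hs, Finset.mul_sum]
    simp only [MonoidAlgebra.single_mul_single, mul_one]
    exact Fintype.sum_equiv (Equiv.mulLeft a) _ _ (fun b => by simp)
  conv_lhs => rw [hs, Finset.sum_mul]
  rw [← hs, Finset.sum_congr rfl (fun a _ => h1 a), Finset.sum_const, Finset.card_univ,
    ← Nat.card_eq_fintype_card]
  simp

theorem card_ne (H : Subgroup G) [Finite H] : (Nat.card H : ℚ) ≠ 0 :=
  Nat.cast_ne_zero.2 Nat.card_pos.ne'

theorem iq_sg_mul (H : Subgroup G) [Finite H] :
    iq G (sg H) * iq G (sg H) = (Nat.card H : ℚ) • iq G (sg H) := by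
  rw [← map_mul, sg_mul, map_zsmul, natCast_zsmul, Nat.cast_smul_eq_nsmul]

theorem sg_eps (H : Subgroup G) [Finite H] : iq G (sg H) * eps H = iq G (sg H) := by
  rw [eps, mul_smul_comm, iq_sg_mul, smul_smul, inv_mul_cancel₀ (card_ne H), one_smul]

theorem eps_mul (H : Subgroup G) [Finite H] : eps H * eps H = eps H := by
  conv_lhs => rw [eps, smul_mul_assoc]
  rw [← eps, sg_eps, ← eps]

theorem cq_comm (b : PowerSeries ℤ) (x : PowerSeries (MonoidAlgebra ℚ G)) :
    cq G b * x = x * cq G b := by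
  ext m : 1
  rw [PowerSeries.coeff_mul, PowerSeries.coeff_mul, ← Finset.Nat.sum_antidiagonal_swap]
  refine Finset.sum_congr rfl fun y _ => ?_
  simp only [PowerSeries.coeff_map, Prod.fst_swap, Prod.snd_swap, eq_intCast]
  exact (Int.cast_commute _ _)

theorem CE (H : Subgroup G) [Finite H] :
    PowerSeries.C (eps H) * PowerSeries.C (eps H) = PowerSeries.C (eps H) := by
  rw [← map_mul, eps_mul]

theorem CE' (H : Subgroup G) [Finite H] :
    PowerSeries.C (eps H) * (1 - PowerSeries.C (eps H)) = 0 := by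
  rw [mul_sub, mul_one, CE, sub_self]

theorem CE'' (H : Subgroup G) [Finite H] :
    (1 - PowerSeries.C (eps H)) * PowerSeries.C (eps H) = 0 := by
  rw [sub_mul, one_mul, CE, sub_self]

theorem CE3 (H : Subgroup G) [Finite H] :
    (1 - PowerSeries.C (eps H)) * (1 - PowerSeries.C (eps H)) = 1 - PowerSeries.C (eps H) := by
  rw [mul_sub, CE'', mul_one, sub_zero]

theorem kap_mul (H : Subgroup G) [Finite H] (b c : PowerSeries ℤ) :
    kap H b * kap H c = kap H (b * c) := by
  unfold kap
  rw [add_mul, mul_add, mul_add, CE, ← mul_assoc (PowerSeries.C (eps H)) (cq G c),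
    ← cq_comm c (PowerSeries.C (eps H)), mul_assoc (cq G c), CE', mul_zero, add_zero,
    mul_assoc (cq G b), CE'', mul_zero, zero_add, mul_assoc (cq G b),
    ← mul_assoc (1 - PowerSeries.C (eps H)) (cq G c), ← cq_comm c (1 - PowerSeries.C (eps H)),
    mul_assoc (cq G c), CE3, ← mul_assoc (cq G b), ← map_mul]

theorem kap_one (H : Subgroup G) [Finite H] : kap H 1 = 1 := by
  unfold kap
  rw [map_one, one_mul, add_sub_cancel]

theorem exists_inv (f : Polynomial ℤ) (h : f.coeff 0 = 1) :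
    ∃ b : PowerSeries ℤ, (f : PowerSeries ℤ) * b = 1 := by
  refine ⟨PowerSeries.invOfUnit (f : PowerSeries ℤ) 1, PowerSeries.mul_invOfUnit _ _ ?_⟩
  rw [← PowerSeries.coeff_zero_eq_constantCoeff_apply, Polynomial.coeff_coe, h]
  rfl

theorem iqs_cst (g : Polynomial ℤ) : iqs G (ps _ (cst G g)) = cq G (g : PowerSeries ℤ) := by
  ext m : 1
  simp [cst]

theorem ps_cq (g : Polynomial ℤ) :
    ps _ (g.map (Int.castRingHom (MonoidAlgebra ℚ G))) = cq G (g : PowerSeries ℤ) := by
  ext m : 1
  simp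

theorem ps_C (x : MonoidAlgebra ℚ G) : ps _ (Polynomial.C x) = PowerSeries.C x := by
  simp

/-- Every element of the Swan module is a polynomial times `κ`. -/
theorem exists_rho (H : Subgroup G) [Finite H] (g : Polynomial ℤ) (s : RT G) (hs : s ∈ Swan H g) :
    ∃ r : Polynomial (MonoidAlgebra ℚ G),
      iqs G (ps _ s) = ps _ r * kap H (g : PowerSeries ℤ) := by
  unfold Swan at hs
  induction hs using Submodule.span_induction with
  | mem x hx =>
    rcases hx with rfl | hx
    · refine ⟨g.map (Int.castRingHom (MonoidAlgebra ℚ G)) * Polynomial.C (eps H) +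
        (1 - Polynomial.C (eps H)), ?_⟩
      rw [iqs_cst, map_add, map_mul, map_sub, map_one, ps_cq, ps_C]
      unfold kap
      rw [add_mul, mul_add, mul_add, mul_assoc (cq G _), CE, CE'', zero_add,
        ← mul_assoc _ (cq G _) (1 - PowerSeries.C (eps H)),
        ← mul_assoc _ (cq G _) (1 - PowerSeries.C (eps H)),
        mul_assoc (cq G _) (PowerSeries.C (eps H)) (cq G _), ← cq_comm _ (PowerSeries.C (eps H)),
        ← mul_assoc (cq G _) (cq G _) _, mul_assoc _ (PowerSeries.C (eps H)), CE', mul_zero,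
        add_zero, ← cq_comm _ (1 - PowerSeries.C (eps H)), mul_assoc, CE3, ← mul_add,
        add_sub_cancel, mul_one]
    · rw [Set.mem_singleton_iff] at hx
      subst hx
      refine ⟨Polynomial.C (iq G (sg H)), ?_⟩
      have e1 : iqs G (ps _ (Polynomial.C (sg H))) = PowerSeries.C (iq G (sg H)) := by
        simp
      rw [e1, ps_C]
      unfold kap
      rw [mul_add, ← map_mul, sg_eps, ← mul_assoc, ← cq_comm, mul_assoc, mul_sub, mul_one,
        ← map_mul, sg_eps, sub_self, mul_zero, add_zero]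
  | zero => exact ⟨0, by simp⟩
  | add x y _ _ hx hy =>
    obtain ⟨a, ha⟩ := hx
    obtain ⟨b, hb⟩ := hy
    exact ⟨a + b, by rw [map_add, map_add, ha, hb, map_add, add_mul]⟩
  | smul a x _ hx =>
    obtain ⟨b, hb⟩ := hx
    refine ⟨iqp G a * b, ?_⟩
    rw [smul_eq_mul, map_mul, map_mul, hb, map_mul, ← mul_assoc]
    congr 2
    ext m : 1
    simp

theorem exists_row (H : Subgroup G) [Finite H] (g : Polynomial ℤ) (k : ℕ)
    (m : Swan H g × (Fin k → RT G)) :
    ∃ r : Unit ⊕ Fin k → Polynomial (MonoidAlgebra ℚ G), ∀ j,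
      iqs G (row m j) = Matrix.vecMul (fun i => ps _ (r i)) (dg (kap H (g : PowerSeries ℤ))) j := by
  obtain ⟨r, hr⟩ := exists_rho H g m.1 m.1.2
  refine ⟨Sum.elim (fun _ => r) (fun j => iqp G (m.2 j)), ?_⟩
  rintro (j | j)
  · rw [Matrix.vecMul, dotProduct, Fintype.sum_sum_type]
    simp only [dg, row, Finset.univ_unique, PUnit.default_eq_unit, Sum.elim_inl, Sum.elim_inr,
      Matrix.fromBlocks_apply₁₁, Matrix.fromBlocks_apply₂₁, Matrix.zero_apply, mul_zero,
      Finset.sum_const_zero, add_zero, Finset.sum_singleton, Matrix.of_apply]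
    exact hr
  · rw [Matrix.vecMul, dotProduct, Fintype.sum_sum_type]
    simp only [dg, row, Sum.elim_inl, Sum.elim_inr, Matrix.fromBlocks_apply₁₂,
      Matrix.fromBlocks_apply₂₂, Matrix.zero_apply, mul_zero, Finset.sum_const_zero, zero_add,
      Matrix.one_apply, mul_ite, mul_one, Finset.sum_ite_eq', Finset.mem_univ, if_true]
    ext m : 1
    simp

/-- `h κ_f` as an element of the Swan module. -/
theorem hk_mem (H : Subgroup G) [Finite H] (f : Polynomial ℤ) :
    Polynomial.C (sg H) + ((Nat.card H : RT G) - Polynomial.C (sg H)) * cst G f ∈ Swan H f := by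
  refine Submodule.add_mem _ (Submodule.subset_span (by simp)) ?_
  rw [← smul_eq_mul]
  exact Submodule.smul_mem _ _ (Submodule.subset_span (by simp))

theorem hk_eq (H : Subgroup G) [Finite H] (f : Polynomial ℤ) :
    iqs G (ps _ (Polynomial.C (sg H) + ((Nat.card H : RT G) - Polynomial.C (sg H)) * cst G f)) =
      ps _ (Polynomial.C (algebraMap ℚ (MonoidAlgebra ℚ G) (Nat.card H))) *
        kap H (f : PowerSeries ℤ) := by
  have e1 : iqs G (ps _ (Polynomial.C (sg H))) = PowerSeries.C (iq G (sg H)) := by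
    simp
  have e2 : algebraMap ℚ (MonoidAlgebra ℚ G) (Nat.card H) * eps H = iq G (sg H) := by
    rw [← Algebra.smul_def, eps, smul_smul, mul_inv_cancel₀ (card_ne H), one_smul]
  have e3 : PowerSeries.C (algebraMap ℚ (MonoidAlgebra ℚ G) (Nat.card H)) *
      PowerSeries.C (eps H) = PowerSeries.C (iq G (sg H)) := by
    rw [← map_mul, e2]
  have e4 : iqs G (ps _ (Nat.card H : RT G)) =
      PowerSeries.C (algebraMap ℚ (MonoidAlgebra ℚ G) (Nat.card H)) := by
    simp
  rw [map_add, map_add, e1, map_mul, map_mul, map_sub, map_sub, e1, iqs_cst, e4, ps_C]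
  unfold kap
  rw [mul_add, e3, ← mul_assoc, ← cq_comm, ← cq_comm, mul_assoc, mul_sub (PowerSeries.C _) 1,
    mul_one, e3]

theorem one_sided (H : Subgroup G) [Finite H] (f g : Polynomial ℤ) (k : ℕ)
    (E : Swan H f × (Fin k → RT G) → Swan H g × (Fin k → RT G))
    (v : Matrix (Unit ⊕ Fin k) (Unit ⊕ Fin k) (PowerSeries (MonoidAlgebra ℤ G)))
    (hv : ∀ m, row (E m) = Matrix.vecMul (row m) v) :
    ∃ u : Matrix (Unit ⊕ Fin k) (Unit ⊕ Fin k) (Polynomial (MonoidAlgebra ℚ G)),
      dg (kap H (f : PowerSeries ℤ)) * v.map (iqs G) =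
        u.map (ps _) * dg (kap H (g : PowerSeries ℤ)) := by
  classical
  obtain ⟨r0, hr0⟩ := exists_row H g k (E (⟨_, hk_mem H f⟩, 0))
  choose r hr using fun i : Fin k => exists_row H g k (E (0, Pi.single i 1))
  refine ⟨Matrix.of (Sum.elim (fun _ j => Polynomial.C (algebraMap ℚ (MonoidAlgebra ℚ G)
    (Nat.card H)⁻¹) * r0 j) (fun i j => r i j)), ?_⟩
  ext i j : 1
  rcases i with i | i
  · have h1 := hr0 j
    rw [hv, Matrix.vecMul, dotProduct, Fintype.sum_sum_type] at h1
    simp only [Finset.univ_unique, PUnit.default_eq_unit, row, Sum.elim_inl, Finset.sum_singleton,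
      Sum.elim_inr, Pi.zero_apply, map_zero, zero_mul, Finset.sum_const_zero, add_zero,
      map_mul] at h1
    rw [hk_eq] at h1
    rw [Matrix.mul_apply, Fintype.sum_sum_type, Matrix.mul_apply]
    have e5 : PowerSeries.C (algebraMap ℚ (MonoidAlgebra ℚ G) (Nat.card H)⁻¹) *
      PowerSeries.C (algebraMap ℚ (MonoidAlgebra ℚ G) (Nat.card H)) = 1 := by
      rw [← map_mul, ← map_mul, inv_mul_cancel₀ (card_ne H), map_one, map_one]
    have h2 := congrArg (fun z => PowerSeries.C (algebraMap ℚ (MonoidAlgebra ℚ G)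
      (Nat.card H)⁻¹) * z) h1
    simp only [ps_C] at h2
    rw [mul_assoc, ← mul_assoc (PowerSeries.C (algebraMap ℚ (MonoidAlgebra ℚ G)
      (Nat.card H)⁻¹)), e5, one_mul] at h2
    simp only [dg, Finset.univ_unique, PUnit.default_eq_unit, Matrix.fromBlocks_apply₁₁,
      Matrix.of_apply, Finset.sum_singleton, Matrix.map_apply, Matrix.fromBlocks_apply₁₂,
      Matrix.zero_apply, zero_mul, Finset.sum_const_zero, add_zero, Sum.elim_inl, map_mul, ps_C]
    refine h2.trans ?_
    rw [Matrix.vecMul, dotProduct, Finset.mul_sum]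
    refine Finset.sum_congr rfl fun l _ => ?_
    rw [mul_assoc]
    rfl
  · have h1 := hr i j
    rw [hv, Matrix.vecMul, dotProduct, Fintype.sum_sum_type] at h1
    rw [Matrix.mul_apply, Fintype.sum_sum_type, Matrix.mul_apply]
    simp only [row, ZeroMemClass.coe_zero, map_zero, Sum.elim_inl, zero_mul,
      Finset.sum_const_zero, Sum.elim_inr, zero_add, Pi.single_apply, apply_ite, map_one,
      ite_mul, one_mul, Finset.sum_ite_eq', Finset.mem_univ, if_true] at h1
    simp only [dg, Matrix.fromBlocks_apply₂₁, Matrix.zero_apply, zero_mul,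
      Finset.sum_const_zero, zero_add, Matrix.fromBlocks_apply₂₂, Matrix.one_apply, ite_mul,
      one_mul, Finset.sum_ite_eq, Finset.mem_univ, if_true, Matrix.map_apply, Matrix.of_apply,
      Sum.elim_inr]
    exact h1

theorem dg_mul {R : Type} [Ring R] {κ : Type} [Fintype κ] [DecidableEq κ] (a b : R) :
    (dg a : Matrix (Unit ⊕ κ) (Unit ⊕ κ) R) * dg b = dg (a * b) := by
  unfold dg
  rw [Matrix.fromBlocks_multiply]
  congr 1
  · ext i j
    simp [Matrix.mul_apply]
  · simp
  · simp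
  · simp

theorem dg_one {R : Type} [Ring R] {κ : Type} [DecidableEq κ] :
    (dg 1 : Matrix (Unit ⊕ κ) (Unit ⊕ κ) R) = 1 := by
  unfold dg
  rw [← Matrix.fromBlocks_one]
  congr 1

theorem inj_map {n : Type} {R : Type} [Ring R] (A B : Matrix n n (Polynomial R))
    (h : A.map (ps R) = B.map (ps R)) : A = B := by
  refine Matrix.ext fun i j => ?_
  have h1 := congrFun (congrFun h i) j
  exact Polynomial.coe_injective _ h1

/-- The inverse. -/
theorem inv_of (H : Subgroup G) [Finite H] (f g : Polynomial ℤ) (k : ℕ) (hf : f.coeff 0 = 1)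
    (v vi : Matrix (Unit ⊕ Fin k) (Unit ⊕ Fin k) (PowerSeries (MonoidAlgebra ℤ G)))
    (u ui : Matrix (Unit ⊕ Fin k) (Unit ⊕ Fin k) (Polynomial (MonoidAlgebra ℚ G)))
    (h : v * vi = 1)
    (h1 : dg (kap H (f : PowerSeries ℤ)) * v.map (iqs G) =
        u.map (ps _) * dg (kap H (g : PowerSeries ℤ)))
    (h2 : dg (kap H (g : PowerSeries ℤ)) * vi.map (iqs G) =
        ui.map (ps _) * dg (kap H (f : PowerSeries ℤ))) : u * ui = 1 := by
  obtain ⟨b, hb⟩ := exists_inv f hf
  apply inj_map
  rw [Matrix.map_mul, Matrix.map_one _ (map_zero _) (map_one _)]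
  have e1 : (u.map (ps _) * ui.map (ps _)) * dg (kap H (f : PowerSeries ℤ)) =
      dg (kap H (f : PowerSeries ℤ)) := by
    rw [Matrix.mul_assoc, ← h2, ← Matrix.mul_assoc, ← h1, Matrix.mul_assoc, ← Matrix.map_mul, h,
      Matrix.map_one _ (map_zero _) (map_one _), Matrix.mul_one]
  have e2 : (dg (kap H (f : PowerSeries ℤ)) : Matrix (Unit ⊕ Fin k) (Unit ⊕ Fin k) _) *
      dg (kap H b) = 1 := by
    rw [dg_mul, kap_mul, hb, kap_one, dg_one]
  have e3 := congrArg (fun z => z * dg (kap H b)) e1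
  beta_reduce at e3
  rw [Matrix.mul_assoc, e2, Matrix.mul_one] at e3
  exact e3

end NE1x

theorem t_NE1 (hNE1a : St_NE1a) : St_NE1 := by
  intro G _ H _ f g k hf hg ⟨E⟩
  obtain ⟨v, vi, h1, h2, h3, h4⟩ := hNE1a G H f g k hf hg E
  obtain ⟨u, hu⟩ := NE1x.one_sided H f g k E v h3
  obtain ⟨ui, hui⟩ := NE1x.one_sided H g f k E.symm vi h4
  exact ⟨v, vi, u, ui, h1, h2, NE1x.inv_of H f g k hf v vi u ui h1 hu hui,
    NE1x.inv_of H g f k hg vi v ui u h2 hui hu, hu⟩

end Pool.Agent.NIL
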