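import Pool.Agent.NIL.St3
import Pool.Agent.NIL.P_NE1

/-!
# NME1: the polynomial matrices of a stable isomorphism, several Swan modules
-/

set_option autoImplicit false

noncomputable section

namespace Pool.Agent.NIL

namespace NME1x

section Dgm

variable {R : Type} [Ring R] {ι κ ν : Type} [Fintype ι] [DecidableEq ι] [Fintype κ] [DecidableEq κ]

theorem vecMul_dgm (x : ι ⊕ κ → R) (c : ι → R) :
    Matrix.vecMul x (dgm c) = Sum.elim (fun i => x (Sum.inl i) * c i) (fun j => x (Sum.inr j)) := by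
  funext j
  rw [Matrix.vecMul, dotProduct, Fintype.sum_sum_type]
  rcases j with j | j
  · simp only [dgm, Matrix.fromBlocks_apply₁₁, Matrix.fromBlocks_apply₂₁, Matrix.zero_apply,
      mul_zero, Finset.sum_const_zero, add_zero, Matrix.diagonal_apply, mul_ite,
      Finset.sum_ite_eq', Finset.mem_univ, if_true, Sum.elim_inl]
  · simp only [dgm, Matrix.fromBlocks_apply₁₂, Matrix.fromBlocks_apply₂₂, Matrix.zero_apply,
      mul_zero, Finset.sum_const_zero, zero_add, Matrix.one_apply, mul_ite, mul_one,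
      Finset.sum_ite_eq', Finset.mem_univ, if_true, Sum.elim_inr]

theorem dgm_mul_inl (c : ι → R) (M : Matrix (ι ⊕ κ) ν R) (i : ι) (j : ν) :
    ((dgm c : Matrix (ι ⊕ κ) (ι ⊕ κ) R) * M) (Sum.inl i) j = c i * M (Sum.inl i) j := by
  rw [Matrix.mul_apply, Fintype.sum_sum_type]
  simp only [dgm, Matrix.fromBlocks_apply₁₁, Matrix.fromBlocks_apply₁₂, Matrix.zero_apply,
    zero_mul, Finset.sum_const_zero, add_zero, Matrix.diagonal_apply, ite_mul,
    Finset.sum_ite_eq, Finset.mem_univ, if_true]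

theorem dgm_mul_inr (c : ι → R) (M : Matrix (ι ⊕ κ) ν R) (i : κ) (j : ν) :
    ((dgm c : Matrix (ι ⊕ κ) (ι ⊕ κ) R) * M) (Sum.inr i) j = M (Sum.inr i) j := by
  rw [Matrix.mul_apply, Fintype.sum_sum_type]
  simp only [dgm, Matrix.fromBlocks_apply₂₁, Matrix.fromBlocks_apply₂₂, Matrix.zero_apply,
    zero_mul, Finset.sum_const_zero, zero_add, Matrix.one_apply, ite_mul, one_mul,
    Finset.sum_ite_eq, Finset.mem_univ, if_true]

theorem dgm_mul (a b : ι → R) :
    (dgm a : Matrix (ι ⊕ κ) (ι ⊕ κ) R) * dgm b = dgm (fun i => a i * b i) := by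
  unfold dgm
  rw [Matrix.fromBlocks_multiply]
  simp [Matrix.diagonal_mul_diagonal]

omit [Fintype ι] [Fintype κ] in
theorem dgm_one : (dgm (fun _ => 1) : Matrix (ι ⊕ κ) (ι ⊕ κ) R) = 1 := by
  unfold dgm
  rw [← Matrix.fromBlocks_one, Matrix.diagonal_one]

end Dgm

variable {G ι : Type} [Group G] [Fintype ι] [DecidableEq ι]

omit [Fintype ι] in
theorem rowm_inl {S : ι → Submodule (RT G) (RT G)} {k : ℕ} (i : ι) (s : S i) :
    rowm ((Pi.single i s, 0) : (∀ i, S i) × (Fin k → RT G)) =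
      Pi.single (Sum.inl i) (ps _ (s : RT G)) := by
  funext j
  rcases j with j | j
  · change ps _ ((Pi.single i s : ∀ i, S i) j : RT G) = _
    by_cases hj : j = i
    · subst hj
      rw [Pi.single_eq_same, Pi.single_eq_same]
    · rw [Pi.single_eq_of_ne hj, Pi.single_eq_of_ne (fun h => hj (Sum.inl_injective h)),
        ZeroMemClass.coe_zero, map_zero]
  · change ps _ ((0 : Fin k → RT G) j) = _
    rw [Pi.single_eq_of_ne (by simp), Pi.zero_apply, map_zero]

omit [Fintype ι] in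
theorem rowm_inr {S : ι → Submodule (RT G) (RT G)} {k : ℕ} (i : Fin k) :
    rowm ((0, Pi.single i 1) : (∀ i, S i) × (Fin k → RT G)) = Pi.single (Sum.inr i) 1 := by
  funext j
  rcases j with j | j
  · change ps _ ((0 : ∀ i, S i) j : RT G) = _
    rw [Pi.single_eq_of_ne (by simp), Pi.zero_apply, ZeroMemClass.coe_zero, map_zero]
  · change ps _ ((Pi.single i 1 : Fin k → RT G) j) = _
    by_cases hj : j = i
    · subst hj
      rw [Pi.single_eq_same, Pi.single_eq_same, map_one]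
    · rw [Pi.single_eq_of_ne hj, Pi.single_eq_of_ne (fun h => hj (Sum.inr_injective h)),
        map_zero]

omit [Fintype ι] [DecidableEq ι] in
theorem single_vecMul {R μ ν : Type} [Ring R] [Fintype μ] [DecidableEq μ] (a : μ) (x : R)
    (v : Matrix μ ν R) (j : ν) : Matrix.vecMul (Pi.single a x) v j = x * v a j := by
  rw [Matrix.vecMul, dotProduct]
  simp only [Pi.single_apply, ite_mul, zero_mul, Finset.sum_ite_eq', Finset.mem_univ, if_true]

theorem exists_row (H : ι → Subgroup G) [∀ i, Finite (H i)] (g : ι → Polynomial ℤ) (k : ℕ)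
    (m : (∀ i, Swan (H i) (g i)) × (Fin k → RT G)) :
    ∃ r : ι ⊕ Fin k → Polynomial (MonoidAlgebra ℚ G), ∀ j,
      iqs G (rowm m j) = Matrix.vecMul (fun i => ps _ (r i))
        (dgm fun i => kap (H i) (g i : PowerSeries ℤ)) j := by
  choose r hr using fun i => NE1x.exists_rho (H i) (g i) (m.1 i) (m.1 i).2
  refine ⟨Sum.elim r (fun j => iqp G (m.2 j)), fun j => ?_⟩
  rw [vecMul_dgm]
  rcases j with j | j
  · exact hr j
  · change iqs G (ps _ (m.2 j)) = ps _ (iqp G (m.2 j))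
    ext m : 1
    simp

theorem one_sided (H : ι → Subgroup G) [∀ i, Finite (H i)] (f g : ι → Polynomial ℤ) (k : ℕ)
    (E : (∀ i, Swan (H i) (f i)) × (Fin k → RT G) → (∀ i, Swan (H i) (g i)) × (Fin k → RT G))
    (v : Matrix (ι ⊕ Fin k) (ι ⊕ Fin k) (PowerSeries (MonoidAlgebra ℤ G)))
    (hv : ∀ m, rowm (E m) = Matrix.vecMul (rowm m) v) :
    ∃ u : Matrix (ι ⊕ Fin k) (ι ⊕ Fin k) (Polynomial (MonoidAlgebra ℚ G)),
      dgm (fun i => kap (H i) (f i : PowerSeries ℤ)) * v.map (iqs G) =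
        u.map (ps _) * dgm (fun i => kap (H i) (g i : PowerSeries ℤ)) := by
  classical
  choose r0 hr0 using fun i : ι =>
    exists_row H g k (E (Pi.single i ⟨_, NE1x.hk_mem (H i) (f i)⟩, 0))
  choose r hr using fun i : Fin k => exists_row H g k (E (0, Pi.single i 1))
  refine ⟨Matrix.of (Sum.elim (fun i j => Polynomial.C (algebraMap ℚ (MonoidAlgebra ℚ G)
    (Nat.card (H i))⁻¹) * r0 i j) (fun i j => r i j)), ?_⟩
  ext i j : 1
  rcases i with i | i
  · have h1 := hr0 i j
    have h0 : iqs G (Matrix.vecMul (rowm ((Pi.single i ⟨_, NE1x.hk_mem (H i) (f i)⟩, 0) :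
        (∀ i, Swan (H i) (f i)) × (Fin k → RT G))) v j) =
        iqs G (ps _ (Polynomial.C (sg (H i)) +
          ((Nat.card (H i) : RT G) - Polynomial.C (sg (H i))) * cst G (f i))) *
          iqs G (v (Sum.inl i) j) := by
      rw [rowm_inl (S := fun i => Swan (H i) (f i)), single_vecMul, map_mul]
    rw [hv, h0, NE1x.hk_eq] at h1
    rw [dgm_mul_inl, Matrix.mul_apply_eq_vecMul]
    have e5 : PowerSeries.C (algebraMap ℚ (MonoidAlgebra ℚ G) (Nat.card (H i))⁻¹) *
      PowerSeries.C (algebraMap ℚ (MonoidAlgebra ℚ G) (Nat.card (H i))) = 1 := by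
      rw [← map_mul, ← map_mul, inv_mul_cancel₀ (NE1x.card_ne (H i)), map_one, map_one]
    have h2 := congrArg (fun z => PowerSeries.C (algebraMap ℚ (MonoidAlgebra ℚ G)
      (Nat.card (H i))⁻¹) * z) h1
    simp only [NE1x.ps_C] at h2
    rw [mul_assoc, ← mul_assoc (PowerSeries.C (algebraMap ℚ (MonoidAlgebra ℚ G)
      (Nat.card (H i))⁻¹)), e5, one_mul] at h2
    refine h2.trans ?_
    rw [Matrix.vecMul, dotProduct, Finset.mul_sum, Matrix.vecMul, dotProduct]
    refine Finset.sum_congr rfl fun l _ => ?_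
    rw [← mul_assoc, Matrix.map_apply, Matrix.of_apply, Sum.elim_inl, map_mul, NE1x.ps_C]
  · have h1 := hr i j
    have h0 : Matrix.vecMul (rowm ((0, Pi.single i 1) :
        (∀ i, Swan (H i) (f i)) × (Fin k → RT G))) v j = v (Sum.inr i) j := by
      rw [rowm_inr (S := fun i => Swan (H i) (f i)), single_vecMul, one_mul]
    rw [hv, h0] at h1
    rw [dgm_mul_inr, Matrix.mul_apply_eq_vecMul]
    exact h1

/-- The inverse. -/
theorem inv_of (H : ι → Subgroup G) [∀ i, Finite (H i)] (f g : ι → Polynomial ℤ) (k : ℕ)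
    (hf : ∀ i, (f i).coeff 0 = 1)
    (v vi : Matrix (ι ⊕ Fin k) (ι ⊕ Fin k) (PowerSeries (MonoidAlgebra ℤ G)))
    (u ui : Matrix (ι ⊕ Fin k) (ι ⊕ Fin k) (Polynomial (MonoidAlgebra ℚ G)))
    (h : v * vi = 1)
    (h1 : dgm (fun i => kap (H i) (f i : PowerSeries ℤ)) * v.map (iqs G) =
        u.map (ps _) * dgm (fun i => kap (H i) (g i : PowerSeries ℤ)))
    (h2 : dgm (fun i => kap (H i) (g i : PowerSeries ℤ)) * vi.map (iqs G) =
        ui.map (ps _) * dgm (fun i => kap (H i) (f i : PowerSeries ℤ))) : u * ui = 1 := by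
  choose b hb using fun i => NE1x.exists_inv (f i) (hf i)
  apply NE1x.inj_map
  rw [Matrix.map_mul, Matrix.map_one _ (map_zero _) (map_one _)]
  have e1 : (u.map (ps _) * ui.map (ps _)) * dgm (fun i => kap (H i) (f i : PowerSeries ℤ)) =
      dgm (fun i => kap (H i) (f i : PowerSeries ℤ)) := by
    rw [Matrix.mul_assoc, ← h2, ← Matrix.mul_assoc, ← h1, Matrix.mul_assoc, ← Matrix.map_mul, h,
      Matrix.map_one _ (map_zero _) (map_one _), Matrix.mul_one]
  have e2 : (dgm (fun i => kap (H i) (f i : PowerSeries ℤ)) :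
      Matrix (ι ⊕ Fin k) (ι ⊕ Fin k) _) * dgm (fun i => kap (H i) (b i)) = 1 := by
    rw [dgm_mul]
    simp only [NE1x.kap_mul, hb, NE1x.kap_one]
    exact dgm_one
  have e3 := congrArg (fun z => z * dgm (fun i => kap (H i) (b i))) e1
  beta_reduce at e3
  rw [Matrix.mul_assoc, e2, Matrix.mul_one] at e3
  exact e3

end NME1x

theorem t_NME1 (hNME1a : St_NME1a) : St_NME1 := by
  intro G ι _ _ _ H _ f g k hf hg ⟨E⟩
  obtain ⟨v, vi, h1, h2, h3, h4⟩ := hNME1a G ι H f g k hf hg E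
  obtain ⟨u, hu⟩ := NME1x.one_sided H f g k E v h3
  obtain ⟨ui, hui⟩ := NME1x.one_sided H g f k E.symm vi h4
  exact ⟨v, vi, u, ui, h1, h2, NME1x.inv_of H f g k hf v vi u ui h1 hu hui,
    NME1x.inv_of H g f k hg vi v ui u h2 hui hu, hu⟩

end Pool.Agent.NIL
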