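import Pool.Agent.NIL.St

/-!
# NE1a: isomorphisms of Swan modules are given by matrices
-/

set_option autoImplicit false

noncomputable section

namespace Pool.Agent.NIL
namespace NE1ax

variable {G : Type} [Group G]

theorem row_add {S : Submodule (RT G) (RT G)} {k : ℕ} (m n : S × (Fin k → RT G)) :
    row (m + n) = row m + row n := by
  funext i
  rcases i with i | i <;> simp [row]

theorem row_smul {S : Submodule (RT G) (RT G)} {k : ℕ} (r : RT G) (m : S × (Fin k → RT G)) :
    row (r • m) = fun i => ps _ r * row m i := by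
  funext i
  rcases i with i | i <;> simp [row]

theorem row_zero {S : Submodule (RT G) (RT G)} {k : ℕ} :
    row (0 : S × (Fin k → RT G)) = 0 := by
  funext i
  rcases i with i | i <;> simp [row]

theorem row_sum {S : Submodule (RT G) (RT G)} {k : ℕ} {α : Type} (s : Finset α)
    (m : α → S × (Fin k → RT G)) (i : Unit ⊕ Fin k) :
    row (∑ a ∈ s, m a) i = ∑ a ∈ s, row (m a) i := by
  classical
  induction s using Finset.induction_on with
  | empty => simp [row_zero]
  | insert a s ha ih => rw [Finset.sum_insert ha, Finset.sum_insert ha, row_add, Pi.add_apply, ih]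

/-- `f` is central. -/
theorem cst_comm (f : Polynomial ℤ) (s : RT G) : cst G f * s = s * cst G f := by
  have h : Commute (cst G f) s := by
    unfold cst
    induction f using Polynomial.induction_on' with
    | add p q hp hq =>
      rw [Polynomial.map_add]
      exact hp.add_left hq
    | monomial n a =>
      rw [Polynomial.map_monomial, ← Polynomial.C_mul_X_pow_eq_monomial]
      refine Commute.mul_left ?_ (Polynomial.commute_X_pow s n)
      simp only [eq_intCast, map_intCast]
      exact Int.cast_commute a s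
  exact h

/-- The image of a power series with integral coefficients. -/
abbrev cz (G : Type) [Group G] : PowerSeries ℤ →+* PowerSeries (MonoidAlgebra ℤ G) :=
  PowerSeries.map (Int.castRingHom (MonoidAlgebra ℤ G))

theorem ps_cst (f : Polynomial ℤ) : ps _ (cst G f) = cz G (f : PowerSeries ℤ) := by
  ext n
  simp [cst, ps]

theorem cz_comm (f : PowerSeries ℤ) (s : PowerSeries (MonoidAlgebra ℤ G)) :
    cz G f * s = s * cz G f := by
  refine PowerSeries.ext fun n => ?_
  rw [PowerSeries.coeff_mul, PowerSeries.coeff_mul, ← Finset.Nat.sum_antidiagonal_swap]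
  refine Finset.sum_congr rfl fun x _ => ?_
  rw [PowerSeries.coeff_map, PowerSeries.coeff_map]
  exact Int.cast_commute (PowerSeries.coeff x.swap.1 f) (PowerSeries.coeff x.swap.2 s)

/-- The element `(f, 0)`. -/
def fz (H : Subgroup G) (f : Polynomial ℤ) (k : ℕ) : Swan H f × (Fin k → RT G) :=
  (⟨cst G f, Submodule.subset_span (Set.mem_insert _ _)⟩, 0)

/-- The element `(0, e_j)`. -/
def ej (H : Subgroup G) (f : Polynomial ℤ) (k : ℕ) (j : Fin k) : Swan H f × (Fin k → RT G) :=
  (0, Pi.single j 1)

/-- The matrix of a linear map. -/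
def mat {H : Subgroup G} {f g : Polynomial ℤ} {k : ℕ} (Fi : PowerSeries ℤ)
    (E : (Swan H f × (Fin k → RT G)) →ₗ[RT G] (Swan H g × (Fin k → RT G))) :
    Matrix (Unit ⊕ Fin k) (Unit ⊕ Fin k) (PowerSeries (MonoidAlgebra ℤ G)) :=
  Matrix.of (Sum.elim (fun _ i => cz G Fi * row (E (fz H f k)) i) (fun j => row (E (ej H f k j))))

theorem dec {H : Subgroup G} {f : Polynomial ℤ} {k : ℕ} (m : Swan H f × (Fin k → RT G)) :
    m = (m.1, (0 : Fin k → RT G)) + ∑ j, m.2 j • ej H f k j := by
  refine Prod.ext ?_ ?_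
  · rw [Prod.fst_add, Prod.fst_sum]
    have : ∀ j ∈ (Finset.univ : Finset (Fin k)), (m.2 j • ej H f k j).1 = 0 := by
      intro j _
      rw [Prod.smul_fst]
      exact smul_zero _
    rw [Finset.sum_eq_zero this, add_zero]
  · rw [Prod.snd_add, Prod.snd_sum, zero_add]
    funext i
    rw [Finset.sum_apply, Finset.sum_eq_single i]
    · rw [Prod.smul_snd, Pi.smul_apply]
      change m.2 i = m.2 i • (Pi.single i 1 : Fin k → RT G) i
      rw [Pi.single_eq_same, smul_eq_mul, mul_one]
    · intro j _ hj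
      rw [Prod.smul_snd, Pi.smul_apply]
      change m.2 j • (Pi.single j 1 : Fin k → RT G) i = 0
      rw [Pi.single_eq_of_ne (Ne.symm hj), smul_zero]
    · intro h; exact absurd (Finset.mem_univ _) h

theorem smul_fz {H : Subgroup G} {f : Polynomial ℤ} {k : ℕ} (s : Swan H f) :
    cst G f • ((s, 0) : Swan H f × (Fin k → RT G)) = (s : RT G) • fz H f k := by
  refine Prod.ext ?_ ?_
  · rw [Prod.smul_fst, Prod.smul_fst]
    refine Subtype.ext ?_
    exact cst_comm f (s : RT G)
  · rw [Prod.smul_snd, Prod.smul_snd]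
    exact (smul_zero _).trans (smul_zero _).symm

theorem row_mat {H : Subgroup G} {f g : Polynomial ℤ} {k : ℕ} {Fi : PowerSeries ℤ}
    (hF : Fi * (f : PowerSeries ℤ) = 1)
    (E : (Swan H f × (Fin k → RT G)) →ₗ[RT G] (Swan H g × (Fin k → RT G)))
    (m : Swan H f × (Fin k → RT G)) :
    row (E m) = Matrix.vecMul (row m) (mat Fi E) := by
  have hFi : cz G Fi * ps _ (cst G f) = 1 := by
    rw [ps_cst, ← map_mul, hF, map_one]
  have h1 : ∀ (s : Swan H f) (i : Unit ⊕ Fin k), row (E (s, 0)) i =
      ps _ (s : RT G) * (cz G Fi * row (E (fz H f k)) i) := by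
    intro s i
    have h2 : row (cst G f • E ((s, 0) : Swan H f × (Fin k → RT G))) i =
        row ((s : RT G) • E (fz H f k)) i := by
      rw [← map_smul, ← map_smul, smul_fz]
    rw [row_smul, row_smul] at h2
    simp only at h2
    calc row (E (s, 0)) i = cz G Fi * (ps _ (cst G f) * row (E (s, 0)) i) := by
          rw [← mul_assoc, hFi, one_mul]
      _ = cz G Fi * (ps _ (s : RT G) * row (E (fz H f k)) i) := by rw [h2]
      _ = ps _ (s : RT G) * (cz G Fi * row (E (fz H f k)) i) := by
          rw [← mul_assoc, cz_comm, mul_assoc]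
  funext i
  rw [Matrix.vecMul, dotProduct, Fintype.sum_sum_type]
  conv_lhs => rw [dec m]
  rw [map_add, row_add, Pi.add_apply, map_sum, row_sum, h1]
  congr 1
  · simp [mat, row]
  · refine Finset.sum_congr rfl fun j _ => ?_
    rw [map_smul, row_smul]
    simp [mat, row]

theorem row_fz (H : Subgroup G) (f : Polynomial ℤ) (k : ℕ) (i : Unit ⊕ Fin k) :
    row (fz H f k) i = ps _ (cst G f) * (1 : Matrix (Unit ⊕ Fin k) (Unit ⊕ Fin k)
      (PowerSeries (MonoidAlgebra ℤ G))) (Sum.inl ()) i := by
  rcases i with i | i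
  · rw [show (Sum.inl i : Unit ⊕ Fin k) = Sum.inl () from rfl, Matrix.one_apply_eq, mul_one]
    rfl
  · rw [Matrix.one_apply_ne (by simp), mul_zero]
    simp [row, fz]

theorem row_ej (H : Subgroup G) (f : Polynomial ℤ) (k : ℕ) (j : Fin k) (i : Unit ⊕ Fin k) :
    row (ej H f k j) i = (1 : Matrix (Unit ⊕ Fin k) (Unit ⊕ Fin k)
      (PowerSeries (MonoidAlgebra ℤ G))) (Sum.inr j) i := by
  rcases i with i | i
  · rw [Matrix.one_apply_ne (by simp)]
    simp [row, ej]
  · simp only [row, ej, Sum.elim_inr, Matrix.one_apply, Pi.single_apply, Sum.inr.injEq]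
    by_cases h : i = j
    · rw [if_pos h, if_pos h.symm, map_one]
    · rw [if_neg h, if_neg (fun h' => h h'.symm), map_zero]

theorem uniq {H : Subgroup G} {f : Polynomial ℤ} {k : ℕ} {Fi : PowerSeries ℤ}
    (hF : Fi * (f : PowerSeries ℤ) = 1)
    {A : Matrix (Unit ⊕ Fin k) (Unit ⊕ Fin k) (PowerSeries (MonoidAlgebra ℤ G))}
    (h : ∀ m : Swan H f × (Fin k → RT G), row m = Matrix.vecMul (row m) A) : A = 1 := by
  have hFi : cz G Fi * ps _ (cst G f) = 1 := by
    rw [ps_cst, ← map_mul, hF, map_one]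
  refine Matrix.ext fun i j => ?_
  rcases i with i | i
  · have h1 := congrFun (h (fz H f k)) j
    rw [Matrix.vecMul, dotProduct, row_fz] at h1
    have h2 : ∑ l, row (fz H f k) l * A l j = ps _ (cst G f) * A (Sum.inl ()) j := by
      rw [Finset.sum_eq_single (Sum.inl () : Unit ⊕ Fin k)]
      · rw [row_fz, Matrix.one_apply_eq, mul_one]
      · intro l _ hl
        rw [row_fz, Matrix.one_apply_ne (Ne.symm hl), mul_zero, zero_mul]
      · intro h; exact absurd (Finset.mem_univ _) h
    rw [h2] at h1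
    have h3 := congrArg (fun z => cz G Fi * z) h1
    simp only [← mul_assoc, hFi, one_mul] at h3
    exact h3.symm
  · have h1 := congrFun (h (ej H f k i)) j
    rw [Matrix.vecMul, dotProduct, row_ej] at h1
    have h2 : ∑ l, row (ej H f k i) l * A l j = A (Sum.inr i) j := by
      rw [Finset.sum_eq_single (Sum.inr i : Unit ⊕ Fin k)]
      · rw [row_ej, Matrix.one_apply_eq, one_mul]
      · intro l _ hl
        rw [row_ej, Matrix.one_apply_ne (Ne.symm hl), zero_mul]
      · intro h; exact absurd (Finset.mem_univ _) h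
    rw [h2] at h1
    exact h1.symm

theorem inv_exists {f : Polynomial ℤ} (hf : f.coeff 0 = 1) :
    ∃ Fi : PowerSeries ℤ, Fi * (f : PowerSeries ℤ) = 1 := by
  refine ⟨PowerSeries.invOfUnit (f : PowerSeries ℤ) 1, ?_⟩
  rw [mul_comm]
  refine PowerSeries.mul_invOfUnit _ _ ?_
  rw [← PowerSeries.coeff_zero_eq_constantCoeff_apply, Polynomial.coeff_coe, hf, Units.val_one]

end NE1ax

open NE1ax in
/-- NE1a -/
theorem t_NE1a : St_NE1a := by
  intro G _ H _ f g k hf hg E
  obtain ⟨Fi, hF⟩ := inv_exists hf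
  obtain ⟨Gi, hG⟩ := inv_exists hg
  have h1 : ∀ m, row (E m) = Matrix.vecMul (row m) (mat Fi E.toLinearMap) :=
    fun m => row_mat hF E.toLinearMap m
  have h2 : ∀ m, row (E.symm m) = Matrix.vecMul (row m) (mat Gi E.symm.toLinearMap) :=
    fun m => row_mat hG E.symm.toLinearMap m
  refine ⟨mat Fi E.toLinearMap, mat Gi E.symm.toLinearMap, ?_, ?_, h1, h2⟩
  · refine uniq (H := H) hF fun m => ?_
    rw [← Matrix.vecMul_vecMul, ← h1, ← h2, LinearEquiv.symm_apply_apply]
  · refine uniq (H := H) hG fun m => ?_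
    rw [← Matrix.vecMul_vecMul, ← h2, ← h1, LinearEquiv.apply_symm_apply]

end Pool.Agent.NIL
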