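import Pool.Agent.NIL.St3
import Pool.Agent.NIL.P_NE1a

/-!
# NME1a: isomorphisms of sums of Swan modules are given by matrices
-/

set_option autoImplicit false

noncomputable section

namespace Pool.Agent.NIL
namespace NME1aw

open NE1ax

variable {G : Type} [Group G] {ι : Type}

theorem rowm_add {S : ι → Submodule (RT G) (RT G)} {k : ℕ} (m n : (∀ i, S i) × (Fin k → RT G)) :
    rowm (m + n) = rowm m + rowm n := by
  funext i
  rcases i with i | i <;> simp [rowm]

theorem rowm_smul {S : ι → Submodule (RT G) (RT G)} {k : ℕ} (r : RT G)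
    (m : (∀ i, S i) × (Fin k → RT G)) :
    rowm (r • m) = fun i => ps _ r * rowm m i := by
  funext i
  rcases i with i | i <;> simp [rowm]

theorem rowm_zero {S : ι → Submodule (RT G) (RT G)} {k : ℕ} :
    rowm (0 : (∀ i, S i) × (Fin k → RT G)) = 0 := by
  funext i
  rcases i with i | i <;> simp [rowm]

theorem rowm_sum {S : ι → Submodule (RT G) (RT G)} {k : ℕ} {α : Type} (s : Finset α)
    (m : α → (∀ i, S i) × (Fin k → RT G)) (i : ι ⊕ Fin k) :
    rowm (∑ a ∈ s, m a) i = ∑ a ∈ s, rowm (m a) i := by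
  classical
  induction s using Finset.induction_on with
  | empty => simp [rowm_zero]
  | insert a s ha ih => rw [Finset.sum_insert ha, Finset.sum_insert ha, rowm_add, Pi.add_apply, ih]

variable [Fintype ι] [DecidableEq ι]

/-- The element `f i` at the place `i`. -/
def fzm (H : ι → Subgroup G) (f : ι → Polynomial ℤ) (k : ℕ) (i : ι) :
    (∀ i, Swan (H i) (f i)) × (Fin k → RT G) :=
  (Pi.single i ⟨cst G (f i), Submodule.subset_span (Set.mem_insert _ _)⟩, 0)

/-- The element `s` at the place `i`. -/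
def pl {H : ι → Subgroup G} {f : ι → Polynomial ℤ} (k : ℕ) (i : ι) (s : Swan (H i) (f i)) :
    (∀ i, Swan (H i) (f i)) × (Fin k → RT G) :=
  (Pi.single i s, 0)

/-- The element `(0, e_j)`. -/
def ejm (H : ι → Subgroup G) (f : ι → Polynomial ℤ) (k : ℕ) (j : Fin k) :
    (∀ i, Swan (H i) (f i)) × (Fin k → RT G) :=
  (0, Pi.single j 1)

/-- The matrix of a linear map. -/
def matm {H : ι → Subgroup G} {f g : ι → Polynomial ℤ} {k : ℕ} (Fi : ι → PowerSeries ℤ)
    (E : ((∀ i, Swan (H i) (f i)) × (Fin k → RT G)) →ₗ[RT G]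
      ((∀ i, Swan (H i) (g i)) × (Fin k → RT G))) :
    Matrix (ι ⊕ Fin k) (ι ⊕ Fin k) (PowerSeries (MonoidAlgebra ℤ G)) :=
  Matrix.of (Sum.elim (fun a i => cz G (Fi a) * rowm (E (fzm H f k a)) i)
    (fun j => rowm (E (ejm H f k j))))

theorem decm {H : ι → Subgroup G} {f : ι → Polynomial ℤ} {k : ℕ}
    (m : (∀ i, Swan (H i) (f i)) × (Fin k → RT G)) :
    m = (∑ i, pl k i (m.1 i)) + ∑ j, m.2 j • ejm H f k j := by
  refine Prod.ext ?_ ?_
  · rw [Prod.fst_add, Prod.fst_sum, Prod.fst_sum]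
    have : ∀ j ∈ (Finset.univ : Finset (Fin k)), (m.2 j • ejm H f k j).1 = 0 := by
      intro j _
      rw [Prod.smul_fst]
      exact smul_zero _
    rw [Finset.sum_eq_zero this, add_zero]
    exact (Finset.univ_sum_single m.1).symm
  · rw [Prod.snd_add, Prod.snd_sum, Prod.snd_sum]
    have : ∀ i ∈ (Finset.univ : Finset ι), (pl k i (m.1 i)).2 = 0 := fun i _ => rfl
    rw [Finset.sum_eq_zero this, zero_add]
    funext i
    rw [Finset.sum_apply, Finset.sum_eq_single i]
    · rw [Prod.smul_snd, Pi.smul_apply]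
      change m.2 i = m.2 i • (Pi.single i 1 : Fin k → RT G) i
      rw [Pi.single_eq_same, smul_eq_mul, mul_one]
    · intro j _ hj
      rw [Prod.smul_snd, Pi.smul_apply]
      change m.2 j • (Pi.single j 1 : Fin k → RT G) i = 0
      rw [Pi.single_eq_of_ne (Ne.symm hj), smul_zero]
    · intro h; exact absurd (Finset.mem_univ _) h

theorem smul_fzm {H : ι → Subgroup G} {f : ι → Polynomial ℤ} {k : ℕ} (i : ι)
    (s : Swan (H i) (f i)) :
    cst G (f i) • pl k i s = (s : RT G) • fzm H f k i := by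
  refine Prod.ext ?_ ?_
  · rw [Prod.smul_fst, Prod.smul_fst]
    funext j
    rw [Pi.smul_apply, Pi.smul_apply]
    by_cases h : j = i
    · subst h
      simp only [pl, fzm, Pi.single_eq_same]
      refine Subtype.ext ?_
      exact cst_comm (f j) (s : RT G)
    · simp only [pl, fzm, Pi.single_eq_of_ne h]
      exact (smul_zero _).trans (smul_zero _).symm
  · rw [Prod.smul_snd, Prod.smul_snd]
    exact (smul_zero _).trans (smul_zero _).symm

theorem rowm_fzm (H : ι → Subgroup G) (f : ι → Polynomial ℤ) (k : ℕ) (a : ι) (i : ι ⊕ Fin k) :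
    rowm (fzm H f k a) i = ps _ (cst G (f a)) * (1 : Matrix (ι ⊕ Fin k) (ι ⊕ Fin k)
      (PowerSeries (MonoidAlgebra ℤ G))) (Sum.inl a) i := by
  rcases i with i | i
  · by_cases h : a = i
    · subst h
      rw [Matrix.one_apply_eq, mul_one]
      simp [rowm, fzm]
    · rw [Matrix.one_apply_ne (by simpa using h), mul_zero]
      simp [rowm, fzm, Pi.single_eq_of_ne (Ne.symm h)]
  · rw [Matrix.one_apply_ne (by simp), mul_zero]
    simp [rowm, fzm]

theorem rowm_ejm (H : ι → Subgroup G) (f : ι → Polynomial ℤ) (k : ℕ) (j : Fin k) (i : ι ⊕ Fin k) :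
    rowm (ejm H f k j) i = (1 : Matrix (ι ⊕ Fin k) (ι ⊕ Fin k)
      (PowerSeries (MonoidAlgebra ℤ G))) (Sum.inr j) i := by
  rcases i with i | i
  · rw [Matrix.one_apply_ne (by simp)]
    simp [rowm, ejm]
  · simp only [rowm, ejm, Sum.elim_inr, Matrix.one_apply, Pi.single_apply, Sum.inr.injEq]
    by_cases h : i = j
    · rw [if_pos h, if_pos h.symm, map_one]
    · rw [if_neg h, if_neg (fun h' => h h'.symm), map_zero]

theorem rowm_pl {H : ι → Subgroup G} {f : ι → Polynomial ℤ} {k : ℕ} (a i : ι)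
    (s : Swan (H a) (f a)) : rowm (pl k a s) (Sum.inl i) =
      if a = i then ps _ (s : RT G) else 0 := by
  by_cases h : a = i
  · subst h
    simp [rowm, pl]
  · rw [if_neg h]
    simp [rowm, pl, Pi.single_eq_of_ne (Ne.symm h)]

theorem rowm_matm {H : ι → Subgroup G} {f g : ι → Polynomial ℤ} {k : ℕ} {Fi : ι → PowerSeries ℤ}
    (hF : ∀ i, Fi i * (f i : PowerSeries ℤ) = 1)
    (E : ((∀ i, Swan (H i) (f i)) × (Fin k → RT G)) →ₗ[RT G]
      ((∀ i, Swan (H i) (g i)) × (Fin k → RT G)))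
    (m : (∀ i, Swan (H i) (f i)) × (Fin k → RT G)) :
    rowm (E m) = Matrix.vecMul (rowm m) (matm Fi E) := by
  have hFi : ∀ a, cz G (Fi a) * ps _ (cst G (f a)) = 1 := by
    intro a
    rw [ps_cst, ← map_mul, hF, map_one]
  have h1 : ∀ (a : ι) (s : Swan (H a) (f a)) (i : ι ⊕ Fin k), rowm (E (pl k a s)) i =
      ps _ (s : RT G) * (cz G (Fi a) * rowm (E (fzm H f k a)) i) := by
    intro a s i
    have h2 : rowm (cst G (f a) • E (pl k a s)) i =
        rowm ((s : RT G) • E (fzm H f k a)) i := by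
      rw [← map_smul, ← map_smul, smul_fzm]
    rw [rowm_smul, rowm_smul] at h2
    simp only at h2
    calc rowm (E (pl k a s)) i = cz G (Fi a) * (ps _ (cst G (f a)) * rowm (E (pl k a s)) i) := by
          rw [← mul_assoc, hFi, one_mul]
      _ = cz G (Fi a) * (ps _ (s : RT G) * rowm (E (fzm H f k a)) i) := by rw [h2]
      _ = ps _ (s : RT G) * (cz G (Fi a) * rowm (E (fzm H f k a)) i) := by
          rw [← mul_assoc, cz_comm, mul_assoc]
  funext i
  rw [Matrix.vecMul, dotProduct, Fintype.sum_sum_type]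
  conv_lhs => rw [decm m]
  rw [map_add, rowm_add, Pi.add_apply, map_sum, map_sum, rowm_sum, rowm_sum]
  congr 1
  · refine Finset.sum_congr rfl fun a _ => ?_
    rw [h1]
    simp [matm, rowm]
  · refine Finset.sum_congr rfl fun j _ => ?_
    rw [map_smul, rowm_smul]
    simp [matm, rowm]

theorem uniqm {H : ι → Subgroup G} {f : ι → Polynomial ℤ} {k : ℕ} {Fi : ι → PowerSeries ℤ}
    (hF : ∀ i, Fi i * (f i : PowerSeries ℤ) = 1)
    {A : Matrix (ι ⊕ Fin k) (ι ⊕ Fin k) (PowerSeries (MonoidAlgebra ℤ G))}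
    (h : ∀ m : (∀ i, Swan (H i) (f i)) × (Fin k → RT G), rowm m = Matrix.vecMul (rowm m) A) :
    A = 1 := by
  have hFi : ∀ a, cz G (Fi a) * ps _ (cst G (f a)) = 1 := by
    intro a
    rw [ps_cst, ← map_mul, hF, map_one]
  refine Matrix.ext fun i j => ?_
  rcases i with i | i
  · have h1 := congrFun (h (fzm H f k i)) j
    rw [Matrix.vecMul, dotProduct, rowm_fzm] at h1
    have h2 : ∑ l, rowm (fzm H f k i) l * A l j = ps _ (cst G (f i)) * A (Sum.inl i) j := by
      rw [Finset.sum_eq_single (Sum.inl i : ι ⊕ Fin k)]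
      · rw [rowm_fzm, Matrix.one_apply_eq, mul_one]
      · intro l _ hl
        rw [rowm_fzm, Matrix.one_apply_ne (Ne.symm hl), mul_zero, zero_mul]
      · intro h; exact absurd (Finset.mem_univ _) h
    rw [h2] at h1
    have h3 := congrArg (fun z => cz G (Fi i) * z) h1
    simp only [← mul_assoc, hFi, one_mul] at h3
    exact h3.symm
  · have h1 := congrFun (h (ejm H f k i)) j
    rw [Matrix.vecMul, dotProduct, rowm_ejm] at h1
    have h2 : ∑ l, rowm (ejm H f k i) l * A l j = A (Sum.inr i) j := by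
      rw [Finset.sum_eq_single (Sum.inr i : ι ⊕ Fin k)]
      · rw [rowm_ejm, Matrix.one_apply_eq, one_mul]
      · intro l _ hl
        rw [rowm_ejm, Matrix.one_apply_ne (Ne.symm hl), zero_mul]
      · intro h; exact absurd (Finset.mem_univ _) h
    rw [h2] at h1
    exact h1.symm

end NME1aw

open NE1ax NME1aw in
/-- NME1a -/
theorem tw_NME1a : St_NME1a := by
  intro G ι _ _ _ H _ f g k hf hg E
  choose Fi hF using fun i => inv_exists (hf i)
  choose Gi hG using fun i => inv_exists (hg i)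
  have h1 : ∀ m, rowm (E m) = Matrix.vecMul (rowm m) (matm Fi E.toLinearMap) :=
    fun m => rowm_matm hF E.toLinearMap m
  have h2 : ∀ m, rowm (E.symm m) = Matrix.vecMul (rowm m) (matm Gi E.symm.toLinearMap) :=
    fun m => rowm_matm hG E.symm.toLinearMap m
  refine ⟨matm Fi E.toLinearMap, matm Gi E.symm.toLinearMap, ?_, ?_, h1, h2⟩
  · refine uniqm (H := H) hF fun m => ?_
    rw [← Matrix.vecMul_vecMul, ← h1, ← h2, LinearEquiv.symm_apply_apply]
  · refine uniqm (H := H) hG fun m => ?_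
    rw [← Matrix.vecMul_vecMul, ← h2, ← h1, LinearEquiv.apply_symm_apply]

end Pool.Agent.NIL
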