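import Pool.Agent.NIL.St

/-!
# NQ1: idempotent matrices of rank one over `F[t]` split
-/

set_option autoImplicit false

noncomputable section

namespace Pool.Agent.NIL

namespace NQ1x

theorem split {B : Type} [CommRing B] [IsDomain B] [IsPrincipalIdealRing B] {k : Type} [Fintype k]
    (e : Matrix k k B) (he : RankOne e) : Free1 e := by
  classical
  have hne : ∃ b i, e i b ≠ 0 := by
    by_contra hcon
    push Not at hcon
    have h1 : e.trace = 0 := Finset.sum_eq_zero fun i _ => hcon i i
    rw [he.trace] at h1
    exact one_ne_zero h1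
  obtain ⟨b, i₀, hi₀⟩ := hne
  obtain ⟨d, hd⟩ := (IsPrincipalIdealRing.principal (Ideal.span (Set.range fun i => e i b))).principal
  change Ideal.span (Set.range fun i => e i b) = Ideal.span {d} at hd
  have hmem : ∀ i, ∃ x, e i b = d * x := by
    intro i
    have h1 : e i b ∈ Ideal.span {d} := by
      rw [← hd]
      exact Ideal.subset_span ⟨i, rfl⟩
    exact Ideal.mem_span_singleton.mp h1
  choose x hx using hmem
  have hd0 : d ≠ 0 := by
    rintro rfl
    exact hi₀ (by rw [hx, zero_mul])
  have hdm : d ∈ Ideal.span (Set.range fun i => e i b) := by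
    rw [hd]
    exact Ideal.mem_span_singleton_self d
  obtain ⟨u, hu⟩ := (Ideal.mem_span_range_iff_exists_fun).mp hdm
  have hux : ∑ i, u i * x i = 1 := by
    apply mul_left_cancel₀ hd0
    rw [Finset.mul_sum, mul_one]
    conv_rhs => rw [← hu]
    refine Finset.sum_congr rfl fun i _ => ?_
    rw [hx]
    ring
  have hxe : ∀ i a j, x i * e a j = x a * e i j := by
    intro i a j
    apply mul_left_cancel₀ hd0
    have h1 := he.minors i b a j
    rw [hx i, hx a] at h1
    calc d * (x i * e a j) = d * x i * e a j := by ring
      _ = e i j * (d * x a) := h1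
      _ = d * (x a * e i j) := by ring
  have hxy : ∀ i j, x i * ∑ a, u a * e a j = e i j := by
    intro i j
    rw [Finset.mul_sum]
    calc ∑ a, x i * (u a * e a j) = ∑ a, (u a * x a) * e i j := by
          refine Finset.sum_congr rfl fun a _ => ?_
          calc x i * (u a * e a j) = u a * (x i * e a j) := by ring
            _ = u a * (x a * e i j) := by rw [hxe]
            _ = _ := by ring
      _ = e i j := by rw [← Finset.sum_mul, hux, one_mul]
  refine ⟨Matrix.of fun i _ => x i, Matrix.of fun _ j => ∑ a, u a * e a j, ?_, ?_⟩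
  · ext i j
    rw [Matrix.mul_apply, Fintype.sum_unique]
    exact hxy i j
  · ext s s'
    rw [Matrix.mul_apply]
    have h1 : ∑ j, (∑ a, u a * e a j) * x j = 1 := by
      rw [← he.trace]
      refine Finset.sum_congr rfl fun j _ => ?_
      rw [mul_comm, hxy]
      rfl
    exact h1

end NQ1x

/-- NQ1. -/
theorem t_NQ1 : St_NQ1 := fun _ _ _ e he => NQ1x.split e he

end Pool.Agent.NIL
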