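import Pool.Agent.NIL.St

/-!
# Final assembly, part two: invertible modules
-/

set_option autoImplicit false

noncomputable section

namespace Pool.Agent.NIL

theorem s_constantCoeff {A : Type} [CommGroup A] {κ : Type} [Fintype κ] {e : Matrix κ κ (RT A)}
    (d : Dat e) : PowerSeries.constantCoeff (ps _ d.s) = 1 := by
  have h : (Polynomial.evalRingHom 0) d.s = ((d.y0 * d.x0).map (iq A)) () () := by
    rw [Matrix.map_mul, ← d.hx]
    unfold Dat.s
    simp only [Matrix.mul_apply, map_sum, map_mul, Matrix.map_apply, Polynomial.coe_evalRingHom,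
      Polynomial.eval_C]
  rw [d.h0'] at h
  have h2 : PowerSeries.constantCoeff (ps _ d.s) = (Polynomial.evalRingHom 0) d.s := by
    rw [← PowerSeries.coeff_zero_eq_constantCoeff_apply]
    change PowerSeries.coeff 0 (d.s : PowerSeries (MonoidAlgebra ℚ A)) = _
    rw [Polynomial.coeff_coe, Polynomial.coe_evalRingHom, Polynomial.coeff_zero_eq_eval_zero]
  rw [h2, h]
  simp

/-- Part two: kernel control for invertible modules. -/
theorem final2 (hNG0 : St_NG0) (hNG1 : St_NG1) (hNG2 : St_NG2) (hNG3 : St_NG3) (hNG4 : St_NG4)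
    (hNF : St_NF) (A G Γ : Type) [CommGroup A] [Finite A] [Group G] [Group Γ] [Fintype Γ] [DecidableEq Γ]
    (φ : A →* G) (ρ : Γ →* MulAut A) (hφ : Function.Injective φ)
    (hΓ : ∀ a b : A, IsConj (φ a) (φ b) → ∃ γ : Γ, ρ γ a = b) (k : ℕ)
    (e : Matrix (Fin k) (Fin k) (RT A)) (he : RankOne e)
    (h0 : Free1 (e.map (Polynomial.evalRingHom 0))) (hs : StFree1 (e.map (ext φ))) :
    Free1 (tens ρ e) := by
  obtain ⟨d⟩ := hNG0 A k e he h0
  obtain ⟨si, hsi⟩ : ∃ si, ps _ d.s * si = 1 :=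
    ⟨_, PowerSeries.mul_invOfUnit _ 1 (by rw [s_constantCoeff]; rfl)⟩
  have w1 := hNG2 A G φ k e he d hs si hsi
  have w2 := hNG3 A G Γ φ ρ hφ hΓ (ps _ d.s) si hsi w1
  obtain ⟨hr, d', hd'⟩ := hNG4 A Γ ρ k e he d
  rw [← hd'] at w2
  have hN : ps _ d'.s * (∏ γ : Γ, eqs (ρ γ).toMonoidHom si) = 1 := by
    rw [hd', ← Finset.prod_mul_distrib]
    refine Finset.prod_eq_one fun γ _ => ?_
    rw [← map_mul, hsi, map_one]
  obtain ⟨w', hw'⟩ := hNF A (ps _ d'.s) _ hN (s_constantCoeff d') w2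
  exact hNG1 A (Γ → Fin k) (tens ρ e) hr d' ⟨w', hw'⟩

end Pool.Agent.NIL
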