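import Pool.Agent.NIL.St3
import Pool.Agent.NIL.Fin2

/-!
# Module NSA: the invertible modules separate
-/

set_option autoImplicit false

noncomputable section

namespace Pool.Agent.NIL

namespace NSAx

/-- The classes which meet the image of `φ`. -/
def X {A G : Type} [Group A] [Group G] (φ : A →* G) : Set (ConjClasses G) :=
  {C | ∃ x : A, ConjClasses.mk (φ x) = C}

/-- The sum of the values of `T0 a` is the augmentation of `a`. -/
theorem sum_T0 {G : Type} [Group G] (a : MonoidAlgebra ℚ G) :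
    (T0 ℚ G a).sum (fun _ c => c) = MonoidAlgebra.lift ℚ ℚ G 1 a := by
  induction a using MonoidAlgebra.induction_linear with
  | zero => simp
  | add x y hx hy =>
    rw [map_add, map_add, Finsupp.sum_add_index' (fun _ => rfl) (fun _ _ _ => rfl), hx, hy]
  | single g r => rw [T0_single, Finsupp.sum_single_index rfl]; simp

theorem mdr_single {A G : Type} [Group A] [Group G] (φ : A →* G) (g : A) (r : ℚ) :
    MonoidAlgebra.mapDomainRingHom ℚ φ (MonoidAlgebra.single g r) = MonoidAlgebra.single (φ g) r :=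
  MonoidAlgebra.mapDomain_single

theorem T0_zero_of_notMem {A G : Type} [Group A] [Group G] (φ : A →* G) (C : ConjClasses G)
    (hC : C ∉ X φ) (a : MonoidAlgebra ℚ A) :
    T0 ℚ G (MonoidAlgebra.mapDomainRingHom ℚ φ a) C = 0 := by
  classical
  induction a using MonoidAlgebra.induction_linear with
  | zero => simp
  | add x y hx hy => rw [map_add, map_add, Finsupp.add_apply, hx, hy, add_zero]
  | single g r =>
    rw [mdr_single, T0_single, Finsupp.single_apply, if_neg]
    intro h1
    exact hC ⟨g, h1⟩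

theorem aug_map {A G : Type} [Group A] [Group G] (φ : A →* G) (a : MonoidAlgebra ℚ A) :
    MonoidAlgebra.lift ℚ ℚ G 1 (MonoidAlgebra.mapDomainRingHom ℚ φ a) =
      MonoidAlgebra.lift ℚ ℚ A 1 a := by
  induction a using MonoidAlgebra.induction_linear with
  | zero => simp
  | add x y hx hy => rw [map_add, map_add, map_add, hx, hy]
  | single g r => rw [mdr_single]; simp

/-- The augmentation as a ring homomorphism. -/
def aug (A : Type) [Group A] : MonoidAlgebra ℚ A →+* ℚ :=
  (MonoidAlgebra.lift ℚ ℚ A 1 : MonoidAlgebra ℚ A →ₐ[ℚ] ℚ).toRingHom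

theorem th_map {R S : Type} [Ring R] [Ring S] (f : R →+* S) (a : PowerSeries R) :
    th (PowerSeries.map f a) = PowerSeries.map f (th a) := by
  ext1 m
  rw [coeff_th, PowerSeries.coeff_map, PowerSeries.coeff_map, coeff_th, map_nsmul]

/-- The data for one module. -/
theorem data {A : Type} [CommGroup A] (s : Polynomial (MonoidAlgebra ℚ A))
    (si : PowerSeries (MonoidAlgebra ℚ A)) (hs : ps _ s * si = 1)
    (h0 : PowerSeries.constantCoeff (ps _ s) = 1) (q : Polynomial ℤ)
    (hq : augp A s = q.map (Int.castRingHom ℚ)) :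
    ∃ qi : PowerSeries ℤ, (q : PowerSeries ℤ) * qi = 1 ∧
      ∀ m, aug A (PowerSeries.coeff m (si * th (ps _ s))) =
        ((PowerSeries.coeff m (qi * th (q : PowerSeries ℤ)) : ℤ) : ℚ) := by
  have e1 : PowerSeries.map (aug A) (ps _ s) =
      PowerSeries.map (Int.castRingHom ℚ) (q : PowerSeries ℤ) := by
    ext1 m
    have h1 := congrArg (fun r => Polynomial.coeff r m) hq
    simp only [Polynomial.coeff_map] at h1
    rw [PowerSeries.coeff_map, PowerSeries.coeff_map]
    change aug A (PowerSeries.coeff m (s : PowerSeries (MonoidAlgebra ℚ A))) = _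
    rw [Polynomial.coeff_coe, Polynomial.coeff_coe, ← h1]
    change _ = (Polynomial.mapRingHom _ s).coeff m
    rw [Polynomial.coe_mapRingHom, Polynomial.coeff_map]
    rfl
  have c0 : PowerSeries.constantCoeff (q : PowerSeries ℤ) = ((1 : ℤˣ) : ℤ) := by
    have h1 := congrArg PowerSeries.constantCoeff e1
    rw [← PowerSeries.coeff_zero_eq_constantCoeff_apply,
      ← PowerSeries.coeff_zero_eq_constantCoeff_apply, PowerSeries.coeff_map,
      PowerSeries.coeff_map, PowerSeries.coeff_zero_eq_constantCoeff_apply, h0, map_one] at h1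
    rw [← PowerSeries.coeff_zero_eq_constantCoeff_apply]
    have h2 : ((PowerSeries.coeff 0 (q : PowerSeries ℤ) : ℤ) : ℚ) = ((1 : ℤ) : ℚ) := by
      rw [Int.cast_one]; exact h1.symm
    exact_mod_cast h2
  refine ⟨PowerSeries.invOfUnit (q : PowerSeries ℤ) 1, PowerSeries.mul_invOfUnit _ 1 c0, fun m => ?_⟩
  have e2 : PowerSeries.map (aug A) si =
      PowerSeries.map (Int.castRingHom ℚ) (PowerSeries.invOfUnit (q : PowerSeries ℤ) 1) := by
    have h1 : PowerSeries.map (aug A) (ps _ s) * PowerSeries.map (aug A) si = 1 := by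
      rw [← map_mul, hs, map_one]
    have h2 : PowerSeries.map (aug A) (ps _ s) *
        PowerSeries.map (Int.castRingHom ℚ) (PowerSeries.invOfUnit (q : PowerSeries ℤ) 1) = 1 := by
      rw [e1, ← map_mul, PowerSeries.mul_invOfUnit _ 1 c0, map_one]
    have h3 : IsUnit (PowerSeries.map (aug A) (ps _ s)) := IsUnit.of_mul_eq_one _ h1
    exact h3.mul_left_cancel (h1.trans h2.symm)
  rw [← PowerSeries.coeff_map, map_mul, e2, ← th_map, e1, th_map, ← map_mul, PowerSeries.coeff_map]
  rfl

end NSAx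

theorem t_NSA (hNSEP : St_NSEP) (hNSC : St_NSC) (hNAUG : St_NAUG) : St_NSA := by
  intro G ι _ _ _ A _ _ φ k e he d _ hdis si hsi hW
  have H : ∀ i, ∃ (q : Polynomial ℤ) (qi : PowerSeries ℤ), (q : PowerSeries ℤ) * qi = 1 ∧
      ∀ m, NSAx.aug (A i) (PowerSeries.coeff m (si i * th (ps _ (d i).s))) =
        ((PowerSeries.coeff m (qi * th (q : PowerSeries ℤ)) : ℤ) : ℚ) := by
    intro i
    obtain ⟨q, hq⟩ := hNAUG (A i) (k i) (e i) (he i) (d i)
    obtain ⟨qi, h1, h2⟩ := NSAx.data (d i).s (si i) (hsi i) (s_constantCoeff (d i)) q hq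
    exact ⟨q, qi, h1, h2⟩
  choose q qi hq hqm using H
  refine hNSEP G ι (fun i m => T0 ℚ G (PowerSeries.coeff m (eqs (φ i) (si i * th (ps _ (d i).s)))))
    (fun i => NSAx.X (φ i))
    (fun i m => PowerSeries.coeff m (qi i * th (q i : PowerSeries ℤ))) ?_ ?_ ?_ ?_ ?_ ?_ hW
  · intro i m C h
    by_contra hC
    apply h
    change T0 ℚ G (PowerSeries.coeff m (eqs (φ i) _)) C = 0
    rw [PowerSeries.coeff_map]
    exact NSAx.T0_zero_of_notMem (φ i) C hC _
  · intro i g hg
    obtain ⟨x, hxg⟩ := hg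
    have h1 : IsOfFinOrder (φ i x) := (φ i).isOfFinOrder (isOfFinOrder_of_finite x)
    have h2 : IsConj (φ i x) g := ConjClasses.mk_eq_mk_iff_isConj.1 hxg
    obtain ⟨c, hc⟩ := isConj_iff.1 h2
    rw [← hc]
    have h3 := (MulAut.conj c).toMonoidHom.isOfFinOrder h1
    simpa using h3
  · intro i p C _ hC
    obtain ⟨x, hxC⟩ := hC
    exact ⟨x ^ p, by rw [← hxC, cpow_mk, map_pow]⟩
  · intro i j C hij hi hj
    obtain ⟨x, hxC⟩ := hi
    obtain ⟨y, hyC⟩ := hj
    by_cases h1 : x = 1
    · rw [← hxC, h1, map_one]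
    · exact absurd (hdis i j x y h1 (ConjClasses.mk_eq_mk_iff_isConj.1 (hxC.trans hyC.symm))) hij
  · intro i m
    change (T0 ℚ G (PowerSeries.coeff m (eqs (φ i) _))).sum (fun _ c => c) = _
    rw [NSAx.sum_T0, PowerSeries.coeff_map, NSAx.aug_map]
    exact hqm i m
  · intro i p m hp hm
    exact hNSC (q i : PowerSeries ℤ) (qi i) (hq i) p hp m hm

end Pool.Agent.NIL
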