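import Pool.Agent.NIL.St3

/-!
# The Dwork congruences for integral power series

From the congruences for the traces of the logarithmic derivatives of matrices over `ℤ[G][[t]]`, for the
trivial group and `1 × 1` matrices.
-/

set_option autoImplicit false

noncomputable section

namespace Pool.Agent.NIL

namespace NSCx

/-- `ℤ → ℤ[1]`. -/
abbrev ph : ℤ →+* MonoidAlgebra ℤ Unit := MonoidAlgebra.singleOneRingHom

/-- The matrix of size one with the entry `b`. -/
def mt (b : PowerSeries ℤ) : Matrix Unit Unit (PowerSeries (MonoidAlgebra ℤ Unit)) :=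
  fun _ _ => PowerSeries.map ph b

theorem mt_mul (b c : PowerSeries ℤ) : mt b * mt c = mt (b * c) := by
  ext i j : 2
  simp [Matrix.mul_apply, mt]

theorem mt_one : mt 1 = 1 := by
  ext i j : 2
  simp [mt]

theorem th_map (b : PowerSeries ℤ) :
    th (PowerSeries.map ph b) = PowerSeries.map ph (th b) := by
  ext m : 1
  rw [coeff_th, PowerSeries.coeff_map, PowerSeries.coeff_map, coeff_th, map_nsmul]

theorem lam_mt (b bi : PowerSeries ℤ) (m : ℕ) :
    lam (mt b) (mt bi) m =
      Finsupp.single (ConjClasses.mk (1 : Unit)) (PowerSeries.coeff m (bi * th b)) := by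
  have h1 : (mt b).map th = mt (th b) := by
    ext i j : 2
    rw [Matrix.map_apply, mt, mt, th_map]
  rw [lam, h1, mt_mul, trc_apply]
  have h2 : (mt (bi * th b)).trace = PowerSeries.map ph (bi * th b) := by
    simp [Matrix.trace, mt]
  rw [h2, PowerSeries.coeff_map]
  exact T0_single _ _

end NSCx

open NSCx in
/-- The Dwork congruences for integral power series. -/
theorem t_NSC (hNM1 : St_NM1) : St_NSC := by
  intro b bi hb p hp m hm
  have hb' : bi * b = 1 := by rw [mul_comm, hb]
  obtain ⟨D, hD⟩ := hNM1 Unit Unit p hp (mt b) (mt bi) (by rw [mt_mul, hb, mt_one])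
    (by rw [mt_mul, hb', mt_one]) m hm
  refine ⟨D (ConjClasses.mk 1), ?_⟩
  have h := DFunLike.congr_fun hD (ConjClasses.mk (1 : Unit))
  rw [lam_mt, lam_mt] at h
  have h3 : Phi ℤ Unit p (Finsupp.single (ConjClasses.mk (1 : Unit))
      (PowerSeries.coeff m (bi * th b))) =
      Finsupp.single (ConjClasses.mk (1 : Unit)) (PowerSeries.coeff m (bi * th b)) := by
    rw [Phi, Finsupp.mapDomain.addMonoidHom_apply, Finsupp.mapDomain_single, cpow_mk, one_pow]
  rw [h3, Finsupp.sub_apply, Finsupp.single_eq_same, Finsupp.single_eq_same, Finsupp.smul_apply]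
    at h
  rw [h]
  simp

end Pool.Agent.NIL
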