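import Pool.Agent.NIL.St3

/-!
# NSEP: separation of the Dwork congruences of several subgroups
-/

set_option autoImplicit false

noncomputable section

namespace Pool.Agent.NIL

namespace NSEPx

theorem at_one {α : Type} (D : α →₀ ℚ) (C1 : α) (q : ℚ) (a : ℤ)
    (hs : (D.sum fun _ c => c) = q * a) (h : ∀ C, C ≠ C1 → D C ≠ 0 → ∃ c : ℤ, D C = q * c) :
    ∃ c : ℤ, D C1 = q * c := by
  classical
  have h' : ∀ C, C ≠ C1 → ∃ c : ℤ, D C = q * c := fun C hC => by
    by_cases h0 : D C = 0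
    · exact ⟨0, by rw [h0, Int.cast_zero, mul_zero]⟩
    · exact h C hC h0
  have e : (D.sum fun _ c => c) = D C1 + ∑ C ∈ D.support.erase C1, D C := by
    by_cases h1 : C1 ∈ D.support
    · rw [Finsupp.sum, ← Finset.add_sum_erase _ _ h1]
    · rw [Finsupp.sum, Finset.erase_eq_of_notMem h1, Finsupp.notMem_support_iff.1 h1, zero_add]
  obtain ⟨d, hd⟩ : ∃ c : ℤ, ∑ C ∈ D.support.erase C1, D C = q * c := by
    refine Finset.sum_induction (fun C => D C) (fun x => ∃ c : ℤ, x = q * c) ?_ ?_ ?_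
    · rintro x y ⟨c, rfl⟩ ⟨d, rfl⟩
      exact ⟨c + d, by rw [Int.cast_add, mul_add]⟩
    · exact ⟨0, by rw [Int.cast_zero, mul_zero]⟩
    · exact fun C hC => h' C (Finset.ne_of_mem_erase hC)
  refine ⟨a - d, ?_⟩
  rw [hs, hd] at e
  rw [Int.cast_sub, mul_sub, e]
  ring

theorem Phi_ne {G : Type} [Group G] {p : ℕ} {f : ConjClasses G →₀ ℚ} {C : ConjClasses G}
    (h : Phi ℚ G p f C ≠ 0) : ∃ C', f C' ≠ 0 ∧ cpow p C' = C := by
  classical
  have h1 : C ∈ (Finsupp.mapDomain (cpow p) f).support := Finsupp.mem_support_iff.2 h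
  obtain ⟨C', hC', hC⟩ := Finset.mem_image.1 (Finsupp.mapDomain_support h1)
  exact ⟨C', Finsupp.mem_support_iff.1 hC', hC⟩

theorem sum_Phi {G : Type} [Group G] (p : ℕ) (f : ConjClasses G →₀ ℚ) :
    ((Phi ℚ G p f).sum fun _ c => c) = f.sum fun _ c => c := by
  show ((Finsupp.mapDomain (cpow p) f).sum fun _ c => c) = _
  rw [Finsupp.sum_mapDomain_index (fun _ => rfl) fun _ _ _ => rfl]

end NSEPx

open NSEPx in
theorem t_NSEP : St_NSEP := by
  intro G ι _ _ _ l X a h1 h2 h3 h4 h5 h6 h7 i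
  have hsum : ∀ m C, C ≠ ConjClasses.mk 1 → C ∈ X i → (∑ j, l j m) C = l i m C := by
    intro m C hC hX
    rw [Finsupp.finsetSum_apply]
    refine Finset.sum_eq_single i (fun j _ hj => ?_) (fun h => absurd (Finset.mem_univ i) h)
    by_contra h0
    exact hC (h4 j i C hj (h1 j m C h0) hX)
  have hPhi : ∀ (p m : ℕ) C, p.Prime → C ≠ ConjClasses.mk 1 → C ∈ X i →
      Phi ℚ G p (∑ j, l j m) C = Phi ℚ G p (l i m) C := by
    intro p m C hp hC hX
    rw [map_sum, Finsupp.finsetSum_apply]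
    refine Finset.sum_eq_single i (fun j _ hj => ?_) (fun h => absurd (Finset.mem_univ i) h)
    by_contra h0
    obtain ⟨C', hC', rfl⟩ := Phi_ne h0
    exact hC (h4 j i _ hj (h3 j p C' hp (h1 j m C' hC')) hX)
  have hint : ∀ m C, C ≠ ConjClasses.mk 1 → l i m C ≠ 0 → ∃ c : ℤ, l i m C = c := by
    intro m C hC h0
    have hX := h1 i m C h0
    obtain ⟨g, rfl⟩ := ConjClasses.exists_rep C
    obtain ⟨c, hc⟩ := h7.1 m g (h2 i g hX)
    exact ⟨c, by rw [← hsum m _ hC hX]; exact hc⟩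
  have hcon : ∀ (p m : ℕ) C, p.Prime → 1 ≤ m → C ≠ ConjClasses.mk 1 →
      (l i (p * m) - Phi ℚ G p (l i m)) C ≠ 0 →
      ∃ c : ℤ, (l i (p * m) - Phi ℚ G p (l i m)) C = (p : ℚ) ^ (padicValNat p m + 1) * c := by
    intro p m C hp hm hC h0
    have hX : C ∈ X i := by
      by_contra hX
      apply h0
      have e1 : l i (p * m) C = 0 := by
        by_contra h
        exact hX (h1 i _ C h)
      have e2 : Phi ℚ G p (l i m) C = 0 := by
        by_contra h
        obtain ⟨C', hC', hCC⟩ := Phi_ne h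
        exact hX (hCC ▸ h3 i p C' hp (h1 i m C' hC'))
      rw [Finsupp.sub_apply, e1, e2, sub_zero]
    obtain ⟨g, rfl⟩ := ConjClasses.exists_rep C
    obtain ⟨c, hc⟩ := h7.2 p hp m hm g (h2 i g hX)
    refine ⟨c, ?_⟩
    rw [Finsupp.sub_apply, ← hc]
    show _ = (∑ j, l j (p * m)) _ - Phi ℚ G p (∑ j, l j m) _
    rw [hsum _ _ hC hX, hPhi p m _ hp hC hX]
  refine ⟨fun m g hg => ?_, fun p hp m hm g hg => ?_⟩
  · by_cases hC : ConjClasses.mk g = ConjClasses.mk 1
    · rw [hC]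
      obtain ⟨c, hc⟩ := at_one (l i m) (ConjClasses.mk 1) 1 (a i m) (by rw [h5, one_mul])
        (fun C hC h0 => by
          obtain ⟨c, hc⟩ := hint m C hC h0
          exact ⟨c, by rw [hc, one_mul]⟩)
      exact ⟨c, by rw [hc, one_mul]⟩
    · by_cases h0 : l i m (ConjClasses.mk g) = 0
      · exact ⟨0, by rw [h0, Int.cast_zero]⟩
      · exact hint m _ hC h0
  · rw [← Finsupp.sub_apply]
    by_cases hC : ConjClasses.mk g = ConjClasses.mk 1
    · rw [hC]
      obtain ⟨c, hc⟩ := h6 i p m hp hm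
      refine at_one _ (ConjClasses.mk 1) ((p : ℚ) ^ (padicValNat p m + 1)) c ?_
        fun C hC h0 => hcon p m C hp hm hC h0
      rw [Finsupp.sum_sub_index fun _ _ _ => rfl, sum_Phi, h5, h5, ← Int.cast_sub, hc]
      push_cast
      rfl
    · by_cases h0 : (l i (p * m) - Phi ℚ G p (l i m)) (ConjClasses.mk g) = 0
      · exact ⟨0, by rw [h0, Int.cast_zero, mul_zero]⟩
      · exact hcon p m _ hp hm hC h0

end Pool.Agent.NIL
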