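import Pool.Agent.NIL.St

/-!
# Final assembly, part one: Swan modules
-/

set_option autoImplicit false

noncomputable section

namespace Pool.Agent.NIL

theorem sg_eq {G : Type} [Group G] (H : Subgroup G) [Fintype H] :
    sg H = ∑ h : H, MonoidAlgebra.single (h : G) (1 : ℤ) := by
  unfold sg
  rw [finsum_eq_sum_of_fintype]

theorem single_mul_sg {G : Type} [Group G] (H : Subgroup G) [Finite H] (a : H) :
    MonoidAlgebra.single (a : G) (1 : ℤ) * sg H = sg H := by
  have := Fintype.ofFinite H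
  rw [sg_eq, Finset.mul_sum]
  simp only [MonoidAlgebra.single_mul_single, mul_one]
  exact Function.Bijective.sum_comp (Group.mulLeft_bijective a)
    (fun h : H => MonoidAlgebra.single (h : G) (1 : ℤ))

theorem sg_mul_sg {G : Type} [Group G] (H : Subgroup G) [Finite H] :
    sg H * sg H = Nat.card H • sg H := by
  have := Fintype.ofFinite H
  conv_lhs => rw [show sg H * sg H = (∑ h : H, MonoidAlgebra.single (h : G) (1 : ℤ)) * sg H by
    rw [← sg_eq]]
  rw [Finset.sum_mul, Finset.sum_congr rfl fun a _ => single_mul_sg H a, Finset.sum_const,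
    Finset.card_univ, Nat.card_eq_fintype_card]

theorem eps_mul_eps {G : Type} [Group G] (H : Subgroup G) [Finite H] :
    eps H * eps H = eps H := by
  have h0 : (Nat.card H : ℚ) ≠ 0 := by
    exact_mod_cast Nat.card_pos.ne'
  unfold eps
  rw [smul_mul_assoc, mul_smul_comm, ← map_mul, sg_mul_sg, map_nsmul, smul_smul,
    ← Nat.cast_smul_eq_nsmul ℚ, smul_smul]
  congr 1
  field_simp

theorem cq_comm {G : Type} [Group G] (b : PowerSeries ℤ) (x : PowerSeries (MonoidAlgebra ℚ G)) :
    cq G b * x = x * cq G b := by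
  ext1 m
  rw [PowerSeries.coeff_mul, PowerSeries.coeff_mul, ← Finset.Nat.sum_antidiagonal_swap]
  refine Finset.sum_congr rfl fun y _ => ?_
  simp only [PowerSeries.coeff_map, Prod.fst_swap, Prod.snd_swap]
  exact (Int.cast_commute _ _).eq

theorem th_C {R : Type} [Ring R] (c : R) : th (PowerSeries.C c) = 0 := by
  ext1 m
  rw [coeff_th, PowerSeries.coeff_C]
  split_ifs with h
  · simp [h]
  · simp

theorem th_one {R : Type} [Ring R] : th (1 : PowerSeries R) = 0 := by
  have := th_C (1 : R)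
  rwa [map_one] at this

theorem th_cq {G : Type} [Group G] (b : PowerSeries ℤ) : th (cq G b) = cq G (th b) := by
  ext1 m
  rw [coeff_th, PowerSeries.coeff_map, PowerSeries.coeff_map, coeff_th, map_nsmul]

theorem C_eps_idem {G : Type} [Group G] (H : Subgroup G) [Finite H] :
    (PowerSeries.C (eps H) : PowerSeries (MonoidAlgebra ℚ G)) * (1 - PowerSeries.C (eps H)) = 0 := by
  rw [mul_sub, mul_one, ← map_mul, eps_mul_eps, sub_self]

theorem C_eps_idem' {G : Type} [Group G] (H : Subgroup G) [Finite H] :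
    (1 - PowerSeries.C (eps H) : PowerSeries (MonoidAlgebra ℚ G)) * (1 - PowerSeries.C (eps H)) =
      1 - PowerSeries.C (eps H) := by
  rw [sub_mul, one_mul, C_eps_idem, sub_zero]

theorem kap_mul {G : Type} [Group G] (H : Subgroup G) [Finite H] (b c : PowerSeries ℤ) :
    kap H b * kap H c = kap H (b * c) := by
  unfold kap
  have h1 := C_eps_idem H
  have h2 := C_eps_idem' H
  have h3 : (1 - PowerSeries.C (eps H) : PowerSeries (MonoidAlgebra ℚ G)) * PowerSeries.C (eps H) = 0 := by
    rw [sub_mul, one_mul, ← map_mul, eps_mul_eps, sub_self]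
  rw [add_mul, mul_add, mul_add, ← map_mul PowerSeries.C, eps_mul_eps]
  rw [show PowerSeries.C (eps H) * (cq G c * (1 - PowerSeries.C (eps H))) = 0 by
      rw [← mul_assoc, ← cq_comm, mul_assoc, h1, mul_zero],
    show cq G b * (1 - PowerSeries.C (eps H)) * PowerSeries.C (eps H) = 0 by
      rw [mul_assoc, h3, mul_zero],
    show cq G b * (1 - PowerSeries.C (eps H)) * (cq G c * (1 - PowerSeries.C (eps H))) =
        cq G (b * c) * (1 - PowerSeries.C (eps H)) by
      rw [map_mul, mul_assoc, ← mul_assoc _ (cq G c), ← cq_comm c, mul_assoc (cq G c), h2,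
        ← mul_assoc]]
  rw [add_zero, zero_add]

theorem kap_one {G : Type} [Group G] (H : Subgroup G) : kap H 1 = 1 := by
  unfold kap
  rw [map_one, one_mul]
  abel

theorem kap_th {G : Type} [Group G] (H : Subgroup G) [Finite H] (b c : PowerSeries ℤ) :
    kap H c * th (kap H b) = cq G (c * th b) * (1 - PowerSeries.C (eps H)) := by
  have h1 := C_eps_idem H
  have h2 := C_eps_idem' H
  have e : th (kap H b) = cq G (th b) * (1 - PowerSeries.C (eps H)) := by
    unfold kap
    rw [map_add, th_C, zero_add, th_mul, th_cq, map_sub, th_C, th_one, sub_zero, mul_zero, add_zero]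
  rw [e]
  unfold kap
  rw [add_mul,
    show PowerSeries.C (eps H) * (cq G (th b) * (1 - PowerSeries.C (eps H))) = 0 by
      rw [← mul_assoc, ← cq_comm, mul_assoc, h1, mul_zero],
    show cq G c * (1 - PowerSeries.C (eps H)) * (cq G (th b) * (1 - PowerSeries.C (eps H))) =
        cq G (c * th b) * (1 - PowerSeries.C (eps H)) by
      rw [map_mul, mul_assoc, ← mul_assoc _ (cq G (th b)), ← cq_comm (th b), mul_assoc (cq G (th b)),
        h2, ← mul_assoc]]
  rw [zero_add]

theorem T0_coeff_cq {G : Type} [Group G] (H : Subgroup G) (c : PowerSeries ℤ) (m : ℕ) :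
    T0 ℚ G (PowerSeries.coeff m (cq G c * (1 - PowerSeries.C (eps H)))) =
      PowerSeries.coeff m c • T0 ℚ G (1 - eps H) := by
  have : PowerSeries.coeff m (cq G c * (1 - PowerSeries.C (eps H))) =
      PowerSeries.coeff m c • (1 - eps H) := by
    rw [show (1 - PowerSeries.C (eps H) : PowerSeries (MonoidAlgebra ℚ G)) =
      PowerSeries.C (1 - eps H) by rw [map_sub, map_one], PowerSeries.coeff_mul_C,
      PowerSeries.coeff_map, zsmul_eq_mul]
    rfl
  rw [this, map_zsmul]

theorem lam_dg {k G : Type} [CommRing k] [Group G] {κ : Type} [Fintype κ] [DecidableEq κ]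
    (c ci : PowerSeries (MonoidAlgebra k G)) (m : ℕ) :
    lam (dg c : Matrix (Unit ⊕ κ) (Unit ⊕ κ) _) (dg ci) m = T0 k G (PowerSeries.coeff m (ci * th c)) := by
  have e : (dg c : Matrix (Unit ⊕ κ) (Unit ⊕ κ) (PowerSeries (MonoidAlgebra k G))).map th =
      Matrix.fromBlocks (Matrix.of fun _ _ => th c) 0 0 0 := by
    refine Matrix.ext fun i j => ?_
    rcases i with i | i <;> rcases j with j | j
    · rfl
    · simp [dg]
    · simp [dg]
    · simp only [dg, Matrix.map_apply, Matrix.fromBlocks_apply₂₂, Matrix.zero_apply,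
        Matrix.one_apply]
      split_ifs
      · exact th_one (R := MonoidAlgebra k G)
      · exact map_zero (th (R := MonoidAlgebra k G))
  unfold lam
  rw [e, dg, Matrix.fromBlocks_multiply, trc_apply]
  simp [Matrix.trace, Matrix.mul_apply, Fintype.sum_sum_type]

theorem dg_mul {R : Type} [Ring R] {κ : Type} [Fintype κ] [DecidableEq κ] (c d : R) :
    (dg c : Matrix (Unit ⊕ κ) (Unit ⊕ κ) R) * dg d = dg (c * d) := by
  unfold dg
  rw [Matrix.fromBlocks_multiply]
  simp only [Matrix.mul_zero, Matrix.zero_mul, add_zero, zero_add, Matrix.mul_one]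
  congr 1
  ext i j
  simp [Matrix.mul_apply]

theorem dg_one {R : Type} [Ring R] {κ : Type} [DecidableEq κ] :
    (dg (1 : R) : Matrix (Unit ⊕ κ) (Unit ⊕ κ) R) = 1 := by
  unfold dg
  rw [← Matrix.fromBlocks_one]
  congr 1

/-- Part one: the Swan map is injective. -/
theorem final1 (hNE1 : St_NE1) (hND : St_ND) (hNE2 : St_NE2) (G : Type) [Group G] (H : Subgroup G)
    [Finite H] (f g : Polynomial ℤ) (k : ℕ) (hf : f.coeff 0 = 1) (hg : g.coeff 0 = 1)
    (h : Nonempty ((Swan H f × (Fin k → RT G)) ≃ₗ[RT G] (Swan H g × (Fin k → RT G)))) (i : ℕ) :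
    (Nat.card H : ℤ) ∣ (f - g).coeff i := by
  obtain ⟨v, vi, u, ui, h1, h2, h3, h4, h5⟩ := hNE1 G H f g k hf hg h
  have cf : PowerSeries.constantCoeff (f : PowerSeries ℤ) = ((1 : ℤˣ) : ℤ) := by
    rw [← PowerSeries.coeff_zero_eq_constantCoeff_apply, Polynomial.coeff_coe, hf]; rfl
  have cg : PowerSeries.constantCoeff (g : PowerSeries ℤ) = ((1 : ℤˣ) : ℤ) := by
    rw [← PowerSeries.coeff_zero_eq_constantCoeff_apply, Polynomial.coeff_coe, hg]; rfl
  obtain ⟨fi, hfi⟩ : ∃ fi : PowerSeries ℤ, (f : PowerSeries ℤ) * fi = 1 :=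
    ⟨_, PowerSeries.mul_invOfUnit _ 1 cf⟩
  obtain ⟨gi, hgi⟩ : ∃ gi : PowerSeries ℤ, (g : PowerSeries ℤ) * gi = 1 :=
    ⟨_, PowerSeries.mul_invOfUnit _ 1 cg⟩
  have hfi' : fi * (f : PowerSeries ℤ) = 1 := by rw [mul_comm]; exact hfi
  have hgi' : gi * (g : PowerSeries ℤ) = 1 := by rw [mul_comm]; exact hgi
  have key := hND G (Unit ⊕ Fin k) v vi u ui (dg (kap H (f : PowerSeries ℤ))) (dg (kap H fi))
    (dg (kap H (g : PowerSeries ℤ))) (dg (kap H gi)) h1 h2 h3 h4
    (by rw [dg_mul, kap_mul, hfi, kap_one, dg_one]) (by rw [dg_mul, kap_mul, hfi', kap_one, dg_one])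
    (by rw [dg_mul, kap_mul, hgi, kap_one, dg_one]) (by rw [dg_mul, kap_mul, hgi', kap_one, dg_one]) h5
  have hb : ((g : PowerSeries ℤ) * fi) * ((f : PowerSeries ℤ) * gi) = 1 := by
    calc ((g : PowerSeries ℤ) * fi) * ((f : PowerSeries ℤ) * gi) =
          ((g : PowerSeries ℤ) * gi) * ((f : PowerSeries ℤ) * fi) := by ring
      _ = 1 := by rw [hgi, hfi, one_mul]
  have hc : PowerSeries.constantCoeff ((g : PowerSeries ℤ) * fi) = 1 := by
    have e1 : PowerSeries.constantCoeff fi = 1 := by
      have := congrArg PowerSeries.constantCoeff hfi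
      rw [map_mul, cf, map_one] at this
      simpa using this
    rw [map_mul, cg, e1]; rfl
  have hw : WF (fun m => T0 ℚ G (PowerSeries.coeff m (kap H ((f : PowerSeries ℤ) * gi) *
      th (kap H ((g : PowerSeries ℤ) * fi))))) := by
    have e : (fun m => T0 ℚ G (PowerSeries.coeff m (kap H ((f : PowerSeries ℤ) * gi) *
        th (kap H ((g : PowerSeries ℤ) * fi))))) =
        (fun m => lam (dg (kap H (g : PowerSeries ℤ)) : Matrix (Unit ⊕ Fin k) (Unit ⊕ Fin k) _)
          (dg (kap H gi)) m -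
          lam (dg (kap H (f : PowerSeries ℤ)) : Matrix (Unit ⊕ Fin k) (Unit ⊕ Fin k) _)
            (dg (kap H fi)) m) := by
      funext m
      rw [lam_dg, lam_dg, kap_th, kap_th, kap_th, T0_coeff_cq, T0_coeff_cq, T0_coeff_cq, ← sub_smul,
        ← map_sub]
      congr 2
      have h0 : th ((f : PowerSeries ℤ) * fi) = 0 := by rw [hfi]; exact th_one
      rw [th_mul] at h0
      have h0' : (f : PowerSeries ℤ) * th fi = - (th (f : PowerSeries ℤ) * fi) :=
        eq_neg_of_add_eq_zero_right h0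
      rw [th_mul]
      calc (f : PowerSeries ℤ) * gi * (th (g : PowerSeries ℤ) * fi + (g : PowerSeries ℤ) * th fi)
          = ((f : PowerSeries ℤ) * fi) * (gi * th (g : PowerSeries ℤ)) +
            ((g : PowerSeries ℤ) * gi) * ((f : PowerSeries ℤ) * th fi) := by ring
        _ = gi * th (g : PowerSeries ℤ) - fi * th (f : PowerSeries ℤ) := by
            rw [hfi, hgi, h0']; ring
    rw [e]
    exact key
  have hdiv := hNE2 G H ((g : PowerSeries ℤ) * fi) ((f : PowerSeries ℤ) * gi) hb hc hw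
  -- `b = 1` modulo `h`
  have hb1 : ∀ j, (Nat.card H : ℤ) ∣ PowerSeries.coeff j ((g : PowerSeries ℤ) * fi - 1) := by
    intro j
    rcases Nat.eq_zero_or_pos j with rfl | hj
    · rw [map_sub, PowerSeries.coeff_zero_eq_constantCoeff_apply,
        PowerSeries.coeff_zero_eq_constantCoeff_apply, hc, map_one, sub_self]
      exact dvd_zero _
    · rw [map_sub, PowerSeries.coeff_one, if_neg hj.ne', sub_zero]
      exact hdiv j hj
  have hfg : ((f - g : Polynomial ℤ) : PowerSeries ℤ) =
      - ((f : PowerSeries ℤ) * ((g : PowerSeries ℤ) * fi - 1)) := by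
    rw [Polynomial.coe_sub]
    have : (f : PowerSeries ℤ) * ((g : PowerSeries ℤ) * fi - 1) =
      ((f : PowerSeries ℤ) * fi) * (g : PowerSeries ℤ) - (f : PowerSeries ℤ) := by ring
    rw [this, hfi]
    ring
  rw [← Polynomial.coeff_coe, hfg, map_neg, dvd_neg, PowerSeries.coeff_mul]
  exact Finset.dvd_sum fun x _ => Dvd.dvd.mul_left (hb1 _) _

end Pool.Agent.NIL
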