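import Pool.Agent.NIL.St3
import Pool.Agent.NIL.Fin1

/-!
# Module NSW: the Swan terms separate
-/

set_option autoImplicit false

noncomputable section

namespace Pool.Agent.NIL

namespace NSWx

/-- The classes which meet `H`. -/
def X {G : Type} [Group G] (H : Subgroup G) : Set (ConjClasses G) :=
  {C | ∃ x ∈ H, ConjClasses.mk x = C}

/-- The sum of the values of `T0 a` is the augmentation of `a`. -/
theorem sum_T0 {G : Type} [Group G] (a : MonoidAlgebra ℚ G) :
    (T0 ℚ G a).sum (fun _ c => c) = MonoidAlgebra.lift ℚ ℚ G 1 a := by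
  induction a using MonoidAlgebra.induction_linear with
  | zero => simp
  | add x y hx hy =>
    rw [map_add, map_add, Finsupp.sum_add_index' (fun _ => rfl) (fun _ _ _ => rfl), hx, hy]
  | single g r => rw [T0_single, Finsupp.sum_single_index rfl]; simp

theorem T0_eps {G : Type} [Group G] (H : Subgroup G) [Finite H] (C : ConjClasses G)
    (h : T0 ℚ G (1 - eps H) C ≠ 0) : C ∈ X H := by
  classical
  have := Fintype.ofFinite H
  by_contra hC
  apply h
  rw [map_sub, Finsupp.sub_apply]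
  have e1 : T0 ℚ G (1 : MonoidAlgebra ℚ G) C = 0 := by
    rw [MonoidAlgebra.one_def, T0_single, Finsupp.single_apply, if_neg]
    intro h1
    exact hC ⟨1, H.one_mem, h1⟩
  have e2 : T0 ℚ G (eps H) C = 0 := by
    unfold eps
    rw [sg_eq, map_sum, Finset.smul_sum, map_sum, Finsupp.finsetSum_apply]
    refine Finset.sum_eq_zero fun x _ => ?_
    rw [MonoidAlgebra.mapRingHom_single, MonoidAlgebra.smul_single, T0_single, Finsupp.single_apply,
      if_neg]
    intro h1
    exact hC ⟨x, x.2, h1⟩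
  rw [e1, e2, sub_zero]

theorem aug_eps {G : Type} [Group G] (H : Subgroup G) [Finite H] :
    MonoidAlgebra.lift ℚ ℚ G 1 (1 - eps H) = 0 := by
  have := Fintype.ofFinite H
  have h0 : (Nat.card H : ℚ) ≠ 0 := by
    exact_mod_cast Nat.card_pos.ne'
  rw [map_sub, map_one]
  have e2 : MonoidAlgebra.lift ℚ ℚ G 1 (eps H) = 1 := by
    unfold eps
    rw [sg_eq, map_sum, map_smul, map_sum]
    simp only [MonoidAlgebra.mapRingHom_single, MonoidAlgebra.lift_single]
    simp [← Nat.card_eq_fintype_card]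
  rw [e2, sub_self]

end NSWx

theorem t_NSW (hNSEP : St_NSEP) (hNSC : St_NSC) : St_NSW := by
  have _ := hNSC
  intro G ι _ _ _ H _ b bi hb hdis hW
  have hl : ∀ (i : ι) (m : ℕ),
      T0 ℚ G (PowerSeries.coeff m (kap (H i) (bi i) * th (kap (H i) (b i)))) =
        PowerSeries.coeff m (bi i * th (b i)) • T0 ℚ G (1 - eps (H i)) := by
    intro i m
    rw [kap_th, T0_coeff_cq]
  refine hNSEP G ι (fun i m => T0 ℚ G (PowerSeries.coeff m (kap (H i) (bi i) * th (kap (H i) (b i)))))
    (fun i => NSWx.X (H i)) (fun _ _ => 0) ?_ ?_ ?_ ?_ ?_ ?_ hW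
  · intro i m C h
    apply NSWx.T0_eps
    intro h0
    apply h
    simp only [hl, Finsupp.smul_apply, h0, smul_zero]
  · intro i g hg
    obtain ⟨x, hx, hxg⟩ := hg
    have h1 : IsOfFinOrder x :=
      (H i).subtype.isOfFinOrder (isOfFinOrder_of_finite (⟨x, hx⟩ : H i))
    have h2 : IsConj x g := ConjClasses.mk_eq_mk_iff_isConj.1 hxg
    obtain ⟨c, hc⟩ := isConj_iff.1 h2
    rw [← hc]
    have h3 := (MulAut.conj c).toMonoidHom.isOfFinOrder h1
    simpa using h3
  · intro i p C _ hC
    obtain ⟨x, hx, hxC⟩ := hC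
    exact ⟨x ^ p, (H i).pow_mem hx p, by rw [← hxC, cpow_mk]⟩
  · intro i j C hij hi hj
    obtain ⟨x, hx, hxC⟩ := hi
    obtain ⟨y, hy, hyC⟩ := hj
    by_cases h1 : x = 1
    · rw [← hxC, h1]
    · exact absurd (hdis i j x y hx hy h1 (ConjClasses.mk_eq_mk_iff_isConj.1 (hxC.trans hyC.symm))) hij
  · intro i m
    simp only [hl]
    rw [Finsupp.sum_smul_index' (fun _ => rfl)]
    rw [Finsupp.sum, ← Finset.smul_sum]
    change _ • (T0 ℚ G (1 - eps (H i))).sum (fun _ c => c) = _
    rw [NSWx.sum_T0, NSWx.aug_eps, smul_zero, Int.cast_zero]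
  · intro i p m _ _
    simp

end Pool.Agent.NIL
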