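import Pool.Agent.NIL.St

/-!
# Module NW: the words lemma
-/

set_option autoImplicit false

noncomputable section

namespace Pool.Agent.NIL

namespace NWx

open Function

/-- sums over sets of points of exact period `N` are divisible by `N` -/
theorem orbits {X V : Type} [DecidableEq X] [AddCommGroup V] (σ : X → X) {N : ℕ} (hN : 0 < N)
    (hid : ∀ x, σ^[N] x = x) (f : X → V) (hf : ∀ x, f (σ x) = f x) :
    ∀ (n : ℕ) (S : Finset X), S.card = n → (∀ x ∈ S, σ x ∈ S) →
      (∀ x ∈ S, minimalPeriod σ x = N) → ∃ D : V, ∑ x ∈ S, f x = N • D := by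
  have hfi : ∀ (i : ℕ) (x : X), f (σ^[i] x) = f x := by
    intro i
    induction i with
    | zero => intro x; rfl
    | succ i ih => intro x; rw [iterate_succ_apply, ih, hf]
  intro n
  induction n using Nat.strong_induction_on with
  | _ n ih =>
    intro S hSn hS hper
    rcases S.eq_empty_or_nonempty with h0 | ⟨x, hx⟩
    · exact ⟨0, by rw [h0]; simp⟩
    have hSi : ∀ (i : ℕ) (y : X), y ∈ S → σ^[i] y ∈ S := by
      intro i
      induction i with
      | zero => intro y hy; exact hy
      | succ i ih2 => intro y hy; rw [iterate_succ_apply]; exact ih2 _ (hS y hy)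
    set O : Finset X := (Finset.range N).image (fun i => σ^[i] x) with hO
    have hinj : Set.InjOn (fun i => σ^[i] x) (Finset.range N : Set ℕ) := by
      intro a ha b hb hab
      rw [Finset.coe_range, Set.mem_Iio] at ha hb
      have h1 := iterate_injOn_Iio_minimalPeriod (f := σ) (x := x)
      exact h1 (by rw [hper x hx]; exact ha) (by rw [hper x hx]; exact hb) hab
    have hOS : O ⊆ S := by
      intro y hy
      rw [hO, Finset.mem_image] at hy
      obtain ⟨i, -, rfl⟩ := hy
      exact hSi i x hx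
    have hOsum : ∑ y ∈ O, f y = N • f x := by
      rw [hO, Finset.sum_image (fun a ha b hb h => hinj ha hb h)]
      rw [Finset.sum_congr rfl fun i _ => hfi i x, Finset.sum_const, Finset.card_range]
    have hxO : x ∈ O := by
      rw [hO, Finset.mem_image]
      exact ⟨0, Finset.mem_range.2 hN, rfl⟩
    have hcl : ∀ y, σ y ∈ O → y ∈ O := by
      intro y hy
      rw [hO, Finset.mem_image] at hy ⊢
      obtain ⟨i, -, hi⟩ := hy
      have h1 : σ^[N - 1] (σ y) = y := by
        rw [← iterate_succ_apply, Nat.succ_eq_add_one, Nat.sub_add_cancel hN, hid]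
      have hxN : IsPeriodicPt σ N x := hid x
      refine ⟨(N - 1 + i) % N, Finset.mem_range.2 (Nat.mod_lt _ hN), ?_⟩
      show σ^[(N - 1 + i) % N] x = y
      rw [IsPeriodicPt.iterate_mod_apply hxN, iterate_add_apply]
      have h2 : σ^[i] x = σ y := hi
      rw [h2, h1]
    have hlt : (S \ O).card < n := by
      rw [← hSn]
      exact Finset.card_lt_card (Finset.sdiff_ssubset hOS ⟨x, hxO⟩)
    obtain ⟨D, hD⟩ := ih _ hlt (S \ O) rfl (by
      intro y hy
      rw [Finset.mem_sdiff] at hy ⊢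
      exact ⟨hS y hy.1, fun h => hy.2 (hcl y h)⟩) (by
      intro y hy
      exact hper y (Finset.mem_sdiff.1 hy).1)
    refine ⟨D + f x, ?_⟩
    rw [← Finset.sum_sdiff hOS, hD, hOsum, smul_add]

/-- the power of a sum -/
theorem sum_pow {M Ω : Type} [Ring M] [Fintype Ω] (y : Ω → M) (n : ℕ) :
    (∑ ω, y ω) ^ n = ∑ w : Fin n → Ω, (List.ofFn fun i => y (w i)).prod := by
  induction n with
  | zero => simp
  | succ n ih =>
    rw [pow_succ', ih, Finset.sum_mul_sum]
    rw [← Fintype.sum_equiv (Fin.consEquiv (fun _ : Fin (n + 1) => Ω))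
      (fun z => y z.1 * (List.ofFn fun i => y (z.2 i)).prod)
      (fun w => (List.ofFn fun i => y (w i)).prod)]
    · rw [Fintype.sum_prod_type]
    · intro z
      rw [List.ofFn_succ, List.prod_cons]
      rfl

/-- rotation of words -/
def rot {Ω : Type} {N : ℕ} (w : Fin N → Ω) : Fin N → Ω :=
  fun i => w ⟨(i.1 + 1) % N, Nat.mod_lt _ (lt_of_le_of_lt (Nat.zero_le _) i.2)⟩

theorem rot_iter {Ω : Type} {N : ℕ} (w : Fin N → Ω) (j : ℕ) (i : Fin N) :
    rot^[j] w i = w ⟨(i.1 + j) % N, Nat.mod_lt _ (lt_of_le_of_lt (Nat.zero_le _) i.2)⟩ := by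
  induction j generalizing w with
  | zero =>
    rw [iterate_zero, id]
    congr 1
    apply Fin.ext
    simp [Nat.mod_eq_of_lt i.2]
  | succ j ih =>
    rw [iterate_succ_apply, ih]
    unfold rot
    congr 1
    apply Fin.ext
    show ((i.1 + j) % N + 1) % N = (i.1 + (j + 1)) % N
    rw [Nat.mod_add_mod, add_assoc]

theorem rot_period {Ω : Type} {N : ℕ} (w : Fin N → Ω) : rot^[N] w = w := by
  funext i
  rw [rot_iter]
  congr 1
  apply Fin.ext
  show (i.1 + N) % N = i.1
  rw [Nat.add_mod_right, Nat.mod_eq_of_lt i.2]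

theorem rot_T {M V Ω : Type} [Ring M] [AddCommGroup V] (T : M →+ V) (y : Ω → M)
    (hT : ∀ a b, T (a * b) = T (b * a)) {N : ℕ} (hN : 0 < N) (w : Fin N → Ω) :
    T (List.ofFn fun i => y (rot w i)).prod = T (List.ofFn fun i => y (w i)).prod := by
  obtain ⟨n, rfl⟩ := Nat.exists_eq_succ_of_ne_zero hN.ne'
  rw [List.ofFn_succ', List.ofFn_succ (f := fun i => y (w i)), List.prod_cons, List.concat_eq_append,
    List.prod_append, List.prod_singleton, hT]
  have h1 : rot w (Fin.last n) = w 0 := by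
    unfold rot
    congr 1
    apply Fin.ext
    simp
  have h2 : ∀ i : Fin n, rot w i.castSucc = w i.succ := by
    intro i
    unfold rot
    congr 1
    apply Fin.ext
    show (i.1 + 1) % (n + 1) = i.1 + 1
    exact Nat.mod_eq_of_lt (by omega)
  rw [h1]
  simp only [h2]

/-- the word `v` repeated `p` times -/
def rep {Ω : Type} {p M : ℕ} (hM : 0 < M) (v : Fin M → Ω) : Fin (p * M) → Ω :=
  fun i => v ⟨i.1 % M, Nat.mod_lt _ hM⟩

theorem rep_prod {R Ω : Type} [Ring R] (y : Ω → R) {p M : ℕ} (hM : 0 < M) (v : Fin M → Ω) :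
    (List.ofFn fun i => y (rep (p := p) hM v i)).prod = (List.ofFn fun i => y (v i)).prod ^ p := by
  have hlt : ∀ (i : Fin p) (j : Fin M), i.1 * M + j.1 < p * M := by
    intro i j
    calc i.1 * M + j.1 < i.1 * M + M := by have := j.2; omega
      _ = (i.1 + 1) * M := by ring
      _ ≤ p * M := Nat.mul_le_mul_right M i.2
  rw [List.ofFn_mul, List.prod_flatten, List.map_ofFn]
  have h1 : (List.prod ∘ fun i : Fin p => List.ofFn fun j : Fin M =>
      y (rep (p := p) hM v ⟨i.1 * M + j.1, hlt i j⟩)) =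
      fun _ : Fin p => (List.ofFn fun i => y (v i)).prod := by
    funext i
    show (List.ofFn fun j : Fin M => y (rep (p := p) hM v ⟨i.1 * M + j.1, hlt i j⟩)).prod = _
    congr 2
    funext j
    unfold rep
    congr 2
    apply Fin.ext
    show (i.1 * M + j.1) % M = j.1
    rw [Nat.mul_add_mod_self_right, Nat.mod_eq_of_lt j.2]
  rw [h1, List.ofFn_const, List.prod_replicate]

theorem rep_fixed {Ω : Type} {p M : ℕ} (hM : 0 < M) (v : Fin M → Ω) :
    rot^[M] (rep (p := p) hM v) = rep (p := p) hM v := by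
  funext i
  rw [rot_iter]
  unfold rep
  congr 1
  apply Fin.ext
  show ((i.1 + M) % (p * M)) % M = i.1 % M
  rw [Nat.mod_mod_of_dvd _ (Dvd.intro_left p rfl), Nat.add_mod_right]

theorem fixed_rep {Ω : Type} {p M : ℕ} (hM : 0 < M) (hp : 0 < p) (w : Fin (p * M) → Ω)
    (hw : rot^[M] w = w) (i : Fin (p * M)) :
    w ⟨i.1 % M, lt_of_lt_of_le (Nat.mod_lt _ hM) (Nat.le_mul_of_pos_left M hp)⟩ = w i := by
  have hN : 0 < p * M := Nat.mul_pos hp hM
  have key : ∀ (q a : ℕ), w ⟨(a + q * M) % (p * M), Nat.mod_lt _ hN⟩ =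
      w ⟨a % (p * M), Nat.mod_lt _ hN⟩ := by
    intro q a
    induction q with
    | zero => simp
    | succ q ih =>
      rw [← ih]
      have h1 := congrFun hw ⟨(a + q * M) % (p * M), Nat.mod_lt _ hN⟩
      rw [rot_iter] at h1
      rw [← h1]
      congr 1
      apply Fin.ext
      show (a + (q + 1) * M) % (p * M) = ((a + q * M) % (p * M) + M) % (p * M)
      rw [Nat.mod_add_mod]
      congr 1
      ring
  have h2 := key (i.1 / M) (i.1 % M)
  have e1 : i.1 % M + i.1 / M * M = i.1 := Nat.mod_add_div' _ _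
  have e2 : (⟨(i.1 % M + i.1 / M * M) % (p * M), Nat.mod_lt _ hN⟩ : Fin (p * M)) = i := by
    apply Fin.ext
    show (i.1 % M + i.1 / M * M) % (p * M) = i.1
    rw [e1, Nat.mod_eq_of_lt i.2]
  rw [e2] at h2
  rw [h2]
  congr 1
  apply Fin.ext
  show i.1 % M = i.1 % M % (p * M)
  rw [Nat.mod_eq_of_lt (lt_of_lt_of_le (Nat.mod_lt _ hM) (Nat.le_mul_of_pos_left M hp))]

end NWx

open NWx Function in
/-- MODULE NW -/
theorem t_NW : St_NW := by
  classical
  intro M V Ω _ _ _ T Φ y p hp hT hΦ k hk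
  obtain ⟨k, rfl⟩ : ∃ k', k = k' + 1 := ⟨k - 1, by omega⟩
  have hp0 : 0 < p := hp.pos
  have hM : 0 < p ^ k := pow_pos hp0 k
  have hN : 0 < p * p ^ k := Nat.mul_pos hp0 hM
  have hpk : p ^ (k + 1) = p * p ^ k := pow_succ' p k
  rw [Nat.add_sub_cancel, hpk]
  set f : (Fin (p * p ^ k) → Ω) → V := fun w => T (List.ofFn fun i => y (w i)).prod with hf
  have hfrot : ∀ w, f (rot w) = f w := fun w => rot_T T y hT hN w
  have h1 : T ((∑ ω, y ω) ^ (p * p ^ k)) = ∑ w, f w := by
    rw [sum_pow, map_sum]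
  have h2 : Φ (T ((∑ ω, y ω) ^ p ^ k)) =
      ∑ v : Fin (p ^ k) → Ω, f (rep hM v) := by
    rw [sum_pow, map_sum, map_sum]
    refine Finset.sum_congr rfl fun v _ => ?_
    rw [hf]
    simp only [rep_prod]
    have h3 := hΦ (List.ofFn v) (by
      intro h
      have h4 := congrArg List.length h
      rw [List.length_ofFn, List.length_nil] at h4
      omega)
    rw [List.map_ofFn] at h3
    exact h3.symm
  have h3 : ∑ w ∈ Finset.univ.filter (fun w : Fin (p * p ^ k) → Ω => rot^[p ^ k] w = w), f w =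
      ∑ v : Fin (p ^ k) → Ω, f (rep hM v) := by
    refine Finset.sum_bij'
      (fun w _ => fun j : Fin (p ^ k) => w ⟨j.1, lt_of_lt_of_le j.2
        (Nat.le_mul_of_pos_left _ hp0)⟩) (fun v _ => rep hM v) ?_ ?_ ?_ ?_ ?_
    · intro w _; exact Finset.mem_univ _
    · intro v _
      rw [Finset.mem_filter]
      exact ⟨Finset.mem_univ _, rep_fixed hM v⟩
    · intro w hw
      rw [Finset.mem_filter] at hw
      funext i
      exact fixed_rep hM hp0 w hw.2 i
    · intro v _
      funext j
      show v ⟨j.1 % p ^ k, _⟩ = v j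
      congr 1
      apply Fin.ext
      exact Nat.mod_eq_of_lt j.2
    · intro w hw
      rw [Finset.mem_filter] at hw
      congr 1
      funext i
      exact (fixed_rep hM hp0 w hw.2 i).symm
  obtain ⟨D, hD⟩ := orbits (rot (Ω := Ω) (N := p * p ^ k)) hN rot_period f hfrot _
    (Finset.univ.filter (fun w : Fin (p * p ^ k) → Ω => ¬ rot^[p ^ k] w = w)) rfl (by
      intro w hw
      rw [Finset.mem_filter] at hw ⊢
      refine ⟨Finset.mem_univ _, fun h => hw.2 ?_⟩
      have h4 : rot^[p * p ^ k - 1] (rot w) = w := by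
        rw [← iterate_succ_apply, Nat.succ_eq_add_one, Nat.sub_add_cancel hN, rot_period]
      calc rot^[p ^ k] w = rot^[p ^ k] (rot^[p * p ^ k - 1] (rot w)) := by rw [h4]
        _ = rot^[p * p ^ k - 1] (rot^[p ^ k] (rot w)) := by
            rw [← iterate_add_apply, add_comm, iterate_add_apply]
        _ = w := by rw [h, h4]) (by
      intro w hw
      rw [Finset.mem_filter] at hw
      have h5 : IsPeriodicPt (rot (Ω := Ω) (N := p * p ^ k)) (p ^ (k + 1)) w := by
        rw [hpk]; exact rot_period w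
      obtain ⟨j, hj, hj2⟩ := (Nat.dvd_prime_pow hp).1 h5.minimalPeriod_dvd
      rcases Nat.lt_or_ge j (k + 1) with h6 | h6
      · exfalso
        apply hw.2
        have h7 : minimalPeriod (rot (Ω := Ω) (N := p * p ^ k)) w ∣ p ^ k := by
          rw [hj2]
          exact pow_dvd_pow p (by omega)
        exact isPeriodicPt_iff_minimalPeriod_dvd.2 h7
      · have : j = k + 1 := le_antisymm hj h6
        rw [hj2, this, hpk])
  refine ⟨D, ?_⟩
  rw [h1, h2, ← h3, ← hD, ← Finset.sum_filter_add_sum_filter_not Finset.univ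
    (fun w : Fin (p * p ^ k) → Ω => rot^[p ^ k] w = w) f]
  exact add_sub_cancel_left _ _

end Pool.Agent.NIL
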