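import Pool.Agent.NIL.Fin3
import Pool.Agent.NIL.Defs4
import Pool.Agent.NIL.P_NW
import Pool.Agent.NIL.P_NA
import Pool.Agent.NIL.P_NA2
import Pool.Agent.NIL.P_NB
import Pool.Agent.NIL.P_NM1
import Pool.Agent.NIL.P_NM2
import Pool.Agent.NIL.P_NC
import Pool.Agent.NIL.P_ND
import Pool.Agent.NIL.P_NE2
import Pool.Agent.NIL.P_NP
import Pool.Agent.NIL.P_NH
import Pool.Agent.NIL.P_NI
import Pool.Agent.NIL.P_NF
import Pool.Agent.NIL.P_NQ1
import Pool.Agent.NIL.P_NQ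
import Pool.Agent.NIL.P_NG0
import Pool.Agent.NIL.P_NG1
import Pool.Agent.NIL.P_NG3
import Pool.Agent.NIL.P_NG4
import Pool.Agent.NIL.P_NGG
import Pool.Agent.NIL.P_NSEP
import Pool.Agent.NIL.P_NSC
import Pool.Agent.NIL.P_NAUG
import Pool.Agent.NIL.P_NBLK
import Pool.Agent.NIL.P_NME1aw
import Pool.Agent.NIL.P_NME1
import Pool.Agent.NIL.P_NSW
import Pool.Agent.NIL.P_NSA

/-!
# Final assembly
-/

set_option autoImplicit false

noncomputable section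

namespace Pool.Agent.NIL

theorem all_NA : St_NA := t_NA t_NW

theorem all_NM1 : St_NM1 := t_NM1 all_NA t_NB

theorem all_NM2 : St_NM2 := t_NM2 (t_NA2 all_NA) t_NB

theorem all_ND : St_ND := t_ND all_NM1 (t_NC all_NM2)

theorem all_NSC : St_NSC := t_NSC all_NM1

theorem nil_main :
    (∀ (H G : Type) [Group H] [Group G] (φ : H →* G) (k n : ℕ) (e : Matrix (Fin k) (Fin k) (RT H))
      (b : Bases e n), StF (Fin n) (e.map (ext φ)) → WF (b.tr φ)) ∧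
    (∀ (G ι : Type) [Group G] [Fintype ι] [DecidableEq ι] (H : ι → Subgroup G) [∀ i, Finite (H i)],
      (∀ i j (x y : G), x ∈ H i → y ∈ H j → x ≠ 1 → IsConj x y → i = j) →
      ∀ f g : ι → Polynomial ℤ, (∀ i, (f i).coeff 0 = 1) → (∀ i, (g i).coeff 0 = 1) →
      ((∃ k : ℕ, Nonempty (((∀ i, Swan (H i) (f i)) × (Fin k → RT G)) ≃ₗ[RT G]
          ((∀ i, Swan (H i) (g i)) × (Fin k → RT G)))) ↔
        ∀ i n, (Nat.card (H i) : ℤ) ∣ (f i - g i).coeff n) ∧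
      ∀ i, (∃ g' : Polynomial ℤ, ∀ n, (Nat.card (H i) : ℤ) ∣ (g i * g' - 1).coeff n) →
        Module.Projective (RT G) (Swan (H i) (g i)) ∧
        Nonempty ((Swan (H i) (f i) × Swan (H i) (g i)) ≃ₗ[RT G] (Swan (H i) (f i * g i) × RT G))) ∧
    (∀ (G ι : Type) [Group G] [Fintype ι] [DecidableEq ι] (A Γ : ι → Type) [∀ i, CommGroup (A i)]
      [∀ i, Finite (A i)] [∀ i, Group (Γ i)] [∀ i, Fintype (Γ i)] [∀ i, DecidableEq (Γ i)]
      (φ : ∀ i, A i →* G) (ρ : ∀ i, Γ i →* MulAut (A i)), (∀ i, Function.Injective (φ i)) →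
      (∀ i j (a : A i) (b : A j), a ≠ 1 → IsConj (φ i a) (φ j b) → i = j) →
      (∀ i (a b : A i), IsConj (φ i a) (φ i b) → ∃ γ : Γ i, ρ i γ a = b) →
      ∀ (k : ι → ℕ) (e : ∀ i, Matrix (Fin (k i)) (Fin (k i)) (RT (A i))), (∀ i, RankOne (e i)) →
        (∀ i, Free1 ((e i).map (Polynomial.evalRingHom 0))) →
        StF ι (Matrix.blockDiagonal' fun i => (e i).map (ext (φ i))) →
        ∀ i, Free1 (tens (ρ i) (e i))) := by
  refine ⟨fun H G _ _ φ k n e b h => t_NGG all_ND H G φ k n e b h, ?_, ?_⟩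
  · intro G ι _ _ _ H _ hd f g hf hg
    refine ⟨⟨?_, fun h => ⟨0, ?_⟩⟩, ?_⟩
    · rintro ⟨k, hk⟩ i n
      exact final1m (t_NME1 tw_NME1a) all_ND (t_NSW t_NSEP all_NSC) (t_NE2 all_NM1) G ι H hd f g k hf hg hk
        i n
    · have hE : ∀ i, Nonempty (Swan (H i) (f i) ≃ₗ[RT G] Swan (H i) (g i)) := fun i =>
        t_NI G (H i) (f i) (g i) (hf i) (hg i) (h i)
      exact ⟨(LinearEquiv.piCongrRight fun i => (hE i).some).prodCongr (LinearEquiv.refl _ _)⟩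
    · rintro i ⟨g', hg'⟩
      exact ⟨t_NP G (H i) (g i) g' (hg i) hg', t_NH G (H i) (f i) (g i) g' (hf i) (hg i) hg'⟩
  · intro G ι _ _ _ A Γ _ _ _ _ _ φ ρ hφ hd hΓ k e he h0 hs i
    exact final2m (t_NG0 (t_NQ t_NQ1)) t_NG1 (t_NBLK all_ND) (t_NSA t_NSEP all_NSC t_NAUG) t_NG3 t_NG4
      (t_NF all_NM1) G ι A Γ φ ρ hφ hd hΓ k e he h0 hs i

theorem nil_main2 :
    (∀ (H G : Type) [Group H] [Group G] (φ : H →* G) (k n : ℕ) (e : Matrix (Fin k) (Fin k) (RT H))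
      (b : Bases e n), StF (Fin n) (e.map (ext φ)) → WF (b.tr φ)) ∧
    (∀ (G ι : Type) [Group G] [Fintype ι] [DecidableEq ι] (H : ι → Subgroup G) [∀ i, Finite (H i)],
      Apart (fun i => (H i).subtype) → ∀ f g : ι → Polynomial ℤ, (∀ i, (f i).coeff 0 = 1) →
      (∀ i, (g i).coeff 0 = 1) →
      (StIso (fun i => Swan (H i) (f i)) (fun i => Swan (H i) (g i)) ↔
        ∀ i, Cgr (Nat.card (H i)) (f i) (g i)) ∧
      ∀ i, (∃ g', Cgr (Nat.card (H i)) (g i * g') 1) → Module.Projective (RT G) (Swan (H i) (g i)) ∧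
        AddIso (Swan (H i) (f i)) (Swan (H i) (g i)) (Swan (H i) (f i * g i))) ∧
    (∀ (G ι : Type) [Group G] [Fintype ι] [DecidableEq ι] (A Γ : ι → Type) [∀ i, CommGroup (A i)]
      [∀ i, Finite (A i)] [∀ i, Group (Γ i)] [∀ i, Fintype (Γ i)] [∀ i, DecidableEq (Γ i)]
      (φ : ∀ i, A i →* G) (ρ : ∀ i, Γ i →* MulAut (A i)), (∀ i, Function.Injective (φ i)) →
      Apart φ → (∀ i, Fuse (φ i) (ρ i)) → ∀ (k : ι → ℕ)
      (e : ∀ i, Matrix (Fin (k i)) (Fin (k i)) (RT (A i))), (∀ i, Inv1 (e i)) →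
        StF ι (dsum φ e) → ∀ i, Free1 (tens (ρ i) (e i))) := by
  obtain ⟨h0, h1, h2⟩ := nil_main
  refine ⟨h0, ?_, ?_⟩
  · intro G ι _ _ _ H _ hd f g hf hg
    obtain ⟨h3, h4⟩ := h1 G ι H (fun i j x y hx hy hx1 hxy => hd i j ⟨x, hx⟩ ⟨y, hy⟩
      (fun h => hx1 (congrArg Subtype.val h)) hxy) f g hf hg
    exact ⟨h3, h4⟩
  · intro G ι _ _ _ A Γ _ _ _ _ _ φ ρ hφ hd hΓ k e he hs i
    exact h2 G ι A Γ φ ρ hφ hd hΓ k e (fun i => (he i).one) (fun i => (he i).free) hs i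

end Pool.Agent.NIL
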