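import Pool.Agent.NIL.Defs

/-!
# Traces and logarithmic derivatives
-/

set_option autoImplicit false

noncomputable section

namespace Pool.Agent.NIL

/-- The class of the `p`-th powers of the elements of a conjugacy class. -/
def cpow {G : Type} [Group G] (p : ℕ) (c : ConjClasses G) : ConjClasses G :=
  Quotient.liftOn c (fun g => ConjClasses.mk (g ^ p)) (by
    intro a b h
    obtain ⟨x, hx⟩ := (h : IsConj a b)
    exact ConjClasses.mk_eq_mk_iff_isConj.2 ⟨x, by
      have h1 := hx
      exact SemiconjBy.pow_right h1 p⟩)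

@[simp] theorem cpow_mk {G : Type} [Group G] (p : ℕ) (g : G) :
    cpow p (ConjClasses.mk g) = ConjClasses.mk (g ^ p) := rfl

/-- The sums of the coefficients over the conjugacy classes. -/
def T0 (k G : Type) [CommRing k] [Group G] : MonoidAlgebra k G →+ (ConjClasses G →₀ k) :=
  (Finsupp.mapDomain.addMonoidHom ConjClasses.mk).comp MonoidAlgebra.coeffAddEquiv.toAddMonoidHom

@[simp] theorem T0_single {k G : Type} [CommRing k] [Group G] (g : G) (a : k) :
    T0 k G (MonoidAlgebra.single g a) = Finsupp.single (ConjClasses.mk g) a := by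
  simp [T0]

theorem T0_mul_comm {k G : Type} [CommRing k] [Group G] (a b : MonoidAlgebra k G) :
    T0 k G (a * b) = T0 k G (b * a) := by
  induction a using MonoidAlgebra.induction_linear with
  | zero => simp
  | add x y hx hy => rw [add_mul, mul_add, map_add, map_add, hx, hy]
  | single g r =>
    induction b using MonoidAlgebra.induction_linear with
    | zero => simp
    | add x y hx hy => rw [add_mul, mul_add, map_add, map_add, hx, hy]
    | single h s =>
      rw [MonoidAlgebra.single_mul_single, MonoidAlgebra.single_mul_single, T0_single, T0_single,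
        mul_comm r s]
      congr 1
      exact ConjClasses.mk_eq_mk_iff_isConj.2 (isConj_iff.2 ⟨h, by group⟩)

/-- `Φ_p`, induced by the `p`-th power map. -/
def Phi (k G : Type) [CommRing k] [Group G] (p : ℕ) :
    (ConjClasses G →₀ k) →+ (ConjClasses G →₀ k) :=
  Finsupp.mapDomain.addMonoidHom (cpow p)

/-- The derivation `t d/dt` of the ring of power series. -/
def th {R : Type} [Ring R] : PowerSeries R →+ PowerSeries R where
  toFun f := PowerSeries.mk fun m => m • PowerSeries.coeff m f
  map_zero' := by ext m; simp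
  map_add' f g := by ext m; simp

@[simp] theorem coeff_th {R : Type} [Ring R] (f : PowerSeries R) (m : ℕ) :
    PowerSeries.coeff m (th f) = m • PowerSeries.coeff m f := by
  simp [th]

theorem th_mul {R : Type} [Ring R] (f g : PowerSeries R) : th (f * g) = th f * g + f * th g := by
  ext m
  simp only [coeff_th, map_add, PowerSeries.coeff_mul, Finset.smul_sum]
  rw [← Finset.sum_add_distrib]
  refine Finset.sum_congr rfl fun x hx => ?_
  rw [← Finset.HasAntidiagonal.mem_antidiagonal.1 hx, add_smul, smul_mul_assoc, mul_smul_comm]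

/-- The traces of a square matrix of power series over `k[G]`. -/
def trc {k G : Type} [CommRing k] [Group G] {ι : Type} [Fintype ι] (m : ℕ) :
    Matrix ι ι (PowerSeries (MonoidAlgebra k G)) →+ (ConjClasses G →₀ k) :=
  (T0 k G).comp ((PowerSeries.coeff m).toAddMonoidHom.comp (Matrix.traceAddMonoidHom ι _))

theorem trc_apply {k G : Type} [CommRing k] [Group G] {ι : Type} [Fintype ι] (m : ℕ)
    (A : Matrix ι ι (PowerSeries (MonoidAlgebra k G))) :
    trc m A = T0 k G (PowerSeries.coeff m A.trace) := rfl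

theorem trc_mul_comm {k G : Type} [CommRing k] [Group G] {ι κ : Type} [Fintype ι] [Fintype κ]
    (m : ℕ) (A : Matrix ι κ (PowerSeries (MonoidAlgebra k G)))
    (B : Matrix κ ι (PowerSeries (MonoidAlgebra k G))) : trc m (A * B) = trc m (B * A) := by
  simp only [trc_apply, Matrix.trace, Matrix.diag, Matrix.mul_apply, map_sum, PowerSeries.coeff_mul]
  rw [Finset.sum_comm]
  refine Finset.sum_congr rfl fun j _ => Finset.sum_congr rfl fun i _ => ?_
  rw [← Finset.Nat.sum_antidiagonal_swap]
  exact Finset.sum_congr rfl fun x _ => T0_mul_comm _ _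

/-- The traces of the logarithmic derivative `v⁻¹ t v'` of the invertible matrix `v`; `vi = v⁻¹`. -/
def lam {k G : Type} [CommRing k] [Group G] {ι : Type} [Fintype ι]
    (v vi : Matrix ι ι (PowerSeries (MonoidAlgebra k G))) (m : ℕ) : ConjClasses G →₀ k :=
  trc m (vi * v.map th)

theorem map_th_mul {R : Type} [Ring R] {ι κ μ : Type} [Fintype κ]
    (A : Matrix ι κ (PowerSeries R)) (B : Matrix κ μ (PowerSeries R)) :
    (A * B).map th = A.map th * B + A * B.map th := by
  ext i j : 2
  simp only [Matrix.map_apply, Matrix.mul_apply, Matrix.add_apply, map_sum, th_mul,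
    Finset.sum_add_distrib]

theorem lam_mul {k G : Type} [CommRing k] [Group G] {ι : Type} [Fintype ι] [DecidableEq ι]
    {v vi w wi : Matrix ι ι (PowerSeries (MonoidAlgebra k G))} (h2 : vi * v = 1)
    (h3 : w * wi = 1) (m : ℕ) :
    lam (v * w) (wi * vi) m = lam v vi m + lam w wi m := by
  have e1 : trc m (wi * vi * (v.map th * w)) = trc m (vi * v.map th) := by
    rw [show wi * vi * (v.map th * w) = wi * (vi * v.map th * w) by simp only [Matrix.mul_assoc],
      trc_mul_comm, Matrix.mul_assoc, h3, Matrix.mul_one]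
  have e2 : wi * vi * (v * w.map th) = wi * w.map th := by
    rw [show wi * vi * (v * w.map th) = wi * (vi * v) * w.map th by simp only [Matrix.mul_assoc],
      h2, Matrix.mul_one]
  unfold lam
  rw [map_th_mul, Matrix.mul_add, map_add, e1, e2]

/-- The congruences which the traces of the logarithmic derivative of a matrix over `ℤ[G][[t]]` satisfy, at
the elements of finite order. -/
def WF {G : Type} [Group G] (l : ℕ → (ConjClasses G →₀ ℚ)) : Prop :=
  (∀ (m : ℕ) (g : G), IsOfFinOrder g → ∃ c : ℤ, l m (ConjClasses.mk g) = c) ∧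
  ∀ p : ℕ, p.Prime → ∀ m : ℕ, 1 ≤ m → ∀ g : G, IsOfFinOrder g → ∃ c : ℤ,
    l (p * m) (ConjClasses.mk g) - Phi ℚ G p (l m) (ConjClasses.mk g) =
      (p : ℚ) ^ (padicValNat p m + 1) * c

theorem WF.add {G : Type} [Group G] {l l' : ℕ → (ConjClasses G →₀ ℚ)} (h : WF l) (h' : WF l') :
    WF (fun m => l m + l' m) := by
  refine ⟨fun m g hg => ?_, fun p hp m hm g hg => ?_⟩
  · obtain ⟨c, hc⟩ := h.1 m g hg
    obtain ⟨d, hd⟩ := h'.1 m g hg
    exact ⟨c + d, by simp [hc, hd]⟩
  · obtain ⟨c, hc⟩ := h.2 p hp m hm g hg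
    obtain ⟨d, hd⟩ := h'.2 p hp m hm g hg
    refine ⟨c + d, ?_⟩
    rw [Int.cast_add, mul_add, ← hc, ← hd, map_add, Finsupp.add_apply, Finsupp.add_apply]
    ring

theorem WF.neg {G : Type} [Group G] {l : ℕ → (ConjClasses G →₀ ℚ)} (h : WF l) :
    WF (fun m => - l m) := by
  refine ⟨fun m g hg => ?_, fun p hp m hm g hg => ?_⟩
  · obtain ⟨c, hc⟩ := h.1 m g hg
    exact ⟨-c, by simp [hc]⟩
  · obtain ⟨c, hc⟩ := h.2 p hp m hm g hg
    refine ⟨-c, ?_⟩
    rw [Int.cast_neg, mul_neg, ← hc, map_neg, Finsupp.neg_apply, Finsupp.neg_apply]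
    ring

theorem WF.sub {G : Type} [Group G] {l l' : ℕ → (ConjClasses G →₀ ℚ)} (h : WF l) (h' : WF l') :
    WF (fun m => l m - l' m) := by
  simpa only [sub_eq_add_neg] using h.add h'.neg

/-- The coefficient embedding `ℤ[G] → ℚ[G]`. -/
abbrev iq (G : Type) [Group G] : MonoidAlgebra ℤ G →+* MonoidAlgebra ℚ G :=
  MonoidAlgebra.mapRingHom G (Int.castRingHom ℚ)

/-- `ℤ[G][[t]] → ℚ[G][[t]]`. -/
abbrev iqs (G : Type) [Group G] : PowerSeries (MonoidAlgebra ℤ G) →+* PowerSeries (MonoidAlgebra ℚ G) :=
  PowerSeries.map (iq G)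

/-- `R[t] → R[[t]]`. -/
abbrev ps (R : Type) [Ring R] : Polynomial R →+* PowerSeries R := Polynomial.coeToPowerSeries.ringHom

end Pool.Agent.NIL
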