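import Mathlib

/-!
# Swan modules and invertible modules over `ℤ[G][t]`

Definitions used in the statement of `NilInjectivity`.
-/

set_option autoImplicit false

noncomputable section

namespace Pool.Agent.NIL

/-- The ring `ℤ[G][t]`. -/
abbrev RT (G : Type) [Group G] : Type := Polynomial (MonoidAlgebra ℤ G)

/-- The element `Σ_H`, the sum of the elements of the finite subgroup `H`, of `ℤ[G]`. -/
def sg {G : Type} [Group G] (H : Subgroup G) : MonoidAlgebra ℤ G :=
  ∑ᶠ h : H, MonoidAlgebra.single (h : G) (1 : ℤ)

/-- A polynomial with integral coefficients as an element of `ℤ[G][t]`. -/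
def cst (G : Type) [Group G] (f : Polynomial ℤ) : RT G :=
  f.map (Int.castRingHom (MonoidAlgebra ℤ G))

/-- The Swan module `S(f)`: the left ideal of `ℤ[G][t]` generated by `f` and `Σ_H`. -/
def Swan {G : Type} [Group G] (H : Subgroup G) (f : Polynomial ℤ) : Submodule (RT G) (RT G) :=
  Submodule.span (RT G) {cst G f, Polynomial.C (sg H)}

/-- The ring homomorphism `ℤ[A][t] → ℤ[G][t]` induced by a homomorphism of groups. -/
def ext {A G : Type} [Group A] [Group G] (φ : A →* G) : RT A →+* RT G :=
  Polynomial.mapRingHom (MonoidAlgebra.mapDomainRingHom ℤ φ)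

/-- The square matrix `e` over the commutative ring `B` is an idempotent matrix of rank one: its image is
an invertible `B`-module (and every invertible module is of this form). -/
structure RankOne {B : Type} [CommRing B] {k : Type} [Fintype k] (e : Matrix k k B) : Prop where
  /-- `e` is idempotent -/
  idem : e * e = e
  /-- the minors of size two vanish -/
  minors : ∀ i j a b, e i j * e a b = e i b * e a j
  /-- the trace is one -/
  trace : e.trace = 1

/-- The image of the idempotent matrix `e` is free of rank one. -/
def Free1 {B : Type} [Ring B] {k : Type} [Fintype k] (e : Matrix k k B) : Prop :=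
  ∃ (x : Matrix k Unit B) (y : Matrix Unit k B), x * y = e ∧ y * x = 1

/-- The image of the idempotent matrix `e` is stably free of rank one: it becomes free if a free module of
rank `r` is added to it. -/
def StFree1 {B : Type} [Ring B] {k : ℕ} (e : Matrix (Fin k) (Fin k) B) : Prop :=
  ∃ (r : ℕ) (X : Matrix (Fin k ⊕ Fin r) (Unit ⊕ Fin r) B) (Y : Matrix (Unit ⊕ Fin r) (Fin k ⊕ Fin r) B),
    X * Y = Matrix.fromBlocks e 0 0 1 ∧ Y * X = 1

/-- The tensor product of the matrices `γ_* e`, `γ ∈ Γ`; its image is the tensor product over `ℤ[A][t]` of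
the modules `γ_* L`, where `L` is the image of `e`. -/
def tens {A Γ : Type} [CommGroup A] [Group Γ] [Fintype Γ] (ρ : Γ →* MulAut A) {k : ℕ}
    (e : Matrix (Fin k) (Fin k) (RT A)) : Matrix (Γ → Fin k) (Γ → Fin k) (RT A) :=
  Matrix.of fun i j => ∏ γ : Γ, ext (ρ γ).toMonoidHom (e (i γ) (j γ))

end Pool.Agent.NIL
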