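import Pool.Agent.NIL.Base

/-!
# Bases of a projective module

Definitions for the general clause of `NilInjectivity`.
-/

set_option autoImplicit false

noncomputable section

namespace Pool.Agent.NIL

/-- Let `P` be the image of the idempotent matrix `e` over `ℤ[H][t]`.  Bases with `n` elements of
`ℚ[H][t] ⊗ P` (given by `x`, `y`) and of `ℤ[H][[t]] ⊗ P` (given by `x'`, `y'`). -/
structure Bases {H : Type} [Group H] {k : ℕ} (e : Matrix (Fin k) (Fin k) (RT H)) (n : ℕ) where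
  /-- `x` -/
  x : Matrix (Fin k) (Fin n) (Polynomial (MonoidAlgebra ℚ H))
  /-- `y` -/
  y : Matrix (Fin n) (Fin k) (Polynomial (MonoidAlgebra ℚ H))
  /-- `x'` -/
  x' : Matrix (Fin k) (Fin n) (PowerSeries (MonoidAlgebra ℤ H))
  /-- `y'` -/
  y' : Matrix (Fin n) (Fin k) (PowerSeries (MonoidAlgebra ℤ H))
  xy : x * y = e.map (Polynomial.mapRingHom (iq H))
  yx : y * x = 1
  xy' : x' * y' = e.map (ps _)
  yx' : y' * x' = 1

/-- The comparison matrix `w = y' x` of the two bases, over `ℚ[H][[t]]`. -/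
def Bases.w {H : Type} [Group H] {k : ℕ} {e : Matrix (Fin k) (Fin k) (RT H)} {n : ℕ} (b : Bases e n) :
    Matrix (Fin n) (Fin n) (PowerSeries (MonoidAlgebra ℚ H)) :=
  b.y'.map (iqs H) * b.x.map (ps _)

/-- The inverse `y x'` of `w`. -/
def Bases.wi {H : Type} [Group H] {k : ℕ} {e : Matrix (Fin k) (Fin k) (RT H)} {n : ℕ} (b : Bases e n) :
    Matrix (Fin n) (Fin n) (PowerSeries (MonoidAlgebra ℚ H)) :=
  b.y.map (ps _) * b.x'.map (iqs H)

/-- The sums over the conjugacy classes of `G` of the coefficients of `tr(w⁻¹ t dw/dt)`. -/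
def Bases.tr {H G : Type} [Group H] [Group G] (φ : H →* G) {k : ℕ} {e : Matrix (Fin k) (Fin k) (RT H)}
    {n : ℕ} (b : Bases e n) (m : ℕ) : ConjClasses G →₀ ℚ :=
  T0 ℚ G (MonoidAlgebra.mapDomainRingHom ℚ φ (PowerSeries.coeff m (b.wi * b.w.map th).trace))

/-- The image of the idempotent matrix `e` is stably free of rank `n`. -/
def StFree {B : Type} [Ring B] {k : ℕ} (e : Matrix (Fin k) (Fin k) B) (n : ℕ) : Prop :=
  ∃ (r : ℕ) (X : Matrix (Fin k ⊕ Fin r) (Fin n ⊕ Fin r) B) (Y : Matrix (Fin n ⊕ Fin r) (Fin k ⊕ Fin r) B),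
    X * Y = Matrix.fromBlocks e 0 0 1 ∧ Y * X = 1

end Pool.Agent.NIL
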