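import Pool.Agent.NIL.Defs

/-!
# Stably free modules
-/

set_option autoImplicit false

noncomputable section

namespace Pool.Agent.NIL

/-- The image of the idempotent matrix `e` is stably free of rank `|ν|`: it becomes free if a free module of
rank `r` is added to it. -/
def StF {B : Type} [Ring B] {κ : Type} [Fintype κ] [DecidableEq κ] (ν : Type) [Fintype ν] [DecidableEq ν]
    (e : Matrix κ κ B) : Prop :=
  ∃ (r : ℕ) (X : Matrix (κ ⊕ Fin r) (ν ⊕ Fin r) B) (Y : Matrix (ν ⊕ Fin r) (κ ⊕ Fin r) B),
    X * Y = Matrix.fromBlocks e 0 0 1 ∧ Y * X = 1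

end Pool.Agent.NIL
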