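import Pool.Agent.NIL.Base

/-!
# Statements of the modules
-/

set_option autoImplicit false

noncomputable section

namespace Pool.Agent.NIL

/-! ## Frobenius and Dwork congruences -/

/-- NW: words.  With `N = p^k`, `(∑ y)^N` is the sum over `w : ZMod N → Ω` of the products
`y (w 0) ⋯ y (w (N-1))`; `T` of a product is invariant under rotation of `w`.  The words which are not fixed by
the rotation by `N/p` form free orbits of `ZMod N` (every nontrivial subgroup of `ℤ/p^k` contains `N/p`), so their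
contribution is `N` times something; the others are the words of length `N/p` repeated `p` times and contribute
`Φ` of the sum of length `N/p`, by the hypothesis. -/
def St_NW : Prop :=
  ∀ (M V Ω : Type) [Ring M] [AddCommGroup V] [Fintype Ω] (T : M →+ V) (Φ : V →+ V) (y : Ω → M)
    (p : ℕ), p.Prime → (∀ a b, T (a * b) = T (b * a)) →
    (∀ l : List Ω, l ≠ [] → T ((l.map y).prod ^ p) = Φ (T (l.map y).prod)) →
    ∀ k : ℕ, 1 ≤ k → ∃ D : V,
      T ((∑ ω, y ω) ^ p ^ k) - Φ (T ((∑ ω, y ω) ^ p ^ (k - 1))) = (p ^ k) • D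

/-- NA: `T(z^{p^k}) = Φ_p T(z^{p^{k-1}})` modulo `p^k`.  From NW: modulo `p^k` we may add a multiple of `p^k` to `z`,
so all coefficients of all entries of `z` may be taken to be nonnegative, and then `z` is a finite sum of
matrices `E_ij g` (with repetitions).  A nonempty product `w` of such matrices is `0` or some `E_ij g`; `w^p` is
`E_ii g^p` if `i = j` and `0` if `i ≠ j`, and the trace of `E_ij g` is `0` if `i ≠ j`. -/
def St_NA : Prop :=
  ∀ (G : Type) [Group G] (ι : Type) [Fintype ι] [DecidableEq ι] (p : ℕ), p.Prime →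
    ∀ k : ℕ, 1 ≤ k → ∀ z : Matrix ι ι (MonoidAlgebra ℤ G), ∃ D : ConjClasses G →₀ ℤ,
      T0 ℤ G (z ^ p ^ k).trace - Phi ℤ G p (T0 ℤ G (z ^ p ^ (k - 1)).trace) = (p ^ k) • D

/-- NA2: over `𝔽_p`.  From NA with `k = 1`: lift `z` to `ℤ[G]` (the map `ℤ[G] → 𝔽_p[G]` is onto) and reduce. -/
def St_NA2 : Prop :=
  ∀ (G : Type) [Group G] (ι : Type) [Fintype ι] [DecidableEq ι] (p : ℕ), p.Prime →
    ∀ z : Matrix ι ι (MonoidAlgebra (ZMod p) G),
      T0 (ZMod p) G (z ^ p).trace = Phi (ZMod p) G p (T0 (ZMod p) G z.trace)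

/-- NB: the abstract Dwork congruences.  For a unit `v` of `M[[t]]` put `λ_m(v) = T(coeff m (v⁻¹ θ v))`; then
`λ(v w) = λ(v) + λ(w)`, `λ(v⁻¹) = - λ(v)`.  Fix `m` and put `N = p m`.  The units `v` for which the statement holds
(for this `m`) are closed under products and contain: the constants (`θ c = 0`); the units `v = 1` modulo
`t^{N+1}`; and `1 - z t^d` with `z` in `M`, `d ≥ 1`: here `λ_j = - d T(z^{j/d})` if `d` divides `j ≥ 1` and `0`
otherwise; if `d ∣ m` use the hypothesis with exponent `k = padicValNat p (m/d) + 1`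
(`z^{pm/d} = (z^r)^{p^k}`, `z^{m/d} = (z^r)^{p^{k-1}}`) times `d`; if `d ∣ p m` but `d ∤ m` then
`p^{padicValNat p m + 1} ∣ d`.  Every unit is a constant times `∏_{d ≤ N} (1 - z_d t^d)` times a unit which is `1`
modulo `t^{N+1}` (induction on `d`). -/
def St_NB : Prop :=
  ∀ (M V : Type) [Ring M] [AddCommGroup V] (T : M →+ V) (Φ : V →+ V) (p : ℕ), p.Prime →
    (∀ a b, T (a * b) = T (b * a)) →
    (∀ k : ℕ, 1 ≤ k → ∀ z : M, ∃ D : V, T (z ^ p ^ k) - Φ (T (z ^ p ^ (k - 1))) = (p ^ k) • D) →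
    ∀ v vi : PowerSeries M, v * vi = 1 → vi * v = 1 → ∀ m : ℕ, 1 ≤ m → ∃ D : V,
      T (PowerSeries.coeff (p * m) (vi * th v)) - Φ (T (PowerSeries.coeff m (vi * th v))) =
        (p ^ (padicValNat p m + 1)) • D

/-- NM1: the Dwork congruences for matrices over `ℤ[G][[t]]`.  From NA and NB with `M` the matrices over `ℤ[G]`,
`V = (ConjClasses G →₀ ℤ)`, `T z = T0 z.trace`, `Φ = Phi`, through the ring homomorphism from matrices of power
series to power series of matrices. -/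
def St_NM1 : Prop :=
  ∀ (G : Type) [Group G] (ι : Type) [Fintype ι] [DecidableEq ι] (p : ℕ), p.Prime →
    ∀ v vi : Matrix ι ι (PowerSeries (MonoidAlgebra ℤ G)), v * vi = 1 → vi * v = 1 →
      ∀ m : ℕ, 1 ≤ m → ∃ D : ConjClasses G →₀ ℤ,
        lam v vi (p * m) - Phi ℤ G p (lam v vi m) = (p ^ (padicValNat p m + 1)) • D

/-- NM2: the same over `𝔽_p[G][[t]]`.  From NA2 (applied to `z^{p^{k-1}}`) and NB, as NM1; `p • D = 0` here. -/
def St_NM2 : Prop :=
  ∀ (G : Type) [Group G] (ι : Type) [Fintype ι] [DecidableEq ι] (p : ℕ), p.Prime →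
    ∀ v vi : Matrix ι ι (PowerSeries (MonoidAlgebra (ZMod p) G)), v * vi = 1 → vi * v = 1 →
      ∀ m : ℕ, 1 ≤ m → lam v vi (p * m) = Phi (ZMod p) G p (lam v vi m)

/-- NC: vanishing at the elements of finite order for invertible matrices over `ℚ[G][t]`.  From NM2.
There are a natural number `Q ≥ 1` and matrices `U`, `U'` over `ℤ[G][t]` with `U = Q u`, `U' = Q ui` over
`ℚ[G][t]`, so `U U' = U' U = Q²`.  Put `l_m = T0 (coeff m (trace (U' θ U)))` in `ConjClasses G →₀ ℤ`; then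
`l_m = Q² λ_m(u)` and `l_m = 0` for large `m`.  If the prime `p` does not divide `Q`, the reduction of `U` modulo
`p` is invertible over `𝔽_p[G][t]` with inverse `Q⁻² U'`, and NM2 gives `l_{pm} = Φ_p l_m` modulo `p` for `m ≥ 1`
(the case `m = 0` is trivial, `λ_0 = 0`).  Let `g` have finite order and `m ≥ 1`; let `N₀` be a multiple of the
order of `g` and of the orders of the elements of finite order in the classes of the support of `l_m`.  Let
`p = 1` modulo `N₀` be a prime, `p ∤ Q`, with `l_{pm} = 0` (`Nat.exists_prime_gt_modEq_one`).  In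
`(Φ_p l_m)([g])`, the sum of `l_m(C)` over the classes `C` with `C^p = [g]`, such a `C` in the support is the class
of an `x` with `x^p` conjugate to `g`, so `x` has finite order, `x^p = x`, `C = [g]`.  So `p ∣ l_m([g])` for
infinitely many `p` and `l_m([g]) = 0`. -/
def St_NC : Prop :=
  ∀ (G : Type) [Group G] (ι : Type) [Fintype ι] [DecidableEq ι]
    (u ui : Matrix ι ι (Polynomial (MonoidAlgebra ℚ G))), u * ui = 1 → ui * u = 1 →
    ∀ (m : ℕ) (g : G), IsOfFinOrder g → lam (u.map (ps _)) (ui.map (ps _)) m (ConjClasses.mk g) = 0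

/-- ND: the core.  From NM1 and NC: `λ(b) - λ(a) = λ(v) - λ(u)` by `lam_mul`; `λ(v)` is the image of the one over
`ℤ[G]`; at the elements of finite order `λ(u) = 0`, also in `Phi ℚ G p (λ_m(u)) [g]` (a class `C` with
`C^p = [g]` consists of elements of finite order). -/
def St_ND : Prop :=
  ∀ (G : Type) [Group G] (ι : Type) [Fintype ι] [DecidableEq ι]
    (v vi : Matrix ι ι (PowerSeries (MonoidAlgebra ℤ G)))
    (u ui : Matrix ι ι (Polynomial (MonoidAlgebra ℚ G)))
    (a ai b bi : Matrix ι ι (PowerSeries (MonoidAlgebra ℚ G))),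
    v * vi = 1 → vi * v = 1 → u * ui = 1 → ui * u = 1 → a * ai = 1 → ai * a = 1 →
    b * bi = 1 → bi * b = 1 → a * v.map (iqs G) = u.map (ps _) * b →
    WF (fun m => lam b bi m - lam a ai m)

/-! ## Swan modules -/

/-- A power series with integral coefficients as an element of `ℚ[G][[t]]`. -/
abbrev cq (G : Type) [Group G] : PowerSeries ℤ →+* PowerSeries (MonoidAlgebra ℚ G) :=
  PowerSeries.map (Int.castRingHom (MonoidAlgebra ℚ G))

/-- The idempotent `ε = Σ_H / |H|`. -/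
def eps {G : Type} [Group G] (H : Subgroup G) : MonoidAlgebra ℚ G :=
  (Nat.card H : ℚ)⁻¹ • iq G (sg H)

/-- `κ_b = ε + b (1 - ε)`. -/
def kap {G : Type} [Group G] (H : Subgroup G) (b : PowerSeries ℤ) :
    PowerSeries (MonoidAlgebra ℚ G) :=
  PowerSeries.C (eps H) + cq G b * (1 - PowerSeries.C (eps H))

/-- The block matrix with the blocks `c` and `1`. -/
def dg {R : Type} [Ring R] {κ : Type} [DecidableEq κ] (c : R) : Matrix (Unit ⊕ κ) (Unit ⊕ κ) R :=
  Matrix.fromBlocks (Matrix.of fun _ _ => c) 0 0 1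

/-- The row vector over `ℤ[G][[t]]` of an element of `S × R^k`, `S` a left ideal of `R = ℤ[G][t]`. -/
def row {G : Type} [Group G] {S : Submodule (RT G) (RT G)} {k : ℕ} (m : S × (Fin k → RT G)) :
    Unit ⊕ Fin k → PowerSeries (MonoidAlgebra ℤ G) :=
  Sum.elim (fun _ => ps _ (m.1 : RT G)) (fun j => ps _ (m.2 j))

/-- NE1a: an isomorphism is given by right multiplication by a matrix over `ℤ[G][[t]]`.  `f` is central and a
unit of `ℤ[[t]]`; the first row of `v` is `f⁻¹ row (E (f, 0))`, the others are `row (E (0, e_j))`: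
`f E(s, 0) = E(f s, 0) = E(s f, 0) = s E(f, 0)`.  The same for `vi` with `E.symm`.  `v vi = 1` because
`row (f, 0) v vi = row (f, 0)` and `row (0, e_j) v vi = row (0, e_j)`. -/
def St_NE1a : Prop :=
  ∀ (G : Type) [Group G] (H : Subgroup G) [Finite H] (f g : Polynomial ℤ) (k : ℕ),
    f.coeff 0 = 1 → g.coeff 0 = 1 →
    ∀ E : (Swan H f × (Fin k → RT G)) ≃ₗ[RT G] (Swan H g × (Fin k → RT G)),
    ∃ (v vi : Matrix (Unit ⊕ Fin k) (Unit ⊕ Fin k) (PowerSeries (MonoidAlgebra ℤ G))),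
      v * vi = 1 ∧ vi * v = 1 ∧ (∀ m, row (E m) = Matrix.vecMul (row m) v) ∧
      ∀ m, row (E.symm m) = Matrix.vecMul (row m) vi

/-- NE1: a stable isomorphism of Swan modules gives invertible matrices.  From NE1a.  `h = |H|`, `ε = Σ_H/h`,
`κ_f = ε + f (1 - ε)` with inverse `ε + f⁻¹ (1 - ε)` in `ℚ[G][[t]]`; `h κ_f = Σ_H + f (h - Σ_H)` is in `S(f)`, and every
`s` in `S(g)` is `ρ(s) κ_g` with `ρ(s)` in `ℚ[G][t]`: `g = (g ε + 1 - ε) κ_g`, `Σ_H = Σ_H κ_g`.  So the first row of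
`dg κ_f * v` is `h⁻¹ row (E (h κ_f, 0))` and all rows of `dg κ_f * v` are of the form (polynomial row) `* dg κ_g`; this
defines `u`, and `ui` in the same way from `vi` (`dg κ_g * vi = ui * dg κ_f`).  `u ui = 1` since
`u ui dg κ_f = u dg κ_g vi = dg κ_f v vi`, `dg κ_f` is invertible, and `ps` is injective. -/
def St_NE1 : Prop :=
  ∀ (G : Type) [Group G] (H : Subgroup G) [Finite H] (f g : Polynomial ℤ) (k : ℕ),
    f.coeff 0 = 1 → g.coeff 0 = 1 →
    Nonempty ((Swan H f × (Fin k → RT G)) ≃ₗ[RT G] (Swan H g × (Fin k → RT G))) →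
    ∃ (v vi : Matrix (Unit ⊕ Fin k) (Unit ⊕ Fin k) (PowerSeries (MonoidAlgebra ℤ G)))
      (u ui : Matrix (Unit ⊕ Fin k) (Unit ⊕ Fin k) (Polynomial (MonoidAlgebra ℚ G))),
      v * vi = 1 ∧ vi * v = 1 ∧ u * ui = 1 ∧ ui * u = 1 ∧
      dg (kap H (f : PowerSeries ℤ)) * v.map (iqs G) = u.map (ps _) * dg (kap H (g : PowerSeries ℤ))

/-- NE2: the arithmetic.  From NM1.  `κ_b κ_c = κ_{bc}`, `λ_m(κ_b) = (b⁻¹ θ b)_m T0(1 - ε)`.  By strong induction assume
`h ∣ b_j` for `1 ≤ j < m`, `b' = 1 + ∑_{1≤j<m} b_j t^j`, `b = b' b''`, `b'' = 1 + b_m t^m + ⋯`.  `κ_{b'} = b' - ((b'-1)/h) Σ_H` is a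
unit of `ℤ[G][[t]]`, so NM1 for `1 × 1` matrices shows that `λ(κ_{b'})` satisfies `WF`, hence so does
`λ(κ_{b''})`, which is zero below `m` and `m b_m T0(1 - ε)` at `m`.  At the class of `1`, `T0(1 - ε)` is `1 - 1/h`, and the
congruences of `WF` for the primes `p ∣ m` (with `m/p`) give `p^{v_p(m)} ∣ m b_m (1 - 1/h)`, an integer; so `m` divides it and
`b_m/h` is an integer. -/
def St_NE2 : Prop :=
  ∀ (G : Type) [Group G] (H : Subgroup G) [Finite H] (b bi : PowerSeries ℤ),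
    b * bi = 1 → PowerSeries.constantCoeff b = 1 →
    WF (fun m => T0 ℚ G (PowerSeries.coeff m (kap H bi * th (kap H b)))) →
    ∀ i : ℕ, 1 ≤ i → (Nat.card H : ℤ) ∣ PowerSeries.coeff i b

/-- NP: the Swan modules are projective.  `f f' = 1 + h k`.  The surjection `R² → S(f)`, `(a, b) ↦ a f + b Σ_H`, has the
section `s ↦ (μ(s) (1 - k Σ_H), s k² Σ_H)` where `μ(s) = s f⁻¹ (1 + k Σ_H)`, computed in `ℤ[G][[t]]`:
`μ(f) = 1 + k Σ_H`, `μ(Σ_H) = f' Σ_H`, so `μ(s)` is in `R`. -/
def St_NP : Prop :=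
  ∀ (G : Type) [Group G] (H : Subgroup G) [Finite H] (f f' : Polynomial ℤ), f.coeff 0 = 1 →
    (∀ i, (Nat.card H : ℤ) ∣ (f * f' - 1).coeff i) → Module.Projective (RT G) (Swan H f)

/-- NH: the Swan map is a homomorphism.  `g g' = 1 + h k`, `μ(s) = s g⁻¹ (1 + k Σ_H)` as in NP (defined on `S(g)` with
values in `R` and on `S(f g)` with values in `S(f)`).  The isomorphism is
`(s₁, s₂) ↦ (s₁ g + s₂ k Σ_H, - s₁ k Σ_H + μ(s₂) (1 - k Σ_H))`, its inverse
`(S, r) ↦ (μ(S) (1 - k Σ_H) - r k Σ_H, S k Σ_H + r g)`. -/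
def St_NH : Prop :=
  ∀ (G : Type) [Group G] (H : Subgroup G) [Finite H] (f g g' : Polynomial ℤ), f.coeff 0 = 1 →
    g.coeff 0 = 1 → (∀ i, (Nat.card H : ℤ) ∣ (g * g' - 1).coeff i) →
    Nonempty ((Swan H f × Swan H g) ≃ₗ[RT G] (Swan H (f * g) × RT G))

/-! ## Invertible modules -/

/-- NF: the Dwork lemma.  From NM1 (`1 × 1` matrices, `G = A`).  Strong induction on `m`: the coefficient `w_m` is
integral.  Let `w' = ∑_{j<m} w_j t^j` (integral, a unit of `ℤ[A][[t]]`) and `w = w' w''`, `w'' = 1 + w_m t^m + ⋯`.  By NM1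
the logarithmic derivative of `w'` satisfies `WF`, hence that of `w''`; it is zero below `m` and `m w_m` at `m`.
The congruences for the primes dividing `m` give that `m w_m` is in `m ℤ[A]` (every element of `A` has finite order
and the classes of `A` are its elements). -/
def St_NF : Prop :=
  ∀ (A : Type) [CommGroup A] [Finite A] (w wi : PowerSeries (MonoidAlgebra ℚ A)), w * wi = 1 →
    PowerSeries.constantCoeff w = 1 →
    WF (fun m => T0 ℚ A (PowerSeries.coeff m (wi * th w))) →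
    ∃ w' : PowerSeries (MonoidAlgebra ℤ A), iqs A w' = w

/-- NQ1: over a field.  The image of `e` is a finitely generated torsion free module over the principal ideal
domain `F[t]`, so free, of rank one because the trace of `e` is `1` (or directly: the ideal generated by the
entries of a nonzero column is principal, generated by `d`; the column is `d x`, `x` unimodular, and
`e_ij = x_i y_j` by the vanishing of the minors). -/
def St_NQ1 : Prop :=
  ∀ (F : Type) [Field F] (k : ℕ) (e : Matrix (Fin k) (Fin k) (Polynomial F)), RankOne e → Free1 e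

/-- NQ: invertible modules over `ℚ[A][t]` are free.  From NQ1: `ℚ[A]` is a finite reduced (Maschke) commutative
`ℚ`-algebra, so isomorphic to a finite product of fields (`IsArtinianRing.equivPi`), and
`(∏ F_i)[t]` is `∏ F_i[t]`. -/
def St_NQ : Prop :=
  ∀ (A : Type) [CommGroup A] [Finite A] (k : ℕ)
    (e : Matrix (Fin k) (Fin k) (Polynomial (MonoidAlgebra ℚ A))), RankOne e → Free1 e

/-- `ℤ[A][t] → ℚ[A][t]`. -/
abbrev iqp (A : Type) [Group A] : RT A →+* Polynomial (MonoidAlgebra ℚ A) :=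
  Polynomial.mapRingHom (iq A)

/-- Data for a rank one idempotent matrix `e` over `ℤ[A][t]`: `e(0) = x₀ y₀` over `ℤ[A]`, `e = x y` over
`ℚ[A][t]`, `x(0) = x₀`. -/
structure Dat {A : Type} [CommGroup A] {κ : Type} [Fintype κ] (e : Matrix κ κ (RT A)) where
  /-- `x₀` -/
  x0 : Matrix κ Unit (MonoidAlgebra ℤ A)
  /-- `y₀` -/
  y0 : Matrix Unit κ (MonoidAlgebra ℤ A)
  /-- `x` -/
  x : Matrix κ Unit (Polynomial (MonoidAlgebra ℚ A))
  /-- `y` -/
  y : Matrix Unit κ (Polynomial (MonoidAlgebra ℚ A))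
  h0 : x0 * y0 = e.map (Polynomial.evalRingHom 0)
  h0' : y0 * x0 = 1
  h1 : x * y = e.map (iqp A)
  h1' : y * x = 1
  hx : x.map (Polynomial.evalRingHom 0) = x0.map (iq A)

/-- The polynomial `s = y₀ x` over `ℚ[A]`, with constant term `1`. -/
def Dat.s {A : Type} [CommGroup A] {κ : Type} [Fintype κ] {e : Matrix κ κ (RT A)} (d : Dat e) :
    Polynomial (MonoidAlgebra ℚ A) :=
  ((d.y0.map (iq A)).map Polynomial.C * d.x) () ()

/-- NG0: existence of the data.  From NQ: `e = x y`, `y x = 1` over `ℚ[A][t]`; `c = y₀ x(0)` is a unit of `ℚ[A]` with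
inverse `y(0) x₀` and `x(0) = x₀ c`; replace `x` by `x c⁻¹` and `y` by `c y`. -/
def St_NG0 : Prop :=
  ∀ (A : Type) [CommGroup A] [Finite A] (k : ℕ) (e : Matrix (Fin k) (Fin k) (RT A)), RankOne e →
    Free1 (e.map (Polynomial.evalRingHom 0)) → Nonempty (Dat e)

/-- NG1: if `s` is integral then the module is free.  Over `ℤ[A][[t]]` the element `y₀ e x₀` is a unit (its constant
term is `1`); `x' = e x₀ (y₀ e x₀)⁻¹`, `y' = y₀ e`.  Since `e` has rank one, `e M e = tr(M e) e` for every matrix `M`, so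
`e x₀ y₀ e = (y₀ e x₀) e`, `x' y' = e`, `y' x' = 1`, and `x = x' s`, `y' = s y` (`e x = x`, `y e = y`).  If `s` is integral, so are
`x` and (as `s(0) = 1`) `y`; they are polynomials, so defined over `ℤ[A][t]`. -/
def St_NG1 : Prop :=
  ∀ (A : Type) [CommGroup A] [Finite A] (κ : Type) [Fintype κ] [DecidableEq κ] (e : Matrix κ κ (RT A)),
    RankOne e → ∀ d : Dat e, (∃ s' : PowerSeries (MonoidAlgebra ℤ A), iqs A s' = ps _ d.s) → Free1 e

/-- `A → G` on `ℚ[A][[t]] → ℚ[G][[t]]`. -/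
abbrev eqs {A G : Type} [Group A] [Group G] (φ : A →* G) :
    PowerSeries (MonoidAlgebra ℚ A) →+* PowerSeries (MonoidAlgebra ℚ G) :=
  PowerSeries.map (MonoidAlgebra.mapDomainRingHom ℚ φ)

/-- NG2: if the module becomes stably free over `ℤ[G][t]`, then the logarithmic derivative of `s` satisfies
the congruences.  From ND and the formulas `x = x' s`, `y' = s y` of NG1: with `X`, `Y` from `StFree1`,
`u = Y (x ⊕ 1)` over `ℚ[G][t]` with inverse `(y ⊕ 1) X`, and `v = Y (x' ⊕ 1)` over `ℤ[G][[t]]` with inverse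
`(y' ⊕ 1) X`; `v dg(s) = u`, so `1 * v = u * dg(s⁻¹)` and ND (with `a = 1`, `b = dg(s⁻¹)`) gives `WF` for
`T0 (coeff m (s θ(s⁻¹)))`, `s θ(s⁻¹) = - s⁻¹ θ(s)`. -/
def St_NG2 : Prop :=
  ∀ (A G : Type) [CommGroup A] [Finite A] [Group G] (φ : A →* G) (k : ℕ)
    (e : Matrix (Fin k) (Fin k) (RT A)), RankOne e → ∀ d : Dat e, StFree1 (e.map (ext φ)) →
    ∀ si : PowerSeries (MonoidAlgebra ℚ A), ps _ d.s * si = 1 →
      WF (fun m => T0 ℚ G (PowerSeries.coeff m (eqs φ (si * th (ps _ d.s)))))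

/-- NG3: averaging over `Γ`.  `N⁻¹ θ N = ∑_γ γ(s⁻¹ θ s)` for `N = ∏_γ γ(s)`.  With `l_m = coeff m (s⁻¹ θ s)` in `ℚ[A]` and
`L_m = T0 (φ_* l_m)`, the coefficient at `a` of `∑_γ γ(l_m)` is `∑_z n(a, z) l_m(z)`, `n(a, z) = #{γ : γ z = a}`, which is constant
on the `Γ`-orbits of `z`, so on the elements of `A` which are conjugate in `G`; it is `∑_C n(a, C) L_m(C)` over the
classes `C` of `G` which meet `φ(A)`.  `L_m` vanishes at the other classes.  For `b^p = a`:
`∑_{b : b^p = a} n(b, z) = n(a, z^p)`. -/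
def St_NG3 : Prop :=
  ∀ (A G Γ : Type) [CommGroup A] [Finite A] [Group G] [Group Γ] [Fintype Γ] (φ : A →* G)
    (ρ : Γ →* MulAut A), Function.Injective φ →
    (∀ a b : A, IsConj (φ a) (φ b) → ∃ γ : Γ, ρ γ a = b) →
    ∀ s si : PowerSeries (MonoidAlgebra ℚ A), s * si = 1 →
      WF (fun m => T0 ℚ G (PowerSeries.coeff m (eqs φ (si * th s)))) →
      WF (fun m => T0 ℚ A (PowerSeries.coeff m ((∏ γ : Γ, eqs (ρ γ).toMonoidHom si) *
        th (∏ γ : Γ, eqs (ρ γ).toMonoidHom s))))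

/-- NG4: the tensor product.  Everything is a product over `γ`; `Finset.prod_univ_sum`.  `x₀`, `y₀`, `x`, `y` for
`tens ρ e` are the products `∏_γ γ(x₀ (i γ))` etc. -/
def St_NG4 : Prop :=
  ∀ (A Γ : Type) [CommGroup A] [Finite A] [Group Γ] [Fintype Γ] [DecidableEq Γ] (ρ : Γ →* MulAut A) (k : ℕ)
    (e : Matrix (Fin k) (Fin k) (RT A)), RankOne e → ∀ d : Dat e,
    RankOne (tens ρ e) ∧ ∃ d' : Dat (tens ρ e), ps _ d'.s = ∏ γ : Γ, eqs (ρ γ).toMonoidHom (ps _ d.s)

end Pool.Agent.NIL
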