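import Pool.Agent.NIL.Defs2
import Pool.Agent.NIL.St

/-!
# Statements of two more modules
-/

set_option autoImplicit false

noncomputable section

namespace Pool.Agent.NIL

/-- NI: congruent polynomials have isomorphic Swan modules.  `h = |H|`, `g - f = h c` with `c` in `ℤ[t]`.  The
isomorphism `S(f) → S(g)` is `s ↦ s f⁻¹ (g - c Σ_H)`, computed in `ℤ[G][[t]]` (`f` is central and a unit of `ℤ[[t]]`):
it sends `f` to `g - c Σ_H`, which is in `S(g)`, and `Σ_H` to `Σ_H f⁻¹ (g - h c) = Σ_H`, so it sends `S(f)` to `S(g)`; the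
inverse is `s ↦ s g⁻¹ (f + c Σ_H)`: `(g - c Σ_H) (f + c Σ_H) = f g + c (g - f - h c) Σ_H = f g`. -/
def St_NI : Prop :=
  ∀ (G : Type) [Group G] (H : Subgroup G) [Finite H] (f g : Polynomial ℤ), f.coeff 0 = 1 →
    g.coeff 0 = 1 → (∀ i, (Nat.card H : ℤ) ∣ (f - g).coeff i) →
    Nonempty (Swan H f ≃ₗ[RT G] Swan H g)

/-- NGG: the general clause.  From ND: let `X`, `Y` be as in `StFree`, and write `x`, `y`, `x'`, `y'`, `w` also for the
images over `G`.  `x = x' w` since `x' y' x = e x = x`, and `w⁻¹ = y x'`.  `u = Y (x ⊕ 1)` over `ℚ[G][t]` has the inverse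
`(y ⊕ 1) X`; `v = Y (x' ⊕ 1)` over `ℤ[G][[t]]` has the inverse `(y' ⊕ 1) X`; `v (w ⊕ 1) = u`, so `1 * v = u * (w⁻¹ ⊕ 1)`
and ND with `a = 1`, `b = w⁻¹ ⊕ 1` gives `WF` for the traces of `w θ(w⁻¹)`, which are minus those of
`w⁻¹ θ(w)`. -/
def St_NGG : Prop :=
  ∀ (H G : Type) [Group H] [Group G] (φ : H →* G) (k n : ℕ) (e : Matrix (Fin k) (Fin k) (RT H))
    (b : Bases e n), StFree (e.map (ext φ)) n → WF (b.tr φ)

end Pool.Agent.NIL
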