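import Pool.Agent.NIL.Defs3
import Pool.Agent.NIL.St2

/-!
# Several subgroups: statements of the modules
-/

set_option autoImplicit false

noncomputable section

namespace Pool.Agent.NIL

/-- NSEP: separation.  Let `C` be the class of an element of finite order, `C ≠ [1]`.  If `C ∈ X i`, then `l j m C = 0`
for `j ≠ i`, so the sum over `j` at `C` is `l i m C`; a class `C'` with `C'^p = C` and `l j m C' ≠ 0` is in `X j`, so
`C ∈ X j` and `j = i`.  If `C ∉ X i`, then `l i m C = 0` and `l i m C' = 0` for `C'^p = C`.  So the conditions of `WF` hold for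
`l i` at all classes different from `[1]`.  At `[1]`: the sum of all values of `l i m` is the integer `a i m`, and the sum of
all values of `l i (p m) - Φ_p (l i m)` is `a i (p m) - a i m`; subtract the values at the classes different from
`[1]` (finitely many classes, all in `X i`, hence of finite order). -/
def St_NSEP : Prop :=
  ∀ (G ι : Type) [Group G] [Fintype ι] [DecidableEq ι] (l : ι → ℕ → (ConjClasses G →₀ ℚ))
    (X : ι → Set (ConjClasses G)) (a : ι → ℕ → ℤ),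
    (∀ i m C, l i m C ≠ 0 → C ∈ X i) →
    (∀ i (g : G), ConjClasses.mk g ∈ X i → IsOfFinOrder g) →
    (∀ i (p : ℕ) C, p.Prime → C ∈ X i → cpow p C ∈ X i) →
    (∀ i j C, i ≠ j → C ∈ X i → C ∈ X j → C = ConjClasses.mk 1) →
    (∀ i m, (l i m).sum (fun _ c => c) = a i m) →
    (∀ i (p m : ℕ), p.Prime → 1 ≤ m → ((p ^ (padicValNat p m + 1) : ℕ) : ℤ) ∣ a i (p * m) - a i m) →
    WF (fun m => ∑ i, l i m) → ∀ i, WF (l i)

/-- NSC: the Dwork congruences for integral power series.  From NM1 for `1 × 1` matrices and the trivial group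
(or directly). -/
def St_NSC : Prop :=
  ∀ (b bi : PowerSeries ℤ), b * bi = 1 → ∀ p : ℕ, p.Prime → ∀ m : ℕ, 1 ≤ m →
    ((p ^ (padicValNat p m + 1) : ℕ) : ℤ) ∣
      PowerSeries.coeff (p * m) (bi * th b) - PowerSeries.coeff m (bi * th b)

/-- The augmentation `ℚ[A][t] → ℚ[t]`. -/
abbrev augp (A : Type) [Group A] : Polynomial (MonoidAlgebra ℚ A) →+* Polynomial ℚ :=
  Polynomial.mapRingHom (MonoidAlgebra.lift ℚ ℚ A 1 : MonoidAlgebra ℚ A →ₐ[ℚ] ℚ).toRingHom

/-- NAUG: the augmentation of `s` is integral.  Let `ε` be the augmentation.  `ε(e)` is a rank one idempotent matrix over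
`ℤ[t]`, a unique factorisation domain, so `ε(e) = x₁ y₁`, `y₁ x₁ = 1` over `ℤ[t]`: take a nonzero column of `ε(e)`, divide it
by the greatest common divisor of its entries to get `x₁`; all columns are multiples `x₁ r_j` with `r_j` in the
fraction field by the vanishing of the minors, and `r_j` is in `ℤ[t]` because the entries of `x₁` have greatest common
divisor `1`.  Then `ε(x) = x₁ c` with `c = y₁ ε(x)` in `ℚ[t]` a unit (inverse `ε(y) x₁`), so a constant, and
`c = y₁(0) ε(x₀)` is an integer.  So `ε(s) = ε(y₀) ε(x)` is in `ℤ[t]`. -/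
def St_NAUG : Prop :=
  ∀ (A : Type) [CommGroup A] [Finite A] (k : ℕ) (e : Matrix (Fin k) (Fin k) (RT A)), RankOne e →
    ∀ d : Dat e, ∃ q : Polynomial ℤ, augp A d.s = q.map (Int.castRingHom ℚ)

/-- NBLK: several invertible modules.  As NG2 (which may be used as a model; `NG2x.integral_vectors` in `P_NG2.lean` gives
`x' i`, `y' i` over `ℤ[A i][[t]]` with `x' y' = e`, `y' x' = 1`, `x = x' s`), with block diagonal matrices: with
`X`, `Y` from `StF`, `u = Y (x ⊕ 1)` over `ℚ[G][t]`, inverse `(y ⊕ 1) X`, where `x` is the block diagonal matrix of the images of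
the `x i`; `v = Y (x' ⊕ 1)`, inverse `(y' ⊕ 1) X`; `v (diag(s i) ⊕ 1) = u`, so ND with `a = 1`, `b = diag((s i)⁻¹) ⊕ 1`. -/
def St_NBLK : Prop :=
  ∀ (G ι : Type) [Group G] [Fintype ι] [DecidableEq ι] (A : ι → Type) [∀ i, CommGroup (A i)]
    [∀ i, Finite (A i)] (φ : ∀ i, A i →* G) (k : ι → ℕ)
    (e : ∀ i, Matrix (Fin (k i)) (Fin (k i)) (RT (A i))), (∀ i, RankOne (e i)) → ∀ d : ∀ i, Dat (e i),
    StF ι (Matrix.blockDiagonal' fun i => (e i).map (ext (φ i))) →
    ∀ si : ∀ i, PowerSeries (MonoidAlgebra ℚ (A i)), (∀ i, ps _ (d i).s * si i = 1) →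
      WF (fun m => ∑ i, T0 ℚ G (PowerSeries.coeff m (eqs (φ i) (si i * th (ps _ (d i).s)))))

/-- The row vector over `ℤ[G][[t]]` of an element of `∏ S i × R^k`, the `S i` left ideals of `R = ℤ[G][t]`. -/
def rowm {G ι : Type} [Group G] {S : ι → Submodule (RT G) (RT G)} {k : ℕ}
    (m : (∀ i, S i) × (Fin k → RT G)) : ι ⊕ Fin k → PowerSeries (MonoidAlgebra ℤ G) :=
  Sum.elim (fun i => ps _ (m.1 i : RT G)) (fun j => ps _ (m.2 j))

/-- NME1a: NE1a for several subgroups, same proof (`P_NE1a.lean` is the case of one subgroup): the row `i` of `v`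
is `(f i)⁻¹ rowm (E (f i at the place i))`, the others are `rowm (E (0, e_j))`. -/
def St_NME1a : Prop :=
  ∀ (G ι : Type) [Group G] [Fintype ι] [DecidableEq ι] (H : ι → Subgroup G) [∀ i, Finite (H i)]
    (f g : ι → Polynomial ℤ) (k : ℕ),
    (∀ i, (f i).coeff 0 = 1) → (∀ i, (g i).coeff 0 = 1) →
    ∀ E : ((∀ i, Swan (H i) (f i)) × (Fin k → RT G)) ≃ₗ[RT G]
        ((∀ i, Swan (H i) (g i)) × (Fin k → RT G)),
    ∃ (v vi : Matrix (ι ⊕ Fin k) (ι ⊕ Fin k) (PowerSeries (MonoidAlgebra ℤ G))),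
      v * vi = 1 ∧ vi * v = 1 ∧ (∀ m, rowm (E m) = Matrix.vecMul (rowm m) v) ∧
      ∀ m, rowm (E.symm m) = Matrix.vecMul (rowm m) vi

/-- The diagonal matrix with the entries `c i` and `1`. -/
def dgm {R : Type} [Ring R] {ι κ : Type} [DecidableEq ι] [DecidableEq κ] (c : ι → R) :
    Matrix (ι ⊕ κ) (ι ⊕ κ) R :=
  Matrix.fromBlocks (Matrix.diagonal c) 0 0 1

/-- NME1: NE1 for several subgroups (`P_NE1.lean` is the case of one subgroup). -/
def St_NME1 : Prop :=
  ∀ (G ι : Type) [Group G] [Fintype ι] [DecidableEq ι] (H : ι → Subgroup G) [∀ i, Finite (H i)]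
    (f g : ι → Polynomial ℤ) (k : ℕ),
    (∀ i, (f i).coeff 0 = 1) → (∀ i, (g i).coeff 0 = 1) →
    Nonempty (((∀ i, Swan (H i) (f i)) × (Fin k → RT G)) ≃ₗ[RT G]
      ((∀ i, Swan (H i) (g i)) × (Fin k → RT G))) →
    ∃ (v vi : Matrix (ι ⊕ Fin k) (ι ⊕ Fin k) (PowerSeries (MonoidAlgebra ℤ G)))
      (u ui : Matrix (ι ⊕ Fin k) (ι ⊕ Fin k) (Polynomial (MonoidAlgebra ℚ G))),
      v * vi = 1 ∧ vi * v = 1 ∧ u * ui = 1 ∧ ui * u = 1 ∧
      dgm (fun i => kap (H i) (f i : PowerSeries ℤ)) * v.map (iqs G) =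
        u.map (ps _) * dgm (fun i => kap (H i) (g i : PowerSeries ℤ))

/-- NSW: the Swan terms separate.  From NSEP and NSC with `X i` the set of the classes which meet `H i` and `a i = 0`:
the sum of the values of `T0 (1 - ε)` is `0`.  (`kap_th`, `T0_coeff_cq` in `Fin1.lean`:
`T0 (coeff m (κ_c θ κ_b)) = coeff m (c θ b) • T0 (1 - ε)`.) -/
def St_NSW : Prop :=
  ∀ (G ι : Type) [Group G] [Fintype ι] [DecidableEq ι] (H : ι → Subgroup G) [∀ i, Finite (H i)]
    (b bi : ι → PowerSeries ℤ), (∀ i, b i * bi i = 1) →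
    (∀ i j (x y : G), x ∈ H i → y ∈ H j → x ≠ 1 → IsConj x y → i = j) →
    WF (fun m => ∑ i, T0 ℚ G (PowerSeries.coeff m (kap (H i) (bi i) * th (kap (H i) (b i))))) →
    ∀ i, WF (fun m => T0 ℚ G (PowerSeries.coeff m (kap (H i) (bi i) * th (kap (H i) (b i)))))

/-- NSA: the invertible modules separate.  From NSEP, NSC and NAUG with `X i` the set of the classes which meet
the image of `φ i`, and `a i m` the coefficient of `t^m` in `ε(s)⁻¹ θ ε(s)`, `ε(s)` in `1 + t ℤ[t]` the augmentation of `s`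
(`s(0) = 1`: `s_constantCoeff` in `Fin2.lean`). -/
def St_NSA : Prop :=
  ∀ (G ι : Type) [Group G] [Fintype ι] [DecidableEq ι] (A : ι → Type) [∀ i, CommGroup (A i)]
    [∀ i, Finite (A i)] (φ : ∀ i, A i →* G) (k : ι → ℕ)
    (e : ∀ i, Matrix (Fin (k i)) (Fin (k i)) (RT (A i))), (∀ i, RankOne (e i)) → ∀ d : ∀ i, Dat (e i),
    (∀ i, Function.Injective (φ i)) →
    (∀ i j (a : A i) (b : A j), a ≠ 1 → IsConj (φ i a) (φ j b) → i = j) →
    ∀ si : ∀ i, PowerSeries (MonoidAlgebra ℚ (A i)), (∀ i, ps _ (d i).s * si i = 1) →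
      WF (fun m => ∑ i, T0 ℚ G (PowerSeries.coeff m (eqs (φ i) (si i * th (ps _ (d i).s))))) →
      ∀ i, WF (fun m => T0 ℚ G (PowerSeries.coeff m (eqs (φ i) (si i * th (ps _ (d i).s)))))

end Pool.Agent.NIL
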