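import Pool.Agent.NIL.Fin1
import Pool.Agent.NIL.Fin2
import Pool.Agent.NIL.St3

/-!
# Final assembly for several subgroups
-/

set_option autoImplicit false

noncomputable section

namespace Pool.Agent.NIL

theorem dgm_mul {R ι κ : Type} [Ring R] [Fintype ι] [DecidableEq ι] [Fintype κ] [DecidableEq κ]
    (c d : ι → R) : (dgm c : Matrix (ι ⊕ κ) (ι ⊕ κ) R) * dgm d = dgm fun i => c i * d i := by
  unfold dgm
  rw [Matrix.fromBlocks_multiply]
  simp only [Matrix.mul_zero, Matrix.zero_mul, add_zero, zero_add, Matrix.mul_one,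
    Matrix.diagonal_mul_diagonal]

theorem dgm_one {R ι κ : Type} [Ring R] [DecidableEq ι] [DecidableEq κ] :
    (dgm (fun _ => (1 : R)) : Matrix (ι ⊕ κ) (ι ⊕ κ) R) = 1 := by
  unfold dgm
  rw [← Matrix.fromBlocks_one, Matrix.diagonal_one]

theorem lam_dgm {k G ι : Type} [CommRing k] [Group G] [Fintype ι] [DecidableEq ι] {κ : Type}
    [Fintype κ] [DecidableEq κ] (c ci : ι → PowerSeries (MonoidAlgebra k G)) (m : ℕ) :
    lam (dgm c : Matrix (ι ⊕ κ) (ι ⊕ κ) _) (dgm ci) m =
      ∑ i, T0 k G (PowerSeries.coeff m (ci i * th (c i))) := by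
  have e : (dgm c : Matrix (ι ⊕ κ) (ι ⊕ κ) (PowerSeries (MonoidAlgebra k G))).map th =
      Matrix.fromBlocks (Matrix.diagonal fun i => th (c i)) 0 0 0 := by
    refine Matrix.ext fun i j => ?_
    rcases i with i | i <;> rcases j with j | j
    · simp only [dgm, Matrix.map_apply, Matrix.fromBlocks_apply₁₁, Matrix.diagonal_apply]
      split_ifs
      · rfl
      · exact map_zero (th (R := MonoidAlgebra k G))
    · simp [dgm]
    · simp [dgm]
    · simp only [dgm, Matrix.map_apply, Matrix.fromBlocks_apply₂₂, Matrix.zero_apply,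
        Matrix.one_apply]
      split_ifs
      · exact th_one (R := MonoidAlgebra k G)
      · exact map_zero (th (R := MonoidAlgebra k G))
  unfold lam
  rw [e, dgm, Matrix.fromBlocks_multiply, trc_apply]
  simp [Matrix.trace, Fintype.sum_sum_type, Matrix.diagonal_mul_diagonal]

/-- Part one for several subgroups. -/
theorem final1m (hNME1 : St_NME1) (hND : St_ND) (hNSW : St_NSW) (hNE2 : St_NE2) (G ι : Type) [Group G]
    [Fintype ι] [DecidableEq ι] (H : ι → Subgroup G) [∀ i, Finite (H i)]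
    (hd : ∀ i j (x y : G), x ∈ H i → y ∈ H j → x ≠ 1 → IsConj x y → i = j)
    (f g : ι → Polynomial ℤ) (k : ℕ) (hf : ∀ i, (f i).coeff 0 = 1) (hg : ∀ i, (g i).coeff 0 = 1)
    (h : Nonempty (((∀ i, Swan (H i) (f i)) × (Fin k → RT G)) ≃ₗ[RT G]
      ((∀ i, Swan (H i) (g i)) × (Fin k → RT G)))) (i : ι) (n : ℕ) :
    (Nat.card (H i) : ℤ) ∣ (f i - g i).coeff n := by
  obtain ⟨v, vi, u, ui, h1, h2, h3, h4, h5⟩ := hNME1 G ι H f g k hf hg h
  have inv : ∀ q : Polynomial ℤ, q.coeff 0 = 1 → ∃ qi : PowerSeries ℤ,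
      (q : PowerSeries ℤ) * qi = 1 ∧ qi * (q : PowerSeries ℤ) = 1 ∧
      PowerSeries.constantCoeff (q : PowerSeries ℤ) = 1 ∧ PowerSeries.constantCoeff qi = 1 := by
    intro q hq
    have c0 : PowerSeries.constantCoeff (q : PowerSeries ℤ) = 1 := by
      rw [← PowerSeries.coeff_zero_eq_constantCoeff_apply, Polynomial.coeff_coe, hq]
    have h0 : (q : PowerSeries ℤ) * PowerSeries.invOfUnit (q : PowerSeries ℤ) 1 = 1 :=
      PowerSeries.mul_invOfUnit _ 1 (by rw [c0]; rfl)
    refine ⟨PowerSeries.invOfUnit (q : PowerSeries ℤ) 1, h0, by rw [mul_comm]; exact h0, c0, ?_⟩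
    have := congrArg PowerSeries.constantCoeff h0
    rw [map_mul, c0, map_one, one_mul] at this
    exact this
  choose fi hfi hfi' cf cfi using fun i => inv (f i) (hf i)
  choose gi hgi hgi' cg cgi using fun i => inv (g i) (hg i)
  have key := hND G (ι ⊕ Fin k) v vi u ui (dgm fun i => kap (H i) (f i : PowerSeries ℤ))
    (dgm fun i => kap (H i) (fi i)) (dgm fun i => kap (H i) (g i : PowerSeries ℤ))
    (dgm fun i => kap (H i) (gi i)) h1 h2 h3 h4
    (by rw [dgm_mul]; simp only [kap_mul, hfi, kap_one, dgm_one])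
    (by rw [dgm_mul]; simp only [kap_mul, hfi', kap_one, dgm_one])
    (by rw [dgm_mul]; simp only [kap_mul, hgi, kap_one, dgm_one])
    (by rw [dgm_mul]; simp only [kap_mul, hgi', kap_one, dgm_one]) h5
  have hb : ∀ i, ((g i : PowerSeries ℤ) * fi i) * ((f i : PowerSeries ℤ) * gi i) = 1 := by
    intro i
    calc ((g i : PowerSeries ℤ) * fi i) * ((f i : PowerSeries ℤ) * gi i) =
          ((g i : PowerSeries ℤ) * gi i) * ((f i : PowerSeries ℤ) * fi i) := by ring
      _ = 1 := by rw [hgi, hfi, one_mul]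
  have hc : ∀ i, PowerSeries.constantCoeff ((g i : PowerSeries ℤ) * fi i) = 1 := by
    intro i
    rw [map_mul, cg, cfi, one_mul]
  have hw : WF (fun m => ∑ i, T0 ℚ G (PowerSeries.coeff m (kap (H i) ((f i : PowerSeries ℤ) * gi i) *
      th (kap (H i) ((g i : PowerSeries ℤ) * fi i))))) := by
    have e : (fun m => ∑ i, T0 ℚ G (PowerSeries.coeff m (kap (H i) ((f i : PowerSeries ℤ) * gi i) *
        th (kap (H i) ((g i : PowerSeries ℤ) * fi i))))) =
        (fun m => lam (dgm (fun i => kap (H i) (g i : PowerSeries ℤ)) :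
            Matrix (ι ⊕ Fin k) (ι ⊕ Fin k) _) (dgm fun i => kap (H i) (gi i)) m -
          lam (dgm (fun i => kap (H i) (f i : PowerSeries ℤ)) : Matrix (ι ⊕ Fin k) (ι ⊕ Fin k) _)
            (dgm fun i => kap (H i) (fi i)) m) := by
      funext m
      rw [lam_dgm, lam_dgm, ← Finset.sum_sub_distrib]
      refine Finset.sum_congr rfl fun i _ => ?_
      rw [kap_th, kap_th, kap_th, T0_coeff_cq, T0_coeff_cq, T0_coeff_cq, ← sub_smul, ← map_sub]
      congr 2
      have h0 : th ((f i : PowerSeries ℤ) * fi i) = 0 := by rw [hfi]; exact th_one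
      rw [th_mul] at h0
      have h0' : (f i : PowerSeries ℤ) * th (fi i) = - (th (f i : PowerSeries ℤ) * fi i) :=
        eq_neg_of_add_eq_zero_right h0
      rw [th_mul]
      calc (f i : PowerSeries ℤ) * gi i * (th (g i : PowerSeries ℤ) * fi i +
            (g i : PowerSeries ℤ) * th (fi i))
          = ((f i : PowerSeries ℤ) * fi i) * (gi i * th (g i : PowerSeries ℤ)) +
            ((g i : PowerSeries ℤ) * gi i) * ((f i : PowerSeries ℤ) * th (fi i)) := by ring
        _ = gi i * th (g i : PowerSeries ℤ) - fi i * th (f i : PowerSeries ℤ) := by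
            rw [hfi, hgi, h0']; ring
    rw [e]
    exact key
  have hw' := hNSW G ι H (fun i => (g i : PowerSeries ℤ) * fi i) (fun i => (f i : PowerSeries ℤ) * gi i)
    hb hd hw i
  have hdiv := hNE2 G (H i) ((g i : PowerSeries ℤ) * fi i) ((f i : PowerSeries ℤ) * gi i) (hb i) (hc i)
    hw'
  have hb1 : ∀ j, (Nat.card (H i) : ℤ) ∣ PowerSeries.coeff j ((g i : PowerSeries ℤ) * fi i - 1) := by
    intro j
    rcases Nat.eq_zero_or_pos j with rfl | hj
    · rw [map_sub, PowerSeries.coeff_zero_eq_constantCoeff_apply,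
        PowerSeries.coeff_zero_eq_constantCoeff_apply, hc, map_one, sub_self]
      exact dvd_zero _
    · rw [map_sub, PowerSeries.coeff_one, if_neg hj.ne', sub_zero]
      exact hdiv j hj
  have hfg : ((f i - g i : Polynomial ℤ) : PowerSeries ℤ) =
      - ((f i : PowerSeries ℤ) * ((g i : PowerSeries ℤ) * fi i - 1)) := by
    rw [Polynomial.coe_sub]
    have : (f i : PowerSeries ℤ) * ((g i : PowerSeries ℤ) * fi i - 1) =
      ((f i : PowerSeries ℤ) * fi i) * (g i : PowerSeries ℤ) - (f i : PowerSeries ℤ) := by ring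
    rw [this, hfi]
    ring
  rw [← Polynomial.coeff_coe, hfg, map_neg, dvd_neg, PowerSeries.coeff_mul]
  exact Finset.dvd_sum fun x _ => Dvd.dvd.mul_left (hb1 _) _

/-- Part two for several subgroups. -/
theorem final2m (hNG0 : St_NG0) (hNG1 : St_NG1) (hNBLK : St_NBLK) (hNSA : St_NSA) (hNG3 : St_NG3)
    (hNG4 : St_NG4) (hNF : St_NF) (G ι : Type) [Group G] [Fintype ι] [DecidableEq ι] (A Γ : ι → Type)
    [∀ i, CommGroup (A i)] [∀ i, Finite (A i)] [∀ i, Group (Γ i)] [∀ i, Fintype (Γ i)]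
    [∀ i, DecidableEq (Γ i)] (φ : ∀ i, A i →* G) (ρ : ∀ i, Γ i →* MulAut (A i))
    (hφ : ∀ i, Function.Injective (φ i))
    (hd : ∀ i j (a : A i) (b : A j), a ≠ 1 → IsConj (φ i a) (φ j b) → i = j)
    (hΓ : ∀ i (a b : A i), IsConj (φ i a) (φ i b) → ∃ γ : Γ i, ρ i γ a = b) (k : ι → ℕ)
    (e : ∀ i, Matrix (Fin (k i)) (Fin (k i)) (RT (A i))) (he : ∀ i, RankOne (e i))
    (h0 : ∀ i, Free1 ((e i).map (Polynomial.evalRingHom 0)))
    (hs : StF ι (Matrix.blockDiagonal' fun i => (e i).map (ext (φ i)))) (i : ι) :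
    Free1 (tens (ρ i) (e i)) := by
  have hdat : ∀ i, ∃ _ : Dat (e i), True := fun i =>
    (hNG0 (A i) (k i) (e i) (he i) (h0 i)).elim fun d => ⟨d, trivial⟩
  choose d _ using hdat
  have hsi : ∀ i, ∃ si, ps _ (d i).s * si = 1 := fun i =>
    ⟨_, PowerSeries.mul_invOfUnit _ 1 (by rw [s_constantCoeff]; rfl)⟩
  choose si hsi using hsi
  have w0 := hNBLK G ι A φ k e he d hs si hsi
  have w1 := hNSA G ι A φ k e he d hφ hd si hsi w0 i
  have w2 := hNG3 (A i) G (Γ i) (φ i) (ρ i) (hφ i) (hΓ i) (ps _ (d i).s) (si i) (hsi i) w1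
  obtain ⟨hr, d', hd'⟩ := hNG4 (A i) (Γ i) (ρ i) (k i) (e i) (he i) (d i)
  rw [← hd'] at w2
  have hN : ps _ d'.s * (∏ γ : Γ i, eqs (ρ i γ).toMonoidHom (si i)) = 1 := by
    rw [hd', ← Finset.prod_mul_distrib]
    refine Finset.prod_eq_one fun γ _ => ?_
    rw [← map_mul, hsi, map_one]
  obtain ⟨w', hw'⟩ := hNF (A i) (ps _ d'.s) _ hN (s_constantCoeff d') w2
  exact hNG1 (A i) (Γ i → Fin (k i)) (tens (ρ i) (e i)) hr d' ⟨w', hw'⟩

end Pool.Agent.NIL
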