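import Pool.Agent.NIL.St3

/-!
# NME1a: isomorphisms of products of Swan modules are given by matrices
-/

set_option autoImplicit false

noncomputable section

namespace Pool.Agent.NIL
namespace NME1ax

variable {G ι : Type} [Group G]

theorem row_add {S : ι → Submodule (RT G) (RT G)} {k : ℕ}
    (m n : (∀ i, S i) × (Fin k → RT G)) : rowm (m + n) = rowm m + rowm n := by
  funext i
  rcases i with i | i <;> simp [rowm]

theorem row_smul {S : ι → Submodule (RT G) (RT G)} {k : ℕ} (r : RT G)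
    (m : (∀ i, S i) × (Fin k → RT G)) : rowm (r • m) = fun i => ps _ r * rowm m i := by
  funext i
  rcases i with i | i <;> simp [rowm]

theorem row_zero {S : ι → Submodule (RT G) (RT G)} {k : ℕ} :
    rowm (0 : (∀ i, S i) × (Fin k → RT G)) = 0 := by
  funext i
  rcases i with i | i <;> simp [rowm]

theorem row_sum {S : ι → Submodule (RT G) (RT G)} {k : ℕ} {α : Type} (s : Finset α)
    (m : α → (∀ i, S i) × (Fin k → RT G)) (i : ι ⊕ Fin k) :
    rowm (∑ a ∈ s, m a) i = ∑ a ∈ s, rowm (m a) i := by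
  classical
  induction s using Finset.induction_on with
  | empty => simp [row_zero]
  | insert a s ha ih => rw [Finset.sum_insert ha, Finset.sum_insert ha, row_add, Pi.add_apply, ih]

/-- `f` is central. -/
theorem cst_comm (f : Polynomial ℤ) (s : RT G) : cst G f * s = s * cst G f := by
  have h : Commute (cst G f) s := by
    unfold cst
    induction f using Polynomial.induction_on' with
    | add p q hp hq =>
      rw [Polynomial.map_add]
      exact hp.add_left hq
    | monomial n a =>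
      rw [Polynomial.map_monomial, ← Polynomial.C_mul_X_pow_eq_monomial]
      refine Commute.mul_left ?_ (Polynomial.commute_X_pow s n)
      simp only [eq_intCast, map_intCast]
      exact Int.cast_commute a s
  exact h

/-- The image of a power series with integral coefficients. -/
abbrev cz (G : Type) [Group G] : PowerSeries ℤ →+* PowerSeries (MonoidAlgebra ℤ G) :=
  PowerSeries.map (Int.castRingHom (MonoidAlgebra ℤ G))

theorem ps_cst (f : Polynomial ℤ) : ps _ (cst G f) = cz G (f : PowerSeries ℤ) := by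
  ext n
  simp [cst, ps]

theorem cz_comm (f : PowerSeries ℤ) (s : PowerSeries (MonoidAlgebra ℤ G)) :
    cz G f * s = s * cz G f := by
  refine PowerSeries.ext fun n => ?_
  rw [PowerSeries.coeff_mul, PowerSeries.coeff_mul, ← Finset.Nat.sum_antidiagonal_swap]
  refine Finset.sum_congr rfl fun x _ => ?_
  rw [PowerSeries.coeff_map, PowerSeries.coeff_map]
  exact Int.cast_commute (PowerSeries.coeff x.swap.1 f) (PowerSeries.coeff x.swap.2 s)

/-- The element with the coordinate `s` at the place `i`. -/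
def at1 [DecidableEq ι] {H : ι → Subgroup G} {f : ι → Polynomial ℤ} {k : ℕ} (i : ι)
    (s : Swan (H i) (f i)) : (∀ i, Swan (H i) (f i)) × (Fin k → RT G) :=
  (Pi.single i s, 0)

/-- The element `f i` at the place `i`. -/
def fz [DecidableEq ι] (H : ι → Subgroup G) (f : ι → Polynomial ℤ) (k : ℕ) (i : ι) :
    (∀ i, Swan (H i) (f i)) × (Fin k → RT G) :=
  at1 i ⟨cst G (f i), Submodule.subset_span (Set.mem_insert _ _)⟩

/-- The element `(0, e_j)`. -/
def ej (H : ι → Subgroup G) (f : ι → Polynomial ℤ) (k : ℕ) (j : Fin k) :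
    (∀ i, Swan (H i) (f i)) × (Fin k → RT G) :=
  (0, Pi.single j 1)

/-- The matrix of a linear map. -/
def mat [DecidableEq ι] {H : ι → Subgroup G} {f g : ι → Polynomial ℤ} {k : ℕ}
    (Fi : ι → PowerSeries ℤ)
    (E : ((∀ i, Swan (H i) (f i)) × (Fin k → RT G)) →ₗ[RT G]
      ((∀ i, Swan (H i) (g i)) × (Fin k → RT G))) :
    Matrix (ι ⊕ Fin k) (ι ⊕ Fin k) (PowerSeries (MonoidAlgebra ℤ G)) :=
  Matrix.of (Sum.elim (fun i l => cz G (Fi i) * rowm (E (fz H f k i)) l)
    (fun j => rowm (E (ej H f k j))))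

theorem dec [Fintype ι] [DecidableEq ι] {H : ι → Subgroup G} {f : ι → Polynomial ℤ} {k : ℕ}
    (m : (∀ i, Swan (H i) (f i)) × (Fin k → RT G)) :
    m = ∑ i, at1 i (m.1 i) + ∑ j, m.2 j • ej H f k j := by
  refine Prod.ext ?_ ?_
  · rw [Prod.fst_add, Prod.fst_sum, Prod.fst_sum]
    have : ∀ j ∈ (Finset.univ : Finset (Fin k)), (m.2 j • ej H f k j).1 = 0 := by
      intro j _
      rw [Prod.smul_fst]
      exact smul_zero _
    rw [Finset.sum_eq_zero this, add_zero]
    exact (Finset.univ_sum_single m.1).symm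
  · rw [Prod.snd_add, Prod.snd_sum, Prod.snd_sum]
    have h0 : ∀ i ∈ (Finset.univ : Finset ι),
        ((at1 i (m.1 i) : (∀ i, Swan (H i) (f i)) × (Fin k → RT G))).2 = 0 := fun i _ => rfl
    rw [Finset.sum_eq_zero h0, zero_add]
    funext i
    rw [Finset.sum_apply, Finset.sum_eq_single i]
    · rw [Prod.smul_snd, Pi.smul_apply]
      change m.2 i = m.2 i • (Pi.single i 1 : Fin k → RT G) i
      rw [Pi.single_eq_same, smul_eq_mul, mul_one]
    · intro j _ hj
      rw [Prod.smul_snd, Pi.smul_apply]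
      change m.2 j • (Pi.single j 1 : Fin k → RT G) i = 0
      rw [Pi.single_eq_of_ne (Ne.symm hj), smul_zero]
    · intro h; exact absurd (Finset.mem_univ _) h

theorem smul_at1 [DecidableEq ι] {H : ι → Subgroup G} {f : ι → Polynomial ℤ} {k : ℕ} (r : RT G)
    (i : ι) (s : Swan (H i) (f i)) :
    r • (at1 i s : (∀ i, Swan (H i) (f i)) × (Fin k → RT G)) = at1 i (r • s) := by
  refine Prod.ext ?_ ?_
  · funext j
    change r • (Pi.single i s : ∀ i, Swan (H i) (f i)) j =
      (Pi.single i (r • s) : ∀ i, Swan (H i) (f i)) j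
    by_cases h : j = i
    · subst h
      rw [Pi.single_eq_same, Pi.single_eq_same]
    · rw [Pi.single_eq_of_ne h, Pi.single_eq_of_ne h, smul_zero]
  · rw [Prod.smul_snd]
    exact smul_zero _

theorem smul_fz [DecidableEq ι] {H : ι → Subgroup G} {f : ι → Polynomial ℤ} {k : ℕ} (i : ι)
    (s : Swan (H i) (f i)) :
    cst G (f i) • (at1 i s : (∀ i, Swan (H i) (f i)) × (Fin k → RT G)) =
      (s : RT G) • fz H f k i := by
  unfold fz
  rw [smul_at1, smul_at1]
  congr 1
  refine Subtype.ext ?_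
  exact cst_comm (f i) (s : RT G)

theorem row_mat [Fintype ι] [DecidableEq ι] {H : ι → Subgroup G} {f g : ι → Polynomial ℤ}
    {k : ℕ} {Fi : ι → PowerSeries ℤ} (hF : ∀ i, Fi i * (f i : PowerSeries ℤ) = 1)
    (E : ((∀ i, Swan (H i) (f i)) × (Fin k → RT G)) →ₗ[RT G]
      ((∀ i, Swan (H i) (g i)) × (Fin k → RT G)))
    (m : (∀ i, Swan (H i) (f i)) × (Fin k → RT G)) :
    rowm (E m) = Matrix.vecMul (rowm m) (mat Fi E) := by
  have hFi : ∀ i, cz G (Fi i) * ps _ (cst G (f i)) = 1 := by
    intro i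
    rw [ps_cst, ← map_mul, hF, map_one]
  have h1 : ∀ (j : ι) (s : Swan (H j) (f j)) (i : ι ⊕ Fin k), rowm (E (at1 j s)) i =
      ps _ (s : RT G) * (cz G (Fi j) * rowm (E (fz H f k j)) i) := by
    intro j s i
    have h2 : rowm (cst G (f j) • E (at1 j s)) i = rowm ((s : RT G) • E (fz H f k j)) i := by
      rw [← map_smul, ← map_smul, smul_fz]
    rw [row_smul, row_smul] at h2
    simp only at h2
    calc rowm (E (at1 j s)) i = cz G (Fi j) * (ps _ (cst G (f j)) * rowm (E (at1 j s)) i) := by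
          rw [← mul_assoc, hFi, one_mul]
      _ = cz G (Fi j) * (ps _ (s : RT G) * rowm (E (fz H f k j)) i) := by rw [h2]
      _ = ps _ (s : RT G) * (cz G (Fi j) * rowm (E (fz H f k j)) i) := by
          rw [← mul_assoc, cz_comm, mul_assoc]
  funext i
  rw [Matrix.vecMul, dotProduct, Fintype.sum_sum_type]
  conv_lhs => rw [dec m]
  rw [map_add, row_add, Pi.add_apply, map_sum, row_sum, map_sum, row_sum]
  congr 1
  · refine Finset.sum_congr rfl fun j _ => ?_
    rw [h1]
    rfl
  · refine Finset.sum_congr rfl fun j _ => ?_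
    rw [map_smul, row_smul]
    simp [mat, rowm]

theorem row_fz [DecidableEq ι] (H : ι → Subgroup G) (f : ι → Polynomial ℤ) (k : ℕ) (j : ι)
    (i : ι ⊕ Fin k) :
    rowm (fz H f k j) i = ps _ (cst G (f j)) * (1 : Matrix (ι ⊕ Fin k) (ι ⊕ Fin k)
      (PowerSeries (MonoidAlgebra ℤ G))) (Sum.inl j) i := by
  rcases i with i | i
  · by_cases h : j = i
    · subst h
      rw [Matrix.one_apply_eq, mul_one]
      simp [rowm, fz, at1]
    · rw [Matrix.one_apply_ne (by simpa using h), mul_zero]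
      simp [rowm, fz, at1, Pi.single_eq_of_ne (Ne.symm h)]
  · rw [Matrix.one_apply_ne (by simp), mul_zero]
    simp [rowm, fz, at1]

theorem row_ej [DecidableEq ι] (H : ι → Subgroup G) (f : ι → Polynomial ℤ) (k : ℕ) (j : Fin k)
    (i : ι ⊕ Fin k) :
    rowm (ej H f k j) i = (1 : Matrix (ι ⊕ Fin k) (ι ⊕ Fin k)
      (PowerSeries (MonoidAlgebra ℤ G))) (Sum.inr j) i := by
  rcases i with i | i
  · rw [Matrix.one_apply_ne (by simp)]
    simp [rowm, ej]
  · simp only [rowm, ej, Sum.elim_inr, Matrix.one_apply, Pi.single_apply, Sum.inr.injEq]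
    by_cases h : i = j
    · rw [if_pos h, if_pos h.symm, map_one]
    · rw [if_neg h, if_neg (fun h' => h h'.symm), map_zero]

theorem uniq [Fintype ι] [DecidableEq ι] {H : ι → Subgroup G} {f : ι → Polynomial ℤ} {k : ℕ}
    {Fi : ι → PowerSeries ℤ} (hF : ∀ i, Fi i * (f i : PowerSeries ℤ) = 1)
    {A : Matrix (ι ⊕ Fin k) (ι ⊕ Fin k) (PowerSeries (MonoidAlgebra ℤ G))}
    (h : ∀ m : (∀ i, Swan (H i) (f i)) × (Fin k → RT G), rowm m = Matrix.vecMul (rowm m) A) :
    A = 1 := by
  have hFi : ∀ i, cz G (Fi i) * ps _ (cst G (f i)) = 1 := by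
    intro i
    rw [ps_cst, ← map_mul, hF, map_one]
  refine Matrix.ext fun i j => ?_
  rcases i with i | i
  · have h1 := congrFun (h (fz H f k i)) j
    rw [Matrix.vecMul, dotProduct, row_fz] at h1
    have h2 : ∑ l, rowm (fz H f k i) l * A l j = ps _ (cst G (f i)) * A (Sum.inl i) j := by
      rw [Finset.sum_eq_single (Sum.inl i : ι ⊕ Fin k)]
      · rw [row_fz, Matrix.one_apply_eq, mul_one]
      · intro l _ hl
        rw [row_fz, Matrix.one_apply_ne (Ne.symm hl), mul_zero, zero_mul]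
      · intro h; exact absurd (Finset.mem_univ _) h
    rw [h2] at h1
    have h3 := congrArg (fun z => cz G (Fi i) * z) h1
    simp only [← mul_assoc, hFi, one_mul] at h3
    exact h3.symm
  · have h1 := congrFun (h (ej H f k i)) j
    rw [Matrix.vecMul, dotProduct, row_ej] at h1
    have h2 : ∑ l, rowm (ej H f k i) l * A l j = A (Sum.inr i) j := by
      rw [Finset.sum_eq_single (Sum.inr i : ι ⊕ Fin k)]
      · rw [row_ej, Matrix.one_apply_eq, one_mul]
      · intro l _ hl
        rw [row_ej, Matrix.one_apply_ne (Ne.symm hl), zero_mul]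
      · intro h; exact absurd (Finset.mem_univ _) h
    rw [h2] at h1
    exact h1.symm

theorem inv_exists {f : Polynomial ℤ} (hf : f.coeff 0 = 1) :
    ∃ Fi : PowerSeries ℤ, Fi * (f : PowerSeries ℤ) = 1 := by
  refine ⟨PowerSeries.invOfUnit (f : PowerSeries ℤ) 1, ?_⟩
  rw [mul_comm]
  refine PowerSeries.mul_invOfUnit _ _ ?_
  rw [← PowerSeries.coeff_zero_eq_constantCoeff_apply, Polynomial.coeff_coe, hf, Units.val_one]

end NME1ax

open NME1ax in
/-- NME1a -/
theorem t_NME1a : St_NME1a := by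
  intro G ι _ _ _ H _ f g k hf hg E
  have hF0 : ∀ i, ∃ Fi : PowerSeries ℤ, Fi * (f i : PowerSeries ℤ) = 1 :=
    fun i => inv_exists (hf i)
  have hG0 : ∀ i, ∃ Gi : PowerSeries ℤ, Gi * (g i : PowerSeries ℤ) = 1 :=
    fun i => inv_exists (hg i)
  choose Fi hF using hF0
  choose Gi hG using hG0
  have h1 : ∀ m, rowm (E m) = Matrix.vecMul (rowm m) (mat Fi E.toLinearMap) :=
    fun m => row_mat hF E.toLinearMap m
  have h2 : ∀ m, rowm (E.symm m) = Matrix.vecMul (rowm m) (mat Gi E.symm.toLinearMap) :=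
    fun m => row_mat hG E.symm.toLinearMap m
  refine ⟨mat Fi E.toLinearMap, mat Gi E.symm.toLinearMap, ?_, ?_, h1, h2⟩
  · refine uniq (H := H) hF fun m => ?_
    rw [← Matrix.vecMul_vecMul, ← h1, ← h2, LinearEquiv.symm_apply_apply]
  · refine uniq (H := H) hG fun m => ?_
    rw [← Matrix.vecMul_vecMul, ← h2, ← h1, LinearEquiv.apply_symm_apply]

end Pool.Agent.NIL
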