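import Pool.Agent.NIL.St

/-!
# Module NQ: rank one idempotent matrices over the polynomials over `ℚ[A]` split
-/

set_option autoImplicit false

noncomputable section

namespace Pool.Agent.NIL.NQx

open Pool.Agent.NIL

/-- A rank one idempotent matrix stays one under a ring homomorphism. -/
lemma rankOne_map {B C : Type} [CommRing B] [CommRing C] {k : Type} [Fintype k] (φ : B →+* C)
    {e : Matrix k k B} (h : RankOne e) : RankOne (e.map φ) := by
  refine ⟨?_, ?_, ?_⟩
  · rw [← Matrix.map_mul, h.idem]
  · intro i j a b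
    simp only [Matrix.map_apply, ← map_mul]
    rw [h.minors]
  · have h1 := congrArg φ h.trace
    rw [map_one] at h1
    rw [← h1]
    simp [Matrix.trace, map_sum]

/-- Splitting can be transported back through an isomorphism. -/
lemma free1_of_equiv {B C : Type} [CommRing B] [CommRing C] {k : Type} [Fintype k] (φ : B ≃+* C)
    {e : Matrix k k B} (h : Free1 (e.map φ)) : Free1 e := by
  obtain ⟨x, y, h1, h2⟩ := h
  refine ⟨x.map φ.symm, y.map φ.symm, ?_, ?_⟩
  · have := congrArg (fun M : Matrix k k C => M.map φ.symm) h1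
    simp only [Matrix.map_mul] at this
    rw [this]
    ext i j
    simp
  · have := congrArg (fun M : Matrix Unit Unit C => M.map φ.symm) h2
    simp only [Matrix.map_mul] at this
    rw [this]
    ext i j
    simp

/-- Splitting over a product of rings. -/
lemma free1_pi {I : Type} {C : I → Type} [∀ i, CommRing (C i)] {k : Type} [Fintype k]
    {e : Matrix k k (∀ i, C i)} (h : ∀ i, Free1 (e.map (Pi.evalRingHom C i))) : Free1 e := by
  choose x y h1 h2 using h
  refine ⟨Matrix.of fun a u i => x i a u, Matrix.of fun u a i => y i u a, ?_, ?_⟩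
  · ext a b i
    have := congrFun (congrFun (h1 i) a) b
    simp only [Matrix.mul_apply, Matrix.map_apply, Pi.evalRingHom_apply] at this
    rw [← this]
    simp [Matrix.mul_apply]
  · ext a b i
    have := congrFun (congrFun (h2 i) a) b
    simp only [Matrix.mul_apply] at this
    simp only [Matrix.mul_apply, Matrix.of_apply]
    rw [Finset.sum_apply]
    simp only [Pi.mul_apply]
    rw [this]
    simp

end Pool.Agent.NIL.NQx

namespace Pool.Agent.NIL

open NQx

theorem t_NQ (hNQ1 : St_NQ1) : St_NQ := by
  intro A _ _ k e he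
  classical
  have hc : NeZero (Nat.card A : ℚ) := ⟨by
    have : Nat.card A ≠ 0 := Nat.card_pos.ne'
    exact_mod_cast this⟩
  have : IsSemisimpleRing (MonoidAlgebra ℚ A) := inferInstance
  have : IsReduced (MonoidAlgebra ℚ A) := inferInstance
  have : IsArtinianRing (MonoidAlgebra ℚ A) := inferInstance
  let R := MonoidAlgebra ℚ A
  let E1 : Polynomial R ≃+* Polynomial (∀ m : MaximalSpectrum R, R ⧸ m.asIdeal) :=
    Polynomial.mapEquiv (IsArtinianRing.equivPi R).toRingEquiv
  let E2 : Polynomial (∀ m : MaximalSpectrum R, R ⧸ m.asIdeal) ≃+*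
      (∀ m : MaximalSpectrum R, Polynomial (R ⧸ m.asIdeal)) := Polynomial.piEquiv _
  let E := E1.trans E2
  refine free1_of_equiv (B := Polynomial R)
    (C := ∀ m : MaximalSpectrum R, Polynomial (R ⧸ m.asIdeal)) E ?_
  refine free1_pi (C := fun m : MaximalSpectrum R => Polynomial (R ⧸ m.asIdeal)) ?_
  intro m
  have h1 := rankOne_map (B := Polynomial R)
    (C := ∀ m : MaximalSpectrum R, Polynomial (R ⧸ m.asIdeal)) E.toRingHom he
  have h2 := rankOne_map (B := ∀ m : MaximalSpectrum R, Polynomial (R ⧸ m.asIdeal))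
    (C := Polynomial (R ⧸ m.asIdeal))
    (Pi.evalRingHom (fun m : MaximalSpectrum R => Polynomial (R ⧸ m.asIdeal)) m) h1
  letI : Field (R ⧸ m.asIdeal) := Ideal.Quotient.field m.asIdeal
  exact hNQ1 (R ⧸ m.asIdeal) k _ h2

end Pool.Agent.NIL
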